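import Pool.Agent.LGW.Defs

/-!
# LGW: basic facts about paths
-/

open scoped commutatorElement

namespace Pool.Agent.LGW

open Pool.Agent.Helper33.CW2

variable {G : Type*} [Group G] {k : ℕ} {x : Fin k → G}

lemma om_succ {k : ℕ} (x : Fin (k + 1) → G) (v : Fin (k + 1) → ℤ) :
    om x v = om (fun i => x i.succ) (fun i => v i.succ) * x 0 ^ v 0 := rfl

lemma om_zero (x : Fin k → G) : om x 0 = 1 := by
  induction k with
  | zero => rfl
  | succ k ih =>
    rw [om_succ]
    have h : (fun i : Fin k => (0 : Fin (k + 1) → ℤ) i.succ) = 0 := rfl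
    rw [h, ih, Pi.zero_apply, zpow_zero, mul_one]

lemma tr_zero (x : Fin k → G) (g : G) : tr x 0 g = g := by
  unfold tr
  rw [om_zero, one_mul, inv_one, mul_one]

lemma Rch.mono {D D' : Set (Fin k → ℤ)} (h : D ⊆ D') {γ : Fin k → ℤ} {g : G}
    (hg : Rch x D γ g) : Rch x D' γ g := by
  induction hg with
  | nil h0 => exact Rch.nil (h h0)
  | pos i _ hD ih => exact Rch.pos i ih (h hD)
  | neg i _ hD ih => exact Rch.neg i ih (h hD)

lemma Rch.mem {D : Set (Fin k → ℤ)} {γ : Fin k → ℤ} {g : G} (hg : Rch x D γ g) : γ ∈ D := by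
  cases hg with
  | nil h0 => exact h0
  | pos i _ hD => exact hD
  | neg i _ hD => exact hD

lemma Rch.zero_mem {D : Set (Fin k → ℤ)} {γ : Fin k → ℤ} {g : G} (hg : Rch x D γ g) :
    (0 : Fin k → ℤ) ∈ D := by
  induction hg with
  | nil h0 => exact h0
  | pos i _ _ ih => exact ih
  | neg i _ _ ih => exact ih

/-- Concatenation of paths. -/
lemma Rch.trans {D D' : Set (Fin k → ℤ)} {γ δ : Fin k → ℤ} {g h : G} (hg : Rch x D γ g)
    (hh : Rch x D' δ h) (hD : ∀ w ∈ D', γ + w ∈ D) : Rch x D (γ + δ) (g * h) := by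
  induction hh with
  | nil _ => rw [add_zero, mul_one]; exact hg
  | @pos δ h i _ hm ih =>
    rw [← add_assoc, ← mul_assoc]
    exact Rch.pos i ih (by rw [add_assoc]; exact hD _ hm)
  | @neg δ h i _ hm ih =>
    rw [← mul_assoc, ← add_sub_assoc]
    exact Rch.neg i ih (by rw [add_sub_assoc]; exact hD _ hm)

/-- The inverse path. -/
lemma Rch.rev {D : Set (Fin k → ℤ)} {γ : Fin k → ℤ} {g : G} (hg : Rch x D γ g) :
    Rch x {w | γ + w ∈ D} (-γ) g⁻¹ := by
  induction hg with
  | nil h0 =>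
    rw [neg_zero, inv_one]
    exact Rch.nil (by simpa using h0)
  | @pos γ g i hg hm ih =>
    have h1 : Rch x {w | γ + Pi.single i 1 + w ∈ D} (0 - Pi.single i 1) (1 * (x i)⁻¹) := by
      refine Rch.neg i (Rch.nil ?_) ?_
      · change γ + Pi.single i 1 + 0 ∈ D
        rw [add_zero]; exact hm
      · change γ + Pi.single i 1 + (0 - Pi.single i 1) ∈ D
        have h2 : γ + Pi.single i 1 + (0 - Pi.single i 1) = γ := by abel
        rw [h2]; exact hg.mem
    have h3 := Rch.trans h1 ih (by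
      intro w hw
      change γ + Pi.single i 1 + (0 - Pi.single i 1 + w) ∈ D
      have h2 : γ + Pi.single i 1 + (0 - Pi.single i 1 + w) = γ + w := by abel
      rw [h2]; exact hw)
    have h4 : -(γ + Pi.single i 1) = 0 - Pi.single i 1 + -γ := by abel
    have h5 : (g * x i)⁻¹ = 1 * (x i)⁻¹ * g⁻¹ := by group
    rw [h4, h5]
    exact h3
  | @neg γ g i hg hm ih =>
    have h1 : Rch x {w | γ - Pi.single i 1 + w ∈ D} (0 + Pi.single i 1) (1 * x i) := by
      refine Rch.pos i (Rch.nil ?_) ?_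
      · change γ - Pi.single i 1 + 0 ∈ D
        rw [add_zero]; exact hm
      · change γ - Pi.single i 1 + (0 + Pi.single i 1) ∈ D
        have h2 : γ - Pi.single i 1 + (0 + Pi.single i 1) = γ := by abel
        rw [h2]; exact hg.mem
    have h3 := Rch.trans h1 ih (by
      intro w hw
      change γ - Pi.single i 1 + (0 + Pi.single i 1 + w) ∈ D
      have h2 : γ - Pi.single i 1 + (0 + Pi.single i 1 + w) = γ + w := by abel
      rw [h2]; exact hw)
    have h4 : -(γ - Pi.single i 1) = 0 + Pi.single i 1 + -γ := by abel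
    have h5 : (g * (x i)⁻¹)⁻¹ = 1 * x i * g⁻¹ := by group
    rw [h4, h5]
    exact h3

lemma Rch.one {D : Set (Fin k → ℤ)} (h0 : (0 : Fin k → ℤ) ∈ D) : Rch x D 0 (1 : G) := Rch.nil h0

lemma Rch.mul {D : Set (Fin k → ℤ)} {s t : G} (hs : Rch x D 0 s) (ht : Rch x D 0 t) :
    Rch x D 0 (s * t) := by
  have h := hs.trans ht (fun w hw => by rw [zero_add]; exact hw)
  rwa [zero_add] at h

lemma Rch.inv {D : Set (Fin k → ℤ)} {s : G} (hs : Rch x D 0 s) : Rch x D 0 s⁻¹ := by
  have h := hs.rev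
  rw [neg_zero] at h
  exact h.mono fun w hw => by
    have h1 : (0 : Fin k → ℤ) + w ∈ D := hw
    rwa [zero_add] at h1

/-- Conjugation of a closed path. -/
lemma Rch.conj {D D' : Set (Fin k → ℤ)} {γ : Fin k → ℤ} {g t : G} (hg : Rch x D γ g)
    (ht : Rch x D' 0 t) (hD : ∀ w ∈ D', γ + w ∈ D) : Rch x D 0 (g * t * g⁻¹) := by
  have h1 := hg.trans ht hD
  rw [add_zero] at h1
  have h2 := h1.trans hg.rev (fun w hw => hw)
  rwa [add_neg_cancel] at h2

lemma Rch.ab {D : Set (Fin k → ℤ)} {γ : Fin k → ℤ} {g : G} (hg : Rch x D γ g) :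
    Abelianization.of g = ∏ i, Abelianization.of (x i) ^ γ i := by
  classical
  have key : ∀ (γ : Fin k → ℤ) (i : Fin k) (ε : ℤ),
      ∏ j, Abelianization.of (x j) ^ (γ j + (Pi.single i ε : Fin k → ℤ) j) =
        (∏ j, Abelianization.of (x j) ^ γ j) * Abelianization.of (x i) ^ ε := by
    intro γ i ε
    simp only [zpow_add]
    rw [Finset.prod_mul_distrib]
    congr 1
    rw [Finset.prod_eq_single i]
    · rw [Pi.single_eq_same]
    · intro j _ hj
      rw [Pi.single_eq_of_ne hj, zpow_zero]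
    · intro h; exact absurd (Finset.mem_univ i) h
  induction hg with
  | nil h0 => simp
  | @pos γ g i _ _ ih =>
    rw [map_mul, ih]
    simp only [Pi.add_apply]
    rw [key γ i 1, zpow_one]
  | @neg γ g i _ _ ih =>
    rw [map_mul, ih, map_inv]
    have h := key γ i (-1)
    have h2 : ∀ j, (γ - (Pi.single i 1 : Fin k → ℤ)) j =
        γ j + (Pi.single i (-1) : Fin k → ℤ) j := by
      intro j
      rw [Pi.sub_apply, sub_eq_add_neg]
      congr 1
      by_cases hj : j = i
      · subst hj; simp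
      · simp [hj]
    simp only [h2]
    rw [h, zpow_neg, zpow_one]

/-- Closed paths lie in the commutator subgroup. -/
lemma Rch.comm_mem {D : Set (Fin k → ℤ)} {t : G} (ht : Rch x D 0 t) : t ∈ commutator G := by
  have h := ht.ab
  simp only [Pi.zero_apply, zpow_zero, Finset.prod_const_one] at h
  have h2 : (QuotientGroup.mk t : G ⧸ commutator G) = 1 := h
  exact (QuotientGroup.eq_one_iff t).1 h2

lemma cm_mem (g h : G) : ⁅g, h⁆ ∈ commutator G :=
  Subgroup.commutator_mem_commutator (Subgroup.mem_top g) (Subgroup.mem_top h)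

lemma tr_mem (x : Fin k → G) (v : Fin k → ℤ) {g : G} (hg : g ∈ commutator G) :
    tr x v g ∈ commutator G :=
  (inferInstance : (commutator G).Normal).conj_mem g hg _

end Pool.Agent.LGW
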