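import Pool.Agent.LGW.Bas

/-!
# LGW-Cal: the calculus of `c`
-/

open scoped commutatorElement

namespace Pool.Agent.LGW

open Pool.Agent.Helper33.CW2

variable {G V : Type*} [Group G] [AddCommGroup V] [DistribMulAction G V] {c : G → G → V}

lemma ops_sub (ms : List G) (u v : V) : ops ms (u - v) = ops ms u - ops ms v := by
  induction ms with
  | nil => rfl
  | cons m a ih => rw [ops_cons, ops_cons, ops_cons, ih, smul_sub]; abel

lemma ops_sum {ι : Type*} (ms : List G) (s : Finset ι) (g : ι → V) :
    ops ms (∑ i ∈ s, g i) = ∑ i ∈ s, ops ms (g i) :=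
  map_sum (AddMonoidHom.mk' (ops ms) (ops_add ms)) g s

lemma ops_rep_add (g : G) (E E' : ℕ) (v : V) :
    ops (List.replicate (E + E') g) v = ops (List.replicate E g) (ops (List.replicate E' g) v) := by
  rw [List.replicate_add, ops_append]

lemma ops_rep_zero_of_le {g : G} {E E' : ℕ} (h : E ≤ E') {v : V}
    (hv : ops (List.replicate E g) v = 0) : ops (List.replicate E' g) v = 0 := by
  obtain ⟨d, rfl⟩ := Nat.exists_eq_add_of_le' h
  rw [ops_rep_add, hv, ops_zero]

private lemma cal_neg (hc : Cal c) (v : V) : -v = v := by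
  rw [neg_eq_iff_add_eq_zero]
  exact hc.two v

theorem Cal.one_left (hc : Cal c) {t : G} (ht : t ∈ commutator G) : c 1 t = 0 := by
  have h := hc.mul 1 (one_mem _) 1 (one_mem _) t ht
  rw [mul_one, one_smul] at h
  exact left_eq_add.1 h

theorem Cal.inv_left (hc : Cal c) {s t : G} (hs : s ∈ commutator G) (ht : t ∈ commutator G) :
    c s⁻¹ t = s⁻¹ • c s t := by
  have h := hc.mul s⁻¹ (inv_mem hs) s hs t ht
  rw [inv_mul_cancel, hc.one_left ht] at h
  have h2 : c s⁻¹ t = -(s⁻¹ • c s t) := by
    rw [eq_neg_iff_add_eq_zero, add_comm]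
    exact h.symm
  rw [h2, cal_neg hc]

theorem Cal.mul_right (hc : Cal c) {s s' t : G} (hs : s ∈ commutator G)
    (hs' : s' ∈ commutator G) (ht : t ∈ commutator G) : c t (s * s') = s • c t s' + c t s := by
  rw [hc.symm t ht _ (mul_mem hs hs'), hc.mul s hs s' hs' t ht, hc.symm s' hs' t ht,
    hc.symm s hs t ht]

theorem Cal.act_conj (hc : Cal c) {h s : G} (hh : h ∈ commutator G) (hs : s ∈ commutator G)
    (v : V) : (h * s * h⁻¹) • v = s • v := by
  rw [mul_smul, mul_smul, hc.comm h hh s hs, smul_inv_smul]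

theorem Cal.conj_right (hc : Cal c) {h s t : G} (hh : h ∈ commutator G) (hs : s ∈ commutator G)
    (ht : t ∈ commutator G) : c t (h * s * h⁻¹) = h • c t s + (s • c t h - c t h) := by
  have h1 : c t h⁻¹ = h⁻¹ • c t h := by
    rw [hc.symm t ht _ (inv_mem hh), hc.inv_left hh ht, hc.symm h hh t ht]
  rw [hc.mul_right (mul_mem hh hs) (inv_mem hh) ht, hc.mul_right hh hs ht, h1, mul_smul,
    hc.comm h hh s hs, smul_inv_smul, sub_eq_add_neg, cal_neg hc]
  abel

theorem Cal.ops_smul (hc : Cal c) {ms : List G} (hms : ∀ m ∈ ms, m ∈ commutator G) {t : G}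
    (ht : t ∈ commutator G) (v : V) : ops ms (t • v) = t • ops ms v := by
  induction ms with
  | nil => rfl
  | cons m a ih =>
    rw [ops_cons, ops_cons, ih (fun x hx => hms x (List.mem_cons_of_mem _ hx)),
      hc.comm m (hms m List.mem_cons_self) t ht, smul_sub]

theorem Cal.ops_comm (hc : Cal c) {ms ns : List G} (hms : ∀ m ∈ ms, m ∈ commutator G)
    (hns : ∀ m ∈ ns, m ∈ commutator G) (v : V) : ops ms (ops ns v) = ops ns (ops ms v) := by
  induction ms with
  | nil => rfl
  | cons m a ih =>
    rw [ops_cons, ops_cons, ih (fun x hx => hms x (List.mem_cons_of_mem _ hx)), ops_sub,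
      hc.ops_smul hns (hms m List.mem_cons_self)]

private lemma cal_rep {u : G} (hu : u ∈ commutator G) (E : ℕ) :
    ∀ m ∈ List.replicate E u, m ∈ commutator G := by
  intro m hm
  rw [List.eq_of_mem_replicate hm]
  exact hu

/-- The elements `t` of `G'` such that `(u - 1)^E` kills `c u t` form a subgroup. -/
theorem Cal.kil_one (hc : Cal c) {u : G} (hu : u ∈ commutator G) (E : ℕ) :
    ops (List.replicate E u) (c u 1) = 0 := by
  rw [hc.symm u hu 1 (one_mem _), hc.one_left hu, ops_zero]

theorem Cal.kil_mul (hc : Cal c) {u s t : G} {E : ℕ} (hu : u ∈ commutator G)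
    (hs : s ∈ commutator G) (ht : t ∈ commutator G) (h1 : ops (List.replicate E u) (c u s) = 0)
    (h2 : ops (List.replicate E u) (c u t) = 0) : ops (List.replicate E u) (c u (s * t)) = 0 := by
  rw [hc.mul_right hs ht hu, ops_add, hc.ops_smul (cal_rep hu E) hs, h1, h2, smul_zero, add_zero]

theorem Cal.kil_inv (hc : Cal c) {u s : G} {E : ℕ} (hu : u ∈ commutator G)
    (hs : s ∈ commutator G) (h1 : ops (List.replicate E u) (c u s) = 0) :
    ops (List.replicate E u) (c u s⁻¹) = 0 := by
  rw [hc.symm u hu _ (inv_mem hs), hc.inv_left hs hu, hc.ops_smul (cal_rep hu E) (inv_mem hs),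
    hc.symm s hs u hu, h1, smul_zero]

theorem Cal.kos_ops (hc : Cal c) {u s t : G} {E : ℕ} (hu : u ∈ commutator G)
    (hs : s ∈ commutator G) (ht : t ∈ commutator G)
    (h1 : ops (List.replicate E u) (c u s) = 0) :
    ops (List.replicate (E + 1) u) (c s t) =
      s • ops (List.replicate E u) (c u t) - ops (List.replicate E u) (c u t) := by
  have h := congrArg (ops (List.replicate E u)) (hc.kos u hu s hs t ht)
  rw [ops_add, ops_add, ops_zero, ops_sub, ops_sub _ (s • _), ops_sub _ (t • _),
    hc.ops_smul (cal_rep hu E) hu, hc.ops_smul (cal_rep hu E) hs, hc.ops_smul (cal_rep hu E) ht, h1,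
    smul_zero, sub_zero, add_zero, hc.symm t ht u hu] at h
  have h2 : ops (List.replicate (E + 1) u) (c s t) =
      u • ops (List.replicate E u) (c s t) - ops (List.replicate E u) (c s t) := by
    rw [List.replicate_succ, ops_cons]
  rw [h2, ← cal_neg hc (s • ops (List.replicate E u) (c u t) - ops (List.replicate E u) (c u t))]
  exact eq_neg_of_add_eq_zero_left h

theorem Cal.key (hc : Cal c) {u s h l : G} {E : ℕ} (hu : u ∈ commutator G)
    (hs : s ∈ commutator G) (hh : h ∈ commutator G) (hl : l ∈ commutator G)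
    (h1 : ops (List.replicate E u) (c u s) = 0) (h2 : ops (List.replicate E u) (c u h) = 0) :
    ops (List.replicate (E + 1) u) (c s (h * l * h⁻¹)) =
      s • h • ops (List.replicate E u) (c u l) - h • ops (List.replicate E u) (c u l) := by
  rw [hc.kos_ops hu hs (mul_mem (mul_mem hh hl) (inv_mem hh)) h1, hc.conj_right hh hl hu, ops_add,
    ops_sub, hc.ops_smul (cal_rep hu E) hh, hc.ops_smul (cal_rep hu E) hl, h2, smul_zero, sub_zero,
    add_zero]

end Pool.Agent.LGW
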