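import Pool.Agent.LGW.Bas

/-!
# LGW-OmP: the paths `om x v`, translated squares and the defect of multiplicativity
-/

open scoped commutatorElement

namespace Pool.Agent.LGW

open Pool.Agent.Helper33.CW2

variable {G : Type*} [Group G]

private lemma omp_pos {k : ℕ} {x : Fin k → G} {D : Set (Fin k → ℤ)} {γ : Fin k → ℤ} {g : G}
    (hg : Rch x D γ g) (i : Fin k) (n : ℕ)
    (hD : ∀ j : ℤ, 0 ≤ j → j ≤ n → γ + Pi.single i j ∈ D) :
    Rch x D (γ + Pi.single i (n : ℤ)) (g * x i ^ (n : ℤ)) := by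
  induction n with
  | zero =>
    have h : γ + Pi.single i ((0 : ℕ) : ℤ) = γ := by
      rw [Nat.cast_zero, Pi.single_zero, add_zero]
    rw [h, Nat.cast_zero, zpow_zero, mul_one]
    exact hg
  | succ n ih =>
    have h1 := ih (fun j hj hj' => hD j hj (by push_cast; omega))
    have e1 : γ + Pi.single i ((n + 1 : ℕ) : ℤ) =
        γ + Pi.single i (n : ℤ) + Pi.single i 1 := by
      rw [add_assoc, ← Pi.single_add]
      push_cast
      rfl
    have e2 : g * x i ^ ((n + 1 : ℕ) : ℤ) = g * x i ^ (n : ℤ) * x i := by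
      rw [Nat.cast_succ, zpow_add_one, mul_assoc]
    have h2 := hD ((n + 1 : ℕ) : ℤ) (by positivity) le_rfl
    rw [e1] at h2
    rw [e1, e2]
    exact Rch.pos i h1 h2

private lemma omp_neg {k : ℕ} {x : Fin k → G} {D : Set (Fin k → ℤ)} {γ : Fin k → ℤ} {g : G}
    (hg : Rch x D γ g) (i : Fin k) (n : ℕ)
    (hD : ∀ j : ℤ, -(n : ℤ) ≤ j → j ≤ 0 → γ + Pi.single i j ∈ D) :
    Rch x D (γ + Pi.single i (-(n : ℤ))) (g * x i ^ (-(n : ℤ))) := by
  induction n with
  | zero =>
    have h : γ + Pi.single i (-((0 : ℕ) : ℤ)) = γ := by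
      rw [Nat.cast_zero, neg_zero, Pi.single_zero, add_zero]
    rw [h, Nat.cast_zero, neg_zero, zpow_zero, mul_one]
    exact hg
  | succ n ih =>
    have h1 := ih (fun j hj hj' => hD j (by push_cast; omega) hj')
    have e1 : γ + Pi.single i (-((n + 1 : ℕ) : ℤ)) =
        γ + Pi.single i (-(n : ℤ)) - Pi.single i 1 := by
      rw [add_sub_assoc, ← Pi.single_sub]
      congr 2
      push_cast
      ring
    have e2 : g * x i ^ (-((n + 1 : ℕ) : ℤ)) = g * x i ^ (-(n : ℤ)) * (x i)⁻¹ := by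
      have h3 : -((n + 1 : ℕ) : ℤ) = -(n : ℤ) - 1 := by push_cast; ring
      rw [h3, zpow_sub_one, mul_assoc]
    have h2 := hD (-((n + 1 : ℕ) : ℤ)) le_rfl (by push_cast; omega)
    rw [e1] at h2
    rw [e1, e2]
    exact Rch.neg i h1 h2

private lemma omp_steps {k : ℕ} {x : Fin k → G} {D : Set (Fin k → ℤ)} {γ : Fin k → ℤ} {g : G}
    (hg : Rch x D γ g) (i : Fin k) (a : ℤ)
    (hD : ∀ j : ℤ, min 0 a ≤ j → j ≤ max 0 a → γ + Pi.single i j ∈ D) :
    Rch x D (γ + Pi.single i a) (g * x i ^ a) := by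
  rcases le_total 0 a with h | h
  · obtain ⟨n, rfl⟩ := Int.eq_ofNat_of_zero_le h
    exact omp_pos hg i n (fun j hj hj' => hD j ((min_le_left _ _).trans hj)
      (hj'.trans (le_max_right _ _)))
  · obtain ⟨n, hn⟩ := Int.eq_ofNat_of_zero_le (neg_nonneg.2 h)
    have hn' : a = -(n : ℤ) := by omega
    subst hn'
    exact omp_neg hg i n (fun j hj hj' => hD j ((min_le_right _ _).trans hj)
      (hj'.trans (le_max_left _ _)))

private lemma omp_cons_add {k : ℕ} (γ δ : Fin k → ℤ) (a b : ℤ) :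
    (Fin.cons (a + b) (γ + δ) : Fin (k + 1) → ℤ) = Fin.cons a γ + Fin.cons b δ := by
  funext j
  refine Fin.cases ?_ (fun j => ?_) j
  · simp
  · simp

private lemma omp_cons_single {k : ℕ} (i : Fin k) (a : ℤ) :
    (Fin.cons 0 (Pi.single i a : Fin k → ℤ) : Fin (k + 1) → ℤ) = Pi.single i.succ a := by
  funext j
  refine Fin.cases ?_ (fun j => ?_) j
  · rw [Fin.cons_zero, Pi.single_eq_of_ne (Fin.succ_ne_zero i).symm]
  · rw [Fin.cons_succ]
    by_cases h : j = i
    · subst h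
      rw [Pi.single_eq_same, Pi.single_eq_same]
    · rw [Pi.single_eq_of_ne h, Pi.single_eq_of_ne (fun h' => h (Fin.succ_injective _ h'))]

private lemma omp_cons {k : ℕ} (x : Fin (k + 1) → G) {D' : Set (Fin k → ℤ)} {γ : Fin k → ℤ}
    {g : G} (h : Rch (fun i => x i.succ) D' γ g) :
    Rch x {w | w 0 = 0 ∧ (fun i => w i.succ) ∈ D'} (Fin.cons 0 γ) g := by
  induction h with
  | nil h0 =>
    have e : (Fin.cons 0 (0 : Fin k → ℤ) : Fin (k + 1) → ℤ) = 0 := by
      funext j
      refine Fin.cases ?_ (fun j => ?_) j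
      · rfl
      · rfl
    rw [e]
    exact Rch.nil ⟨rfl, h0⟩
  | @pos γ g i _ hm ih =>
    have e : (Fin.cons 0 (γ + Pi.single i 1) : Fin (k + 1) → ℤ) =
        Fin.cons 0 γ + Pi.single i.succ 1 := by
      rw [← omp_cons_single, ← omp_cons_add, add_zero]
    rw [e]
    refine Rch.pos i.succ ih ?_
    rw [← e]
    exact ⟨rfl, hm⟩
  | @neg γ g i _ hm ih =>
    have e : (Fin.cons 0 (γ - Pi.single i 1) : Fin (k + 1) → ℤ) =
        Fin.cons 0 γ - Pi.single i.succ 1 := by
      rw [eq_sub_iff_add_eq, ← omp_cons_single, ← omp_cons_add, add_zero, sub_add_cancel]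
    rw [e]
    refine Rch.neg i.succ ih ?_
    rw [← e]
    exact ⟨rfl, hm⟩

theorem rch_om {k : ℕ} (x : Fin k → G) (v : Fin k → ℤ) (D : Set (Fin k → ℤ))
    (hD : ∀ w : Fin k → ℤ, (∀ j, min 0 (v j) ≤ w j ∧ w j ≤ max 0 (v j)) → w ∈ D) :
    Rch x D v (om x v) := by
  induction k with
  | zero =>
    have hv : v = 0 := Subsingleton.elim _ _
    subst hv
    exact Rch.nil (hD 0 (fun j => j.elim0))
  | succ k ih =>
    have h1 := ih (fun i => x i.succ) (fun i => v i.succ)
      {w | ∀ j, min 0 (v j.succ) ≤ w j ∧ w j ≤ max 0 (v j.succ)} (fun w hw => hw)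
    have h2 : Rch x D (Fin.cons 0 fun i => v i.succ) (om (fun i => x i.succ) fun i => v i.succ) := by
      refine (omp_cons x h1).mono ?_
      rintro w ⟨hw0, hw⟩
      refine hD w (fun j => ?_)
      refine Fin.cases ?_ (fun j => ?_) j
      · rw [hw0]
        exact ⟨min_le_left _ _, le_max_left _ _⟩
      · exact hw j
    have e : ∀ j : ℤ, (Fin.cons 0 (fun i => v i.succ) + Pi.single 0 j : Fin (k + 1) → ℤ) =
        Fin.cons j (fun i => v i.succ) := by
      intro j
      funext l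
      refine Fin.cases ?_ (fun l => ?_) l
      · simp
      · rw [Pi.add_apply, Fin.cons_succ, Fin.cons_succ, Pi.single_eq_of_ne (Fin.succ_ne_zero l),
          add_zero]
    have h3 := omp_steps h2 0 (v 0) (by
      intro j hj hj'
      rw [e]
      refine hD _ (fun l => ?_)
      refine Fin.cases ?_ (fun l => ?_) l
      · rw [Fin.cons_zero]
        exact ⟨hj, hj'⟩
      · rw [Fin.cons_succ]
        exact ⟨min_le_right _ _, le_max_right _ _⟩)
    rw [e] at h3
    have e2 : (Fin.cons (v 0) (fun i => v i.succ) : Fin (k + 1) → ℤ) = v := by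
      funext l
      refine Fin.cases ?_ (fun l => ?_) l
      · rfl
      · rfl
    rw [e2] at h3
    rw [om_succ]
    exact h3

private lemma omp_rch_Icc {k : ℕ} (x : Fin k → G) (α β v : Fin k → ℤ) (hα : α ≤ 0) (hβ : 0 ≤ β)
    (hv : v ∈ Set.Icc α β) : Rch x (Set.Icc α β) v (om x v) := by
  refine rch_om x v _ (fun w hw => ⟨fun j => ?_, fun j => ?_⟩)
  · exact (le_min (hα j) (hv.1 j)).trans (hw j).1
  · exact (hw j).2.trans (max_le (hβ j) (hv.2 j))

theorem rch_sq {k : ℕ} (x : Fin k → G) (α β z : Fin k → ℤ) (hα : α ≤ 0) (hβ : 0 ≤ β)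
    (hz : α ≤ z) (a b : Fin k) (hz' : z + (Pi.single a 1 + Pi.single b 1) ≤ β) :
    Rch x (Set.Icc α β) 0 (tr x z ⁅x a, x b⁆) := by
  have ha : (0 : Fin k → ℤ) ≤ Pi.single a 1 := by
    intro j
    by_cases h : j = a
    · subst h; rw [Pi.single_eq_same]; exact zero_le_one
    · rw [Pi.single_eq_of_ne h]; exact le_rfl
  have hb : (0 : Fin k → ℤ) ≤ Pi.single b 1 := by
    intro j
    by_cases h : j = b
    · subst h; rw [Pi.single_eq_same]; exact zero_le_one
    · rw [Pi.single_eq_of_ne h]; exact le_rfl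
  have hzβ : z ≤ β := (le_add_of_nonneg_right (add_nonneg ha hb)).trans hz'
  have h1 : Rch x (Set.Icc α β) z (om x z) := omp_rch_Icc x α β z hα hβ ⟨hz, hzβ⟩
  have h2 : Rch x (Set.Icc (0 : Fin k → ℤ) (Pi.single a 1 + Pi.single b 1)) 0 ⁅x a, x b⁆ := by
    have s0 : Rch x (Set.Icc (0 : Fin k → ℤ) (Pi.single a 1 + Pi.single b 1)) 0 1 :=
      Rch.nil ⟨le_rfl, add_nonneg ha hb⟩
    have s1 := Rch.pos a s0 (by
      rw [zero_add]
      exact ⟨ha, le_add_of_nonneg_right hb⟩)
    have s2 := Rch.pos b s1 (by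
      rw [zero_add]
      exact ⟨add_nonneg ha hb, le_rfl⟩)
    have e3 : (0 + Pi.single a 1 + Pi.single b 1 - Pi.single a 1 : Fin k → ℤ) =
        Pi.single b 1 := by abel
    have s3 := Rch.neg a s2 (by
      rw [e3]
      exact ⟨hb, le_add_of_nonneg_left ha⟩)
    have e4 : (0 + Pi.single a 1 + Pi.single b 1 - Pi.single a 1 - Pi.single b 1 : Fin k → ℤ) =
        0 := by abel
    have s4 := Rch.neg b s3 (by
      rw [e4]
      exact ⟨le_rfl, add_nonneg ha hb⟩)
    rw [e4, one_mul] at s4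
    rw [commutatorElement_def]
    exact s4
  unfold tr
  refine Rch.conj h1 h2 ?_
  rintro w ⟨hw0, hw1⟩
  exact ⟨hz.trans (le_add_of_nonneg_right hw0), (add_le_add_right hw1 z).trans hz'⟩

theorem rch_comb {K : ℕ} (x : Fin (K + 1) → G) (α β n w : Fin (K + 1) → ℤ) (hα : α ≤ 0)
    (hβ : 0 ≤ β) (hn : n ∈ Set.Icc α β)
    (hnw : ∀ j, j ≠ 0 → α j ≤ n j + w j ∧ n j + w j ≤ β j) :
    Rch x (Set.Icc α β) 0 (om x n * om x w * (om x (n + w))⁻¹) := by
  have hP : Rch x (Set.Icc α β) n (om x n) := omp_rch_Icc x α β n hα hβ hn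
  have hmid : n + (Fin.cons 0 fun i => w i.succ : Fin (K + 1) → ℤ) ∈ Set.Icc α β := by
    refine ⟨fun j => ?_, fun j => ?_⟩
    · refine Fin.cases ?_ (fun j => ?_) j
      · rw [Pi.add_apply, Fin.cons_zero, add_zero]; exact hn.1 0
      · rw [Pi.add_apply, Fin.cons_succ]; exact (hnw j.succ (Fin.succ_ne_zero j)).1
    · refine Fin.cases ?_ (fun j => ?_) j
      · rw [Pi.add_apply, Fin.cons_zero, add_zero]; exact hn.2 0
      · rw [Pi.add_apply, Fin.cons_succ]; exact (hnw j.succ (Fin.succ_ne_zero j)).2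
  have hQ : Rch x {u | n + u ∈ Set.Icc α β} (Fin.cons 0 fun i => w i.succ)
      (om x (Fin.cons 0 fun i => w i.succ)) := by
    refine rch_om x _ _ (fun u hu => ⟨fun j => ?_, fun j => ?_⟩)
    · have h1 := (hu j).1
      have h2 : α j ≤ n j := hn.1 j
      have h3 : α j ≤ n j + (Fin.cons 0 fun i => w i.succ : Fin (K + 1) → ℤ) j := hmid.1 j
      change α j ≤ n j + u j
      rcases le_total 0 ((Fin.cons 0 fun i => w i.succ : Fin (K + 1) → ℤ) j) with h | h
      · rw [min_eq_left h] at h1; omega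
      · rw [min_eq_right h] at h1; omega
    · have h1 := (hu j).2
      have h2 : n j ≤ β j := hn.2 j
      have h3 : n j + (Fin.cons 0 fun i => w i.succ : Fin (K + 1) → ℤ) j ≤ β j := hmid.2 j
      change n j + u j ≤ β j
      rcases le_total 0 ((Fin.cons 0 fun i => w i.succ : Fin (K + 1) → ℤ) j) with h | h
      · rw [max_eq_right h] at h1; omega
      · rw [max_eq_left h] at h1; omega
  have hR : Rch x (Set.Icc α β) (n + Fin.cons 0 fun i => w i.succ)
      (om x (n + Fin.cons 0 fun i => w i.succ)) := omp_rch_Icc x α β _ hα hβ hmid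
  have h1 := (hP.trans hQ (fun _ h => h)).trans hR.rev (fun _ h => h)
  rw [add_neg_cancel] at h1
  have e1 : om x w = om x (Fin.cons 0 fun i => w i.succ) * x 0 ^ w 0 := by
    rw [om_succ x w, om_succ x (Fin.cons 0 fun i => w i.succ)]
    have h2 : (fun i : Fin K => (Fin.cons 0 (fun i => w i.succ) : Fin (K + 1) → ℤ) i.succ) =
        fun i => w i.succ := by
      funext i
      rw [Fin.cons_succ]
    rw [h2, Fin.cons_zero, zpow_zero, mul_one]
  have e2 : om x (n + w) = om x (n + Fin.cons 0 fun i => w i.succ) * x 0 ^ w 0 := by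
    rw [om_succ x (n + w), om_succ x (n + (Fin.cons 0 fun i => w i.succ : Fin (K + 1) → ℤ))]
    have h2 : (fun i : Fin K => (n + (Fin.cons 0 (fun i => w i.succ) : Fin (K + 1) → ℤ)) i.succ) =
        fun i => (n + w) i.succ := by
      funext i
      rw [Pi.add_apply, Pi.add_apply, Fin.cons_succ]
    rw [h2, Pi.add_apply n _ 0, Pi.add_apply n _ 0, Fin.cons_zero, add_zero, zpow_add, mul_assoc]
  have e3 : om x n * om x w * (om x (n + w))⁻¹ =
      om x n * om x (Fin.cons 0 fun i => w i.succ) *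
        (om x (n + Fin.cons 0 fun i => w i.succ))⁻¹ := by
    rw [e1, e2]
    group
  rw [e3]
  exact h1

end Pool.Agent.LGW
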