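import Pool.Agent.LGW.Sch
import Pool.Agent.LGW.Cal
import Pool.Agent.LGW.OmP

/-!
# LGW-Base: the start of the scale induction
-/

open scoped commutatorElement

namespace Pool.Agent.LGW

open Pool.Agent.Helper33.CW2

variable {G V : Type*} [Group G] [AddCommGroup V] [DistribMulAction G V] {c : G → G → V}

theorem sg_mem {k : ℕ} (x : Fin k → G) (y : Fin k → ℤ) (i : Fin k) : sg x y i ∈ commutator G := by
  have h1 : Rch x Set.univ (y + Pi.single i 1) (om x y * x i) :=
    Rch.pos i (rch_om x y Set.univ fun _ _ => Set.mem_univ _) (Set.mem_univ _)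
  have h2 : Rch x Set.univ (y + Pi.single i 1) (om x (y + Pi.single i 1)) :=
    rch_om x _ Set.univ fun _ _ => Set.mem_univ _
  have h3 := h1.trans (h2.rev.mono (Set.subset_univ _)) fun _ _ => Set.mem_univ _
  rw [add_neg_cancel] at h3
  exact h3.comm_mem

private lemma base_single_nonneg {k : ℕ} (i j : Fin k) : (0 : ℤ) ≤ (Pi.single i 1 : Fin k → ℤ) j := by
  by_cases h : j = i
  · subst h
    rw [Pi.single_eq_same]
    exact zero_le_one
  · rw [Pi.single_eq_of_ne h]

theorem PP_base (hc : Cal c) {k : ℕ} (x : Fin k → G) (c₀ : ℕ) (hB : RelB x c c₀) :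
    PP x c (fun _ => (c₀ : ℤ)) 0 := by
  intro a b _ α β hd hα hβ t ht
  have hu : ⁅x a, x b⁆ ∈ commutator G := cm_mem _ _
  have hβ0 : ∀ j, 0 ≤ β j := by
    intro j
    exact le_trans (add_nonneg (base_single_nonneg a j) (base_single_nonneg b j)) (hβ j)
  have key : ∀ g ∈ Subgroup.closure {g | ∃ y i, y ∈ Set.Icc α β ∧ y + Pi.single i 1 ∈ Set.Icc α β ∧ g = sg x y i},
      g ∈ commutator G ∧ ops (List.replicate 0 ⁅x a, x b⁆) (c ⁅x a, x b⁆ g) = 0 := by
    intro g hg
    induction hg using Subgroup.closure_induction with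
    | mem g hg =>
      obtain ⟨y, i, h1, -, rfl⟩ := hg
      refine ⟨sg_mem x y i, ?_⟩
      have h2 : c ⁅x a, x b⁆ (sg x y i) = 0 := by
        refine hB a b i y fun j => ?_
        have h3 : α j ≤ y j := h1.1 j
        have h4 : y j ≤ β j := h1.2 j
        have h5 : α j ≤ 0 := hα j
        have h6 := hβ0 j
        have h7 : β j - α j ≤ (c₀ : ℤ) := hd j
        rw [abs_le]
        constructor <;> omega
      rw [h2]
      rfl
    | one => exact ⟨Subgroup.one_mem _, hc.kil_one hu 0⟩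
    | mul g h _ _ ih1 ih2 => exact ⟨Subgroup.mul_mem _ ih1.1 ih2.1, hc.kil_mul hu ih1.1 ih2.1 ih1.2 ih2.2⟩
    | inv g _ ih => exact ⟨Subgroup.inv_mem _ ih.1, hc.kil_inv hu ih.1 ih.2⟩
  exact (key t (sch x _ ht)).2

end Pool.Agent.LGW
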