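import Pool.Agent.LGW.MDefs
import Pool.Agent.Helper26.CommWidth

/-!
# LGW-CalI: the commutator map satisfies the calculus
-/

open scoped commutatorElement

namespace Pool.Agent.LGW

open Pool.Agent.Helper33.CW2 Pool.Agent.Helper26.CW

universe u

theorem cal_exists {G V : Type u} [Group G] [AddCommGroup V] [DistribMulAction G V]
    (N : Subgroup G) [hN : N.Normal] (hN' : N = ⁅commutator G, commutator G⁆) (π : N → V)
    (hsurj : Function.Surjective π) (hπ : ∀ a b, π (a * b) = π a + π b)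
    (hV : ∀ v : V, v + v = 0) (hcj : ∀ (g : G) a, π (cj N g a) = g • π a) :
    ∃ c : G → G → V, Cal c ∧ ∀ s ∈ commutator G, ∀ t ∈ commutator G,
      ∃ h : ⁅s, t⁆ ∈ N, c s t = π ⟨⁅s, t⁆, h⟩ := by
  classical
  have hmem : ∀ s ∈ commutator G, ∀ t ∈ commutator G, ⁅s, t⁆ ∈ N := by
    intro s hs t ht
    rw [hN']
    exact Subgroup.commutator_mem_commutator hs ht
  have hNG : ∀ n ∈ N, n ∈ commutator G := by
    intro n hn
    rw [hN'] at hn
    exact Subgroup.commutator_mono le_top le_top hn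
  have π1 : π 1 = 0 := by
    have h := hπ 1 1
    rw [mul_one] at h
    exact left_eq_add.1 h
  have πinv : ∀ a, π a⁻¹ = π a := by
    intro a
    have h := hπ a⁻¹ a
    rw [inv_mul_cancel, π1] at h
    calc π a⁻¹ = π a⁻¹ + (π a + π a) := by rw [hV, add_zero]
      _ = (π a⁻¹ + π a) + π a := by rw [add_assoc]
      _ = π a := by rw [← h, zero_add]
  have triv : ∀ (n : N) (v : V), (n : G) • v = v := by
    intro n v
    obtain ⟨a, rfl⟩ := hsurj v
    rw [← hcj]
    have e : cj N (n : G) a = n * a * n⁻¹ := rfl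
    rw [e, hπ, hπ, πinv, add_comm (π n) (π a), add_assoc, hV, add_zero]
  have act : ∀ s ∈ commutator G, ∀ t ∈ commutator G, ∀ v : V, s • t • v = t • s • v := by
    intro s hs t ht v
    have e : s * t = ⁅s, t⁆ * (t * s) := by
      rw [commutatorElement_def]
      group
    rw [smul_smul, smul_smul, e, mul_smul]
    exact triv ⟨⁅s, t⁆, hmem s hs t ht⟩ _
  set c : G → G → V := fun s t => if h : ⁅s, t⁆ ∈ N then π ⟨⁅s, t⁆, h⟩ else 0 with hc
  have cdef : ∀ s ∈ commutator G, ∀ t ∈ commutator G, ∀ h : ⁅s, t⁆ ∈ N, c s t = π ⟨⁅s, t⁆, h⟩ := by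
    intro s hs t ht h
    exact dif_pos h
  have cmul : ∀ s ∈ commutator G, ∀ s' ∈ commutator G, ∀ t ∈ commutator G,
      c (s * s') t = s • c s' t + c s t := by
    intro s hs s' hs' t ht
    rw [cdef (s * s') (mul_mem hs hs') t ht (hmem _ (mul_mem hs hs') t ht), cdef s' hs' t ht (hmem s' hs' t ht),
      cdef s hs t ht (hmem s hs t ht), ← hcj, ← hπ]
    congr 1
    apply Subtype.ext
    change ⁅s * s', t⁆ = s * ⁅s', t⁆ * s⁻¹ * ⁅s, t⁆
    simp only [commutatorElement_def]
    group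
  have csymm : ∀ s ∈ commutator G, ∀ t ∈ commutator G, c s t = c t s := by
    intro s hs t ht
    rw [cdef s hs t ht (hmem s hs t ht), cdef t ht s hs (hmem t ht s hs), ← πinv]
    congr 1
    apply Subtype.ext
    change ⁅s, t⁆⁻¹ = ⁅t, s⁆
    exact commutatorElement_inv s t
  refine ⟨c, ⟨hV, act, cmul, csymm, ?_, ?_, ?_⟩, fun s hs t ht => ⟨hmem s hs t ht, cdef s hs t ht _⟩⟩
  · intro s hs
    rw [cdef s hs s hs (hmem s hs s hs), ← π1]
    congr 1
    apply Subtype.ext
    change ⁅s, s⁆ = 1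
    exact commutatorElement_self s
  · intro g s hs t ht
    have hs' : g * s * g⁻¹ ∈ commutator G := Subgroup.Normal.conj_mem inferInstance s hs g
    have ht' : g * t * g⁻¹ ∈ commutator G := Subgroup.Normal.conj_mem inferInstance t ht g
    rw [cdef _ hs' _ ht' (hmem _ hs' _ ht'), cdef s hs t ht (hmem s hs t ht), ← hcj]
    congr 1
    apply Subtype.ext
    change ⁅g * s * g⁻¹, g * t * g⁻¹⁆ = g * ⁅s, t⁆ * g⁻¹
    simp only [commutatorElement_def]
    group
  · intro s hs t ht u hu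
    have hn := hmem s hs t ht
    have e1 : s * t = ⁅s, t⁆ * (t * s) := by
      rw [commutatorElement_def]
      group
    have k1 := cmul s hs t ht u hu
    have k2 := cmul ⁅s, t⁆ (hNG _ hn) (t * s) (mul_mem ht hs) u hu
    have k3 := cmul t ht s hs u hu
    have k4 : c ⁅s, t⁆ u = c s t + u • c s t := by
      rw [cdef _ (hNG _ hn) u hu (hmem _ (hNG _ hn) u hu), cdef s hs t ht hn]
      have e2 : (⟨⁅⁅s, t⁆, u⁆, hmem _ (hNG _ hn) u hu⟩ : N) = ⟨⁅s, t⁆, hn⟩ * cj N u (⟨⁅s, t⁆, hn⟩⁻¹) := by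
        apply Subtype.ext
        change ⁅⁅s, t⁆, u⁆ = ⁅s, t⁆ * (u * ⁅s, t⁆⁻¹ * u⁻¹)
        rw [commutatorElement_def ⁅s, t⁆ u]
        group
      rw [e2, hπ, hcj, πinv]
    have k5 := triv ⟨⁅s, t⁆, hn⟩ (c (t * s) u)
    change ⁅s, t⁆ • c (t * s) u = c (t * s) u at k5
    rw [← e1, k5, k3, k4, k1] at k2
    rw [csymm u hu s hs]
    have k6 : s • c t u = t • c s u + c t u + (c s t + u • c s t) - c s u := by
      rw [← k2]
      abel
    have k7 : (s • c t u - c t u) + (t • c s u - c s u) + (u • c s t - c s t) =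
        (t • c s u + t • c s u) + (u • c s t + u • c s t) - (c s u + c s u) := by
      rw [k6]
      abel
    rw [k7, hV (t • c s u), hV (u • c s t), hV (c s u), add_zero, sub_zero]

end Pool.Agent.LGW
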