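import Pool.Agent.LGW.HDefs

/-!
# LGW-HCnt: the weights of the certificates
-/

namespace Pool.Agent.LGW

/-- The rows of a sequence of length `3N`. -/
def rowA (N : ℕ) (β : Fin (3 * N) → ZMod 2) (i : Fin N) : Fin (2 * N) → ZMod 2 :=
  fun q => β ⟨i + q, by have := i.2; have := q.2; omega⟩

/-- The rows of a recurrence sequence. -/
def rowB (N : ℕ) {l : ℕ} (c y : Fin l → ZMod 2) (j : Fin l) : Fin (2 * N) → ZMod 2 :=
  fun q => rsq c y ((j : ℕ) + q)

/-- Certificates of the first kind. -/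
def CertA (N t : ℕ) : Type :=
  {p : (Fin (3 * N) → ZMod 2) × Finset (Fin N) //
    N ≤ 3 * t * p.2.card ∧ LinearIndependent (ZMod 2) (fun i : p.2 => rowA N p.1 i)}

/-- Certificates of the second kind. -/
def CertB (N t : ℕ) : Type :=
  Σ l : Fin N, {p : (Fin l → ZMod 2) × (Fin l → ZMod 2) × Finset (Fin l) //
    p.2.2.Nonempty ∧ (l : ℕ) ≤ 6 * t * p.2.2.card ∧
    LinearIndependent (ZMod 2) (fun j : p.2.2 => rowB N p.1 p.2.1 j)}

noncomputable instance (N t : ℕ) : Fintype (CertA N t) := by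
  classical
  unfold CertA
  infer_instance

noncomputable instance (N t : ℕ) : Fintype (CertB N t) := by
  classical
  unfold CertB
  infer_instance

private theorem hc_half_le {m n : ℕ} (h : n ≤ m) : (1 / 2 : ℚ) ^ m ≤ (1 / 2 : ℚ) ^ n :=
  pow_le_pow_of_le_one (by norm_num) (by norm_num) h

private theorem hc_two_half (m n : ℕ) : (2 : ℚ) ^ m * (1 / 2 : ℚ) ^ (m + n) = (1 / 2 : ℚ) ^ n := by
  rw [pow_add, ← mul_assoc, ← mul_pow]
  norm_num

theorem sumA {t N : ℕ} (ht : 1 ≤ t) (hN : 1 ≤ N) :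
    ∑ p : CertA N t, (1 / 2 : ℚ) ^ (48 * t * Fintype.card p.1.2) ≤ 1 / 4 := by
  classical
  have h1 : ∀ p : CertA N t, (1 / 2 : ℚ) ^ (48 * t * Fintype.card p.1.2) ≤ (1 / 2 : ℚ) ^ (16 * N) := by
    intro p
    refine hc_half_le ?_
    have h2 := p.2.1
    rw [Fintype.card_coe]
    calc 16 * N ≤ 16 * (3 * t * p.1.2.card) := Nat.mul_le_mul_left _ h2
      _ = 48 * t * p.1.2.card := by ring
  have h3 : Fintype.card (CertA N t) ≤ 2 ^ (3 * N) * 2 ^ N := by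
    have h4 : Fintype.card (CertA N t) ≤ Fintype.card ((Fin (3 * N) → ZMod 2) × Finset (Fin N)) :=
      Fintype.card_le_of_injective (fun p : CertA N t => p.1) Subtype.val_injective
    rw [Fintype.card_prod, Fintype.card_fun, ZMod.card, Fintype.card_fin, Fintype.card_finset,
      Fintype.card_fin] at h4
    exact h4
  have h5 : ∑ p : CertA N t, (1 / 2 : ℚ) ^ (48 * t * Fintype.card p.1.2) ≤
      (Finset.univ : Finset (CertA N t)).card • (1 / 2 : ℚ) ^ (16 * N) :=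
    Finset.sum_le_card_nsmul _ _ _ fun p _ => h1 p
  refine h5.trans ?_
  rw [nsmul_eq_mul, Finset.card_univ]
  have h6 : ((Fintype.card (CertA N t) : ℕ) : ℚ) ≤ (2 : ℚ) ^ (4 * N) := by
    have h7 : Fintype.card (CertA N t) ≤ 2 ^ (4 * N) := by
      refine h3.trans (le_of_eq ?_)
      rw [← pow_add]
      congr 1
      ring
    exact_mod_cast h7
  calc ((Fintype.card (CertA N t) : ℕ) : ℚ) * (1 / 2 : ℚ) ^ (16 * N)
      ≤ (2 : ℚ) ^ (4 * N) * (1 / 2 : ℚ) ^ (16 * N) :=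
        mul_le_mul_of_nonneg_right h6 (by positivity)
    _ = (1 / 2 : ℚ) ^ (12 * N) := by
        have h8 : 16 * N = 4 * N + 12 * N := by ring
        rw [h8, hc_two_half]
    _ ≤ (1 / 2 : ℚ) ^ 2 := hc_half_le (by omega)
    _ = 1 / 4 := by norm_num

private theorem hc_geo (N : ℕ) : ∑ l ∈ Finset.range N, (1 / 2 : ℚ) ^ l = 2 - 2 * (1 / 2 : ℚ) ^ N := by
  induction N with
  | zero => norm_num
  | succ N ih =>
    rw [Finset.sum_range_succ, ih, pow_succ]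
    ring

/-- the certificates without the conditions -/
private abbrev HcT (N : ℕ) : Type :=
  Σ l : Fin N, (Fin l → ZMod 2) × (Fin l → ZMod 2) × Finset (Fin l)

private noncomputable def hcW {N : ℕ} (q : HcT N) : ℚ := (1 / 2 : ℚ) ^ (4 * (q.1 : ℕ) + 24)

private def hcF {N t : ℕ} (p : CertB N t) : HcT N := ⟨p.1, p.2.1⟩

private theorem hcF_inj {N t : ℕ} : Function.Injective (hcF (N := N) (t := t)) := by
  rintro ⟨l, p, hp⟩ ⟨l', p', hp'⟩ h
  have h1 : (⟨l, p⟩ : HcT N) = ⟨l', p'⟩ := h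
  cases h1
  rfl

theorem sumB {t N : ℕ} (ht : 1 ≤ t) :
    ∑ p : CertB N t, (1 / 2 : ℚ) ^ (48 * t * Fintype.card p.2.1.2.2) ≤ 1 / 4 := by
  classical
  have h1 : ∀ p : CertB N t, (1 / 2 : ℚ) ^ (48 * t * Fintype.card p.2.1.2.2) ≤ hcW (hcF p) := by
    intro p
    refine hc_half_le ?_
    rw [Fintype.card_coe]
    have h2 : 0 < p.2.1.2.2.card := Finset.card_pos.2 p.2.2.1
    have h3 : (p.1 : ℕ) ≤ 6 * t * p.2.1.2.2.card := p.2.2.2.1
    have h4 : 1 ≤ t * p.2.1.2.2.card := Nat.mul_pos ht h2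
    have h5 : 48 * t * p.2.1.2.2.card = 4 * (6 * t * p.2.1.2.2.card) + 24 * (t * p.2.1.2.2.card) := by ring
    rw [h5]
    have h6 : ((hcF p).1 : ℕ) = (p.1 : ℕ) := rfl
    rw [h6]
    omega
  have h2 : ∑ p : CertB N t, hcW (hcF p) ≤ ∑ q : HcT N, hcW q := by
    have h3 : ∑ p : CertB N t, hcW (hcF p) = ∑ q ∈ (Finset.univ : Finset (CertB N t)).image hcF, hcW q :=
      (Finset.sum_image fun a _ b _ h => hcF_inj h).symm
    rw [h3]
    refine Finset.sum_le_sum_of_subset_of_nonneg (Finset.subset_univ _) fun q _ _ => ?_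
    unfold hcW
    positivity
  have h3 : ∑ q : HcT N, hcW q = ∑ l : Fin N, (1 / 2 : ℚ) ^ ((l : ℕ) + 24) := by
    rw [Fintype.sum_sigma]
    refine Finset.sum_congr rfl fun l _ => ?_
    have h4 : ∀ y : (Fin l → ZMod 2) × (Fin l → ZMod 2) × Finset (Fin l),
        hcW (⟨l, y⟩ : HcT N) = (1 / 2 : ℚ) ^ (4 * (l : ℕ) + 24) := fun y => rfl
    rw [Finset.sum_congr rfl fun y _ => h4 y, Finset.sum_const, Finset.card_univ, nsmul_eq_mul,
      Fintype.card_prod, Fintype.card_prod, Fintype.card_fun, ZMod.card, Fintype.card_fin,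
      Fintype.card_finset, Fintype.card_fin]
    have h5 : ((2 ^ (l : ℕ) * (2 ^ (l : ℕ) * 2 ^ (l : ℕ)) : ℕ) : ℚ) = (2 : ℚ) ^ (3 * (l : ℕ)) := by
      push_cast
      rw [← pow_add, ← pow_add]
      congr 1
      ring
    rw [h5]
    have h6 : 4 * (l : ℕ) + 24 = 3 * (l : ℕ) + ((l : ℕ) + 24) := by ring
    rw [h6, hc_two_half]
  have h4 : ∑ l : Fin N, (1 / 2 : ℚ) ^ ((l : ℕ) + 24) =
      (1 / 2 : ℚ) ^ 24 * ∑ l ∈ Finset.range N, (1 / 2 : ℚ) ^ l := by
    rw [Finset.mul_sum, ← Fin.sum_univ_eq_sum_range (fun l => (1 / 2 : ℚ) ^ 24 * (1 / 2 : ℚ) ^ l) N]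
    refine Finset.sum_congr rfl fun l _ => ?_
    rw [pow_add, mul_comm]
  calc ∑ p : CertB N t, (1 / 2 : ℚ) ^ (48 * t * Fintype.card p.2.1.2.2)
      ≤ ∑ p : CertB N t, hcW (hcF p) := Finset.sum_le_sum fun p _ => h1 p
    _ ≤ ∑ q : HcT N, hcW q := h2
    _ = (1 / 2 : ℚ) ^ 24 * (2 - 2 * (1 / 2 : ℚ) ^ N) := by rw [h3, h4, hc_geo]
    _ ≤ (1 / 2 : ℚ) ^ 24 * 2 := by
        refine mul_le_mul_of_nonneg_left ?_ (by positivity)
        have : (0 : ℚ) ≤ 2 * (1 / 2 : ℚ) ^ N := by positivity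
        linarith
    _ ≤ 1 / 4 := by norm_num

end Pool.Agent.LGW
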