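import Pool.Agent.LGW.HDefs

/-!
# LGW-HBlk: a block with many elements, and the recurrence sequence
-/

namespace Pool.Agent.LGW

theorem exists_blk {t N l : ℕ} (hl : 1 ≤ l) (hlN : l ≤ N) (Z : Finset ℤ)
    (hZ : ∀ n ∈ Z, -(N : ℤ) < n ∧ n ≤ 0) (hcard : N < 3 * t * Z.card) :
    ∃ n₁ ∈ Z, l ≤ 6 * t * (Z.filter fun n => n₁ ≤ n ∧ n < n₁ + l).card := by
  classical
  by_contra hc
  push Not at hc
  set f : ℤ → ℕ := fun n => (n + N - 1).toNat / l with hf
  set M := (N - 1) / l + 1 with hM
  have h1 : ∀ x ∈ Z, f x ∈ Finset.range M := by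
    intro x hx
    obtain ⟨h2, h3⟩ := hZ x hx
    rw [Finset.mem_range, hM, hf]
    have h4 : (x + N - 1).toNat ≤ N - 1 := by omega
    have h5 := Nat.div_le_div_right (c := l) h4
    exact Nat.lt_succ_of_le h5
  have h2 := Finset.card_eq_sum_card_fiberwise h1
  have h3 : ∀ i ∈ Finset.range M, 6 * t * (Z.filter fun a => f a = i).card ≤ l := by
    intro i _
    rcases (Z.filter fun a => f a = i).eq_empty_or_nonempty with h4 | h4
    · rw [h4]; simp
    · obtain ⟨n₁, h5, h6⟩ := Finset.exists_min_image _ id h4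
      rw [Finset.mem_filter] at h5
      have h7 := hc n₁ h5.1
      have h8 : (Z.filter fun a => f a = i) ⊆ Z.filter fun n => n₁ ≤ n ∧ n < n₁ + l := by
        intro a ha
        have h9 : n₁ ≤ a := h6 a ha
        rw [Finset.mem_filter] at ha ⊢
        refine ⟨ha.1, h9, ?_⟩
        have e1 : (a + N - 1).toNat / l = i := ha.2
        have e2 : (n₁ + N - 1).toNat / l = i := h5.2
        have e3 := Nat.lt_mul_div_succ (a + N - 1).toNat hl
        have e4 := Nat.mul_div_le (n₁ + N - 1).toNat l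
        rw [e1, mul_add, mul_one] at e3
        rw [e2] at e4
        have e5 := hZ a ha.1
        have e6 := hZ n₁ h5.1
        omega
      exact (Nat.mul_le_mul_left _ (Finset.card_le_card h8)).trans h7.le
  have h4 : 6 * t * Z.card ≤ M * l := by
    rw [h2, Finset.mul_sum]
    refine (Finset.sum_le_sum h3).trans ?_
    rw [Finset.sum_const, Finset.card_range, smul_eq_mul]
  have h5 : M * l ≤ N - 1 + l := by
    rw [hM, add_mul, one_mul]
    have := Nat.div_mul_le_self (N - 1) l
    omega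
  have h6 : 6 * t * Z.card = 2 * (3 * t * Z.card) := by ring
  omega

theorem rsq_eq {l : ℕ} (c : Fin l → ZMod 2) (b : ℤ → ZMod 2) (n₁ : ℤ) (L : ℕ)
    (h : ∀ y : ℤ, n₁ ≤ y → y + l < n₁ + L → dft c b y = 0) (i : ℕ) (hi : i < L) :
    b (n₁ + i) = rsq c (fun j : Fin l => b (n₁ + (j : ℕ))) i := by
  induction i using Nat.strong_induction_on with
  | _ i ih =>
    rcases Nat.lt_or_ge i l with h1 | h1
    · have h2 := (⟨l, c⟩ : LinearRecurrence (ZMod 2)).mkSol_eq_init
        (fun j : Fin l => b (n₁ + (j : ℕ))) ⟨i, h1⟩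
      exact h2.symm
    · obtain ⟨k, rfl⟩ : ∃ k, i = k + l := ⟨i - l, by omega⟩
      have h2 := (⟨l, c⟩ : LinearRecurrence (ZMod 2)).is_sol_mkSol
        (fun j : Fin l => b (n₁ + (j : ℕ))) k
      have h3 : rsq c (fun j : Fin l => b (n₁ + (j : ℕ))) (k + l) =
          ∑ j : Fin l, c j * rsq c (fun j : Fin l => b (n₁ + (j : ℕ))) (k + j) := h2
      have h4 := h (n₁ + k) (by omega) (by omega)
      unfold dft at h4
      have h5 := CharTwo.add_eq_zero.1 h4
      rw [h3, Nat.cast_add, ← add_assoc, h5]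
      refine Finset.sum_congr rfl fun j _ => ?_
      rw [← ih (k + j) (by have := j.2; omega) (by have := j.2; omega), Nat.cast_add, ← add_assoc]

end Pool.Agent.LGW
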