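import Pool.Agent.LGW.HDefs

/-!
# LGW-HCrs: windows which cross a defect of the recurrence are independent

The defect is a linear function of a window; the extreme window of a dependence gives a contradiction.
-/

namespace Pool.Agent.LGW

private theorem hcrs_sum {N l : ℕ} {b : ℤ → ZMod 2} (c : Fin l → ZMod 2) (S : Finset ℤ)
    (g : S → ZMod 2) (hg : ∑ n : S, g n • rowv N b n = 0) (q : ℕ) (hq : q + l < 2 * N) :
    ∑ n : S, g n * dft c b ((n : ℤ) + q) = 0 := by
  have h1 : ∀ k : ℕ, (hk : k < 2 * N) → ∑ n : S, g n * b ((n : ℤ) + k) = 0 := by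
    intro k hk
    have := congrFun hg ⟨k, hk⟩
    simpa [Finset.sum_apply, rowv] using this
  have h2 : ∀ n : S, g n * dft c b ((n : ℤ) + q) =
      g n * b ((n : ℤ) + ((q + l : ℕ) : ℤ)) +
        ∑ i : Fin l, c i * (g n * b ((n : ℤ) + ((q + (i : ℕ) : ℕ) : ℤ))) := by
    intro n
    unfold dft
    rw [mul_add, Finset.mul_sum]
    congr 1
    · congr 2
      push_cast
      ring
    · refine Finset.sum_congr rfl fun i _ => ?_
      have : (n : ℤ) + q + (i : ℕ) = (n : ℤ) + ((q + (i : ℕ) : ℕ) : ℤ) := by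
        push_cast
        ring
      rw [this]
      ring
  rw [Finset.sum_congr rfl fun n _ => h2 n, Finset.sum_add_distrib, h1 _ hq, zero_add,
    Finset.sum_comm]
  refine Finset.sum_eq_zero fun i _ => ?_
  rw [← Finset.mul_sum, h1 (q + (i : ℕ)) (by have := i.2; omega), mul_zero]

theorem cross_right {N l : ℕ} {b : ℤ → ZMod 2} {c : Fin l → ZMod 2} {n₀ p : ℤ}
    (hn₀ : -(N : ℤ) < n₀) (hp : n₀ + 2 * N ≤ p) (hp1 : dft c b p ≠ 0)
    (hz : ∀ y, n₀ ≤ y → y < p → dft c b y = 0) (S : Finset ℤ)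
    (hS : ∀ n ∈ S, -(N : ℤ) < n ∧ n ≤ 0 ∧ p + l < n + 2 * N) :
    LinearIndependent (ZMod 2) (fun n : S => rowv N b n) := by
  rw [Fintype.linearIndependent_iff]
  intro g hg
  by_contra hne
  push Not at hne
  obtain ⟨i₀, hi₀⟩ := hne
  obtain ⟨m, hm, hmax⟩ := Finset.exists_max_image (Finset.univ.filter fun n : S => g n ≠ 0)
    (fun n : S => (n : ℤ)) ⟨i₀, by simp [hi₀]⟩
  have hgm : g m ≠ 0 := by simpa using hm
  have hmS := hS m m.2
  obtain ⟨q, hq⟩ := Int.eq_ofNat_of_zero_le (show 0 ≤ p - (m : ℤ) by omega)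
  have hsum := hcrs_sum c S g hg q (by omega)
  rw [Finset.sum_eq_single m] at hsum
  · have hpq : (m : ℤ) + q = p := by omega
    rw [hpq] at hsum
    rcases mul_eq_zero.1 hsum with h | h
    · exact hgm h
    · exact hp1 h
  · intro n _ hnm
    by_cases hgn : g n = 0
    · rw [hgn, zero_mul]
    · have hle : (n : ℤ) ≤ m := hmax n (by simp [hgn])
      have hne' : (n : ℤ) ≠ m := fun h => hnm (Subtype.ext h)
      have hnS := hS n n.2
      rw [hz _ (by omega) (by omega), mul_zero]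
  · intro h
    exact absurd (Finset.mem_univ m) h

theorem cross_left {N l : ℕ} {b : ℤ → ZMod 2} {c : Fin l → ZMod 2} {n₀ p Y : ℤ}
    (hn₀ : n₀ + l ≤ 0) (hp : p < n₀) (hp1 : dft c b p ≠ 0)
    (hz : ∀ y, p < y → y < Y → dft c b y = 0) (S : Finset ℤ)
    (hS : ∀ n ∈ S, -(N : ℤ) < n ∧ n ≤ p ∧ n + 2 * N ≤ Y + l) :
    LinearIndependent (ZMod 2) (fun n : S => rowv N b n) := by
  rw [Fintype.linearIndependent_iff]
  intro g hg
  by_contra hne
  push Not at hne
  obtain ⟨i₀, hi₀⟩ := hne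
  obtain ⟨m, hm, hmin⟩ := Finset.exists_min_image (Finset.univ.filter fun n : S => g n ≠ 0)
    (fun n : S => (n : ℤ)) ⟨i₀, by simp [hi₀]⟩
  have hgm : g m ≠ 0 := by simpa using hm
  have hmS := hS m m.2
  obtain ⟨q, hq⟩ := Int.eq_ofNat_of_zero_le (show 0 ≤ p - (m : ℤ) by omega)
  have hsum := hcrs_sum c S g hg q (by omega)
  rw [Finset.sum_eq_single m] at hsum
  · have hpq : (m : ℤ) + q = p := by omega
    rw [hpq] at hsum
    rcases mul_eq_zero.1 hsum with h | h
    · exact hgm h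
    · exact hp1 h
  · intro n _ hnm
    by_cases hgn : g n = 0
    · rw [hgn, zero_mul]
    · have hle : (m : ℤ) ≤ n := hmin n (by simp [hgn])
      have hne' : (n : ℤ) ≠ m := fun h => hnm (Subtype.ext h)
      have hnS := hS n n.2
      rw [hz _ (by omega) (by omega), mul_zero]
  · intro h
    exact absurd (Finset.mem_univ m) h

end Pool.Agent.LGW
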