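import Pool.Agent.LGW.HDep
import Pool.Agent.LGW.HCrs
import Pool.Agent.LGW.HBlk

/-!
# LGW-HStr: structure of the bad windows

structure theorem for the bad windows
-/

namespace Pool.Agent.LGW

private lemma li_sub {N l : ℕ} {s : ℤ} {b : ℤ → ZMod 2}
    (h : LinearIndependent (ZMod 2) (fun i : Fin l => rowv N b (s + (i : ℕ)))) {ι : Type*} (g : ι → ℤ)
    (hg : Function.Injective g) (hr : ∀ i, s ≤ g i ∧ g i < s + l) :
    LinearIndependent (ZMod 2) (fun i => rowv N b (g i)) := by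
  have hlt : ∀ i, (g i - s).toNat < l := fun i => by have := hr i; omega
  have he : Function.Injective (fun i => (⟨(g i - s).toNat, hlt i⟩ : Fin l)) := by
    intro i j hij
    apply hg
    have h1 : (g i - s).toNat = (g j - s).toNat := congrArg Fin.val hij
    have h2 := hr i
    have h3 := hr j
    omega
  have h1 := h.comp _ he
  have h2 : (fun i => rowv N b (g i)) =
      (fun i : Fin l => rowv N b (s + (i : ℕ))) ∘ (fun i => (⟨(g i - s).toNat, hlt i⟩ : Fin l)) := by
    funext i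
    have h3 : s + (((g i - s).toNat : ℕ) : ℤ) = g i := by
      have := hr i
      omega
    change rowv N b (g i) = rowv N b (s + (((g i - s).toNat : ℕ) : ℤ))
    rw [h3]
  rw [h2]
  exact h1

theorem str {t N : ℕ} (ht : 1 ≤ t) (hN : 1 ≤ N) (b : ℤ → ZMod 2) (z : ℤ) (hz0 : 0 ≤ z)
    (hzN : z ≤ (N : ℤ)) (hb : b z ≠ 0) (Z : Finset ℤ) (hZ : ∀ n ∈ Z, -(N : ℤ) < n ∧ n ≤ 0)
    (hcard : N < t * Z.card) :
    (∃ Z' ⊆ Z, N ≤ 3 * t * Z'.card ∧ LinearIndependent (ZMod 2) (fun n : Z' => rowv N b n)) ∨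
    ∃ l : ℕ, l < N ∧ ∃ (c y : Fin l → ZMod 2) (B : Finset (Fin l)) (n₁ : ℤ), B.Nonempty ∧
      l ≤ 6 * t * B.card ∧ (∀ j ∈ B, n₁ + ((j : ℕ) : ℤ) ∈ Z) ∧
      (∀ j ∈ B, ∀ q : Fin (2 * N), rowv N b (n₁ + ((j : ℕ) : ℤ)) q = rsq c y ((j : ℕ) + q)) ∧
      LinearIndependent (ZMod 2)
        (fun j : B => (fun q : Fin (2 * N) => rsq c y (((j : Fin l) : ℕ) + q))) := by
  classical
  have hne : ∀ n : ℤ, -(N : ℤ) < n → n ≤ 0 → rowv N b n ≠ 0 := by
    intro n hn hn0 h
    apply hb
    have hq : (z - n).toNat < 2 * N := by omega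
    have h1 := congrFun h ⟨(z - n).toNat, hq⟩
    have h2 : n + (((z - n).toNat : ℕ) : ℤ) = z := by omega
    have h3 : b (n + (((z - n).toNat : ℕ) : ℤ)) = 0 := h1
    rwa [h2] at h3
  rcases exists_min_dep hN b hne with hI | ⟨l, hl1, hlN, hind, n₀, c, hn0, hn0l, hd⟩
  · left
    refine ⟨Z, Finset.Subset.refl _, by nlinarith, ?_⟩
    refine li_sub hI (fun n : Z => (n : ℤ)) Subtype.val_injective ?_
    intro n
    have := hZ n n.2
    omega
  -- the right end of the good zone
  obtain ⟨p, hp0, hp1⟩ : ∃ p : ℤ, (∀ y, n₀ ≤ y → y < p → dft c b y = 0) ∧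
      ((dft c b p ≠ 0 ∧ n₀ + 2 * N ≤ p) ∨ p = 2 * N - l) := by
    by_cases hR : ((Finset.Ico n₀ (2 * (N : ℤ) - l)).filter fun y => dft c b y ≠ 0).Nonempty
    · refine ⟨_, ?_, Or.inl ⟨(Finset.mem_filter.1 (Finset.min'_mem _ hR)).2, ?_⟩⟩
      · intro y hy hyp
        by_contra h
        have hm := Finset.min'_mem _ hR
        rw [Finset.mem_filter, Finset.mem_Ico] at hm
        have hy2 : y ∈ (Finset.Ico n₀ (2 * (N : ℤ) - l)).filter fun y => dft c b y ≠ 0 := by
          rw [Finset.mem_filter, Finset.mem_Ico]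
          exact ⟨⟨hy, by omega⟩, h⟩
        have := Finset.min'_le _ y hy2
        omega
      · have hm := Finset.min'_mem _ hR
        rw [Finset.mem_filter, Finset.mem_Ico] at hm
        by_contra h
        exact hm.2 (hd _ hm.1.1 (by omega))
    · refine ⟨2 * N - l, ?_, Or.inr rfl⟩
      intro y hy hyp
      by_contra h
      exact hR ⟨y, by rw [Finset.mem_filter, Finset.mem_Ico]; exact ⟨⟨hy, hyp⟩, h⟩⟩
  -- the left end of the good zone
  obtain ⟨p', hq0, hq1⟩ : ∃ p' : ℤ, (∀ y, p' < y → y < n₀ → dft c b y = 0) ∧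
      ((dft c b p' ≠ 0 ∧ p' < n₀) ∨ p' = -(N : ℤ)) := by
    by_cases hL : ((Finset.Ioo (-(N : ℤ)) n₀).filter fun y => dft c b y ≠ 0).Nonempty
    · refine ⟨_, ?_, Or.inl ⟨(Finset.mem_filter.1 (Finset.max'_mem _ hL)).2, ?_⟩⟩
      · intro y hyp hy
        by_contra h
        have hm := Finset.max'_mem _ hL
        rw [Finset.mem_filter, Finset.mem_Ioo] at hm
        have hy2 : y ∈ (Finset.Ioo (-(N : ℤ)) n₀).filter fun y => dft c b y ≠ 0 := by
          rw [Finset.mem_filter, Finset.mem_Ioo]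
          exact ⟨⟨by omega, hy⟩, h⟩
        have := Finset.le_max' _ y hy2
        omega
      · have hm := Finset.max'_mem _ hL
        rw [Finset.mem_filter, Finset.mem_Ioo] at hm
        exact hm.1.2
    · refine ⟨-(N : ℤ), ?_, Or.inr rfl⟩
      intro y hyp hy
      by_contra h
      exact hL ⟨y, by rw [Finset.mem_filter, Finset.mem_Ioo]; exact ⟨⟨hyp, hy⟩, h⟩⟩
  have hgood : ∀ y, p' < y → y < p → dft c b y = 0 := by
    intro y h1 h2
    by_cases h3 : y < n₀
    · exact hq0 y h1 h3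
    · exact hp0 y (by omega) h2
  -- the three parts of `Z`
  by_cases hA : N ≤ 3 * t * (Z.filter fun n => p + l < n + 2 * N).card
  · left
    refine ⟨_, Finset.filter_subset _ _, hA, ?_⟩
    rcases hp1 with ⟨h1, h2⟩ | h1
    · refine cross_right hn0 h2 h1 hp0 _ ?_
      intro n hn
      rw [Finset.mem_filter] at hn
      have := hZ n hn.1
      exact ⟨this.1, this.2, hn.2⟩
    · exfalso
      have h2 : (Z.filter fun n => p + l < n + 2 * N) = ∅ := by
        rw [Finset.filter_eq_empty_iff]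
        intro n hn
        have := hZ n hn
        omega
      rw [h2, Finset.card_empty, mul_zero] at hA
      omega
  by_cases hB : N ≤ 3 * t * (Z.filter fun n => ¬ (p + l < n + 2 * N) ∧ n ≤ p').card
  · left
    refine ⟨_, Finset.filter_subset _ _, hB, ?_⟩
    rcases hq1 with ⟨h1, h2⟩ | h1
    · refine cross_left hn0l h2 h1 hgood _ ?_
      intro n hn
      rw [Finset.mem_filter] at hn
      have := hZ n hn.1
      exact ⟨this.1, hn.2.2, by have := hn.2.1; omega⟩
    · exfalso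
      have h2 : (Z.filter fun n => ¬ (p + l < n + 2 * N) ∧ n ≤ p') = ∅ := by
        rw [Finset.filter_eq_empty_iff]
        intro n hn
        have := hZ n hn
        omega
      rw [h2, Finset.card_empty, mul_zero] at hB
      omega
  right
  set ZI := Z.filter fun n => ¬ (p + l < n + 2 * N) ∧ p' < n with hZI
  have hsplit : Z.card = (Z.filter fun n => p + l < n + 2 * N).card +
      (Z.filter fun n => ¬ (p + l < n + 2 * N) ∧ n ≤ p').card + ZI.card := by
    rw [← Finset.card_union_of_disjoint, ← Finset.card_union_of_disjoint]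
    · congr 1
      ext n
      simp only [Finset.mem_union, Finset.mem_filter, hZI]
      constructor
      · intro hn
        by_cases h1 : p + l < n + 2 * N
        · exact Or.inl (Or.inl ⟨hn, h1⟩)
        · by_cases h2 : n ≤ p'
          · exact Or.inl (Or.inr ⟨hn, h1, h2⟩)
          · exact Or.inr ⟨hn, h1, by omega⟩
      · rintro ((h | h) | h)
        · exact h.1
        · exact h.1
        · exact h.1
    · rw [Finset.disjoint_left]
      intro n hn hn2
      rw [hZI, Finset.mem_filter] at hn2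
      rw [Finset.mem_union, Finset.mem_filter, Finset.mem_filter] at hn
      rcases hn with h | h
      · exact hn2.2.1 h.2
      · have h1 := h.2.2
        have h2 := hn2.2.2
        omega
    · rw [Finset.disjoint_left]
      intro n hn hn2
      rw [Finset.mem_filter] at hn hn2
      exact hn2.2.1 hn.2
  have hcI : N < 3 * t * ZI.card := by
    have h1 : 3 * t * Z.card = 3 * t * (Z.filter fun n => p + l < n + 2 * N).card +
      3 * t * (Z.filter fun n => ¬ (p + l < n + 2 * N) ∧ n ≤ p').card + 3 * t * ZI.card := by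
      rw [hsplit]; ring
    have h2 : 3 * t * Z.card = 3 * (t * Z.card) := by ring
    omega
  have hZI' : ∀ n ∈ ZI, -(N : ℤ) < n ∧ n ≤ 0 := fun n hn => hZ n (Finset.mem_filter.1 hn).1
  obtain ⟨n₁, hn1, hblk⟩ := exists_blk hl1 hlN.le ZI hZI' hcI
  obtain ⟨B, hBd⟩ : ∃ B : Finset (Fin l), B = Finset.univ.filter fun j : Fin l => n₁ + ((j : ℕ) : ℤ) ∈ ZI := ⟨_, rfl⟩
  have hBdef : ∀ j : Fin l, j ∈ B ↔ n₁ + ((j : ℕ) : ℤ) ∈ ZI := fun j => by rw [hBd]; simp
  have hcB : (ZI.filter fun n => n₁ ≤ n ∧ n < n₁ + l).card ≤ B.card := by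
    refine Finset.card_le_card_of_surjOn (fun j : Fin l => n₁ + ((j : ℕ) : ℤ)) ?_
    intro n hn
    rw [Finset.mem_coe, Finset.mem_filter] at hn
    have hlt : (n - n₁).toNat < l := by omega
    have h3 : n₁ + (((n - n₁).toNat : ℕ) : ℤ) = n := by omega
    refine ⟨⟨(n - n₁).toNat, hlt⟩, ?_, h3⟩
    rw [Finset.mem_coe, hBdef]
    change n₁ + (((n - n₁).toNat : ℕ) : ℤ) ∈ ZI
    rw [h3]
    exact hn.1
  have hrow : ∀ j ∈ B, ∀ q : Fin (2 * N), rowv N b (n₁ + ((j : ℕ) : ℤ)) q =
        rsq c (fun i : Fin l => b (n₁ + (i : ℕ))) ((j : ℕ) + q) := by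
    intro j hj q
    rw [hBdef, hZI, Finset.mem_filter] at hj
    rw [hZI, Finset.mem_filter] at hn1
    have hq := q.2
    have h1 := rsq_eq c b n₁ ((j : ℕ) + 2 * N) (by
      intro y hy1 hy2
      refine hgood y ?_ ?_
      · have := hn1.2.2
        omega
      · have := hj.2.1
        push_cast at hy2
        omega) ((j : ℕ) + q) (by omega)
    rw [← h1]
    unfold rowv
    congr 1
    push_cast
    ring
  refine ⟨l, hlN, c, fun i : Fin l => b (n₁ + (i : ℕ)), B, n₁, ?_, ?_, ?_, hrow, ?_⟩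
  · refine ⟨⟨0, hl1⟩, ?_⟩
    rw [hBdef]
    simpa using hn1
  · exact hblk.trans (Nat.mul_le_mul_left _ hcB)
  · intro j hj
    rw [hBdef] at hj
    exact (Finset.mem_filter.1 hj).1
  · have h1 : (fun j : B =>
        (fun q : Fin (2 * N) => rsq c (fun i : Fin l => b (n₁ + (i : ℕ))) (((j : Fin l) : ℕ) + q))) =
        fun j : B => rowv N b (n₁ + (((j : Fin l) : ℕ) : ℤ)) := by
      funext j q
      exact (hrow j j.2 q).symm
    rw [h1]
    have hs1 : -(N : ℤ) < min n₁ (1 - l) := by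
      have := (hZI' n₁ hn1).1
      rw [lt_min_iff]
      constructor
      · exact this
      · omega
    have hs2 : min n₁ (1 - (l : ℤ)) + l ≤ 1 := by
      have := min_le_right n₁ (1 - (l : ℤ))
      omega
    refine li_sub (hind _ hs1 hs2) (fun j : B => n₁ + (((j : Fin l) : ℕ) : ℤ)) ?_ ?_
    · intro i j hij
      have h2 : (((i : Fin l) : ℕ) : ℤ) = (((j : Fin l) : ℕ) : ℤ) := by
        have h3 : n₁ + (((i : Fin l) : ℕ) : ℤ) = n₁ + (((j : Fin l) : ℕ) : ℤ) := hij
        omega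
      exact Subtype.ext (Fin.ext (by exact_mod_cast h2))
    · intro j
      have h2 := (hBdef j).1 j.2
      have h3 := (hZI' _ h2).2
      have h4 := (j : Fin l).2
      have h5 := min_le_left n₁ (1 - (l : ℤ))
      refine ⟨by omega, ?_⟩
      rcases min_choice n₁ (1 - (l : ℤ)) with h6 | h6
      · rw [h6]; omega
      · rw [h6]; omega
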