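import Mathlib

/-!
# LGW-HUB: the union bound
-/

namespace Pool.Agent.LGW

private theorem hub_card {n m : ℕ} {κ : Type*} [Fintype κ] (u : κ → Fin n → ZMod 2)
    (hu : LinearIndependent (ZMod 2) u) :
    Nat.card {f : Fin m → Fin n → ZMod 2 // ∀ s j, f s ⬝ᵥ u j = 0} * 2 ^ (m * Fintype.card κ) =
      (2 ^ n) ^ m := by
  classical
  set M : Matrix κ (Fin n) (ZMod 2) := Matrix.of u with hM
  have h1 : M.rank = Fintype.card κ := LinearIndependent.rank_matrix hu
  have h2 := LinearMap.finrank_range_add_finrank_ker M.mulVecLin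
  have h3 : Module.finrank (ZMod 2) (LinearMap.range M.mulVecLin) = Fintype.card κ := h1
  rw [h3, Module.finrank_fin_fun] at h2
  have h4 : Nat.card (LinearMap.ker M.mulVecLin) =
      2 ^ Module.finrank (ZMod 2) (LinearMap.ker M.mulVecLin) := by
    rw [Module.natCard_eq_pow_finrank (K := ZMod 2)]
    simp
  have h5 : Nat.card {f : Fin m → Fin n → ZMod 2 // ∀ s j, f s ⬝ᵥ u j = 0} =
      Nat.card (LinearMap.ker M.mulVecLin) ^ m := by
    have h6 : ∀ f : Fin n → ZMod 2, f ∈ LinearMap.ker M.mulVecLin ↔ ∀ j, f ⬝ᵥ u j = 0 := by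
      intro f
      rw [LinearMap.mem_ker, Matrix.mulVecLin_apply, funext_iff]
      refine forall_congr' fun j => ?_
      show u j ⬝ᵥ f = 0 ↔ _
      rw [dotProduct_comm]
    have e : {f : Fin m → Fin n → ZMod 2 // ∀ s j, f s ⬝ᵥ u j = 0} ≃
        (Fin m → LinearMap.ker M.mulVecLin) :=
      { toFun := fun f s => ⟨f.1 s, (h6 _).2 (f.2 s)⟩
        invFun := fun g => ⟨fun s => (g s).1, fun s => (h6 _).1 (g s).2⟩
        left_inv := fun f => rfl
        right_inv := fun g => rfl }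
    rw [Nat.card_congr e, Nat.card_pi, Finset.prod_const, Finset.card_univ, Fintype.card_fin]
  rw [h5, h4, ← pow_mul, ← pow_add, ← pow_mul]
  congr 1
  generalize Module.finrank (ZMod 2) (LinearMap.ker M.mulVecLin) = r at h2
  subst h2
  ring

theorem union_bound {n m : ℕ} {ι : Type*} [Fintype ι] (κ : ι → Type*) [∀ i, Fintype (κ i)]
    (u : ∀ i, κ i → Fin n → ZMod 2) (hu : ∀ i, LinearIndependent (ZMod 2) (u i))
    (hs : ∑ i, (1 / 2 : ℚ) ^ (m * Fintype.card (κ i)) < 1) :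
    ∃ f : Fin m → Fin n → ZMod 2, ∀ i, ∃ s j, f s ⬝ᵥ u i j ≠ 0 := by
  classical
  by_contra hc
  push Not at hc
  let T : ι → Finset (Fin m → Fin n → ZMod 2) := fun i =>
    Finset.univ.filter fun f => ∀ s j, f s ⬝ᵥ u i j = 0
  have h1 : (Finset.univ : Finset (Fin m → Fin n → ZMod 2)) ⊆ Finset.univ.biUnion T := by
    intro f _
    obtain ⟨i, hi⟩ := hc f
    exact Finset.mem_biUnion.2 ⟨i, Finset.mem_univ i, Finset.mem_filter.2 ⟨Finset.mem_univ _, hi⟩⟩
  have h2 : (2 ^ n) ^ m ≤ ∑ i, (T i).card := by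
    have h3 := (Finset.card_le_card h1).trans Finset.card_biUnion_le
    have h4 : (Finset.univ : Finset (Fin m → Fin n → ZMod 2)).card = (2 ^ n) ^ m := by
      rw [Finset.card_univ]
      simp
    rwa [h4] at h3
  have h3 : ∀ i, ((T i).card : ℚ) = (2 ^ n) ^ m * (1 / 2 : ℚ) ^ (m * Fintype.card (κ i)) := by
    intro i
    have h4 := hub_card (m := m) (u i) (hu i)
    have h5 : Nat.card {f : Fin m → Fin n → ZMod 2 // ∀ s j, f s ⬝ᵥ u i j = 0} = (T i).card := by
      rw [Nat.card_eq_fintype_card, Fintype.card_subtype]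
    rw [h5] at h4
    have h6 : ((T i).card : ℚ) * 2 ^ (m * Fintype.card (κ i)) = (2 ^ n) ^ m := by
      exact_mod_cast h4
    rw [← h6, mul_assoc, ← mul_pow]
    norm_num
  have h4 : ((2 : ℚ) ^ n) ^ m ≤ ∑ i, ((T i).card : ℚ) := by exact_mod_cast h2
  rw [Finset.sum_congr rfl fun i _ => h3 i, ← Finset.mul_sum] at h4
  have h5 : (0 : ℚ) < (2 ^ n) ^ m := by positivity
  have h6 := mul_lt_mul_of_pos_left hs h5
  rw [mul_one] at h6
  exact absurd h4 (not_le.2 h6)

end Pool.Agent.LGW
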