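import Pool.Agent.LGW.Defs
import Pool.Agent.LGW.HUB
import Pool.Agent.LGW.HStr
import Pool.Agent.LGW.HCnt

/-!
# LGW-Hit: the hitting lemma over `𝔽₂`

PLAN. Apply `union_bound` with `n = 2N`, `m = 48 t`, `ι = CertA N t ⊕ CertB N t`, the rows `rowA`, `rowB`
(`Fintype.sum_sum_type`, `sumA`, `sumB`: `1/4 + 1/4 < 1`); the `κ` are the subtypes of the finsets
(`Sum.elim` or a `match`; `ι` in universe `0`). It gives `f : Fin (48 t) → Fin (2N) → ZMod 2`; put
`F s = {q : ℤ | f s q = 1}` (`(Finset.univ.filter (f s · = 1)).map/image (fun q : Fin (2N) => ((q : ℕ) : ℤ))`). For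
every row `v` of the form `fun q => b (n + q)`: `f s ⬝ᵥ v = ∑_{q ∈ F s} b (n + q)` (values in `ZMod 2` are `0` or
`1`; `Finset.sum_image` injective, `Finset.sum_filter`). Let `b, z, S` be as in the definition of `Hit` and
suppose `N < t * S.card`; apply `str` with `Z = S`. First case `Z' ⊆ S`: the certificate
`β j = b (-N + 1 + j)`, `{i : Fin N | -N + 1 + i ∈ Z'}` (same cardinality as `Z'`, the rows are the rows
`rowv N b n`, `n = -N + 1 + i`; independence: `LinearIndependent.comp` with the injection, or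
`linearIndependent_equiv`); the union bound gives `s` and `n ∈ Z' ⊆ S` with `∑_{q ∈ F s} b (n + q) ≠ 0`,
contradiction. Second case: the certificate `⟨⟨l, _⟩, (c, y, B)⟩`; the union bound gives `s`, `j ∈ B` with
`f s ⬝ᵥ rowB … ≠ 0`, but this row is `rowv N b (n₁ + j)`, `n₁ + j ∈ S`.
-/

namespace Pool.Agent.LGW

private theorem zm2 (a b : ZMod 2) : a * b = if a = 1 then b else 0 := by
  revert a b; decide

/-- The finset of a form. -/
private noncomputable def FF {m N : ℕ} (f : Fin m → Fin (2 * N) → ZMod 2) (s : Fin m) : Finset ℤ := by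
  classical
  exact (Finset.univ.filter fun q => f s q = 1).image fun q : Fin (2 * N) => ((q : ℕ) : ℤ)

private theorem FF_sum {m N : ℕ} (f : Fin m → Fin (2 * N) → ZMod 2) (s : Fin m) (b : ℤ → ZMod 2)
    (n : ℤ) : f s ⬝ᵥ rowv N b n = ∑ q ∈ FF f s, b (n + q) := by
  classical
  unfold FF
  rw [Finset.sum_image (fun x _ y _ h => by
    apply Fin.ext
    have h' : ((x : ℕ) : ℤ) = ((y : ℕ) : ℤ) := h
    exact_mod_cast h'), Finset.sum_filter]
  unfold dotProduct rowv
  exact Finset.sum_congr rfl fun q _ => zm2 _ _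

/-- The index types. -/
private def kap (N t : ℕ) : CertA N t ⊕ CertB N t → Type
  | .inl p => {i // i ∈ p.1.2}
  | .inr p => {j // j ∈ p.2.1.2.2}

private noncomputable instance kapF (N t : ℕ) : ∀ i, Fintype (kap N t i)
  | .inl p => inferInstanceAs (Fintype {i // i ∈ p.1.2})
  | .inr p => inferInstanceAs (Fintype {j // j ∈ p.2.1.2.2})

private def rws (N t : ℕ) : ∀ i, kap N t i → Fin (2 * N) → ZMod 2
  | .inl p => fun i : {i // i ∈ p.1.2} => rowA N p.1.1 i.1
  | .inr p => fun j : {j // j ∈ p.2.1.2.2} => rowB N p.2.1.1 p.2.1.2.1 j.1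

theorem hit_exists {t N : ℕ} (ht : 1 ≤ t) (hN : 1 ≤ N) :
    ∃ f : Fin (48 * t) → Finset ℤ, Hit t N f := by
  classical
  obtain ⟨f, hf⟩ := union_bound (n := 2 * N) (m := 48 * t) (kap N t) (rws N t)
    (by
      rintro (p | p)
      · exact p.2.2
      · exact p.2.2.2.2)
    (by
      rw [Fintype.sum_sum_type]
      have h1 := sumA (t := t) (N := N) ht hN
      have h2 := sumB (t := t) (N := N) ht
      have e1 : ∑ x : CertA N t, (1 / 2 : ℚ) ^ (48 * t * Fintype.card (kap N t (Sum.inl x))) ≤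
          1 / 4 := h1
      have e2 : ∑ x : CertB N t, (1 / 2 : ℚ) ^ (48 * t * Fintype.card (kap N t (Sum.inr x))) ≤
          1 / 4 := h2
      linarith)
  refine ⟨FF f, fun s q hq => ?_, fun b z hz0 hzN hb S hS => ?_⟩
  · unfold FF at hq
    obtain ⟨x, _, rfl⟩ := Finset.mem_image.1 hq
    have := x.2
    constructor
    · exact_mod_cast Nat.zero_le _
    · exact_mod_cast this
  · by_contra hlt
    push Not at hlt
    rcases str ht hN b z hz0 hzN hb S (fun n hn => ⟨(hS n hn).1, (hS n hn).2.1⟩) hlt with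
      ⟨Z', hZ', hc, hli⟩ | ⟨l, hl, c, y, B, n₁, hB0, hBc, hBS, hrow, hli⟩
    · have hr : ∀ n ∈ Z', -(N : ℤ) < n ∧ n ≤ 0 := fun n hn =>
        ⟨(hS n (hZ' hn)).1, (hS n (hZ' hn)).2.1⟩
      have hcard : (Finset.univ.filter fun i : Fin N => (-(N : ℤ) + 1 + ((i : ℕ) : ℤ)) ∈ Z').card =
          Z'.card := by
        refine Finset.card_bij (fun i _ => -(N : ℤ) + 1 + ((i : ℕ) : ℤ)) ?_ ?_ ?_
        · intro i hi
          exact (Finset.mem_filter.1 hi).2
        · intro i _ j _ h
          apply Fin.ext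
          have h' : -(N : ℤ) + 1 + ((i : ℕ) : ℤ) = -(N : ℤ) + 1 + ((j : ℕ) : ℤ) := h
          omega
        · intro n hn
          have h1 := hr n hn
          refine ⟨⟨(n + N - 1).toNat, by omega⟩, ?_, ?_⟩
          · rw [Finset.mem_filter]
            refine ⟨Finset.mem_univ _, ?_⟩
            have : -(N : ℤ) + 1 + (((n + N - 1).toNat : ℕ) : ℤ) = n := by omega
            simpa only [this] using hn
          · show -(N : ℤ) + 1 + (((n + N - 1).toNat : ℕ) : ℤ) = n
            omega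
      have hrow : ∀ i : Fin N, rowA N (fun j : Fin (3 * N) => b (-(N : ℤ) + 1 + ((j : ℕ) : ℤ))) i =
          rowv N b (-(N : ℤ) + 1 + ((i : ℕ) : ℤ)) := by
        intro i
        funext q
        show b (-(N : ℤ) + 1 + (((i : ℕ) + (q : ℕ) : ℕ) : ℤ)) =
          b (-(N : ℤ) + 1 + ((i : ℕ) : ℤ) + ((q : ℕ) : ℤ))
        have h : -(N : ℤ) + 1 + (((i : ℕ) + (q : ℕ) : ℕ) : ℤ) =
            -(N : ℤ) + 1 + ((i : ℕ) : ℤ) + ((q : ℕ) : ℤ) := by
          push_cast
          ring
        rw [h]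
      let C : CertA N t := ⟨(fun j => b (-(N : ℤ) + 1 + ((j : ℕ) : ℤ)),
        Finset.univ.filter fun i : Fin N => (-(N : ℤ) + 1 + ((i : ℕ) : ℤ)) ∈ Z'), by
          rw [hcard]; exact hc, by
          have hg : Function.Injective (fun i : {i : Fin N // i ∈ Finset.univ.filter fun i : Fin N =>
              (-(N : ℤ) + 1 + ((i : ℕ) : ℤ)) ∈ Z'} =>
              (⟨-(N : ℤ) + 1 + ((i.1 : ℕ) : ℤ), (Finset.mem_filter.1 i.2).2⟩ : Z')) := by
            intro i j h
            have h' : -(N : ℤ) + 1 + ((i.1 : ℕ) : ℤ) = -(N : ℤ) + 1 + ((j.1 : ℕ) : ℤ) :=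
              congrArg Subtype.val h
            apply Subtype.ext
            apply Fin.ext
            omega
          have := hli.comp _ hg
          convert this using 1
          funext i
          exact hrow i.1⟩
      obtain ⟨s, j, hj⟩ := hf (Sum.inl C)
      apply hj
      have hj2 : (-(N : ℤ) + 1 + ((j.1 : ℕ) : ℤ)) ∈ Z' := (Finset.mem_filter.1 j.2).2
      show f s ⬝ᵥ rowA N (fun j : Fin (3 * N) => b (-(N : ℤ) + 1 + ((j : ℕ) : ℤ))) j.1 = 0
      rw [hrow, FF_sum]
      exact (hS _ (hZ' hj2)).2.2 s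
    · let C : CertB N t := ⟨⟨l, hl⟩, (c, y, B), hB0, hBc, hli⟩
      obtain ⟨s, j, hj⟩ := hf (Sum.inr C)
      apply hj
      have hj2 : j.1 ∈ B := j.2
      show f s ⬝ᵥ rowB N c y j.1 = 0
      have : rowB N c y j.1 = rowv N b (n₁ + ((j.1 : ℕ) : ℤ)) := by
        funext q
        exact (hrow j.1 hj2 q).symm
      rw [this, FF_sum]
      exact (hS _ (hBS _ hj2)).2.2 s

end Pool.Agent.LGW
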