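import Pool.Agent.LGW.Sch
import Pool.Agent.LGW.OmP

/-!
# LGW-GenD: generators of the group of closed paths, direction `0`

PLAN. By `sch` it is enough to treat `sg x y i` with `y, y + e_i ∈ Icc α β`. `i = 0`: `sg x y 0 = 1`
(`om x (y + e_0) = om x y * x 0` by `om_succ`). `i ≠ 0`: write `i = i'.succ`, `g' = om x' y'` (tails),
`X a = x 0 ^ a * x i * (x 0 ^ a)⁻¹`, so `sg x y i = g' * X (y 0) * (om x' (y' + e_{i'}))⁻¹`. Since
`X (a + 1) = (x 0 ^ a * ⁅x 0, x i⁆ * (x 0 ^ a)⁻¹) * X a`,
`g' * X (a+1) * h⁻¹ = tr x (Fin.cons a y') ⁅x 0, x i⁆ * (g' * X a * h⁻¹)`. Induction on `|y 0|` (from `a = 0` up to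
`y 0`, or down to it) shows `sg x y i ∈ closure (…)` as soon as `g' * X 0 * h⁻¹ = sg x (Fin.cons 0 y') i` is; the
points `Fin.cons a y'` with `a` between `0` and `y 0` are in the box (`a = y 0` is not needed). Finally
`sg x (Fin.cons 0 y') i` is a closed path in `{w ∈ Icc α β | w 0 = 0} ⊆ D` (`rch_om` for `om x (Fin.cons 0 y')`,
then `x i`, then back along `om x (Fin.cons 0 (y' + e_{i'}))`).
`gen_let` (all letters): induction on `k`, the same computation; the remaining element
`sg x (Fin.cons 0 y') i'.succ = sg x' y' i'` is in the closure of the letters of `x'` in the box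
`Icc α' β'` (tails) by induction, and `tr x' w ⁅x' a, x' b⁆ = tr x (Fin.cons 0 w) ⁅x a.succ, x b.succ⁆`
(the point `Fin.cons 0 w` is in `Icc α β` because `α 0 ≤ 0 ≤ β 0`). For `tr x (Fin.cons a y') ⁅x 0, x i⁆`
with `a` strictly on the side of `0`: `Fin.cons a y' + e_0 + e_i ≤ β` because `a + 1 ≤ max 0 (y 0) ≤ β 0` and
`y + e_i ≤ β`. (Do the induction for the statement about `sg x y i` with `y, y + e_i ∈ Icc α β`, `k` arbitrary.)
-/

open scoped commutatorElement

namespace Pool.Agent.LGW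

open Pool.Agent.Helper33.CW2

variable {G : Type*} [Group G]

lemma cons_add_single {k : ℕ} (a : ℤ) (y' : Fin k → ℤ) (i' : Fin k) :
    (Fin.cons a y' : Fin (k + 1) → ℤ) + Pi.single i'.succ 1 =
      Fin.cons a (y' + Pi.single i' 1) := by
  funext j
  refine Fin.cases ?_ (fun j' => ?_) j
  · have h : (Pi.single i'.succ (1 : ℤ) : Fin (k + 1) → ℤ) 0 = 0 :=
      Pi.single_eq_of_ne (Fin.succ_ne_zero i').symm _
    rw [Pi.add_apply, h, Fin.cons_zero, Fin.cons_zero, add_zero]
  · rw [Pi.add_apply, Fin.cons_succ, Fin.cons_succ, Pi.add_apply]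
    congr 1
    by_cases hj : j' = i'
    · subst hj; rw [Pi.single_eq_same, Pi.single_eq_same]
    · rw [Pi.single_eq_of_ne hj, Pi.single_eq_of_ne (fun h => hj (Fin.succ_injective _ h))]

lemma om_cons {k : ℕ} (x : Fin (k + 1) → G) (a : ℤ) (y' : Fin k → ℤ) :
    om x (Fin.cons a y') = om (fun i => x i.succ) y' * x 0 ^ a := rfl

lemma sg_cons {k : ℕ} (x : Fin (k + 1) → G) (a : ℤ) (y' : Fin k → ℤ) (i' : Fin k) :
    sg x (Fin.cons a y') i'.succ = om (fun i => x i.succ) y' *
      (x 0 ^ a * x i'.succ * (x 0 ^ a)⁻¹) *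
        (om (fun i => x i.succ) (y' + Pi.single i' 1))⁻¹ := by
  unfold sg
  rw [cons_add_single, om_cons, om_cons]
  group

lemma sg_cons_zero {k : ℕ} (x : Fin (k + 1) → G) (y' : Fin k → ℤ) (i' : Fin k) :
    sg x (Fin.cons 0 y') i'.succ = sg (fun i => x i.succ) y' i' := by
  rw [sg_cons, zpow_zero]
  unfold sg
  rw [one_mul, inv_one, mul_one]

lemma sg_step {k : ℕ} (x : Fin (k + 1) → G) (a : ℤ) (y' : Fin k → ℤ) (i' : Fin k) :
    sg x (Fin.cons (a + 1) y') i'.succ =
      tr x (Fin.cons a y') ⁅x 0, x i'.succ⁆ * sg x (Fin.cons a y') i'.succ := by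
  rw [sg_cons, sg_cons]
  unfold tr
  rw [om_cons, commutatorElement_def, zpow_add, zpow_one]
  group

lemma sg_zero {k : ℕ} (x : Fin (k + 1) → G) (y : Fin (k + 1) → ℤ) : sg x y 0 = 1 := by
  unfold sg
  have h1 : (fun i : Fin k => (y + Pi.single 0 1 : Fin (k + 1) → ℤ) i.succ) =
      fun i => y i.succ := by
    funext j
    rw [Pi.add_apply, Pi.single_eq_of_ne (Fin.succ_ne_zero j), add_zero]
  rw [om_succ, om_succ, h1, Pi.add_apply, Pi.single_eq_same, zpow_add, zpow_one]
  group

lemma sg_line {k : ℕ} (H : Subgroup G) (x : Fin (k + 1) → G) (y' : Fin k → ℤ) (i' : Fin k)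
    (h0 : sg x (Fin.cons 0 y') i'.succ ∈ H) (a : ℤ)
    (h : ∀ b : ℤ, min 0 a ≤ b → b < max 0 a →
      tr x (Fin.cons b y') ⁅x 0, x i'.succ⁆ ∈ H) :
    sg x (Fin.cons a y') i'.succ ∈ H := by
  have hpos : ∀ n : ℕ, (∀ b : ℤ, 0 ≤ b → b < n → tr x (Fin.cons b y') ⁅x 0, x i'.succ⁆ ∈ H) →
      sg x (Fin.cons (n : ℤ) y') i'.succ ∈ H := by
    intro n
    induction n with
    | zero => intro _; exact_mod_cast h0
    | succ n ih =>
      intro hb
      have h1 := ih fun b hb0 hbn => hb b hb0 (by push_cast; omega)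
      have h2 := hb n (by positivity) (by push_cast; omega)
      have h3 := sg_step x (n : ℤ) y' i'
      push_cast
      rw [h3]
      exact H.mul_mem h2 h1
  have hneg : ∀ n : ℕ, (∀ b : ℤ, -(n : ℤ) ≤ b → b < 0 →
      tr x (Fin.cons b y') ⁅x 0, x i'.succ⁆ ∈ H) →
      sg x (Fin.cons (-(n : ℤ)) y') i'.succ ∈ H := by
    intro n
    induction n with
    | zero => intro _; simpa using h0
    | succ n ih =>
      intro hb
      have h1 := ih fun b hb0 hbn => hb b (by push_cast; omega) hbn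
      have h2 := hb (-((n + 1 : ℕ) : ℤ)) le_rfl (by push_cast; omega)
      have h3 := sg_step x (-((n + 1 : ℕ) : ℤ)) y' i'
      have h4 : (-((n + 1 : ℕ) : ℤ)) + 1 = -(n : ℤ) := by push_cast; ring
      rw [h4] at h3
      rw [h3] at h1
      exact (H.mul_mem_cancel_left h2).1 h1
  rcases le_total 0 a with ha | ha
  · have h1 := hpos a.toNat fun b hb0 hbn => h b (by omega) (by omega)
    have h2 : ((a.toNat : ℕ) : ℤ) = a := Int.toNat_of_nonneg ha
    rwa [h2] at h1
  · have h2 : (((-a).toNat : ℕ) : ℤ) = -a := Int.toNat_of_nonneg (by omega)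
    have h1 := hneg (-a).toNat fun b hb0 hbn => h b (by omega) (by omega)
    rwa [h2, neg_neg] at h1

theorem gen_dir {K : ℕ} (x : Fin (K + 1) → G) (α β : Fin (K + 1) → ℤ) (hα : α ≤ 0) (hβ : 0 ≤ β)
    (D : Set (Fin (K + 1) → ℤ)) (hD : ∀ v ∈ Set.Icc α β, v 0 = 0 → v ∈ D) {t : G}
    (ht : Rch x (Set.Icc α β) 0 t) :
    t ∈ Subgroup.closure ({g | Rch x D 0 g} ∪
      {g | ∃ y ∈ Set.Icc α β, ∃ i, i ≠ 0 ∧ g = tr x y ⁅x 0, x i⁆}) := by
  have hs := sch x (Set.Icc α β) ht
  refine (Subgroup.closure_le _).2 ?_ hs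
  rintro g ⟨y, i, hy, hyi, rfl⟩
  refine Fin.cases ?_ (fun i' hyi => ?_) i hyi
  · intro _
    rw [sg_zero]
    exact one_mem _
  · have hyc : (Fin.cons (y 0) (fun j => y j.succ) : Fin (K + 1) → ℤ) = y := by
      funext j
      exact Fin.cases rfl (fun j' => rfl) j
    have hα0 : α 0 ≤ 0 := hα 0
    have hβ0 : 0 ≤ β 0 := hβ 0
    have hb1 : ∀ b : ℤ, min 0 (y 0) ≤ b → b ≤ max 0 (y 0) →
        (Fin.cons b (fun j => y j.succ) : Fin (K + 1) → ℤ) ∈ Set.Icc α β := by
      intro b hb hb'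
      have h1 : α 0 ≤ y 0 := hy.1 0
      have h2 : y 0 ≤ β 0 := hy.2 0
      constructor
      · intro j
        refine Fin.cases ?_ (fun j' => ?_) j
        · change α 0 ≤ b; omega
        · rw [Fin.cons_succ]; exact hy.1 j'.succ
      · intro j
        refine Fin.cases ?_ (fun j' => ?_) j
        · change b ≤ β 0; omega
        · rw [Fin.cons_succ]; exact hy.2 j'.succ
    have hpath : ∀ v : Fin (K + 1) → ℤ, v ∈ Set.Icc α β → v 0 = 0 → Rch x D v (om x v) := by
      intro v hv hv0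
      refine rch_om x v D fun w hw => hD w ⟨fun j => ?_, fun j => ?_⟩ ?_
      · have h1 := (hw j).1
        have h2 := hv.1 j
        have h3 : α j ≤ 0 := hα j
        exact le_trans (le_min h3 h2) h1
      · have h1 := (hw j).2
        have h2 := hv.2 j
        have h3 : 0 ≤ β j := hβ j
        exact le_trans h1 (max_le h3 h2)
      · have h1 := hw 0
        rw [hv0] at h1
        simp only [min_self, max_self] at h1
        omega
    have hc0 := hb1 0 (min_le_left _ _) (le_max_left _ _)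
    have hc1 : (Fin.cons 0 (fun j => y j.succ) : Fin (K + 1) → ℤ) + Pi.single i'.succ 1 ∈
        Set.Icc α β := by
      rw [cons_add_single]
      constructor
      · intro j
        refine Fin.cases ?_ (fun j' => ?_) j
        · rw [Fin.cons_zero]; exact hα0
        · have h1 := hyi.1 j'.succ
          rw [← hyc, cons_add_single, Fin.cons_succ] at h1
          rw [Fin.cons_succ]; exact h1
      · intro j
        refine Fin.cases ?_ (fun j' => ?_) j
        · rw [Fin.cons_zero]; exact hβ0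
        · have h1 := hyi.2 j'.succ
          rw [← hyc, cons_add_single, Fin.cons_succ] at h1
          rw [Fin.cons_succ]; exact h1
    have hz : ((Fin.cons 0 (fun j => y j.succ) : Fin (K + 1) → ℤ) +
        Pi.single i'.succ 1 : Fin (K + 1) → ℤ) 0 = 0 := by
      rw [cons_add_single, Fin.cons_zero]
    have key : Rch x D 0 (sg x (Fin.cons 0 (fun j => y j.succ)) i'.succ) := by
      have h1 := hpath _ hc0 (Fin.cons_zero _ _)
      have h2 := Rch.pos i'.succ h1 (hD _ hc1 hz)
      have h3 := (hpath _ hc1 hz).rev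
      have h4 := h2.trans h3 (fun w hw => hw)
      rw [add_neg_cancel] at h4
      exact h4
    have hfin := sg_line (Subgroup.closure ({g | Rch x D 0 g} ∪
      {g | ∃ y ∈ Set.Icc α β, ∃ i, i ≠ 0 ∧ g = tr x y ⁅x 0, x i⁆})) x (fun j => y j.succ) i'
      (Subgroup.subset_closure (Or.inl key)) (y 0) (fun b hb hb' =>
        Subgroup.subset_closure (Or.inr ⟨_, hb1 b hb hb'.le, i'.succ, Fin.succ_ne_zero i', rfl⟩))
    rw [hyc] at hfin
    exact hfin

lemma gen_let_aux {k : ℕ} : ∀ (x : Fin k → G) (α β : Fin k → ℤ), α ≤ 0 → 0 ≤ β →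
    ∀ (y : Fin k → ℤ) (i : Fin k), y ∈ Set.Icc α β → y + Pi.single i 1 ∈ Set.Icc α β →
    sg x y i ∈ Subgroup.closure {g | ∃ (y : Fin k → ℤ) (a b : Fin k), a ≠ b ∧ α ≤ y ∧
      y + (Pi.single a 1 + Pi.single b 1) ≤ β ∧ g = tr x y ⁅x a, x b⁆} := by
  induction k with
  | zero => intro x α β _ _ y i; exact i.elim0
  | succ k ih =>
    intro x α β hα hβ y i hy hyi
    have hyc : (Fin.cons (y 0) (fun j => y j.succ) : Fin (k + 1) → ℤ) = y := by
      funext j
      exact Fin.cases rfl (fun j' => rfl) j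
    have hα0 : α 0 ≤ 0 := hα 0
    have hβ0 : 0 ≤ β 0 := hβ 0
    refine Fin.cases ?_ (fun i' hyi => ?_) i hyi
    · intro _
      rw [sg_zero]
      exact one_mem _
    · have hyi' : ∀ j' : Fin k, (y + Pi.single i'.succ 1 : Fin (k + 1) → ℤ) j'.succ =
          ((fun j => y j.succ) + Pi.single i' 1 : Fin k → ℤ) j' := by
        intro j'
        conv_lhs => rw [← hyc]
        rw [cons_add_single, Fin.cons_succ]
      have h0 : sg x (Fin.cons 0 (fun j => y j.succ)) i'.succ ∈
          Subgroup.closure {g | ∃ (y : Fin (k + 1) → ℤ) (a b : Fin (k + 1)), a ≠ b ∧ α ≤ y ∧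
          y + (Pi.single a 1 + Pi.single b 1) ≤ β ∧ g = tr x y ⁅x a, x b⁆} := by
        rw [sg_cons_zero]
        have h1 := ih (fun i => x i.succ) (fun j => α j.succ) (fun j => β j.succ)
          (fun j => hα j.succ) (fun j => hβ j.succ) (fun j => y j.succ) i'
          ⟨fun j => hy.1 j.succ, fun j => hy.2 j.succ⟩
          ⟨fun j => by rw [← hyi' j]; exact hyi.1 j.succ,
            fun j => by rw [← hyi' j]; exact hyi.2 j.succ⟩
        refine (Subgroup.closure_le _).2 ?_ h1
        rintro g ⟨w, a, b, hab, hw1, hw2, rfl⟩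
        refine Subgroup.subset_closure ⟨Fin.cons 0 w, a.succ, b.succ,
          fun h => hab (Fin.succ_injective _ h), ?_, ?_, ?_⟩
        · intro j
          refine Fin.cases ?_ (fun j' => ?_) j
          · rw [Fin.cons_zero]; exact hα0
          · rw [Fin.cons_succ]; exact hw1 j'
        · rw [← add_assoc, cons_add_single, cons_add_single]
          intro j
          refine Fin.cases ?_ (fun j' => ?_) j
          · rw [Fin.cons_zero]; exact hβ0
          · rw [Fin.cons_succ, add_assoc]; exact hw2 j'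
        · unfold tr
          rw [om_cons, zpow_zero, mul_one]
      have hfin := sg_line (Subgroup.closure {g | ∃ (y : Fin (k + 1) → ℤ) (a b : Fin (k + 1)),
        a ≠ b ∧ α ≤ y ∧ y + (Pi.single a 1 + Pi.single b 1) ≤ β ∧ g = tr x y ⁅x a, x b⁆})
        x (fun j => y j.succ) i' h0 (y 0) (fun b hb hb' => by
          refine Subgroup.subset_closure ⟨_, 0, i'.succ, (Fin.succ_ne_zero i').symm, ?_, ?_, rfl⟩
          · intro j
            have h1 : α 0 ≤ y 0 := hy.1 0
            refine Fin.cases ?_ (fun j' => ?_) j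
            · change α 0 ≤ b; omega
            · rw [Fin.cons_succ]; exact hy.1 j'.succ
          · rw [add_comm (Pi.single 0 1 : Fin (k + 1) → ℤ), ← add_assoc, cons_add_single]
            intro j
            have h1 : y 0 ≤ β 0 := hy.2 0
            refine Fin.cases ?_ (fun j' => ?_) j
            · rw [Pi.add_apply, Fin.cons_zero, Pi.single_eq_same]
              change b + 1 ≤ β 0
              omega
            · rw [Pi.add_apply, Fin.cons_succ, Pi.single_eq_of_ne (Fin.succ_ne_zero j'), add_zero,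
                ← hyi' j']
              exact hyi.2 j'.succ)
      rw [hyc] at hfin
      exact hfin

theorem gen_let {k : ℕ} (x : Fin k → G) (α β : Fin k → ℤ) (hα : α ≤ 0) (hβ : 0 ≤ β) {t : G}
    (ht : Rch x (Set.Icc α β) 0 t) :
    t ∈ Subgroup.closure {g | ∃ (y : Fin k → ℤ) (a b : Fin k), a ≠ b ∧ α ≤ y ∧
      y + (Pi.single a 1 + Pi.single b 1) ≤ β ∧ g = tr x y ⁅x a, x b⁆} := by
  have hs := sch x (Set.Icc α β) ht
  refine (Subgroup.closure_le _).2 ?_ hs
  rintro g ⟨y, i, hy, hyi, rfl⟩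
  exact gen_let_aux x α β hα hβ y i hy hyi

end Pool.Agent.LGW
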