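import Pool.Agent.LGW.Cal
import Pool.Agent.Helper33.CW2.Nil

/-!
# LGW-Pig: pigeonhole

PLAN. Let `T = Subgroup.closure (Set.range z) ≤ commutator G`, acting on `V` (as a subgroup of `G`), and
`U = {v : V | ∀ i, z i ^ (2 ^ a) • v = v}`, an additive subgroup, stable under `T` (`hc.comm`). `v ∈ U`:
`ops (replicate (2^a) (z i)) v = z i ^ (2^a) • v - v` (`ops_two_pow`, with `hc.two`) and the left side is `0`
(`ops_rep_zero_of_le`). For `h ∈ T` and `u ∈ U`: `h ^ (2^a) • u = u`: closure induction on `h` (products:
`(h h')^n` and `h^n h'^n` act in the same way since `G'` acts commutatively). Apply `nil_rel` (or the argument of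
`nil_kill`) with `T` (as a type), `n = L`, `c = 1`, `U`, `U' = ⊥`: `gam ⊤ 1 = ⁅⊤, ⊤⁆` acts trivially (commutative
action), `∏ i ∈ range 1, (L ^ (i + 1) * 2 ^ a) = L * 2 ^ a`. Transport the list `ms` to `T` as in `nil_kill`.
-/

open scoped commutatorElement

namespace Pool.Agent.LGW

open Pool.Agent.Helper33.CW2

universe u

private lemma pig_coe {G V : Type u} [Group G] [AddCommGroup V] [DistribMulAction G V]
    (S : Subgroup G) (ms : List S) (v : V) :
    ops ms v = ops (ms.map (fun m : S => (m : G))) v := by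
  induction ms with
  | nil => rfl
  | cons m ms ih => rw [List.map_cons, ops_cons, ops_cons, ih]; rfl

private lemma pig_pow {G V : Type u} [Group G] [AddCommGroup V] [DistribMulAction G V]
    {c : G → G → V} (hc : Cal c) {h h' : G} (hh : h ∈ commutator G) (hh' : h' ∈ commutator G)
    (n : ℕ) (w : V) : (h * h') ^ n • w = h ^ n • h' ^ n • w := by
  induction n with
  | zero => simp
  | succ n ih =>
    rw [pow_succ', mul_smul, ih, mul_smul, pow_succ', pow_succ', mul_smul, mul_smul]
    rw [hc.comm h' hh' (h ^ n) ((commutator G).pow_mem hh n)]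

theorem pig {G V : Type u} [Group G] [AddCommGroup V] [DistribMulAction G V] {c : G → G → V}
    (hc : Cal c) {L : ℕ} (hL : 0 < L) (z : Fin L → G) (hz : ∀ i, z i ∈ commutator G) {E a : ℕ}
    (ha : E ≤ 2 ^ a) (v : V) (hv : ∀ i, ops (List.replicate E (z i)) v = 0) (ms : List G)
    (hms : ∀ m ∈ ms, m ∈ Subgroup.closure (Set.range z)) (hl : L * 2 ^ a ≤ ms.length) :
    ops ms v = 0 := by
  have hTG : Subgroup.closure (Set.range z) ≤ commutator G := by
    rw [Subgroup.closure_le]
    rintro _ ⟨i, rfl⟩
    exact hz i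
  let T : Subgroup G := Subgroup.closure (Set.range z)
  -- the subgroup of `V`
  let U : AddSubgroup V :=
    { carrier := {u | ∀ h ∈ Subgroup.closure (Set.range z), h ^ (2 ^ a) • u = u}
      zero_mem' := fun h _ => smul_zero _
      add_mem' := fun {x y} hx hy h hh => by rw [smul_add, hx h hh, hy h hh]
      neg_mem' := fun {x} hx h hh => by rw [smul_neg, hx h hh] }
  have hvU : v ∈ U := by
    intro h hh
    induction hh using Subgroup.closure_induction with
    | mem x hx =>
      obtain ⟨i, rfl⟩ := hx
      have h1 := ops_rep_zero_of_le ha (hv i)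
      rw [ops_two_pow hc.two, sub_eq_zero] at h1
      exact h1
    | one => rw [one_pow, one_smul]
    | mul x y hx hy ihx ihy =>
      rw [pig_pow hc (hTG hx) (hTG hy), ihy, ihx]
    | inv x hx ih =>
      rw [inv_pow, inv_smul_eq_iff]
      exact ih.symm
  let t' : Fin L → T := fun i => ⟨z i, Subgroup.subset_closure ⟨i, rfl⟩⟩
  have ht' : Subgroup.closure (Set.range t') = ⊤ := by
    have h3 : Set.range t' = ((↑) : T → G) ⁻¹' (Set.range z) := by
      ext x
      constructor
      · rintro ⟨i, rfl⟩; exact ⟨i, rfl⟩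
      · rintro ⟨i, hi⟩; exact ⟨i, Subtype.ext hi⟩
    rw [h3]
    exact Subgroup.closure_closure_coe_preimage
  let l : List T := ms.attach.map fun m => ⟨m.1, hms m.1 m.2⟩
  have hL2 : l.length = ms.length := by
    change (ms.attach.map _).length = ms.length
    rw [List.length_map, List.length_attach]
  let K : Subgroup T :=
    { carrier := {h | ∀ w : V, h • w = w}
      one_mem' := fun w => one_smul _ w
      mul_mem' := fun {x y} hx hy w => by rw [mul_smul, hy, hx]
      inv_mem' := fun {x} hx w => by rw [inv_smul_eq_iff]; exact (hx w).symm }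
  have hK : Pool.Agent.Helper17.CW.gam (⊤ : Subgroup T) 1 ≤ K := by
    rw [Pool.Agent.Helper17.CW.gam_succ, Subgroup.commutator_le]
    intro g1 _ g2 _ w
    have h1 : ∀ w : V, g1 • g2 • w = g2 • g1 • w := fun w =>
      hc.comm (g1 : G) (hTG g1.2) (g2 : G) (hTG g2.2) w
    rw [commutatorElement_def, mul_smul, mul_smul, mul_smul, h1, smul_inv_smul, smul_inv_smul]
  have h4 := nil_rel (T := T) hc.two hL t' ht' a 1 U ⊥ bot_le
    (fun s u hu h hh => by
      change h ^ (2 ^ a) • (s : G) • u = (s : G) • u
      rw [hc.comm (h ^ (2 ^ a)) ((commutator G).pow_mem (hTG hh) _) (s : G) (hTG s.2), hu h hh])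
    (fun s u hu => by
      rw [AddSubgroup.mem_bot] at hu ⊢
      rw [hu, smul_zero])
    (fun h hh u _ => by
      rw [AddSubgroup.mem_bot, sub_eq_zero]
      exact hK hh u)
    (fun h u hu => by
      rw [AddSubgroup.mem_bot, sub_eq_zero]
      exact hu (h : G) h.2)
    l (by rw [hL2, Finset.prod_range_one, zero_add, pow_one]; exact hl) v hvU
  rw [AddSubgroup.mem_bot, pig_coe] at h4
  have h5 : l.map (fun m : T => (m : G)) = ms := by
    change (ms.attach.map _).map _ = ms
    rw [List.map_map]
    exact List.attach_map_subtype_val ms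
  rw [h5] at h4
  exact h4

end Pool.Agent.LGW
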