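import Pool.Agent.LGW.Bas

/-!
# LGW-TTR: `TT x R` consists of closed paths

PLAN. `rch_gp`: `gp x γ = x 0 ^ γ 0 * x 1 ^ γ 1 * ⋯` is a path with end point `γ` all of whose points are between `0`
and `γ`. Prove by induction on `m ≤ k` that the partial product of the first `m` factors (`List.ofFn`/`List.take`, or
`gp x (fun j => if j < m then γ j else 0)`, see `Pool/Agent/Helper33/CW2/Trav.lean`) is a path to the corresponding
point; one factor `x i ^ a` is `|a|` steps in direction `i` (a lemma: if `Rch x D γ g` and all `γ + j • e_i`, `j`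
between `0` and `a`, are in `D`, then `Rch x D (γ + a • e_i) (g * x i ^ a)`). Alternatively induction on `k` with
`List.ofFn_succ`: `gp x γ = x 0 ^ γ 0 * gp x' γ'`, `Rch x' D' γ' g` gives
`Rch x {w | w 0 = 0 ∧ Fin.tail w ∈ D'} (Fin.cons 0 γ') g`, and `Rch.trans`.
`TT_rch`: closure induction (`Rch.one`, `Rch.mul`, `Rch.inv`); `tau x γ i = gp x γ * x i * (gp x (γ + e_i))⁻¹`, `bx R γ`, is
the path `gp x γ`, a step, and back (`Rch.pos`, `Rch.rev`, `Rch.trans`), in the box of radius `R + 1`.
-/

open scoped commutatorElement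

namespace Pool.Agent.LGW

open Pool.Agent.Helper33.CW2

variable {G : Type*} [Group G] {k : ℕ}

/-- `|a|` steps in direction `i`. -/
private lemma step_pow (x : Fin k → G) {D : Set (Fin k → ℤ)} {γ : Fin k → ℤ} {g : G}
    (hg : Rch x D γ g) (i : Fin k) (a : ℤ)
    (hD : ∀ j : ℤ, min 0 a ≤ j → j ≤ max 0 a → γ + Pi.single i j ∈ D) :
    Rch x D (γ + Pi.single i a) (g * x i ^ a) := by
  induction a using Int.induction_on with
  | zero =>
    rw [Pi.single_zero, add_zero, zpow_zero, mul_one]
    exact hg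
  | succ n ih =>
    have h1 := ih (fun j hj1 hj2 => hD j (by omega) (by omega))
    have h2 := Rch.pos i h1 (by
      rw [add_assoc, ← Pi.single_add]
      exact hD _ (by omega) (by omega))
    rw [add_assoc, ← Pi.single_add, mul_assoc, ← zpow_add_one] at h2
    exact h2
  | pred n ih =>
    have h1 := ih (fun j hj1 hj2 => hD j (by omega) (by omega))
    have h2 := Rch.neg i h1 (by
      rw [add_sub_assoc, ← Pi.single_sub]
      exact hD _ (by omega) (by omega))
    rw [add_sub_assoc, ← Pi.single_sub, mul_assoc, ← zpow_sub_one] at h2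
    exact h2

/-- Paths in the last directions. -/
private lemma rch_cons {k : ℕ} (x : Fin (k + 1) → G) {D' : Set (Fin k → ℤ)} {γ : Fin k → ℤ} {g : G}
    (hg : Rch (fun i => x i.succ) D' γ g) :
    Rch x {w | w 0 = 0 ∧ Fin.tail w ∈ D'} (Fin.cons 0 γ : Fin (k + 1) → ℤ) g := by
  induction hg with
  | nil h0 =>
    have h1 : (Fin.cons 0 (0 : Fin k → ℤ) : Fin (k + 1) → ℤ) = 0 := by
      funext j
      refine Fin.cases rfl (fun j => rfl) j
    rw [h1]
    exact Rch.nil ⟨rfl, h0⟩
  | @pos γ g i _ hm ih =>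
    have h1 : (Fin.cons 0 (γ + Pi.single i 1) : Fin (k + 1) → ℤ)
        = (Fin.cons 0 γ : Fin (k + 1) → ℤ) + Pi.single i.succ 1 := by
      funext j
      refine Fin.cases ?_ (fun j => ?_) j
      · simp
      · rw [Fin.cons_succ, Pi.add_apply, Pi.add_apply, Fin.cons_succ]
        congr 1
        by_cases hj : j = i
        · subst hj; rw [Pi.single_eq_same, Pi.single_eq_same]
        · rw [Pi.single_eq_of_ne hj, Pi.single_eq_of_ne]
          intro h2; exact hj (Fin.succ_injective _ h2)
    rw [h1]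
    refine Rch.pos i.succ ih ?_
    rw [← h1]
    exact ⟨rfl, hm⟩
  | @neg γ g i _ hm ih =>
    have h1 : (Fin.cons 0 (γ - Pi.single i 1) : Fin (k + 1) → ℤ)
        = (Fin.cons 0 γ : Fin (k + 1) → ℤ) - Pi.single i.succ 1 := by
      funext j
      refine Fin.cases ?_ (fun j => ?_) j
      · simp
      · rw [Fin.cons_succ, Pi.sub_apply, Pi.sub_apply, Fin.cons_succ]
        congr 1
        by_cases hj : j = i
        · subst hj; rw [Pi.single_eq_same, Pi.single_eq_same]
        · rw [Pi.single_eq_of_ne hj, Pi.single_eq_of_ne]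
          intro h2; exact hj (Fin.succ_injective _ h2)
    rw [h1]
    refine Rch.neg i.succ ih ?_
    rw [← h1]
    exact ⟨rfl, hm⟩

private lemma rch_gp' {k : ℕ} (x : Fin k → G) (v : Fin k → ℤ) :
    Rch x {w | ∀ j, min 0 (v j) ≤ w j ∧ w j ≤ max 0 (v j)} v (gp x v) := by
  induction k with
  | zero =>
    have h1 : v = 0 := Subsingleton.elim _ _
    subst h1
    rw [gp_zero]
    exact Rch.nil fun j => j.elim0
  | succ k ih =>
    have h1 : gp x v = x 0 ^ v 0 * gp (fun i => x i.succ) (fun i => v i.succ) := by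
      unfold gp
      rw [List.ofFn_succ, List.prod_cons]
    have h2 : v = Pi.single 0 (v 0) + (Fin.cons 0 (fun i => v i.succ) : Fin (k + 1) → ℤ) := by
      funext j
      refine Fin.cases ?_ (fun j => ?_) j
      · simp
      · rw [Pi.add_apply, Fin.cons_succ, Pi.single_eq_of_ne (Fin.succ_ne_zero j), zero_add]
    have h3 : Rch x {w | ∀ j, min 0 (v j) ≤ w j ∧ w j ≤ max 0 (v j)} (0 + Pi.single 0 (v 0))
        (1 * x 0 ^ v 0) := by
      refine step_pow x (Rch.nil ?_) 0 (v 0) ?_
      · intro j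
        exact ⟨min_le_left _ _, le_max_left _ _⟩
      · intro a ha1 ha2 j
        rw [zero_add]
        by_cases hj : j = 0
        · subst hj
          rw [Pi.single_eq_same]
          exact ⟨ha1, ha2⟩
        · rw [Pi.single_eq_of_ne hj]
          exact ⟨min_le_left _ _, le_max_left _ _⟩
    rw [zero_add, one_mul] at h3
    have h4 := rch_cons x (ih (fun i => x i.succ) (fun i => v i.succ))
    have h5 := Rch.trans h3 h4 (by
      rintro w ⟨hw0, hw⟩ j
      refine Fin.cases ?_ (fun j => ?_) j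
      · rw [Pi.add_apply, hw0, Pi.single_eq_same, add_zero]
        exact ⟨min_le_right _ _, le_max_right _ _⟩
      · rw [Pi.add_apply, Pi.single_eq_of_ne (Fin.succ_ne_zero j), zero_add]
        exact hw j)
    rw [← h1, ← h2] at h5
    exact h5

theorem rch_gp (x : Fin k → G) (v : Fin k → ℤ) (D : Set (Fin k → ℤ))
    (hD : ∀ w : Fin k → ℤ, (∀ j, min 0 (v j) ≤ w j ∧ w j ≤ max 0 (v j)) → w ∈ D) :
    Rch x D v (gp x v) :=
  (rch_gp' x v).mono fun w hw => hD w hw

theorem TT_rch (x : Fin k → G) (R : ℕ) {t : G} (ht : t ∈ TT x R) :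
    Rch x (Set.Icc (fun _ => -((R : ℤ) + 1)) (fun _ => (R : ℤ) + 1)) 0 t := by
  have hz : (0 : Fin k → ℤ) ∈ Set.Icc (fun _ : Fin k => -((R : ℤ) + 1))
      (fun _ => (R : ℤ) + 1) := by
    constructor
    · intro j
      change -((R : ℤ) + 1) ≤ 0
      omega
    · intro j
      change (0 : ℤ) ≤ (R : ℤ) + 1
      omega
  have hbox : ∀ v : Fin k → ℤ, bx (R + 1) v → Rch x (Set.Icc (fun _ => -((R : ℤ) + 1))
      (fun _ => (R : ℤ) + 1)) v (gp x v) := by
    intro v hv
    refine rch_gp x v _ ?_
    intro w hw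
    constructor
    · intro j
      have h1 := abs_le.1 (hv j)
      have h2 := hw j
      change -((R : ℤ) + 1) ≤ w j
      push_cast at h1
      omega
    · intro j
      have h1 := abs_le.1 (hv j)
      have h2 := hw j
      change w j ≤ (R : ℤ) + 1
      push_cast at h1
      omega
  unfold TT at ht
  refine Subgroup.closure_induction (p := fun t _ => Rch x (Set.Icc (fun _ => -((R : ℤ) + 1))
      (fun _ => (R : ℤ) + 1)) 0 t) ?_ ?_ ?_ ?_ ht
  · rintro t ⟨γ, i, hγ, rfl⟩
    have hγ1 : bx (R + 1) γ := bx_mono (by omega) hγ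
    have hγ2 : bx (R + 1) (γ + Pi.single i 1) := bx_add hγ (bx_single i)
    have h1 := Rch.pos i (hbox γ hγ1) (hbox _ hγ2).mem
    have h2 := h1.trans (hbox _ hγ2).rev (fun w hw => hw)
    rw [add_neg_cancel] at h2
    exact h2
  · exact Rch.one hz
  · intro s t _ _ hs ht
    exact hs.mul ht
  · intro s _ hs
    exact hs.inv

end Pool.Agent.LGW
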