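import Pool.Agent.LGW.LetK
import Pool.Agent.LGW.Pig
import Pool.Agent.LGW.TTR
import Pool.Agent.LGW.GenD

/-!
# LGW-Kill: the final kill

PLAN. Let `α = fun _ => -(R+1)`, `β = fun _ => R+1` (side lengths `2 (R+1) ≤ κ`). `s`, `t` and the elements of `ms` are
closed paths in `Icc α β` (`TT_rch`), so they are in the closure of the letters `tr x y ⁅x p, x q⁆`, `p ≠ q`, `α ≤ y`,
`y + e_p + e_q ≤ β` (`gen_let`). Enumerate: `L = k ^ 2 * (2 (R+1) + 1) ^ k`,
`(Fin k × Fin k) × (Fin k → Fin (2 (R+1) + 1)) ≃ Fin L`; `z (p, q, η)` is the letter at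
`y = fun j => η j - (R+1)` if `p ≠ q` and `y + e_p + e_q ≤ β`, and `1` otherwise. All letters above are values of `z`
(`y ≤ y + e_p + e_q ≤ β`). `ops (replicate (E+1) (z i)) (c s t) = 0` by `letter_kill` (and for `z i = 1`:
`1 • v - v = 0`). Apply `pig` with `E + 1 ≤ 2 ^ a`, `0 < L`.
-/

open scoped commutatorElement

namespace Pool.Agent.LGW

open Pool.Agent.Helper33.CW2

universe u

theorem kill {G V : Type u} [Group G] [AddCommGroup V] [DistribMulAction G V] {c : G → G → V}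
    (hc : Cal c) {k : ℕ} (hk : 0 < k) (x : Fin k → G) {κ : ℤ} {E a R : ℕ}
    (hP : PP x c (fun _ => κ) E) (hκ : 2 * ((R : ℤ) + 1) ≤ κ) (ha : E + 1 ≤ 2 ^ a) {s t : G}
    (hs : s ∈ TT x R) (ht : t ∈ TT x R) (ms : List G) (hms : ∀ m ∈ ms, m ∈ TT x R)
    (hl : k ^ 2 * (2 * (R + 1) + 1) ^ k * 2 ^ a ≤ ms.length) :
    ops ms (c s t) = 0 := by
  classical
  set α : Fin k → ℤ := fun _ => -((R : ℤ) + 1) with hαd
  set β : Fin k → ℤ := fun _ => (R : ℤ) + 1 with hβd
  have hα : α ≤ 0 := by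
    intro j
    change -((R : ℤ) + 1) ≤ 0
    omega
  have hβ : 0 ≤ β := by
    intro j
    change (0 : ℤ) ≤ (R : ℤ) + 1
    omega
  have hs' := TT_rch x R hs
  have ht' := TT_rch x R ht
  have hcard : Fintype.card ((Fin k × Fin k) × (Fin k → Fin (2 * (R + 1) + 1))) =
      k ^ 2 * (2 * (R + 1) + 1) ^ k := by
    rw [Fintype.card_prod, Fintype.card_prod, Fintype.card_fin, Fintype.card_fun,
      Fintype.card_fin, Fintype.card_fin, pow_two]
  let eqv := Fintype.equivFinOfCardEq hcard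
  let zz : (Fin k × Fin k) × (Fin k → Fin (2 * (R + 1) + 1)) → G := fun p =>
    if p.1.1 ≠ p.1.2 ∧ (fun j => ((p.2 j : ℕ) : ℤ) - ((R : ℤ) + 1)) +
        (Pi.single p.1.1 1 + Pi.single p.1.2 1) ≤ β then
      tr x (fun j => ((p.2 j : ℕ) : ℤ) - ((R : ℤ) + 1)) ⁅x p.1.1, x p.1.2⁆ else 1
  let z : Fin (k ^ 2 * (2 * (R + 1) + 1) ^ k) → G := fun i => zz (eqv.symm i)
  have hz : ∀ i, z i ∈ commutator G := by
    intro i
    change zz (eqv.symm i) ∈ commutator G
    simp only [zz]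
    split_ifs with h
    · exact tr_mem x _ (cm_mem _ _)
    · exact one_mem _
  have hL : 0 < k ^ 2 * (2 * (R + 1) + 1) ^ k := by positivity
  have hv : ∀ i, ops (List.replicate (E + 1) (z i)) (c s t) = 0 := by
    intro i
    change ops (List.replicate (E + 1) (zz (eqv.symm i))) (c s t) = 0
    simp only [zz]
    split_ifs with h
    · refine letter_kill hc x hP hα hβ ?_ h.1 ?_ h.2 hs' ht'
      · intro j
        change (R : ℤ) + 1 - -((R : ℤ) + 1) ≤ κ
        omega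
      · intro j
        change -((R : ℤ) + 1) ≤ (((eqv.symm i).2 j : ℕ) : ℤ) - ((R : ℤ) + 1)
        omega
    · rw [List.replicate_succ, ops_cons, one_smul, sub_self]
  refine pig hc hL z hz ha (c s t) hv ms ?_ hl
  intro m hm
  have h1 := gen_let x α β hα hβ (TT_rch x R (hms m hm))
  refine Subgroup.closure_mono ?_ h1
  rintro g ⟨y, p, q, hpq, hy, hy', rfl⟩
  have hyl : ∀ j, -((R : ℤ) + 1) ≤ y j := fun j => hy j
  have hyu : ∀ j, y j ≤ (R : ℤ) + 1 := by
    intro j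
    have h2 : y j + ((Pi.single p 1 : Fin k → ℤ) j + (Pi.single q 1 : Fin k → ℤ) j) ≤
        (R : ℤ) + 1 := hy' j
    have h3 : 0 ≤ (Pi.single p 1 : Fin k → ℤ) j := by
      by_cases h : j = p
      · subst h; simp
      · rw [Pi.single_eq_of_ne h]
    have h4 : 0 ≤ (Pi.single q 1 : Fin k → ℤ) j := by
      by_cases h : j = q
      · subst h; simp
      · rw [Pi.single_eq_of_ne h]
    omega
  let η : Fin k → Fin (2 * (R + 1) + 1) := fun j =>
    ⟨(y j + ((R : ℤ) + 1)).toNat, by have := hyl j; have := hyu j; omega⟩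
  have hη : (fun j => ((η j : ℕ) : ℤ) - ((R : ℤ) + 1)) = y := by
    funext j
    change (((y j + ((R : ℤ) + 1)).toNat : ℕ) : ℤ) - ((R : ℤ) + 1) = y j
    rw [Int.toNat_of_nonneg (by have := hyl j; omega)]
    ring
  refine ⟨eqv ((p, q), η), ?_⟩
  change zz (eqv.symm (eqv ((p, q), η))) = _
  rw [Equiv.symm_apply_apply]
  simp only [zz]
  rw [hη, if_pos ⟨hpq, hy'⟩]

end Pool.Agent.LGW
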