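import Pool.Agent.LGW.XPerm
import Pool.Agent.LGW.Base

/-!
# LGW-Scale: one scale, and all scales

`c₀ = 4 (K + 1) + 3`, `M = 2 c₀ + 4 (K + 1)`.
PLAN. `PP_mono`: smaller boxes, larger exponent (`ops_rep_zero_of_le`). `scale`: for `l = 0, …, K + 1` (induction on a
natural number `l ≤ K + 1`) one has `PP x c (κ l) (E + l * e)`, `e = N ^ (K+1) / 4 + 1`, with
`κ l i = M N - 4 N (l - 1 - i)` for `i < l` and `κ l i = c₀ N - 4 N l` for `i ≥ l`; `κ 0 = c₀ N`. Step with `dir_step` in
the direction `l` (as an element of `Fin (K+1)`): `κ l l = (c₀ - 4 l) N ≥ 3 N` since `l ≤ K`; `κ (l+1) l = M N`;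
`κ (l+1) i + 4 N = κ l i` for `i ≠ l`, and all `κ (l+1) i ≤ M N`. At the end `κ (K+1) i ≥ M N - 4 N K ≥ 2 c₀ N`
(`PP_mono`). `scales`: induction on `j`: start `PP_base` (`E = 0`, `c₀ * 2 ^ 0`), step `scale` with `N = 2 ^ j`;
`(K+1) j (2^j)^(K+1) + (K+1) ((2^j)^(K+1) / 4 + 1) ≤ (K+1) (j+1) (2^(j+1))^(K+1)` because
`(2^j)^(K+1) / 4 + 1 ≤ 2 (2^j)^(K+1) ≤ (2^(j+1))^(K+1)`.
-/

open scoped commutatorElement

namespace Pool.Agent.LGW

open Pool.Agent.Helper33.CW2

variable {G V : Type*} [Group G] [AddCommGroup V] [DistribMulAction G V] {c : G → G → V}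

theorem PP_mono {k : ℕ} {x : Fin k → G} {κ κ' : Fin k → ℤ} {E E' : ℕ} (hκ : κ' ≤ κ)
    (hE : E ≤ E') (hP : PP x c κ E) : PP x c κ' E' := by
  intro a b hab α β hs hα hβ t ht
  exact ops_rep_zero_of_le hE (hP a b hab α β (fun i => (hs i).trans (hκ i)) hα hβ t ht)

/-- The side lengths after `l` steps. -/
private def kap (K N M c₀ l : ℕ) (i : Fin (K + 1)) : ℤ :=
  if (i : ℕ) < l then (M : ℤ) * N - 4 * N * ((l : ℤ) - 1 - (i : ℕ)) else (c₀ : ℤ) * N - 4 * N * l

theorem scale (hc : Cal c) {K : ℕ} (x : Fin (K + 1) → G) {N m : ℕ} {f : Fin m → Finset ℤ}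
    (hN : 1 ≤ N) (hf : Hit (4 * (K + 1)) N f)
    (hrel : RelN x c N (2 * (4 * (K + 1) + 3) + 4 * (K + 1)) f) {E : ℕ}
    (hP : PP x c (fun _ => ((4 * (K + 1) + 3 : ℕ) : ℤ) * N) E) :
    PP x c (fun _ => ((4 * (K + 1) + 3 : ℕ) : ℤ) * (2 * N)) (E + (K + 1) * (N ^ (K + 1) / 4 + 1)) := by
  have hNZ : (1 : ℤ) ≤ N := by exact_mod_cast hN
  have key : ∀ l : ℕ, l ≤ K + 1 →
      PP x c (kap K N (2 * (4 * (K + 1) + 3) + 4 * (K + 1)) (4 * (K + 1) + 3) l)
        (E + l * (N ^ (K + 1) / 4 + 1)) := by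
    intro l
    induction l with
    | zero =>
      intro _
      refine PP_mono ?_ (by simp) hP
      intro i
      simp [kap]
    | succ l ih =>
      intro hl
      have hl' : l ≤ K := by omega
      have h1 := ih (by omega)
      have h2 := dir_step hc x hN hf hrel (⟨l, by omega⟩ : Fin (K + 1))
        (κ' := kap K N (2 * (4 * (K + 1) + 3) + 4 * (K + 1)) (4 * (K + 1) + 3) (l + 1)) h1
        (by
          have hlz : (l : ℤ) ≤ K := by exact_mod_cast hl'
          simp only [kap, lt_irrefl, if_false]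
          push_cast
          nlinarith [mul_nonneg (sub_nonneg.2 hlz) (by linarith : (0 : ℤ) ≤ N)])
        (by
          simp only [kap, Nat.lt_succ_self, if_true]
          push_cast
          nlinarith)
        (by
          intro i hi
          have hi' : (i : ℕ) ≠ l := fun h => hi (Fin.ext h)
          rcases lt_or_gt_of_ne hi' with h | h
          · have ha : (i : ℕ) < l + 1 := by omega
            have hz : ((i : ℕ) : ℤ) < l := by exact_mod_cast h
            simp only [kap, h, ha, if_true]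
            push_cast
            constructor
            · nlinarith
            · nlinarith [mul_nonneg (sub_nonneg.2 hz.le) (by linarith : (0 : ℤ) ≤ N)]
          · have ha : ¬ (i : ℕ) < l := by omega
            have hb : ¬ (i : ℕ) < l + 1 := by omega
            have hlz : (0 : ℤ) ≤ l := by positivity
            have hKz : (0 : ℤ) ≤ K := by positivity
            simp only [kap, ha, hb, if_false]
            push_cast
            constructor
            · nlinarith
            · nlinarith [mul_nonneg hlz (by linarith : (0 : ℤ) ≤ N),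
                mul_nonneg hKz (by linarith : (0 : ℤ) ≤ N)])
      have h3 : E + (l + 1) * (N ^ (K + 1) / 4 + 1) =
          E + l * (N ^ (K + 1) / 4 + 1) + (N ^ (K + 1) / 4 + 1) := by ring
      rw [h3]
      exact h2
  refine PP_mono ?_ le_rfl (key (K + 1) le_rfl)
  intro i
  have hi : (i : ℕ) < K + 1 := i.2
  have hiz : (0 : ℤ) ≤ ((i : ℕ) : ℤ) := by positivity
  simp only [kap, hi, if_true]
  push_cast
  nlinarith [mul_nonneg hiz (by linarith : (0 : ℤ) ≤ N)]

theorem scales (hc : Cal c) {K : ℕ} (x : Fin (K + 1) → G) {m : ℕ} (f : ℕ → Fin m → Finset ℤ)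
    (j : ℕ) (hf : ∀ i < j, Hit (4 * (K + 1)) (2 ^ i) (f i)) (hB : RelB x c (4 * (K + 1) + 3))
    (hrel : ∀ i < j, RelN x c (2 ^ i) (2 * (4 * (K + 1) + 3) + 4 * (K + 1)) (f i)) :
    PP x c (fun _ => ((4 * (K + 1) + 3 : ℕ) : ℤ) * 2 ^ j) ((K + 1) * j * (2 ^ j) ^ (K + 1)) := by
  induction j with
  | zero =>
    refine PP_mono ?_ (by simp) (PP_base hc x _ hB)
    intro i
    simp
  | succ j ih =>
    have h1 := ih (fun i hi => hf i (by omega)) (fun i hi => hrel i (by omega))
    have h2 := scale hc x (Nat.one_le_two_pow (n := j)) (hf j (by omega)) (hrel j (by omega))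
      (E := (K + 1) * j * (2 ^ j) ^ (K + 1)) (by
        refine PP_mono ?_ le_rfl h1
        intro i
        simp)
    refine PP_mono ?_ ?_ h2
    · intro i
      push_cast
      rw [pow_succ]
      exact le_of_eq (by ring)
    · have hA : 1 ≤ (2 ^ j) ^ (K + 1) := Nat.one_le_pow _ _ (by positivity)
      have hp : (2 ^ (j + 1)) ^ (K + 1) = 2 ^ (K + 1) * (2 ^ j) ^ (K + 1) := by
        rw [pow_succ 2 j, mul_pow, mul_comm]
      have h2p : 2 ≤ 2 ^ (K + 1) := by
        calc 2 = 2 ^ 1 := by norm_num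
          _ ≤ 2 ^ (K + 1) := Nat.pow_le_pow_right (by norm_num) (by omega)
      have hq : 2 * (2 ^ j) ^ (K + 1) ≤ (2 ^ (j + 1)) ^ (K + 1) := by
        rw [hp]; exact Nat.mul_le_mul_right _ h2p
      generalize hX : (2 ^ j) ^ (K + 1) = X at *
      generalize (2 ^ (j + 1)) ^ (K + 1) = Y at *
      have h4 : X / 4 + 1 ≤ 2 * X := by omega
      calc (K + 1) * j * X + (K + 1) * (X / 4 + 1)
          ≤ (K + 1) * j * Y + (K + 1) * Y := by
            apply Nat.add_le_add
            · exact Nat.mul_le_mul_left _ (by omega)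
            · exact Nat.mul_le_mul_left _ (h4.trans hq)
        _ = (K + 1) * (j + 1) * Y := by ring

end Pool.Agent.LGW
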