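import Pool.Agent.LGW.Quo
import Pool.Agent.LGW.Scale
import Pool.Agent.LGW.Kill
import Pool.Agent.LGW.Hit

/-!
# LGW-KillJ: the final kill with logarithmically many relators
-/

open scoped commutatorElement

namespace Pool.Agent.LGW

open Pool.Agent.Helper33.CW2

universe u

private lemma shift_surj (c₀ : ℕ) {k : ℕ} (y : Fin k → ℤ) (hy : ∀ j, |y j| ≤ (c₀ : ℤ)) :
    ∃ η : Fin k → Fin (2 * c₀ + 1), (fun j => ((η j : ℕ) : ℤ) - (c₀ : ℤ)) = y := by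
  refine ⟨fun j => ⟨(y j + (c₀ : ℤ)).toNat, ?_⟩, ?_⟩
  · have h := abs_le.1 (hy j)
    omega
  · funext j
    have h := abs_le.1 (hy j)
    change (((y j + (c₀ : ℤ)).toNat : ℕ) : ℤ) - (c₀ : ℤ) = y j
    rw [Int.toNat_of_nonneg (by omega)]
    ring

/-- Indices of the base relators. -/
private abbrev IB (k c₀ : ℕ) : Type :=
  Fin k × Fin k × Fin k × (Fin k → Fin (2 * c₀ + 1))

/-- Indices of the scale relators. -/
private abbrev IS (k M m : ℕ) : Type :=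
  Fin k × Fin k × Fin k × Fin k × (Fin k → Fin (2 * M + 1)) × (Fin k → Fin m) × (Fin k → Fin m)

private def vB {G V : Type*} [Group G] {k : ℕ} (x : Fin k → G)
    (c : G → G → V) (c₀ : ℕ) (p : IB k c₀) : V :=
  c ⁅x p.1, x p.2.1⁆ (om x (fun j => ((p.2.2.2 j : ℕ) : ℤ) - (c₀ : ℤ)) * x p.2.2.1 *
    (om x ((fun j => ((p.2.2.2 j : ℕ) : ℤ) - (c₀ : ℤ)) + Pi.single p.2.2.1 1))⁻¹)

private def vS {G V : Type*} [Group G] [AddCommGroup V] {K : ℕ} (x : Fin (K + 1) → G)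
    (c : G → G → V) {M m : ℕ} (f : ℕ → Fin m → Finset ℤ) (n : ℕ) (p : IS (K + 1) M m) : V :=
  relD (fun i => x (Equiv.swap 0 p.1 i)) c (ten (f n) p.2.2.2.2.2.1) (ten (f n) p.2.2.2.2.2.2)
    p.2.1 p.2.2.1 p.2.2.2.1
    (((2 ^ n : ℕ) : ℤ) • (fun j => ((p.2.2.2.2.1 j : ℕ) : ℤ) - (M : ℤ)))

theorem kill_main (K : ℕ) : ∃ C : ℕ, ∀ (j : ℕ) {G V : Type u} [Group G] [AddCommGroup V]
    [DistribMulAction G V] {c : G → G → V} (_ : Cal c) (x : Fin (K + 1) → G),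
    ∃ r : Fin (C * (j + 1)) → V, ∀ J : AddSubgroup V, (∀ (g : G), ∀ v ∈ J, g • v ∈ J) →
      (∀ b, r b ∈ J) → ∀ R a : ℕ, 2 * (R + 1) ≤ (4 * (K + 1) + 3) * 2 ^ j →
      (K + 1) * j * (2 ^ j) ^ (K + 1) + 1 ≤ 2 ^ a → ∀ s ∈ TT x R, ∀ t ∈ TT x R,
      ∀ ms : List G, (∀ m ∈ ms, m ∈ TT x R) →
      (K + 1) ^ 2 * (2 * (R + 1) + 1) ^ (K + 1) * 2 ^ a ≤ ms.length → ops ms (c s t) ∈ J := by
  classical
  set c₀ : ℕ := 4 * (K + 1) + 3 with hc₀
  set M : ℕ := 2 * (4 * (K + 1) + 3) + 4 * (K + 1) with hM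
  set m : ℕ := 48 * (4 * (K + 1)) with hm
  have hfam : ∀ i : ℕ, ∃ f : Fin m → Finset ℤ, Hit (4 * (K + 1)) (2 ^ i) f :=
    fun i => hit_exists (by omega) Nat.one_le_two_pow
  choose f hf using hfam
  refine ⟨Fintype.card (IB (K + 1) c₀) + Fintype.card (IS (K + 1) M m), ?_⟩
  intro j G V _ _ _ c hc x
  have hcard : Fintype.card (IB (K + 1) c₀ ⊕ Fin j × IS (K + 1) M m) ≤
      Fintype.card (Fin ((Fintype.card (IB (K + 1) c₀) + Fintype.card (IS (K + 1) M m)) *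
        (j + 1))) := by
    rw [Fintype.card_fin, Fintype.card_sum, Fintype.card_prod (Fin j), Fintype.card_fin]
    generalize Fintype.card (IB (K + 1) c₀) = A
    generalize Fintype.card (IS (K + 1) M m) = B
    nlinarith [Nat.zero_le (A * j), Nat.zero_le B]
  obtain ⟨e⟩ := Function.Embedding.nonempty_of_card_le hcard
  let val : IB (K + 1) c₀ ⊕ Fin j × IS (K + 1) M m → V :=
    Sum.elim (vB x c c₀) (fun p => vS x c f p.1 p.2)
  refine ⟨Function.extend e val 0, ?_⟩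
  intro J hJ hr R a hR ha s hs t ht ms hms hl
  have hval : ∀ p, val p ∈ J := by
    intro p
    have h := hr (e p)
    rwa [e.injective.extend_apply] at h
  obtain ⟨V', i1, i2, p, hps, hpg, hpJ⟩ := quo J hJ
  have hc' : Cal (fun s t => p (c s t)) := hc.map p hps hpg
  have hB : RelB x (fun s t => p (c s t)) c₀ := by
    intro a b i y hy
    obtain ⟨η, rfl⟩ := shift_surj c₀ y hy
    exact (hpJ _).2 (hval (Sum.inl (a, b, i, η)))
  have hN : ∀ n < j, RelN x (fun s t => p (c s t)) (2 ^ n) M (f n) := by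
    intro n hn l a b i δ hδ s s'
    obtain ⟨η, rfl⟩ := shift_surj M δ hδ
    rw [relD_map]
    exact (hpJ _).2 (hval (Sum.inr ((⟨n, hn⟩ : Fin j), (l, a, b, i, η, s, s'))))
  have hPP := scales hc' x f j (fun i _ => hf i) hB hN
  have hk := kill hc' (Nat.succ_pos K) x hPP (R := R) (a := a) (by
    have h1 : ((2 * (R + 1) : ℕ) : ℤ) ≤ (((4 * (K + 1) + 3) * 2 ^ j : ℕ) : ℤ) := by
      exact_mod_cast hR
    push_cast at h1 ⊢
    exact h1) ha hs ht ms hms hl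
  rw [← ops_map p hpg] at hk
  exact (hpJ _).1 hk

end Pool.Agent.LGW
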