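import Mathlib

/-!
# LGW-Num: the numbers

`R''` below is `1000 (R+1) + r ((2l+1) 16 κ) + 2 κ + 1`, `κ = 1000 (R+1)`, `r = 2 k + 2`.
-/

namespace Pool.Agent.LGW

private theorem num_S (r Q l L C1 : ℕ) (hQ : 1 ≤ Q) (hL : l + 1 = L) (hC : C1 = 100000 * (r + 1)) :
    (1000 * Q + r * ((2 * l + 1) * (16 * (1000 * Q))) + 2 * (1000 * Q) + 1) + 1 ≤ C1 * (Q * L) := by
  have e1 : 2 * l + 1 ≤ 2 * L := by omega
  have e2 : r * ((2 * l + 1) * (16 * (1000 * Q))) ≤ r * ((2 * L) * (16 * (1000 * Q))) := by gcongr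
  have e3 : r * ((2 * L) * (16 * (1000 * Q))) = 32000 * (r * (Q * L)) := by ring
  have e4 : C1 * (Q * L) = 100000 * (r * (Q * L)) + 100000 * (Q * L) := by
    rw [hC]
    ring
  have e5 : Q * 1 ≤ Q * L := Nat.mul_le_mul_left Q (by omega)
  omega

theorem num (k : ℕ) (hk : 1 ≤ k) : ∃ r C : ℕ, ∀ R : ℕ, ∃ l j a : ℕ,
    j ≤ C * (1 + Nat.log 2 (R + 1)) ∧
    2 * ((1000 * (R + 1) + r * ((2 * l + 1) * (16 * (1000 * (R + 1)))) + 2 * (1000 * (R + 1)) + 1) +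
      1) ≤ (4 * k + 3) * 2 ^ j ∧
    k * j * (2 ^ j) ^ k + 1 ≤ 2 ^ a ∧
    k ^ 2 * (2 * ((1000 * (R + 1) + r * ((2 * l + 1) * (16 * (1000 * (R + 1)))) +
      2 * (1000 * (R + 1)) + 1) + 1) + 1) ^ k * 2 ^ a ≤ (l + 1) ^ r := by
  obtain ⟨C1, hC1⟩ : ∃ C1, C1 = 100000 * ((2 * k + 2) + 1) := ⟨_, rfl⟩
  obtain ⟨C3, hC3⟩ : ∃ C3, C3 = k ^ 2 * (3 * C1) ^ k * 2 ^ k * (2 * C1) ^ (k + 1) := ⟨_, rfl⟩
  have hC1p : 1 ≤ C1 := by omega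
  have hC3p : 1 ≤ C3 := by
    rw [hC3]
    have : 0 < k ^ 2 * (3 * C1) ^ k * 2 ^ k * (2 * C1) ^ (k + 1) := by positivity
    omega
  refine ⟨2 * k + 2, 2 * C1 * C3 + (2 * k + 2), fun R => ?_⟩
  obtain ⟨Q, hQ⟩ : ∃ Q, Q = R + 1 := ⟨_, rfl⟩
  rw [← hQ]
  have hQ1 : 1 ≤ Q := by omega
  obtain ⟨L, hL⟩ : ∃ L, L = C3 * Q ^ (2 * k + 1) := ⟨_, rfl⟩
  have hL1 : 1 ≤ L := by
    rw [hL]
    have : 0 < C3 * Q ^ (2 * k + 1) := by positivity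
    omega
  obtain ⟨l, hl⟩ : ∃ l, l + 1 = L := ⟨L - 1, by omega⟩
  obtain ⟨S, hS⟩ : ∃ S, S = (1000 * Q + (2 * k + 2) * ((2 * l + 1) * (16 * (1000 * Q))) + 2 * (1000 * Q) + 1) + 1 :=
    ⟨_, rfl⟩
  have hS1 : 1 ≤ S := by omega
  have hSle : S ≤ C1 * (Q * L) := by
    rw [hS]
    exact num_S (2 * k + 2) Q l L C1 hQ1 hl hC1
  obtain ⟨j, hj⟩ : ∃ j, j = Nat.log 2 S + 1 := ⟨_, rfl⟩
  have hj1 : S < 2 ^ j := by
    rw [hj]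
    exact Nat.lt_pow_succ_log_self (by norm_num) S
  have hj2 : 2 ^ j ≤ 2 * S := by
    rw [hj, pow_succ, mul_comm]
    exact Nat.mul_le_mul_left 2 (Nat.pow_log_le_self 2 (by omega))
  have hj3 : 2 ^ j ≤ 2 * C1 * (Q * L) := by
    calc 2 ^ j ≤ 2 * S := hj2
      _ ≤ 2 * (C1 * (Q * L)) := Nat.mul_le_mul_left 2 hSle
      _ = 2 * C1 * (Q * L) := by ring
  refine ⟨l, j, k + j * (k + 1), ?_, ?_, ?_, ?_⟩
  · have e1 : 2 * C1 * (Q * L) = 2 * C1 * C3 * Q ^ (2 * k + 2) := by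
      rw [hL]
      ring
    have e2 : 2 * C1 * C3 ≤ 2 ^ (2 * C1 * C3) := Nat.lt_two_pow_self.le
    have e3 : Q ^ (2 * k + 2) ≤ (2 ^ (Nat.log 2 Q + 1)) ^ (2 * k + 2) :=
      Nat.pow_le_pow_left (Nat.lt_pow_succ_log_self (by norm_num) Q).le _
    have e4 : 2 ^ j ≤ 2 ^ (2 * C1 * C3 + (Nat.log 2 Q + 1) * (2 * k + 2)) := by
      calc 2 ^ j ≤ 2 * C1 * C3 * Q ^ (2 * k + 2) := by rw [← e1]; exact hj3
        _ ≤ 2 ^ (2 * C1 * C3) * (2 ^ (Nat.log 2 Q + 1)) ^ (2 * k + 2) := Nat.mul_le_mul e2 e3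
        _ = 2 ^ (2 * C1 * C3 + (Nat.log 2 Q + 1) * (2 * k + 2)) := by rw [← pow_mul, ← pow_add]
    have e5 : j ≤ 2 * C1 * C3 + (Nat.log 2 Q + 1) * (2 * k + 2) := (Nat.pow_le_pow_iff_right (by norm_num)).1 e4
    have e6 : 2 * C1 * C3 * 1 ≤ 2 * C1 * C3 * (1 + Nat.log 2 Q) := Nat.mul_le_mul_left _ (by omega)
    calc j ≤ 2 * C1 * C3 + (Nat.log 2 Q + 1) * (2 * k + 2) := e5
      _ ≤ 2 * C1 * C3 * (1 + Nat.log 2 Q) + (Nat.log 2 Q + 1) * (2 * k + 2) := by omega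
      _ = (2 * C1 * C3 + (2 * k + 2)) * (1 + Nat.log 2 Q) := by ring
  · rw [← hS]
    calc 2 * S ≤ 2 * 2 ^ j := Nat.mul_le_mul_left 2 hj1.le
      _ ≤ (4 * k + 3) * 2 ^ j := Nat.mul_le_mul_right _ (by omega)
  · have e1 : j ≤ 2 ^ j := Nat.lt_two_pow_self.le
    have e2 : k + 1 ≤ 2 ^ k := Nat.lt_two_pow_self
    have e3 : 1 ≤ (2 ^ j) ^ (k + 1) := Nat.one_le_pow _ _ (by positivity)
    calc k * j * (2 ^ j) ^ k + 1 ≤ k * 2 ^ j * (2 ^ j) ^ k + (2 ^ j) ^ (k + 1) := by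
          refine Nat.add_le_add ?_ e3
          exact Nat.mul_le_mul_right _ (Nat.mul_le_mul_left _ e1)
      _ = (k + 1) * (2 ^ j) ^ (k + 1) := by ring
      _ ≤ 2 ^ k * (2 ^ j) ^ (k + 1) := Nat.mul_le_mul_right _ e2
      _ = 2 ^ (k + j * (k + 1)) := by rw [← pow_mul, ← pow_add]
  · rw [← hS, hl]
    have e1 : 2 * S + 1 ≤ 3 * C1 * (Q * L) := by
      calc 2 * S + 1 ≤ 3 * S := by omega
        _ ≤ 3 * (C1 * (Q * L)) := Nat.mul_le_mul_left 3 hSle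
        _ = 3 * C1 * (Q * L) := by ring
    have e2 : 2 ^ (k + j * (k + 1)) ≤ 2 ^ k * (2 * C1 * (Q * L)) ^ (k + 1) := by
      rw [pow_add, pow_mul]
      exact Nat.mul_le_mul_left _ (Nat.pow_le_pow_left hj3 _)
    calc k ^ 2 * (2 * S + 1) ^ k * 2 ^ (k + j * (k + 1))
        ≤ k ^ 2 * (3 * C1 * (Q * L)) ^ k * (2 ^ k * (2 * C1 * (Q * L)) ^ (k + 1)) :=
          Nat.mul_le_mul (Nat.mul_le_mul_left _ (Nat.pow_le_pow_left e1 _)) e2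
      _ = (k ^ 2 * (3 * C1) ^ k * 2 ^ k * (2 * C1) ^ (k + 1)) * (Q * L) ^ (2 * k + 1) := by
          rw [mul_pow, mul_pow (2 * C1)]
          ring
      _ = (C3 * Q ^ (2 * k + 1)) * L ^ (2 * k + 1) := by rw [← hC3, mul_pow, mul_assoc]
      _ = L ^ (2 * k + 2) := by
          rw [← hL]
          ring

end Pool.Agent.LGW
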