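import Pool.Agent.LGW.MDefs
import Pool.Agent.Helper33.CW2.Merge
import Pool.Agent.Helper33.CW2.TB

/-!
# LGW-Rem: the remainder is a short sum

PLAN. Let `J = AddSubgroup.closure {v | ∃ (g : G) b, v = g • r b}`, a `G`-stable subgroup which contains the `r b`.
(1) For an item `y ∈ Itm x (WV x N π R) κ R' D q`, `y.2 = ops ms (g • w')`, `g ∈ CC x R' δ`, `bx (2 κ) δ`, `w' = π n`,
`n ∈ NT x R = ⁅TT x R, TT x R⁆`; claim `y.2 ∈ J`. The set of `n ∈ N` with `ops ms (g • π n) ∈ J` is closed under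
products and inverses (`ops_add`, `π 1 = 0`, `π n⁻¹ = -π n`), so by closure induction (with `n ∈ N`) it is enough to treat
`n = ⁅s, t⁆`, `s, t ∈ TT x R`: `g • π ⁅s, t⁆ = g • c s t = c (g s g⁻¹) (g t g⁻¹)`, and `g s g⁻¹ ∈ TT x (R' + 2 κ + 1)`
(`conj_TT` with `D = 2 κ`), `ms` in `TT x R' ≤ TT x (R' + 2 κ + 1)`, so `hJ` applies.
(2) For `v ∈ J` and `w : V`: `β w v ∈ A₀ := {a | ∃ U : Fin B → V, a = ∑ b, β (U b) (r b)}` (an additive subgroup):
closure induction, `β w (g • r b) = β (g⁻¹ • w) (r b)` (`hinv`). So `BI … ≤ A₀`.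
-/

open scoped commutatorElement

namespace Pool.Agent.LGW

open Pool.Agent.Helper33.CW2

universe u

theorem remainder {G V A : Type u} [Group G] [AddCommGroup V] [DistribMulAction G V]
    [AddCommGroup A] {k : ℕ} (x : Fin k → G) (N : Subgroup G) (π : N → V)
    (hπ : ∀ a b, π (a * b) = π a + π b) {c : G → G → V} (hc : Cal c)
    (hcπ : ∀ s ∈ commutator G, ∀ t ∈ commutator G, ∃ h : ⁅s, t⁆ ∈ N, c s t = π ⟨⁅s, t⁆, h⟩)
    (β : V →+ V →+ A) (hinv : ∀ (g : G) (u v : V), β (g • u) (g • v) = β u v)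
    {R R' κ D B : ℕ} (hRR : R ≤ R') (r : Fin B → V)
    (hJ : ∀ J : AddSubgroup V, (∀ (g : G), ∀ v ∈ J, g • v ∈ J) → (∀ b, r b ∈ J) →
      ∀ s ∈ TT x (R' + 2 * κ + 1), ∀ t ∈ TT x (R' + 2 * κ + 1), ∀ ms : List G,
      (∀ m ∈ ms, m ∈ TT x (R' + 2 * κ + 1)) → D ≤ ms.length → ops ms (c s t) ∈ J)
    {e : A} (he : e ∈ BI β x (WV x N π R) κ R' D) :
    ∃ U : Fin B → V, e = ∑ b, β (U b) (r b) := by
  classical
  -- the stable subgroup generated by the `r b`
  let J : AddSubgroup V := AddSubgroup.closure {v | ∃ (g : G) (b : Fin B), v = g • r b}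
  have hJg : ∀ (g : G), ∀ v ∈ J, g • v ∈ J := by
    intro g v hv
    refine AddSubgroup.closure_induction (p := fun v _ => g • v ∈ J) ?_ ?_ ?_ ?_ hv
    · rintro _ ⟨h, b, rfl⟩
      rw [smul_smul]
      exact AddSubgroup.subset_closure ⟨g * h, b, rfl⟩
    · rw [smul_zero]
      exact J.zero_mem
    · intro v w _ _ hv hw
      rw [smul_add]
      exact J.add_mem hv hw
    · intro v _ hv
      rw [smul_neg]
      exact J.neg_mem hv
  have hJr : ∀ b, r b ∈ J := fun b => AddSubgroup.subset_closure ⟨1, b, (one_smul G _).symm⟩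
  have hJ1 := hJ J hJg hJr
  have hπ1 : π 1 = 0 := by
    have h := hπ 1 1
    rw [mul_one] at h
    exact (left_eq_add.1 h)
  have hπi : ∀ a : N, π a⁻¹ = -π a := by
    intro a
    have h := hπ a⁻¹ a
    rw [inv_mul_cancel, hπ1] at h
    exact eq_neg_of_add_eq_zero_left h.symm
  have hon : ∀ (ms : List G) (v : V), ops ms (-v) = -ops ms v := by
    intro ms v
    have h := ops_add ms (-v) v
    rw [neg_add_cancel, ops_zero] at h
    exact eq_neg_of_add_eq_zero_left h.symm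
  -- the items are in `J`
  have hitm : ∀ (ms : List G) (δ : Fin k → ℤ) (g : G) (w : V), w ∈ WV x N π R → D ≤ ms.length →
      (∀ m ∈ ms, m ∈ TT x R') → bx (2 * κ) δ → g ∈ CC x R' δ → ops ms (g • w) ∈ J := by
    rintro ms δ g w ⟨n, hn, rfl⟩ hD hms hδ hg
    have key : ∀ y : G, y ∈ NT x R → ∃ h : y ∈ N, ops ms (g • π ⟨y, h⟩) ∈ J := by
      intro y hy
      unfold NT at hy
      rw [Subgroup.commutator_def] at hy
      refine Subgroup.closure_induction
        (p := fun y _ => ∃ h : y ∈ N, ops ms (g • π ⟨y, h⟩) ∈ J) ?_ ?_ ?_ ?_ hy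
      · rintro _ ⟨s, hs, t, ht, rfl⟩
        obtain ⟨h, h1⟩ := hcπ s (TT_le x R hs) t (TT_le x R ht)
        refine ⟨h, ?_⟩
        rw [← h1, ← hc.conj g s (TT_le x R hs) t (TT_le x R ht)]
        refine hJ1 _ (conj_TT x hδ hg (TT_mono x hRR hs)) _ (conj_TT x hδ hg (TT_mono x hRR ht)) ms
          (fun m hm => TT_mono x (by omega) (hms m hm)) hD
      · refine ⟨N.one_mem, ?_⟩
        have h : (⟨1, N.one_mem⟩ : N) = 1 := rfl
        rw [h, hπ1, smul_zero, ops_zero]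
        exact J.zero_mem
      · rintro a b _ _ ⟨ha, ha1⟩ ⟨hb, hb1⟩
        refine ⟨N.mul_mem ha hb, ?_⟩
        have h : (⟨a * b, N.mul_mem ha hb⟩ : N) = ⟨a, ha⟩ * ⟨b, hb⟩ := rfl
        rw [h, hπ, smul_add, ops_add]
        exact J.add_mem ha1 hb1
      · rintro a _ ⟨ha, ha1⟩
        refine ⟨N.inv_mem ha, ?_⟩
        have h : (⟨a⁻¹, N.inv_mem ha⟩ : N) = (⟨a, ha⟩ : N)⁻¹ := rfl
        rw [h, hπi, smul_neg, hon]
        exact J.neg_mem ha1
    obtain ⟨h, h1⟩ := key (n : G) hn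
    exact h1
  -- the short sums
  have hsh : ∀ v ∈ J, ∀ w : V, ∃ U : Fin B → V, β w v = ∑ b, β (U b) (r b) := by
    intro v hv
    refine AddSubgroup.closure_induction
      (p := fun v _ => ∀ w : V, ∃ U : Fin B → V, β w v = ∑ b, β (U b) (r b)) ?_ ?_ ?_ ?_ hv
    · rintro _ ⟨g, b, rfl⟩ w
      refine ⟨Pi.single b (g⁻¹ • w), ?_⟩
      rw [Finset.sum_eq_single b]
      · rw [Pi.single_eq_same, ← hinv g (g⁻¹ • w) (r b), smul_smul, mul_inv_cancel, one_smul]
      · intro b' _ hb'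
        rw [Pi.single_eq_of_ne hb', map_zero, AddMonoidHom.zero_apply]
      · intro hb
        exact absurd (Finset.mem_univ b) hb
    · intro w
      refine ⟨0, ?_⟩
      simp
    · intro v v' _ _ h h' w
      obtain ⟨U, hU⟩ := h w
      obtain ⟨U', hU'⟩ := h' w
      refine ⟨U + U', ?_⟩
      rw [map_add, hU, hU', ← Finset.sum_add_distrib]
      refine Finset.sum_congr rfl fun b _ => ?_
      rw [Pi.add_apply, map_add, AddMonoidHom.add_apply]
    · intro v _ h w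
      obtain ⟨U, hU⟩ := h w
      refine ⟨-U, ?_⟩
      rw [map_neg, hU, ← Finset.sum_neg_distrib]
      refine Finset.sum_congr rfl fun b _ => ?_
      rw [Pi.neg_apply, map_neg, AddMonoidHom.neg_apply]
  unfold BI at he
  refine AddSubgroup.closure_induction
    (p := fun e _ => ∃ U : Fin B → V, e = ∑ b, β (U b) (r b)) ?_ ?_ ?_ ?_ he
  · rintro _ ⟨q, y, ⟨hy1, ms, δ, g, w, hw, hD, hms, hδ, hq, hg, hy⟩, rfl⟩
    rw [hy]
    exact hsh _ (hitm ms δ g w hw hD hms hδ hg) _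
  · exact ⟨0, by simp⟩
  · rintro a b _ _ ⟨U, hU⟩ ⟨U', hU'⟩
    refine ⟨U + U', ?_⟩
    rw [hU, hU', ← Finset.sum_add_distrib]
    refine Finset.sum_congr rfl fun b _ => ?_
    rw [Pi.add_apply, map_add, AddMonoidHom.add_apply]
  · rintro a _ ⟨U, hU⟩
    refine ⟨-U, ?_⟩
    rw [hU, ← Finset.sum_neg_distrib]
    refine Finset.sum_congr rfl fun b _ => ?_
    rw [Pi.neg_apply, map_neg, AddMonoidHom.neg_apply]

end Pool.Agent.LGW
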