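import Pool.Agent.LGW.MDefs
import Pool.Agent.Helper33.CW2.Start

/-!
# LGW-StartR: the start of the rounds

As `start0`, `start1` in `Pool/Agent/Helper33/CW2/Start.lean`.
-/

open scoped commutatorElement

namespace Pool.Agent.LGW

open Pool.Agent.Helper33.CW2 Pool.Agent.Helper26.CW

attribute [local instance] centerCommGroup

universe u

private theorem sr_one {G V : Type u} [Group G] [AddCommGroup V] (N : Subgroup G) (π : N → V)
    (hπ : ∀ a b, π (a * b) = π a + π b) : π 1 = 0 := by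
  have h := hπ 1 1
  rw [mul_one] at h
  exact left_eq_add.1 h

private theorem sr_inv {G V : Type u} [Group G] [AddCommGroup V] (N : Subgroup G) (π : N → V)
    (hπ : ∀ a b, π (a * b) = π a + π b) (a : N) : π a⁻¹ = - π a := by
  have h := hπ a⁻¹ a
  rw [inv_mul_cancel, sr_one N π hπ] at h
  exact eq_neg_of_add_eq_zero_left h.symm

theorem startR {G V : Type u} [Group G] [AddCommGroup V] [DistribMulAction G V] {k : ℕ}
    (x : Fin k → G) (N : Subgroup G) [hN : N.Normal] (hN' : N = ⁅commutator G, commutator G⁆)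
    (hc : ∀ r ∈ N, ∀ s ∈ N, ⁅r, s⁆ ∈ Subgroup.center G) (π : N → V)
    (β : V →+ V →+ Additive (Subgroup.center G)) (hπ : ∀ a b, π (a * b) = π a + π b)
    (hcj : ∀ (g : G) a, π (cj N g a) = g • π a)
    (hβ : ∀ a b, β (π a) (π b) = Pool.Agent.Helper26.CW.om N hc a b) {R : ℕ} {z : G}
    (hz : z ∈ ⁅NT x R, KT x R⁆) :
    ∃ ζ : Additive (Subgroup.center G), (∀ κ, ζ ∈ BI β x (WV x N π R) κ R 1) ∧
      z = ((Additive.toMul ζ : Subgroup.center G) : G) := by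
  have hNT : NT x R ≤ N := by
    rw [hN']
    exact Subgroup.commutator_mono (TT_le x R) (TT_le x R)
  have hgen : ∀ w ∈ WV x N π R, ∀ v ∈ WV x N π R, ∀ h ∈ TT x R, ∀ κ,
      β w (h • v - v) ∈ BI β x (WV x N π R) κ R 1 := by
    intro w hw v hv h hh κ
    refine AddSubgroup.subset_closure ⟨cls κ 0, (w, h • v - v), ?_, rfl⟩
    refine ⟨hw, [h], 0, 1, v, hv, by simp, ?_, bx_zero _, rfl, ?_, ?_⟩
    · intro m hm
      rw [List.mem_singleton] at hm
      rw [hm]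
      exact hh
    · rw [CC_zero]
      exact Subgroup.one_mem _
    · rw [one_smul, ops_cons, ops_nil]
  have hK : ∀ b ∈ KT x R, ∃ hb : b ∈ N, ∀ w ∈ WV x N π R, ∀ κ,
      β w (π ⟨b, hb⟩) ∈ BI β x (WV x N π R) κ R 1 := by
    intro b hb
    unfold KT at hb
    rw [Subgroup.commutator_def] at hb
    induction hb using Subgroup.closure_induction with
    | mem b hb =>
      obtain ⟨v', hv', h, hh, rfl⟩ := hb
      have hv : v' ∈ N := hNT hv'
      have h1 : ⁅v', h⁆ = ((⟨v', hv⟩ * cj N h (⟨v', hv⟩ : N)⁻¹ : N) : G) := by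
        simp only [commutatorElement_def, cj, Subgroup.coe_mul, Subgroup.coe_inv]
        group
      have h2 : ⁅v', h⁆ ∈ N := by rw [h1]; exact SetLike.coe_mem _
      refine ⟨h2, ?_⟩
      intro w hw κ
      have h3 : (⟨⁅v', h⁆, h2⟩ : N) = ⟨v', hv⟩ * cj N h (⟨v', hv⟩ : N)⁻¹ := Subtype.ext h1
      rw [h3, hπ, hcj, sr_inv N π hπ, smul_neg,
        show π ⟨v', hv⟩ + -(h • π ⟨v', hv⟩) = -(h • π ⟨v', hv⟩ - π ⟨v', hv⟩) by abel, map_neg]
      exact AddSubgroup.neg_mem _ (hgen w hw _ ⟨⟨v', hv⟩, hv', rfl⟩ _ hh κ)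
    | one =>
      refine ⟨N.one_mem, fun w _ κ => ?_⟩
      have : π ⟨1, N.one_mem⟩ = 0 := sr_one N π hπ
      rw [this, map_zero]
      exact AddSubgroup.zero_mem _
    | mul a b _ _ iha ihb =>
      obtain ⟨ha, ha'⟩ := iha
      obtain ⟨hb, hb'⟩ := ihb
      refine ⟨N.mul_mem ha hb, fun w hw κ => ?_⟩
      have : π ⟨a * b, N.mul_mem ha hb⟩ = π ⟨a, ha⟩ + π ⟨b, hb⟩ := hπ ⟨a, ha⟩ ⟨b, hb⟩
      rw [this, map_add]
      exact AddSubgroup.add_mem _ (ha' w hw κ) (hb' w hw κ)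
    | inv a _ iha =>
      obtain ⟨ha, ha'⟩ := iha
      refine ⟨N.inv_mem ha, fun w hw κ => ?_⟩
      have : π ⟨a⁻¹, N.inv_mem ha⟩ = -π ⟨a, ha⟩ := sr_inv N π hπ ⟨a, ha⟩
      rw [this, map_neg]
      exact AddSubgroup.neg_mem _ (ha' w hw κ)
  rw [Subgroup.commutator_def] at hz
  induction hz using Subgroup.closure_induction with
  | mem z hz =>
    obtain ⟨a, ha, b, hb, rfl⟩ := hz
    have ha1 : a ∈ N := hNT ha
    obtain ⟨hb1, hb2⟩ := hK b hb
    refine ⟨Pool.Agent.Helper26.CW.om N hc ⟨a, ha1⟩ ⟨b, hb1⟩, fun κ => ?_, rfl⟩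
    rw [← hβ]
    exact hb2 _ ⟨⟨a, ha1⟩, ha, rfl⟩ κ
  | one => exact ⟨0, fun κ => AddSubgroup.zero_mem _, rfl⟩
  | mul a b _ _ iha ihb =>
    obtain ⟨ζ, h1, h2⟩ := iha
    obtain ⟨ζ', h3, h4⟩ := ihb
    refine ⟨ζ + ζ', fun κ => AddSubgroup.add_mem _ (h1 κ) (h3 κ), ?_⟩
    rw [h2, h4]
    rfl
  | inv a _ iha =>
    obtain ⟨ζ, h1, h2⟩ := iha
    refine ⟨-ζ, fun κ => AddSubgroup.neg_mem _ (h1 κ), ?_⟩
    rw [h2]
    rfl

end Pool.Agent.LGW
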