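import Pool.Agent.LGW.EC
import Pool.Agent.LGW.StartR
import Pool.Agent.LGW.CalI
import Pool.Agent.LGW.Rem
import Pool.Agent.LGW.Num
import Pool.Agent.LGW.KillJ
import Pool.Agent.Helper33.CW2.Core

/-!
# LGW-CoreL: assembly, `[N, N]` central of exponent `2`, `N = G''`
-/

open scoped commutatorElement

namespace Pool.Agent.LGW

open Pool.Agent.Helper33.CW2 Pool.Agent.Helper26.CW

attribute [local instance] centerCommGroup

universe u

theorem coreL (K : ℕ) : ∃ C : ℕ, ∀ {G : Type u} [Group G] (x : Fin (K + 1) → G)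
    (_ : Subgroup.closure (Set.range x) = ⊤)
    (_ : ∀ r ∈ ⁅commutator G, commutator G⁆, ∀ s ∈ ⁅commutator G, commutator G⁆,
      ⁅r, s⁆ ∈ Subgroup.center G)
    (_ : ∀ r ∈ ⁅commutator G, commutator G⁆, ∀ s ∈ ⁅commutator G, commutator G⁆, ⁅r, s⁆ ^ 2 = 1)
    (R : ℕ) {z : G} (_ : z ∈ ⁅NT x R, KT x R⁆),
    IsProdComm (C * (1 + Nat.log 2 (R + 1))) z := by
  obtain ⟨C1, hC1⟩ := kill_main.{u} K
  obtain ⟨r, C2, hnum⟩ := num (K + 1) (by omega)
  refine ⟨r * (5 ^ (K + 1) * (K + 1)) + C1 * (C2 + 1), ?_⟩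
  intro G _ x hx hc he R z hz
  obtain ⟨N, hNd⟩ : ∃ N : Subgroup G, N = ⁅commutator G, commutator G⁆ := ⟨_, rfl⟩
  have hN : N.Normal := by rw [hNd]; infer_instance
  rw [← hNd] at hc he
  obtain ⟨V, _, _, π, β, hsurj, hπ, hV, hcj, hβ⟩ := setup N hc he
  have h2 : ∀ u v : V, β u v + β u v = 0 := by
    intro u v
    rw [← AddMonoidHom.map_add, hV, map_zero]
  have hsym : ∀ u v : V, β u v = β v u := by
    intro u v
    obtain ⟨b, rfl⟩ := hsurj u
    obtain ⟨d, rfl⟩ := hsurj v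
    have h3 := h2 (π b) (π d)
    rw [hβ] at h3
    rw [hβ, hβ, om_swap N hc d b]
    exact eq_neg_of_add_eq_zero_left h3
  have hinv : ∀ (g : G) (u v : V), β (g • u) (g • v) = β u v := by
    intro g u v
    obtain ⟨b, rfl⟩ := hsurj u
    obtain ⟨d, rfl⟩ := hsurj v
    rw [← hcj, ← hcj, hβ, hβ, om_cj]
  obtain ⟨c, hcal, hcπ⟩ := cal_exists N hNd π hsurj hπ hV hcj
  obtain ⟨l, j, a, hj, hn1, hn2, hn3⟩ := hnum R
  obtain ⟨rr, hrr⟩ := hC1 j hcal x
  obtain ⟨E, S, hES, hE, hS⟩ := elemma_ctl x hx N hc he π β hsurj hπ hV hcj hβ R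
  obtain ⟨ζ, hζ, rfl⟩ := startR x N hNd hc π β hπ hcj hβ hz
  obtain ⟨ω, hω⟩ := rounds x β hsym hinv h2 E S (κ := 1000 * (R + 1)) (lam := 1000 * (R + 1))
    (by omega) hE hS (R := 1000 * (R + 1)) le_rfl l r
    (BI_mono x β (le_refl _) (by omega) (le_refl 1) (hζ (1000 * (R + 1))))
  obtain ⟨U, hU⟩ := remainder x N π hπ hcal hcπ β hinv (R := R)
    (R' := 1000 * (R + 1) + r * ((2 * l + 1) * (16 * (1000 * (R + 1)))))
    (κ := 1000 * (R + 1)) (D := (l + 1) ^ r) (by omega) rr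
    (fun J hJ1 hJ2 s hs t ht ms hms hlen => hrr J hJ1 hJ2 _ a hn1 hn2 s hs t ht ms hms
      (hn3.trans hlen)) hω
  have h5 : ζ = ∑ i, ∑ q, tot β E S (ω i q) + ∑ b, β (U b) (rr b) := by
    rw [← hU]; abel
  rw [h5, Pool.Agent.Helper26.CW.toMul_add]
  have h6 := isProdComm_sum (k := 5 ^ (K + 1) * (K + 1)) (Finset.univ : Finset (Fin r))
    (fun i => ∑ q, tot β E S (ω i q)) (by
      intro i _
      have h7 := isProdComm_sum (k := K + 1) (Finset.univ : Finset (Fin (K + 1) → Fin 5))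
        (fun q => tot β E S (ω i q)) (fun q _ => hES (ω i q))
      rwa [Finset.card_univ, Fintype.card_fun, Fintype.card_fin, Fintype.card_fin] at h7)
  have h8 := isProdComm_sum (k := 1) (Finset.univ : Finset (Fin (C1 * (j + 1))))
    (fun b => β (U b) (rr b)) (by
      intro b _
      obtain ⟨p, hp⟩ := hsurj (U b)
      obtain ⟨q, hq⟩ := hsurj (rr b)
      rw [← hp, ← hq, hβ, om_def]
      exact isProdComm_comm _ _)
  rw [Finset.card_univ, Fintype.card_fin] at h6 h8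
  refine (h6.mul h8).mono ?_
  have h9 : C1 * (j + 1) ≤ C1 * (C2 + 1) * (1 + Nat.log 2 (R + 1)) := by
    rw [mul_assoc]
    refine Nat.mul_le_mul_left _ ?_
    nlinarith [Nat.zero_le (Nat.log 2 (R + 1))]
  have h10 : r * (5 ^ (K + 1) * (K + 1)) ≤
      r * (5 ^ (K + 1) * (K + 1)) * (1 + Nat.log 2 (R + 1)) :=
    Nat.le_mul_of_pos_right _ (by omega)
  rw [mul_one, add_mul]
  exact Nat.add_le_add h10 h9

end Pool.Agent.LGW
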