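import Pool.Agent.LGW.RBl

/-!
# LGW-Ctl: controlled words

Every element of `TT x R` is the value of a word all suffixes of which have displacement and content in the box of radius
`20 (R + 1)` (proved by helper77).
-/

open scoped commutatorElement

namespace Pool.Agent.LGW

open Pool.Agent.Helper33.CW2

variable {G : Type*} [Group G] {k : ℕ}

private theorem pre_app {A : Type*} {P U V : List A} (h : P <+: U ++ V) :
    P <+: U ∨ ∃ P', P' <+: V ∧ P = U ++ P' := by
  obtain ⟨T, hT⟩ := h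
  rcases List.append_eq_append_iff.1 hT with ⟨a, h1, -⟩ | ⟨c, h1, h2⟩
  · exact Or.inl ⟨a, h1.symm⟩
  · exact Or.inr ⟨c, ⟨T, h2.symm⟩, h1⟩

private theorem suf_app {A : Type*} {S U V : List A} (h : S <:+ U ++ V) :
    S <:+ V ∨ ∃ S', S' <:+ U ∧ S = S' ++ V := by
  obtain ⟨T, hT⟩ := h
  rcases List.append_eq_append_iff.1 hT with ⟨a, h1, h2⟩ | ⟨c, h1, h2⟩
  · exact Or.inr ⟨a, ⟨T, h1.symm⟩, h2⟩
  · exact Or.inl ⟨c, h2.symm⟩

private theorem gp_succ {k : ℕ} (x : Fin (k + 1) → G) (γ : Fin (k + 1) → ℤ) :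
    gp x γ = x 0 ^ γ 0 * gp (fun i => x i.succ) (fun i => γ i.succ) := by
  unfold gp
  rw [List.ofFn_succ, List.prod_cons]

/-- the word of a power -/
private def pw {k : ℕ} (i : Fin k) (n : ℤ) : List (Fin k × Bool) := List.replicate n.natAbs (i, decide (0 ≤ n))

private theorem ev_rep (x : Fin k → G) (i : Fin k) (n : ℕ) :
    ev x (List.replicate n (i, true)) = x i ^ n ∧ ev x (List.replicate n (i, false)) = (x i)⁻¹ ^ n := by
  induction n with
  | zero => exact ⟨(pow_zero _).symm, (pow_zero _).symm⟩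
  | succ n ih =>
    rw [List.replicate_succ, List.replicate_succ]
    refine ⟨?_, ?_⟩
    · show x i * ev x (List.replicate n (i, true)) = _
      rw [ih.1, pow_succ']
    · show (x i)⁻¹ * ev x (List.replicate n (i, false)) = _
      rw [ih.2, pow_succ']

private theorem ev_pw (x : Fin k → G) (i : Fin k) (n : ℤ) : ev x (pw i n) = x i ^ n := by
  unfold pw
  by_cases h : 0 ≤ n
  · rw [decide_eq_true h, (ev_rep x i _).1]
    obtain ⟨m, rfl⟩ := Int.eq_ofNat_of_zero_le h
    rw [Int.natAbs_natCast, zpow_natCast]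
  · rw [decide_eq_false h, (ev_rep x i _).2]
    obtain ⟨m, hm⟩ := Int.eq_ofNat_of_zero_le (show 0 ≤ -n by omega)
    have h2 : n = -(m : ℤ) := by omega
    rw [h2, Int.natAbs_neg, Int.natAbs_natCast, zpow_neg, zpow_natCast, inv_pow]

private theorem pre_pw {i : Fin k} {n : ℤ} {P : List (Fin k × Bool)} (h : P <+: pw i n) :
    ∃ m : ℤ, |m| ≤ |n| ∧ P = pw i m := by
  have h1 : P = List.replicate P.length (i, decide (0 ≤ n)) := by
    rw [List.eq_replicate_iff]
    exact ⟨rfl, fun a ha => List.eq_of_mem_replicate (h.subset ha)⟩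
  have h2 : P.length ≤ n.natAbs := by
    have := h.length_le
    unfold pw at this
    rwa [List.length_replicate] at this
  by_cases hn : 0 ≤ n
  · refine ⟨(P.length : ℤ), ?_, ?_⟩
    · rw [abs_of_nonneg (by omega), abs_of_nonneg hn]
      omega
    · unfold pw
      rw [Int.natAbs_natCast, decide_eq_true (by omega)]
      rw [decide_eq_true hn] at h1
      exact h1
  · by_cases hP : P.length = 0
    · refine ⟨0, ?_, ?_⟩
      · rw [abs_zero]
        exact abs_nonneg _
      · rw [List.length_eq_zero_iff.1 hP]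
        rfl
    · refine ⟨-(P.length : ℤ), ?_, ?_⟩
      · rw [abs_neg, abs_of_nonneg (by omega), abs_of_neg (by omega)]
        omega
      · unfold pw
        rw [Int.natAbs_neg, Int.natAbs_natCast, decide_eq_false (by omega)]
        rw [decide_eq_false hn] at h1
        exact h1

private theorem ev_map {k : ℕ} (x : Fin (k + 1) → G) (W : List (Fin k × Bool)) :
    ev x (W.map fun p => (p.1.succ, p.2)) = ev (fun i => x i.succ) W := by
  induction W with
  | nil => rfl
  | cons p W ih =>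
    obtain ⟨i, b⟩ := p
    cases b
    · show (x i.succ)⁻¹ * ev x (W.map fun p => (p.1.succ, p.2)) = (x i.succ)⁻¹ * ev (fun i => x i.succ) W
      rw [ih]
    · show x i.succ * ev x (W.map fun p => (p.1.succ, p.2)) = x i.succ * ev (fun i => x i.succ) W
      rw [ih]

/-- the word of `gp x γ` -/
private theorem gp_word : ∀ {k : ℕ} (x : Fin k → G) (R : ℕ) (γ : Fin k → ℤ), bx R γ →
    ∃ W : List (Fin k × Bool), ev x W = gp x γ ∧ ∀ P, P <+: W → ∃ δ, bx R δ ∧ ev x P = gp x δ := by
  intro k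
  induction k with
  | zero =>
    intro x R γ _
    refine ⟨[], ?_, fun P hP => ⟨0, bx_zero R, ?_⟩⟩
    · rfl
    · rw [List.prefix_nil.1 hP, gp_zero]
      rfl
  | succ k ih =>
    intro x R γ hγ
    obtain ⟨W, hW, hP⟩ := ih (fun i => x i.succ) R (fun i => γ i.succ) fun i => hγ i.succ
    refine ⟨pw 0 (γ 0) ++ W.map (fun p => (p.1.succ, p.2)), ?_, ?_⟩
    · rw [ev_app, ev_pw, ev_map, hW, gp_succ]
    · intro P hPre
      rcases pre_app hPre with h | ⟨P', h, rfl⟩
      · obtain ⟨m, hm, rfl⟩ := pre_pw h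
        refine ⟨Fin.cons m 0, ?_, ?_⟩
        · intro j
          refine Fin.cases ?_ (fun j => ?_) j
          · rw [Fin.cons_zero]
            exact hm.trans (hγ 0)
          · rw [Fin.cons_succ, Pi.zero_apply, abs_zero]
            exact Int.natCast_nonneg R
        · rw [ev_pw, gp_succ, Fin.cons_zero]
          have h2 : (fun i : Fin k => (Fin.cons m 0 : Fin (k + 1) → ℤ) i.succ) = 0 := rfl
          rw [h2, gp_zero, mul_one]
      · obtain ⟨T, hT⟩ := h
        have h3 := List.append_eq_map_iff.1 hT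
        obtain ⟨U, V, hUV, hU, -⟩ := h3
        obtain ⟨δ, hδ, hev⟩ := hP U ⟨V, hUV.symm⟩
        refine ⟨Fin.cons (γ 0) δ, ?_, ?_⟩
        · intro j
          refine Fin.cases ?_ (fun j => ?_) j
          · rw [Fin.cons_zero]
            exact hγ 0
          · rw [Fin.cons_succ]
            exact hδ j
        · rw [ev_app, ev_pw, ← hU, ev_map, hev, gp_succ, Fin.cons_zero]
          rfl

/-- the inverse word -/
private def iw (W : List (Fin k × Bool)) : List (Fin k × Bool) := (W.map fun p => (p.1, !p.2)).reverse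

private theorem iw_app (U V : List (Fin k × Bool)) : iw (U ++ V) = iw V ++ iw U := by
  unfold iw
  rw [List.map_append, List.reverse_append]

private theorem iw_iw (W : List (Fin k × Bool)) : iw (iw W) = W := by
  unfold iw
  rw [List.map_reverse, List.reverse_reverse, List.map_map]
  conv_rhs => rw [← List.map_id W]
  refine List.map_congr_left fun p _ => ?_
  simp

private theorem ev_iw (x : Fin k → G) (W : List (Fin k × Bool)) : ev x (iw W) = (ev x W)⁻¹ := by
  induction W with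
  | nil => exact inv_one.symm
  | cons p W ih =>
    obtain ⟨i, b⟩ := p
    have h : iw ((i, b) :: W) = iw W ++ [(i, !b)] := by
      unfold iw
      rw [List.map_cons, List.reverse_cons]
    rw [h, ev_app, ih]
    cases b
    · show (ev x W)⁻¹ * (x i * 1) = ((x i)⁻¹ * ev x W)⁻¹
      group
    · show (ev x W)⁻¹ * ((x i)⁻¹ * 1) = (x i * ev x W)⁻¹
      group

/-- a word for a generator of `TT x R` with controlled prefixes -/
private theorem tau_word (x : Fin k → G) {R : ℕ} {γ : Fin k → ℤ} (hγ : bx R γ) (i : Fin k) :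
    ∃ W : List (Fin k × Bool), ev x W = tau x γ i ∧
      ∀ P, P <+: W → ∃ δ, bx (R + 1) δ ∧ ev x P ∈ CC x R δ := by
  obtain ⟨W, hW, hP⟩ := gp_word x R γ hγ
  obtain ⟨W', hW', hP'⟩ := gp_word x (R + 1) (γ + Pi.single i 1) (bx_add hγ (bx_single i))
  have htau : tau x γ i ∈ TT x R := step_mem x hγ i
  have hgp : ∀ δ, ev x [] * gp x δ ∈ CC x R δ := by
    intro δ
    show ev x [] * gp x δ * (gp x δ)⁻¹ ∈ TT x R
    rw [mul_inv_cancel_right]
    exact Subgroup.one_mem _
  refine ⟨W ++ ((i, true) :: iw W'), ?_, ?_⟩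
  · rw [ev_app, hW]
    show gp x γ * (x i * ev x (iw W')) = _
    rw [ev_iw, hW']
    unfold tau
    group
  · intro P hPre
    rcases pre_app hPre with h | ⟨P', h, rfl⟩
    · obtain ⟨δ, hδ, hev⟩ := hP P h
      refine ⟨δ, bx_mono (by omega) hδ, ?_⟩
      rw [hev]
      have := hgp δ
      rwa [show ev x [] = (1 : G) from rfl, one_mul] at this
    · cases P' with
      | nil =>
        refine ⟨γ, bx_mono (by omega) hγ, ?_⟩
        rw [List.append_nil, hW]
        have := hgp γ
        rwa [show ev x [] = (1 : G) from rfl, one_mul] at this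
      | cons p P' =>
        obtain ⟨T, hT⟩ := h
        rw [List.cons_append] at hT
        injection hT with hp hT
        subst hp
        have h1 : W' = iw T ++ iw P' := by
          rw [← iw_app, hT, iw_iw]
        obtain ⟨δ, hδ, hev⟩ := hP' (iw T) ⟨iw P', h1.symm⟩
        refine ⟨δ, hδ, ?_⟩
        have h2 : ev x W' = ev x (iw T) * (ev x P')⁻¹ := by
          rw [h1, ev_app, ev_iw x P']
        rw [hW', hev] at h2
        have h3 : ev x (W ++ (i, true) :: P') = tau x γ i * gp x δ := by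
          rw [ev_app, hW]
          show gp x γ * (x i * ev x P') = _
          unfold tau
          rw [h2]
          group
        rw [h3]
        show tau x γ i * gp x δ * (gp x δ)⁻¹ ∈ TT x R
        rw [mul_inv_cancel_right]
        exact htau

/-- words with controlled suffixes for a generator and its inverse -/
private theorem tau_suf (x : Fin k → G) {R : ℕ} {γ : Fin k → ℤ} (hγ : bx R γ) (i : Fin k) :
    (∃ W : List (Fin k × Bool), ev x W = tau x γ i ∧
      ∀ S, S <:+ W → ∃ δ, bx (R + 1) δ ∧ ev x S ∈ CC x (8 * (R + 1)) δ) ∧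
    ∃ W : List (Fin k × Bool), ev x W = (tau x γ i)⁻¹ ∧
      ∀ S, S <:+ W → ∃ δ, bx (R + 1) δ ∧ ev x S ∈ CC x (8 * (R + 1)) δ := by
  obtain ⟨W, hW, hP⟩ := tau_word x hγ i
  have htau : tau x γ i ∈ TT x R := step_mem x hγ i
  refine ⟨⟨W, hW, ?_⟩, iw W, ?_, ?_⟩
  · rintro S ⟨P, hPS⟩
    obtain ⟨δ, hδ, hev⟩ := hP P ⟨S, hPS⟩
    refine ⟨-δ, bx_neg hδ, ?_⟩
    have h1 := inv_CC x hδ hev
    have h2 : tau x γ i ∈ CC x (R + 2 * (R + 1) + 1) 0 := (CC_zero x).2 (TT_mono x (by omega) htau)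
    have h3 := mul_CC x (bx_neg hδ) (bx_zero (R + 1)) h1 h2
    rw [add_zero] at h3
    have h4 : ev x S = (ev x P)⁻¹ * tau x γ i := by
      rw [← hW, ← hPS, ev_app]
      group
    rw [h4]
    exact CC_mono x (by omega) h3
  · rw [ev_iw, hW]
  · rintro S ⟨T, hTS⟩
    have h1 : iw S ++ iw T = W := by
      rw [← iw_app, hTS, iw_iw]
    obtain ⟨δ, hδ, hev⟩ := hP (iw S) ⟨iw T, h1⟩
    refine ⟨-δ, bx_neg hδ, ?_⟩
    have h2 := inv_CC x hδ hev
    rw [ev_iw, inv_inv] at h2
    exact CC_mono x (by omega) h2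

private theorem ctl_mul (x : Fin k → G) {R : ℕ} {t g : G}
    (ht : ∃ W : List (Fin k × Bool), ev x W = t ∧
      ∀ S, S <:+ W → ∃ δ, bx (R + 1) δ ∧ ev x S ∈ CC x (8 * (R + 1)) δ) (hg : g ∈ TT x R)
    (hg2 : ∃ W, ev x W = g ∧ Ctl x (20 * (R + 1)) W) : ∃ W, ev x W = t * g ∧ Ctl x (20 * (R + 1)) W := by
  obtain ⟨W1, h1, hS1⟩ := ht
  obtain ⟨W2, h2, hS2⟩ := hg2
  refine ⟨W1 ++ W2, by rw [ev_app, h1, h2], ?_⟩
  intro S hS
  rcases suf_app hS with h | ⟨S', h, rfl⟩
  · exact hS2 S h
  · obtain ⟨δ, hδ, hev⟩ := hS1 S' h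
    refine ⟨δ, bx_mono (by omega) hδ, ?_⟩
    have h3 : g ∈ CC x (8 * (R + 1)) 0 := (CC_zero x).2 (TT_mono x (by omega) hg)
    have h4 := mul_CC x hδ (bx_zero (R + 1)) hev h3
    rw [add_zero] at h4
    rw [ev_app, h2]
    exact CC_mono x (by omega) h4

theorem exists_ctl (x : Fin k → G) {R : ℕ} {g : G} (hg : g ∈ TT x R) :
    ∃ W, ev x W = g ∧ Ctl x (20 * (R + 1)) W := by
  unfold TT at hg
  refine Subgroup.closure_induction_left (p := fun g _ => ∃ W, ev x W = g ∧ Ctl x (20 * (R + 1)) W)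
    ?_ ?_ ?_ hg
  · refine ⟨[], rfl, ?_⟩
    intro S hS
    refine ⟨0, bx_zero _, ?_⟩
    rw [List.suffix_nil.1 hS]
    exact (CC_zero x).2 (Subgroup.one_mem _)
  · rintro t ⟨γ, i, hγ, rfl⟩ y hy h
    exact ctl_mul x (tau_suf x hγ i).1 hy h
  · rintro t ⟨γ, i, hγ, rfl⟩ y hy h
    exact ctl_mul x (tau_suf x hγ i).2 hy h

end Pool.Agent.LGW
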