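import Pool.Agent.Helper33.CW2.Ops
import Pool.Agent.Helper33.CW2.TBase

/-!
# LGW: logarithmic commutator width of the free soluble group of derived length four: definitions

`gp x γ = x₀^γ₀ x₁^γ₁ ⋯` (CW2) and `om x v = ⋯ x₁^v₁ x₀^v₀` (this file, opposite order). `tau x γ i`,
`TT x R`, `CC x R δ`, `bx R γ`, `ops ms v` are the definitions of `Pool/Agent/Helper33/CW2/Defs.lean`.
-/

open scoped commutatorElement

namespace Pool.Agent.LGW

open Pool.Agent.Helper33.CW2

section calculus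

variable {G V : Type*} [Group G] [AddCommGroup V] [DistribMulAction G V]

/-- The calculus of the commutator map `c s t = π ⁅s, t⁆`, `s, t ∈ G'`, with values in the module
`V = N / N²`, `N = G''`. -/
structure Cal (c : G → G → V) : Prop where
  two : ∀ v : V, v + v = 0
  comm : ∀ s ∈ commutator G, ∀ t ∈ commutator G, ∀ v : V, s • t • v = t • s • v
  mul : ∀ s ∈ commutator G, ∀ s' ∈ commutator G, ∀ t ∈ commutator G,
    c (s * s') t = s • c s' t + c s t
  symm : ∀ s ∈ commutator G, ∀ t ∈ commutator G, c s t = c t s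
  self : ∀ s ∈ commutator G, c s s = 0
  conj : ∀ g : G, ∀ s ∈ commutator G, ∀ t ∈ commutator G,
    c (g * s * g⁻¹) (g * t * g⁻¹) = g • c s t
  kos : ∀ s ∈ commutator G, ∀ t ∈ commutator G, ∀ u ∈ commutator G,
    (s • c t u - c t u) + (t • c u s - c u s) + (u • c s t - c s t) = 0

end calculus

section paths

variable {G : Type*} [Group G]

/-- The element `⋯ x₁^v₁ x₀^v₀`. -/
def om : {k : ℕ} → (Fin k → G) → (Fin k → ℤ) → G
  | 0, _, _ => 1
  | _ + 1, x, v => om (fun i => x i.succ) (fun i => v i.succ) * x 0 ^ v 0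

/-- The translate of `g` by `v`. -/
def tr {k : ℕ} (x : Fin k → G) (v : Fin k → ℤ) (g : G) : G := om x v * g * (om x v)⁻¹

/-- `Rch x D γ g`: there is a word in the generators with value `g` and displacement `γ`, all
prefixes of which have displacement in `D`. -/
inductive Rch {k : ℕ} (x : Fin k → G) (D : Set (Fin k → ℤ)) : (Fin k → ℤ) → G → Prop
  | nil : (0 : Fin k → ℤ) ∈ D → Rch x D 0 1
  | pos {γ : Fin k → ℤ} {g : G} (i : Fin k) : Rch x D γ g → γ + Pi.single i 1 ∈ D →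
      Rch x D (γ + Pi.single i 1) (g * x i)
  | neg {γ : Fin k → ℤ} {g : G} (i : Fin k) : Rch x D γ g → γ - Pi.single i 1 ∈ D →
      Rch x D (γ - Pi.single i 1) (g * (x i)⁻¹)

end paths

section kill

variable {G V : Type*} [Group G] [AddCommGroup V] [DistribMulAction G V] {k : ℕ}

/-- `PP x c κ E`: for every pivot `u = ⁅x a, x b⁆` and every box with side lengths at most `κ` which
contains `0` and the square of the pivot, `(u - 1)^E` kills `c u t` for all closed paths `t` of the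
box. -/
def PP (x : Fin k → G) (c : G → G → V) (κ : Fin k → ℤ) (E : ℕ) : Prop :=
  ∀ a b : Fin k, a ≠ b → ∀ α β : Fin k → ℤ, (∀ i, β i - α i ≤ κ i) → α ≤ 0 →
    Pi.single a 1 + Pi.single b 1 ≤ β → ∀ t, Rch x (Set.Icc α β) 0 t →
      ops (List.replicate E ⁅x a, x b⁆) (c ⁅x a, x b⁆ t) = 0

/-- Tensor products of forms. -/
def ten {m : ℕ} (f : Fin m → Finset ℤ) (s : Fin k → Fin m) : Finset (Fin k → ℤ) :=
  Fintype.piFinset fun j => f (s j)

/-- The relators, direction `0`. -/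
def relD {K : ℕ} (x : Fin (K + 1) → G) (c : G → G → V) (F F' : Finset (Fin (K + 1) → ℤ))
    (a b i : Fin (K + 1)) (Δ : Fin (K + 1) → ℤ) : V :=
  ∑ p ∈ F, ∑ q ∈ F', c (tr x p ⁅x a, x b⁆) (tr x (Δ + q) ⁅x 0, x i⁆)

/-- All the relators of scale `N`, direction `0`, vanish. -/
def Rel0 {K : ℕ} (x : Fin (K + 1) → G) (c : G → G → V) (N M : ℕ) {m : ℕ} (f : Fin m → Finset ℤ) :
    Prop :=
  ∀ (a b i : Fin (K + 1)) (δ : Fin (K + 1) → ℤ), (∀ j, |δ j| ≤ (M : ℤ)) →
    ∀ s s' : Fin (K + 1) → Fin m, relD x c (ten f s) (ten f s') a b i ((N : ℤ) • δ) = 0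

/-- All the relators of scale `N` vanish, in all directions. -/
def RelN {K : ℕ} (x : Fin (K + 1) → G) (c : G → G → V) (N M : ℕ) {m : ℕ} (f : Fin m → Finset ℤ) :
    Prop :=
  ∀ l : Fin (K + 1), Rel0 (fun i => x (Equiv.swap 0 l i)) c N M f

/-- The base relators vanish. -/
def RelB (x : Fin k → G) (c : G → G → V) (c₀ : ℕ) : Prop :=
  ∀ (a b i : Fin k) (y : Fin k → ℤ), (∀ j, |y j| ≤ (c₀ : ℤ)) →
    c ⁅x a, x b⁆ (om x y * x i * (om x (y + Pi.single i 1))⁻¹) = 0

end kill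

/-- The hitting property of a family of forms on `[0, 2N)` over `𝔽₂`: for every sequence `b` which
does not vanish at some point of `[0, N]` at most `N / t` of the `N` windows `n + [0, 2N)`,
`-N < n ≤ 0`, are killed by all the forms. -/
def Hit (t N : ℕ) {m : ℕ} (f : Fin m → Finset ℤ) : Prop :=
  (∀ s, ∀ q ∈ f s, 0 ≤ q ∧ q < 2 * (N : ℤ)) ∧
  ∀ (b : ℤ → ZMod 2) (z : ℤ), 0 ≤ z → z ≤ (N : ℤ) → b z ≠ 0 → ∀ S : Finset ℤ,
    (∀ n ∈ S, -(N : ℤ) < n ∧ n ≤ 0 ∧ ∀ s, ∑ q ∈ f s, b (n + q) = 0) → t * S.card ≤ N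

end Pool.Agent.LGW
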