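import Pool.Agent.LGW.RDefs
import Pool.Agent.LGW.Defs

/-!
# LGW: the window in the module
-/

open scoped commutatorElement

namespace Pool.Agent.LGW

open Pool.Agent.Helper33.CW2

/-- The image in `V` of `[T_R, T_R]`. -/
def WV {G V : Type*} [Group G] {k : ℕ} (x : Fin k → G) (N : Subgroup G) (π : N → V) (R : ℕ) :
    Set V :=
  {w | ∃ n : N, (n : G) ∈ NT x R ∧ π n = w}

end Pool.Agent.LGW
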