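import Pool.Agent.LGW.EL2
import Pool.Agent.LGW.Ctl
import Pool.Agent.LGW.MDefs

/-!
# LGW-EC: the E-lemma with controlled words

the E-lemma with controlled words
-/

open scoped commutatorElement

namespace Pool.Agent.LGW

open Pool.Agent.Helper33.CW2 Pool.Agent.Helper26.CW

attribute [local instance] centerCommGroup

universe u

private lemma ec_word {G : Type*} [Group G] {k : ℕ} (x : Fin k → G)
    (hx : Subgroup.closure (Set.range x) = ⊤) (g : G) : ∃ W, ev x W = g := by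
  have hg : g ∈ Subgroup.closure (Set.range x) := hx ▸ Subgroup.mem_top g
  have key : (∃ W, ev x W = g) ∧ ∃ W, ev x W = g⁻¹ := by
    induction hg using Subgroup.closure_induction with
    | mem y hy =>
      obtain ⟨i, rfl⟩ := hy
      exact ⟨⟨[(i, true)], by simp [ev]⟩, ⟨[(i, false)], by simp [ev]⟩⟩
    | one => exact ⟨⟨[], rfl⟩, ⟨[], by simp [ev]⟩⟩
    | mul y z _ _ hy hz =>
      obtain ⟨⟨W1, h1⟩, ⟨W2, h2⟩⟩ := hy
      obtain ⟨⟨W3, h3⟩, ⟨W4, h4⟩⟩ := hz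
      exact ⟨⟨W1 ++ W3, by rw [ev_app, h1, h3]⟩,
        ⟨W4 ++ W2, by rw [ev_app, h2, h4, mul_inv_rev]⟩⟩
    | inv y _ hy => exact ⟨hy.2, by rw [inv_inv]; exact hy.1⟩
  exact key.1

section fine

variable {G : Type*} [Group G] {k : ℕ}

/-- Elements of small displacement and content. -/
private def Fine (x : Fin k → G) (ρ : ℕ) (g : G) : Prop := ∃ δ, bx ρ δ ∧ g ∈ CC x ρ δ

private lemma fine_quot (x : Fin k → G) {ρ : ℕ} {g h : G} (hg : Fine x ρ g) (hh : Fine x ρ h) :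
    ∃ ε, bx (5 * ρ + 2) ε ∧ h⁻¹ * g ∈ CC x (5 * ρ + 2) ε := by
  obtain ⟨δ, hδ, hg⟩ := hg
  obtain ⟨δ', hδ', hh⟩ := hh
  have h1 := inv_CC x hδ' hh
  have h2 := mul_CC x (bx_neg hδ') hδ h1 (CC_mono x (by omega : ρ ≤ ρ + 2 * ρ + 1) hg)
  exact ⟨_, bx_mono (by omega) (bx_add (bx_neg hδ') hδ), CC_mono x (by omega) h2⟩

private lemma Ctl.tail {x : Fin k → G} {ρ : ℕ} {p : Fin k × Bool} {W : List (Fin k × Bool)}
    (h : Ctl x ρ (p :: W)) : Ctl x ρ W := fun S hS => h S (hS.trans (List.suffix_cons p W))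

private lemma Ctl.self {x : Fin k → G} {ρ : ℕ} {W : List (Fin k × Bool)} (h : Ctl x ρ W) :
    Fine x ρ (ev x W) := h W (List.suffix_refl W)

private lemma fine_lets {x : Fin k → G} {ρ : ℕ} (W : List (Fin k × Bool)) (h : Ctl x ρ W) :
    ∀ p ∈ lets x W, Fine x ρ p.2 ∧ Fine x ρ (x p.1 * p.2) := by
  induction W with
  | nil => intro p hp; exact absurd hp List.not_mem_nil
  | cons q W ih =>
    obtain ⟨i, b⟩ := q
    have h1 := Ctl.self h
    have h2 := Ctl.self (Ctl.tail h)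
    intro p hp
    cases b
    · rw [lets, List.mem_cons] at hp
      rcases hp with rfl | hp
      · refine ⟨h1, ?_⟩
        have h3 : x i * ((x i)⁻¹ * ev x W) = ev x W := by group
        change Fine x ρ (x i * ((x i)⁻¹ * ev x W))
        rw [h3]
        exact h2
      · exact ih (Ctl.tail h) p hp
    · rw [lets, List.mem_cons] at hp
      rcases hp with rfl | hp
      · exact ⟨h2, h1⟩
      · exact ih (Ctl.tail h) p hp

private lemma fine_negs {x : Fin k → G} {ρ : ℕ} (W : List (Fin k × Bool)) (h : Ctl x ρ W) :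
    ∀ p ∈ negs x W, Fine x ρ p.1 ∧ Fine x ρ p.2 := by
  induction W with
  | nil => intro p hp; exact absurd hp List.not_mem_nil
  | cons q W ih =>
    obtain ⟨i, b⟩ := q
    have h1 := Ctl.self h
    have h2 := Ctl.self (Ctl.tail h)
    intro p hp
    cases b
    · rw [negs, List.mem_cons] at hp
      rcases hp with rfl | hp
      · exact ⟨h1, h2⟩
      · exact ih (Ctl.tail h) p hp
    · rw [negs] at hp
      exact ih (Ctl.tail h) p hp

private lemma fine_kl {x : Fin k → G} {ρ : ℕ} {a b : Fin k × G}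
    (ha : Fine x ρ a.2 ∧ Fine x ρ (x a.1 * a.2)) (hb : Fine x ρ b.2 ∧ Fine x ρ (x b.1 * b.2)) :
    ∀ p ∈ kl x a b, Fine x ρ p.1 ∧ Fine x ρ p.2 := by
  intro p hp
  unfold kl at hp
  split_ifs at hp with h1 h2
  · simp only [List.mem_cons, List.not_mem_nil, or_false] at hp
    rcases hp with rfl | rfl | rfl | rfl
    · exact ⟨ha.2, hb.2⟩
    · exact ⟨ha.2, hb.1⟩
    · exact ⟨ha.1, hb.2⟩
    · exact ⟨ha.1, hb.1⟩
  · simp only [List.mem_cons, List.not_mem_nil, or_false] at hp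
    rcases hp with rfl | rfl
    · exact ⟨ha.1, hb.2⟩
    · exact ⟨ha.1, hb.1⟩
  · exact absurd hp List.not_mem_nil

private lemma fine_kll {x : Fin k → G} {ρ : ℕ} {P P' : List (Fin k × G)}
    (hP : ∀ p ∈ P, Fine x ρ p.2 ∧ Fine x ρ (x p.1 * p.2))
    (hP' : ∀ p ∈ P', Fine x ρ p.2 ∧ Fine x ρ (x p.1 * p.2)) :
    ∀ p ∈ kll x P P', Fine x ρ p.1 ∧ Fine x ρ p.2 := by
  intro p hp
  unfold kll at hp
  rw [List.mem_flatMap] at hp
  obtain ⟨a, ha, hp⟩ := hp
  rw [List.mem_flatMap] at hp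
  obtain ⟨b, hb, hp⟩ := hp
  exact fine_kl (hP a ha) (hP' b hb) p hp

private lemma fine_klp {x : Fin k → G} {ρ : ℕ} (P : List (Fin k × G))
    (hP : ∀ p ∈ P, Fine x ρ p.2 ∧ Fine x ρ (x p.1 * p.2)) :
    ∀ p ∈ klp x P, Fine x ρ p.1 ∧ Fine x ρ p.2 := by
  induction P with
  | nil => intro p hp; exact absurd hp List.not_mem_nil
  | cons a P ih =>
    intro p hp
    rw [klp, List.mem_append] at hp
    rcases hp with hp | hp
    · rw [List.mem_flatMap] at hp
      obtain ⟨b, hb, hp⟩ := hp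
      exact fine_kl (hP a List.mem_cons_self) (hP b (List.mem_cons_of_mem _ hb)) p hp
    · exact ih (fun q hq => hP q (List.mem_cons_of_mem _ hq)) p hp

end fine

theorem elemma_ctl {G V : Type u} [Group G] [AddCommGroup V] [DistribMulAction G V] {k : ℕ}
    (x : Fin k → G) (hx : Subgroup.closure (Set.range x) = ⊤) (N : Subgroup G) [hN : N.Normal]
    (hc : ∀ r ∈ N, ∀ s ∈ N, ⁅r, s⁆ ∈ Subgroup.center G)
    (he : ∀ r ∈ N, ∀ s ∈ N, ⁅r, s⁆ ^ 2 = 1) (π : N → V)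
    (β : V →+ V →+ Additive (Subgroup.center G)) (hsurj : Function.Surjective π)
    (hπ : ∀ a b, π (a * b) = π a + π b)
    (hV : ∀ v : V, v + v = 0) (hcj : ∀ (g : G) a, π (cj N g a) = g • π a)
    (hβ : ∀ a b, β (π a) (π b) = Pool.Agent.Helper26.CW.om N hc a b) (R : ℕ) :
    ∃ (E : V → V → List (G × G)) (S : V → List (G × G)),
      (∀ L : List (V × V), IsProdComm k ((Additive.toMul (tot β E S L) : Subgroup.center G) : G)) ∧
      (∀ w ∈ WV x N π R, ∀ w' ∈ WV x N π R, ∀ p ∈ E w w',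
        ∃ ε, bx (1000 * (R + 1)) ε ∧ p.2⁻¹ * p.1 ∈ CC x (1000 * (R + 1)) ε) ∧
      (∀ w ∈ WV x N π R, ∀ p ∈ S w,
        ∃ ε, bx (1000 * (R + 1)) ε ∧ p.2⁻¹ * p.1 ∈ CC x (1000 * (R + 1)) ε) := by
  have key : ∀ v : V, ∃ (n : N) (W : List (Fin k × Bool)), π n = v ∧ ev x W = (n : G) ∧
      (v ∈ WV x N π R → Ctl x (20 * (R + 1)) W) := by
    intro v
    by_cases hv : v ∈ WV x N π R
    · obtain ⟨n, hn, hnv⟩ := hv
      obtain ⟨W, hW, hWc⟩ := exists_ctl x (NT_le x R hn)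
      exact ⟨n, W, hnv, hW, fun _ => hWc⟩
    · obtain ⟨n, hn⟩ := hsurj v
      obtain ⟨W, hW⟩ := ec_word x hx (n : G)
      exact ⟨n, W, hn, hW, fun h => absurd h hv⟩
  choose nw wd hnw hwd hctl using key
  have hfin : ∀ g h : G, Fine x (20 * (R + 1)) g → Fine x (20 * (R + 1)) h →
      ∃ ε, bx (1000 * (R + 1)) ε ∧ h⁻¹ * g ∈ CC x (1000 * (R + 1)) ε := by
    intro g h hg hh
    obtain ⟨ε, h1, h2⟩ := fine_quot x hg hh
    exact ⟨ε, bx_mono (by omega) h1, CC_mono x (by omega) h2⟩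
  refine ⟨fun w w' => kll x (lets x (wd w)) (lets x (wd w')),
    fun w => negs x (wd w) ++ klp x (lets x (wd w)),
    elemma2 x N hc he π β hπ hV hcj hβ nw hnw wd hwd, ?_, ?_⟩
  · intro w hw w' hw' p hp
    have h1 := fine_kll (fine_lets _ (hctl w hw)) (fine_lets _ (hctl w' hw')) p hp
    exact hfin _ _ h1.1 h1.2
  · intro w hw p hp
    rw [List.mem_append] at hp
    rcases hp with hp | hp
    · have h1 := fine_negs _ (hctl w hw) p hp
      exact hfin _ _ h1.1 h1.2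
    · have h1 := fine_klp _ (fine_lets _ (hctl w hw)) p hp
      exact hfin _ _ h1.1 h1.2
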