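import Pool.Agent.Helper33.CW2.Col
import Pool.Agent.Helper33.CW2.Tel
import Pool.Agent.LGW.Defs

/-!
# LGW-EL2: the E-lemma for given words

This is `Pool.Agent.Helper33.CW2.elemma` with a given choice of the representatives `nw v ∈ N` and of the
words `wd v` (the proof is the same).
-/

open scoped commutatorElement

namespace Pool.Agent.LGW

open Pool.Agent.Helper33.CW2

open Pool.Agent.Helper26.CW

attribute [local instance] centerCommGroup

universe u

section lists

variable {G V A : Type*} [Group G] [AddCommGroup V] [DistribMulAction G V] [AddCommGroup A]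
  {k : ℕ} (x : Fin k → G) (β : V →+ V →+ A)

private lemma el_kap (h2 : ∀ u v : V, β u v + β u v = 0) (p q : Fin k × G) (u u' : V) :
    kap x β (p.1, p.2 • u) (q.1, q.2 • u') =
      ((kl x p q).map fun r => β (r.1 • u) (r.2 • u')).sum := by
  have hneg : ∀ u v : V, -β u v = β u v := fun u v => neg_eq_of_add_eq_zero_left (h2 u v)
  have hb : ∀ a c d : V, β a (c - d) = β a c + β a d := by
    intro a c d
    rw [AddMonoidHom.map_sub, sub_eq_add_neg, hneg]
  have ha : ∀ a b c : V, β (a - b) c = β a c + β b c := by
    intro a b c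
    rw [AddMonoidHom.map_sub, AddMonoidHom.sub_apply, sub_eq_add_neg, hneg]
  unfold kap kl
  dsimp only
  split_ifs with h1 h3
  · simp only [List.map_cons, List.map_nil, List.sum_cons, List.sum_nil, mul_smul]
    rw [ha, hb, hb]
    abel
  · simp only [List.map_cons, List.map_nil, List.sum_cons, List.sum_nil, mul_smul]
    rw [hb, add_zero]
  · rfl

private lemma el_append (P P' : List (Fin k × V)) :
    kp x β (P ++ P') = kp x β P + (P.map fun p => (P'.map (kap x β p)).sum).sum +
      kp x β P' := by
  induction P with
  | nil => simp [kp]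
  | cons p P ih =>
    rw [List.cons_append, kp, ih, List.map_append, List.sum_append, kp, List.map_cons,
      List.sum_cons]
    abel

private lemma el_one (h2 : ∀ u v : V, β u v + β u v = 0) (p : Fin k × G)
    (P : List (Fin k × G)) (u u' : V) :
    ((P.map fun q => (q.1, q.2 • u')).map (kap x β (p.1, p.2 • u))).sum =
      ((P.flatMap fun q => kl x p q).map fun r => β (r.1 • u) (r.2 • u')).sum := by
  induction P with
  | nil => rfl
  | cons q P ih =>
    rw [List.map_cons, List.map_cons, List.sum_cons, List.flatMap_cons, List.map_append,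
      List.sum_append, ih, el_kap x β h2]

private lemma el_klp (h2 : ∀ u v : V, β u v + β u v = 0) (P : List (Fin k × G)) (u : V) :
    kp x β (P.map fun q => (q.1, q.2 • u)) =
      ((klp x P).map fun r => β (r.1 • u) (r.2 • u)).sum := by
  induction P with
  | nil => rfl
  | cons q P ih =>
    rw [List.map_cons, kp, ih, el_one x β h2, klp, List.map_append, List.sum_append]

private lemma el_kll (h2 : ∀ u v : V, β u v + β u v = 0) (P P' : List (Fin k × G)) (u u' : V) :
    ((P.map fun p => (p.1, p.2 • u)).map fun p =>
      ((P'.map fun q => (q.1, q.2 • u')).map (kap x β p)).sum).sum =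
      ((kll x P P').map fun r => β (r.1 • u) (r.2 • u')).sum := by
  induction P with
  | nil => rfl
  | cons p P ih =>
    rw [List.map_cons, List.map_cons, List.sum_cons, ih]
    unfold kll
    rw [List.flatMap_cons, List.map_append, List.sum_append, el_one x β h2]

/-- The letters of a list of pairs. -/
private def elP (wd : V → List (Fin k × Bool)) (L : List (V × V)) : List (Fin k × V) :=
  L.flatMap fun y => (lets x (wd y.1)).map fun p => (p.1, p.2 • y.2)

private lemma el_cross (h2 : ∀ u v : V, β u v + β u v = 0) (wd : V → List (Fin k × Bool))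
    (y : V × V) (L : List (V × V)) :
    (((lets x (wd y.1)).map fun p => (p.1, p.2 • y.2)).map fun p =>
      ((elP x wd L).map (kap x β p)).sum).sum =
      (L.map (crs β (fun w w' => kll x (lets x (wd w)) (lets x (wd w'))) y)).sum := by
  induction L with
  | nil =>
    have h0 : ∀ l : List (Fin k × V), (l.map fun _ => (0 : A)).sum = 0 := by
      intro l
      induction l with
      | nil => rfl
      | cons a l ih => rw [List.map_cons, List.sum_cons, ih, add_zero]
    exact h0 _
  | cons z L ih =>
    rw [List.map_cons, List.sum_cons, ← ih]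
    unfold crs
    dsimp only
    rw [← el_kll x β h2]
    have h1 : elP x wd (z :: L) = ((lets x (wd z.1)).map fun p => (p.1, p.2 • z.2)) ++
        elP x wd L := rfl
    rw [h1]
    generalize (List.map (fun p => (p.1, p.2 • y.2)) (lets x (wd y.1))) = Q
    induction Q with
    | nil => simp
    | cons q Q ihQ =>
      simp only [List.map_cons, List.sum_cons]
      rw [ihQ, List.map_append, List.sum_append]
      abel

private lemma el_tot (h2 : ∀ u v : V, β u v + β u v = 0) (wd : V → List (Fin k × Bool))
    (L : List (V × V)) :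
    tot β (fun w w' => kll x (lets x (wd w)) (lets x (wd w')))
      (fun w => negs x (wd w) ++ klp x (lets x (wd w))) L =
      (L.map fun y => β y.1 y.2).sum +
      (L.map fun y => ((negs x (wd y.1)).map fun p => β (p.1 • y.2) (p.2 • y.2)).sum).sum +
      kp x β (elP x wd L) := by
  induction L with
  | nil => simp [tot_nil, elP, kp]
  | cons y L ih =>
    have h1 : elP x wd (y :: L) = ((lets x (wd y.1)).map fun p => (p.1, p.2 • y.2)) ++
        elP x wd L := rfl
    rw [tot_cons, ih, h1, el_append, el_klp x β h2, el_cross x β h2, List.map_cons,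
      List.map_cons, List.sum_cons, List.sum_cons]
    unfold slf
    rw [List.map_append, List.sum_append]
    abel

end lists

theorem elemma2 {G V : Type u} [Group G] [AddCommGroup V] [DistribMulAction G V] {k : ℕ}
    (x : Fin k → G) (N : Subgroup G) [hN : N.Normal]
    (hc : ∀ r ∈ N, ∀ s ∈ N, ⁅r, s⁆ ∈ Subgroup.center G)
    (he : ∀ r ∈ N, ∀ s ∈ N, ⁅r, s⁆ ^ 2 = 1) (π : N → V)
    (β : V →+ V →+ Additive (Subgroup.center G))
    (hπ : ∀ a b, π (a * b) = π a + π b)
    (hV : ∀ v : V, v + v = 0) (hcj : ∀ (g : G) a, π (cj N g a) = g • π a)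
    (hβ : ∀ a b, β (π a) (π b) = Pool.Agent.Helper26.CW.om N hc a b)
    (nw : V → N) (hnw : ∀ v, π (nw v) = v) (wd : V → List (Fin k × Bool))
    (hwd : ∀ v, ev x (wd v) = nw v) (L : List (V × V)) :
    IsProdComm k ((Additive.toMul (tot β (fun w w' => kll x (lets x (wd w)) (lets x (wd w')))
      (fun w => negs x (wd w) ++ klp x (lets x (wd w))) L) : Subgroup.center G) : G) := by
  have h2 : ∀ u v : V, β u v + β u v = 0 := by
    intro u v
    rw [← AddMonoidHom.map_add, hV, map_zero]
  -- the group level identity
  have key : ∃ P : List (Fin k × N), (P.map fun p => (p.1, π p.2)) = elP x wd L ∧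
      ((Additive.toMul ((L.map fun y => β y.1 y.2).sum) : Subgroup.center G) : G) =
        (P.map fun p => ⁅x p.1, (p.2 : G)⁆).prod *
        ((Additive.toMul ((L.map fun y => ((negs x (wd y.1)).map fun p =>
          β (p.1 • y.2) (p.2 • y.2)).sum).sum) : Subgroup.center G) : G) := by
    induction L with
    | nil => exact ⟨[], rfl, by simp⟩
    | cons y L ih =>
      obtain ⟨P, hP1, hP2⟩ := ih
      obtain ⟨P', hP1', hP2'⟩ := tele x N hc he π β hπ hV hcj hβ (wd y.1) (nw y.2)
      rw [hnw] at hP1' hP2'
      refine ⟨P' ++ P, ?_, ?_⟩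
      · rw [List.map_append, hP1, hP1']
        rfl
      · have h3 : ((Additive.toMul (β y.1 y.2) : Subgroup.center G) : G) =
            ⁅ev x (wd y.1), (nw y.2 : G)⁆ := by
          have h4 : β y.1 y.2 = Pool.Agent.Helper26.CW.om N hc (nw y.1) (nw y.2) := by
            rw [← hβ, hnw, hnw]
          rw [h4, om_def, hwd]
        rw [List.map_cons, List.sum_cons, Pool.Agent.Helper26.CW.toMul_add, h3, hP2', hP2,
          List.map_append, List.prod_append, List.map_cons, List.sum_cons,
          Pool.Agent.Helper26.CW.toMul_add]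
        generalize (List.map (fun p => β (p.1 • y.2) (p.2 • y.2)) (negs x (wd y.1))).sum = c
        have h5 := comm_of_center (Additive.toMul c : Subgroup.center G).2
          (P.map fun p => ⁅x p.1, (p.2 : G)⁆).prod
        simp only [mul_assoc]
        rw [← mul_assoc ((Additive.toMul c : Subgroup.center G) : G), ← h5]
        simp only [mul_assoc]
  obtain ⟨P, hP1, hP2⟩ := key
  have hcol := collect x N hc he π β hπ hV hcj hβ P
  rw [hP1] at hcol
  rw [el_tot x β h2 wd L]
  obtain ⟨s, hs⟩ : ∃ s, s = (L.map fun y => β y.1 y.2).sum := ⟨_, rfl⟩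
  obtain ⟨t, ht⟩ : ∃ t, t = (L.map fun y => ((negs x (wd y.1)).map fun p =>
    β (p.1 • y.2) (p.2 • y.2)).sum).sum := ⟨_, rfl⟩
  rw [← hs, ← ht] at hP2 ⊢
  have hlist : ∀ (l : List (Additive (Subgroup.center G))), (∀ a ∈ l, a + a = 0) →
      l.sum + l.sum = 0 := by
    intro l
    induction l with
    | nil => intro _; simp
    | cons a l ih =>
      intro h
      rw [List.sum_cons, add_add_add_comm, h a List.mem_cons_self,
        ih fun b hb => h b (List.mem_cons_of_mem _ hb), add_zero]
  have htt : t + t = 0 := by
    rw [ht]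
    apply hlist
    intro a ha
    obtain ⟨y, -, rfl⟩ := List.mem_map.1 ha
    apply hlist
    intro a ha
    obtain ⟨p, -, rfl⟩ := List.mem_map.1 ha
    exact h2 _ _
  have hprod : (P.map fun p => ⁅x p.1, (p.2 : G)⁆).prod =
      ((Additive.toMul (s + t) : Subgroup.center G) : G) := by
    have h6 : ((Additive.toMul (t + t) : Subgroup.center G) : G) = 1 := by
      rw [htt, Pool.Agent.Helper26.CW.toMul_zero]
    rw [Pool.Agent.Helper26.CW.toMul_add] at h6
    rw [Pool.Agent.Helper26.CW.toMul_add, hP2, mul_assoc, h6, mul_one]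
  rw [hprod, ← Pool.Agent.Helper26.CW.toMul_add] at hcol
  exact hcol

end Pool.Agent.LGW
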