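import Mathlib

/-!
# LGW: definitions for the hitting lemma
-/

namespace Pool.Agent.LGW

/-- The window `n + [0, 2N)` of the sequence `b`. -/
def rowv (N : ℕ) (b : ℤ → ZMod 2) (n : ℤ) : Fin (2 * N) → ZMod 2 := fun q => b (n + (q : ℕ))

/-- The defect at `y` of the linear recurrence `b (y + ℓ) = ∑ cᵢ b (y + i)`. -/
def dft {l : ℕ} (c : Fin l → ZMod 2) (b : ℤ → ZMod 2) (y : ℤ) : ZMod 2 :=
  b (y + l) + ∑ i, c i * b (y + (i : ℕ))

/-- The solution of the linear recurrence with coefficients `c` and initial values `y`. -/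
def rsq {l : ℕ} (c y : Fin l → ZMod 2) : ℕ → ZMod 2 :=
  (⟨l, c⟩ : LinearRecurrence (ZMod 2)).mkSol y

end Pool.Agent.LGW
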