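import Pool.Agent.LGW.HDefs

/-!
# LGW-HDep: the minimal dependency between consecutive windows
-/

namespace Pool.Agent.LGW

theorem exists_min_dep {N : ℕ} (hN : 1 ≤ N) (b : ℤ → ZMod 2)
    (hne : ∀ n : ℤ, -(N : ℤ) < n → n ≤ 0 → rowv N b n ≠ 0) :
    LinearIndependent (ZMod 2) (fun i : Fin N => rowv N b (-(N : ℤ) + 1 + (i : ℕ))) ∨
    ∃ l : ℕ, 1 ≤ l ∧ l < N ∧
      (∀ n : ℤ, -(N : ℤ) < n → n + l ≤ 1 →
        LinearIndependent (ZMod 2) (fun i : Fin l => rowv N b (n + (i : ℕ)))) ∧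
      ∃ (n₀ : ℤ) (c : Fin l → ZMod 2), -(N : ℤ) < n₀ ∧ n₀ + l ≤ 0 ∧
        ∀ y : ℤ, n₀ ≤ y → y < n₀ + 2 * N → dft c b y = 0 := by
  classical
  obtain ⟨M, rfl⟩ : ∃ M, N = M + 1 := ⟨N - 1, by omega⟩
  by_cases hQ : ∃ l : ℕ, ∃ n : ℤ, -((M + 1 : ℕ) : ℤ) < n ∧ n + l ≤ 0 ∧
      ¬ LinearIndependent (ZMod 2) (fun i : Fin (l + 1) => rowv (M + 1) b (n + (i : ℕ)))
  · by_cases hle : Nat.find hQ ≤ M
    · right
      obtain ⟨n₀, h1, h2, h3⟩ := Nat.find_spec hQ
      have hmin : ∀ m : ℕ, m < Nat.find hQ → ∀ n : ℤ, -((M + 1 : ℕ) : ℤ) < n → n + m ≤ 0 →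
          LinearIndependent (ZMod 2) (fun i : Fin (m + 1) => rowv (M + 1) b (n + (i : ℕ))) := by
        intro m hm n hn1 hn2
        by_contra hcon
        exact Nat.find_min hQ hm ⟨n, hn1, hn2, hcon⟩
      generalize Nat.find hQ = l at hle h2 h3 hmin
      have hl1 : 1 ≤ l := by
        by_contra hl0
        have hl : l = 0 := by omega
        subst hl
        refine h3 ?_
        show LinearIndependent (ZMod 2) (fun i : Fin 1 => rowv (M + 1) b (n₀ + (i : ℕ)))
        rw [linearIndependent_unique_iff]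
        have h4 : (((default : Fin 1) : ℕ) : ℤ) = 0 := by simp
        refine hne _ ?_ ?_
        · rw [h4]
          omega
        · rw [h4]
          omega
      obtain ⟨m, rfl⟩ : ∃ m, l = m + 1 := ⟨l - 1, by omega⟩
      have hind : ∀ n : ℤ, -((M + 1 : ℕ) : ℤ) < n → n + ((m + 1 : ℕ) : ℤ) ≤ 1 →
          LinearIndependent (ZMod 2) (fun i : Fin (m + 1) => rowv (M + 1) b (n + (i : ℕ))) := by
        intro n hn1 hn2
        exact hmin m (Nat.lt_succ_self m) n hn1 (by push_cast at hn2; omega)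
      refine ⟨m + 1, hl1, by omega, hind, ?_⟩
      obtain ⟨d, hd1, i0, hi0⟩ := Fintype.not_linearIndependent_iff.1 h3
      have hlast : d (Fin.last (m + 1)) ≠ 0 := by
        intro h0
        have hI := Fintype.linearIndependent_iff.1 (hind n₀ h1 (by omega)) (fun i => d i.castSucc) (by
          rw [Fin.sum_univ_castSucc, h0, zero_smul, add_zero] at hd1
          exact hd1)
        rcases Fin.eq_castSucc_or_eq_last i0 with ⟨j, rfl⟩ | rfl
        · exact hi0 (hI j)
        · exact hi0 h0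
      have hone : d (Fin.last (m + 1)) = 1 := by
        have h4 : ∀ x : ZMod 2, x ≠ 0 → x = 1 := by decide
        exact h4 _ hlast
      refine ⟨n₀, fun i => d i.castSucc, h1, h2, fun y hy1 hy2 => ?_⟩
      have hq : (y - n₀).toNat < 2 * (M + 1) := by
        push_cast at hy2
        omega
      have h5 := congrFun hd1 ⟨(y - n₀).toNat, hq⟩
      rw [Fin.sum_univ_castSucc, hone, one_smul] at h5
      simp only [Finset.sum_apply, Pi.add_apply, Pi.smul_apply, smul_eq_mul, Pi.zero_apply, rowv,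
        Fin.val_castSucc, Fin.val_last] at h5
      have hyn : ∀ i : ℤ, n₀ + i + (((y - n₀).toNat : ℕ) : ℤ) = y + i := by
        intro i
        omega
      simp only [hyn] at h5
      unfold dft
      rw [add_comm]
      exact h5
    · left
      have h := Nat.find_min hQ (not_le.1 hle)
      by_contra hcon
      refine h ⟨-((M + 1 : ℕ) : ℤ) + 1, by omega, by push_cast; omega, hcon⟩
  · left
    by_contra hcon
    exact hQ ⟨M, -((M + 1 : ℕ) : ℤ) + 1, by omega, by push_cast; omega, hcon⟩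

end Pool.Agent.LGW
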