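import Pool.Agent.LGW.Defs

/-!
# LGW-HGen: the hitting lemma for sequences in an abelian group of exponent two
-/

namespace Pool.Agent.LGW

theorem Hit.gen {V : Type*} [AddCommGroup V] (h2 : ∀ v : V, v + v = 0) {t N m : ℕ}
    {f : Fin m → Finset ℤ} (hf : Hit t N f) (b : ℤ → V) (z : ℤ) (hz0 : 0 ≤ z) (hzN : z ≤ (N : ℤ))
    (hb : b z ≠ 0) (S : Finset ℤ)
    (hS : ∀ n ∈ S, -(N : ℤ) < n ∧ n ≤ 0 ∧ ∀ s, ∑ q ∈ f s, b (n + q) = 0) :
    t * S.card ≤ N := by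
  have hV : ∀ v : V, 2 • v = 0 := fun v => by rw [two_smul]; exact h2 v
  let _ : Module (ZMod 2) V := AddCommGroup.zmodModule (n := 2) hV
  obtain ⟨φ, hφ⟩ : ∃ φ : Module.Dual (ZMod 2) V, φ (b z) ≠ 0 := by
    by_contra hcon
    push Not at hcon
    exact hb ((Module.forall_dual_apply_eq_zero_iff (ZMod 2) (b z)).1 hcon)
  refine hf.2 (fun n => φ (b n)) z hz0 hzN hφ S fun n hn => ?_
  obtain ⟨h3, h4, h5⟩ := hS n hn
  refine ⟨h3, h4, fun s => ?_⟩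
  rw [← map_sum, h5 s, map_zero]

end Pool.Agent.LGW
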