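import Pool.Agent.LGW.Cal
import Pool.Agent.LGW.OmP

/-!
# LGW-LetK: the letters act nilpotently

PLAN. Let `l = tr x y ⁅x a, x b⁆ = g u g⁻¹`, `g = om x y`, `u = ⁅x a, x b⁆`. `g` is a path in `Icc α β` with end point
`y` (`rch_om`), so for a closed path `t` in `Icc α β` the element `g⁻¹ * t * g` is a closed path in
`Icc (α - y) (β - y)` (`Rch.rev`, `Rch.trans`; the condition for points: `y + w ∈ Icc α β`), a box with the same side
lengths which contains `0` (`y ∈ Icc α β`) and `e_a + e_b`. So `hP` gives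
`ops (replicate E u) (c u (g⁻¹ t g)) = 0`; apply `g •` (`smul_ops`, `hc.conj`):
`ops (replicate E l) (c l t) = 0` (`List.map_replicate`). This holds for `t = s` too, so `Cal.kos_ops` (with `u := l`)
gives `ops (replicate (E+1) l) (c s t) = s • 0 - 0 = 0`.
-/

open scoped commutatorElement

namespace Pool.Agent.LGW

open Pool.Agent.Helper33.CW2

variable {G V : Type*} [Group G] [AddCommGroup V] [DistribMulAction G V] {c : G → G → V}

private lemma letter_kill_one (hc : Cal c) {k : ℕ} (x : Fin k → G) {κ : Fin k → ℤ} {E : ℕ}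
    (hP : PP x c κ E) {α β : Fin k → ℤ} (hα : α ≤ 0) (hβ : 0 ≤ β) (hκ : ∀ i, β i - α i ≤ κ i)
    {y : Fin k → ℤ} {a b : Fin k} (hab : a ≠ b) (hy : α ≤ y)
    (hy' : y + (Pi.single a 1 + Pi.single b 1) ≤ β) {t : G}
    (ht : Rch x (Set.Icc α β) 0 t) :
    ops (List.replicate E (tr x y ⁅x a, x b⁆)) (c (tr x y ⁅x a, x b⁆) t) = 0 := by
  have hsq : (0 : Fin k → ℤ) ≤ Pi.single a 1 + Pi.single b 1 := by
    have h1 : (0 : Fin k → ℤ) ≤ Pi.single a 1 := Pi.single_nonneg.2 zero_le_one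
    have h2 : (0 : Fin k → ℤ) ≤ Pi.single b 1 := Pi.single_nonneg.2 zero_le_one
    exact add_nonneg h1 h2
  have hyβ : y ≤ β := le_trans (le_add_of_nonneg_right hsq) hy'
  have hg : Rch x (Set.Icc α β) y (om x y) := by
    apply rch_om
    intro w hw
    refine ⟨fun j => ?_, fun j => ?_⟩
    · exact le_trans (le_min (hα j) (hy j)) (hw j).1
    · exact le_trans (hw j).2 (max_le (hβ j) (hyβ j))
  have h1 : Rch x {w | y + w ∈ Set.Icc α β} (-y + 0) ((om x y)⁻¹ * t) := by
    refine hg.rev.trans ht ?_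
    intro w hw
    change y + (-y + w) ∈ Set.Icc α β
    rwa [add_neg_cancel_left]
  have h2 : Rch x {w | y + w ∈ Set.Icc α β} (-y + 0 + y) ((om x y)⁻¹ * t * om x y) := by
    refine h1.trans hg ?_
    intro w hw
    change y + (-y + 0 + w) ∈ Set.Icc α β
    rwa [add_zero, add_neg_cancel_left]
  rw [add_zero, neg_add_cancel] at h2
  have h3 : Rch x (Set.Icc (α - y) (β - y)) 0 ((om x y)⁻¹ * t * om x y) := by
    refine h2.mono ?_
    intro w hw
    have hw' : y + w ∈ Set.Icc α β := hw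
    refine ⟨?_, ?_⟩
    · exact sub_le_iff_le_add'.2 hw'.1
    · exact le_sub_iff_add_le'.2 hw'.2
  have h4 := hP a b hab (α - y) (β - y) (by
    intro i
    have := hκ i
    simp only [Pi.sub_apply]
    linarith) (sub_nonpos.2 hy) (le_sub_iff_add_le'.2 hy') _ h3
  have h5 := congrArg (fun v => om x y • v) h4
  simp only [smul_zero] at h5
  rw [smul_ops, List.map_replicate, ← hc.conj (om x y) _ (cm_mem _ _) _ h3.comm_mem] at h5
  have h6 : om x y * ((om x y)⁻¹ * t * om x y) * (om x y)⁻¹ = t := by group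
  rw [h6] at h5
  exact h5

theorem letter_kill (hc : Cal c) {k : ℕ} (x : Fin k → G) {κ : Fin k → ℤ} {E : ℕ}
    (hP : PP x c κ E) {α β : Fin k → ℤ} (hα : α ≤ 0) (hβ : 0 ≤ β) (hκ : ∀ i, β i - α i ≤ κ i)
    {y : Fin k → ℤ} {a b : Fin k} (hab : a ≠ b) (hy : α ≤ y)
    (hy' : y + (Pi.single a 1 + Pi.single b 1) ≤ β) {s t : G}
    (hs : Rch x (Set.Icc α β) 0 s) (ht : Rch x (Set.Icc α β) 0 t) :
    ops (List.replicate (E + 1) (tr x y ⁅x a, x b⁆)) (c s t) = 0 := by
  have h1 := letter_kill_one hc x hP hα hβ hκ hab hy hy' hs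
  have h2 := letter_kill_one hc x hP hα hβ hκ hab hy hy' ht
  rw [hc.kos_ops (tr_mem x y (cm_mem _ _)) hs.comm_mem ht.comm_mem h1, h2, smul_zero, sub_zero]

end Pool.Agent.LGW
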