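import Mathlib

/-!
# LGW-RCol: collecting modulo a subgroup with abelian quotient
-/

open scoped commutatorElement

namespace Pool.Agent.LGW

private theorem rc_hom.{u} {G : Type u} [Group G] (A B : Subgroup G) (hB : ⁅A, A⁆ ≤ B) (hBA : B ≤ A) :
    ∃ (Q : Type u) (_ : CommGroup Q) (π : A →* Q), ∀ x : A, π x = 1 ↔ (x : G) ∈ B := by
  have hcm : ∀ u v : A, ((u * v * u⁻¹ * v⁻¹ : A) : G) ∈ B := fun u v =>
    hB (Subgroup.commutator_mem_commutator u.2 v.2)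
  have hn : (B.subgroupOf A).Normal := by
    refine ⟨fun b hb a => ?_⟩
    rw [Subgroup.mem_subgroupOf] at hb ⊢
    have h1 := B.mul_mem (hcm a b) hb
    have h2 : ((a * b * a⁻¹ * b⁻¹ : A) : G) * (b : G) = ((a * b * a⁻¹ : A) : G) := by
      push_cast
      group
    rwa [h2] at h1
  refine ⟨A ⧸ B.subgroupOf A, { (inferInstance : Group (A ⧸ B.subgroupOf A)) with mul_comm := ?_ },
    QuotientGroup.mk' (B.subgroupOf A), ?_⟩
  · intro x y
    obtain ⟨u, rfl⟩ := QuotientGroup.mk_surjective x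
    obtain ⟨v, rfl⟩ := QuotientGroup.mk_surjective y
    have h3 : ((u * v : A) : A ⧸ B.subgroupOf A) = ((v * u : A) : A ⧸ B.subgroupOf A) := by
      rw [QuotientGroup.eq, Subgroup.mem_subgroupOf]
      have h4 := hcm v⁻¹ u⁻¹
      have h5 : ((v⁻¹ * u⁻¹ * v⁻¹⁻¹ * u⁻¹⁻¹ : A) : G) = (((u * v)⁻¹ * (v * u) : A) : G) := by
        push_cast
        group
      rwa [h5] at h4
    exact h3
  · intro x
    have h3 : (QuotientGroup.mk' (B.subgroupOf A)) x = 1 ↔ x ∈ B.subgroupOf A :=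
      QuotientGroup.eq_one_iff x
    rw [Subgroup.mem_subgroupOf] at h3
    exact h3

private theorem rc_prod {G Q : Type*} [Group G] [CommGroup Q] {A : Subgroup G} (π : A →* Q) {n : ℕ}
    (a : Fin n → A) : ∃ z : A, (z : G) = (List.ofFn fun i => (a i : G)).prod ∧ π z = ∏ i, π (a i) := by
  refine ⟨(List.ofFn a).prod, ?_, ?_⟩
  · have h := map_list_prod A.subtype (List.ofFn a)
    rw [List.map_ofFn] at h
    exact h
  · rw [map_list_prod, List.map_ofFn, List.prod_ofFn]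
    rfl

theorem ofFn_upd {G : Type*} [Group G] {n : ℕ} (A B : Subgroup G) (hB : ⁅A, A⁆ ≤ B) (hBA : B ≤ A)
    (a : Fin n → G) (ha : ∀ i, a i ∈ A) (i : Fin n) {b a' : G} (hb : b ∈ A) (ha' : a' ∈ A)
    (h : (a i * b)⁻¹ * a' ∈ B) :
    ∃ c ∈ B, (List.ofFn a).prod * b = (List.ofFn (Function.update a i a')).prod * c := by
  obtain ⟨Q, iQ, π, hπ⟩ := rc_hom A B hB hBA
  obtain ⟨z, hz, hz'⟩ := rc_prod π (fun j => (⟨a j, ha j⟩ : A))
  have hu : ∀ j, Function.update a i a' j ∈ A := by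
    intro j
    by_cases hj : j = i
    · subst hj
      rw [Function.update_self]
      exact ha'
    · rw [Function.update_of_ne hj]
      exact ha j
  obtain ⟨w, hw, hw'⟩ := rc_prod π (fun j => (⟨Function.update a i a' j, hu j⟩ : A))
  refine ⟨((w⁻¹ * (z * ⟨b, hb⟩) : A) : G), (hπ _).1 ?_, ?_⟩
  · have h1 : π ⟨a', ha'⟩ = π ⟨a i, ha i⟩ * π ⟨b, hb⟩ := by
      have h2 : π ((⟨a i, ha i⟩ * ⟨b, hb⟩)⁻¹ * ⟨a', ha'⟩ : A) = 1 := (hπ _).2 h
      rw [map_mul, map_inv, map_mul, inv_mul_eq_one] at h2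
      exact h2.symm
    have h3 : π w = π z * π ⟨b, hb⟩ := by
      rw [hw', hz', ← Finset.mul_prod_erase Finset.univ (fun j => π (⟨a j, ha j⟩ : A)) (Finset.mem_univ i),
        ← Finset.mul_prod_erase Finset.univ
          (fun j => π (⟨Function.update a i a' j, hu j⟩ : A)) (Finset.mem_univ i)]
      have h4 : ∏ j ∈ Finset.univ.erase i, π (⟨Function.update a i a' j, hu j⟩ : A) =
          ∏ j ∈ Finset.univ.erase i, π (⟨a j, ha j⟩ : A) := by
        refine Finset.prod_congr rfl fun j hj => ?_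
        congr 1
        exact Subtype.ext (Function.update_of_ne (Finset.ne_of_mem_erase hj) _ _)
      have h5 : (⟨Function.update a i a' i, hu i⟩ : A) = ⟨a', ha'⟩ :=
        Subtype.ext (Function.update_self _ _ _)
      rw [h4, h5, h1]
      exact mul_right_comm _ _ _
    rw [map_mul, map_inv, map_mul, h3, inv_mul_cancel]
  · have h6 : ((w⁻¹ * (z * ⟨b, hb⟩) : A) : G) = (w : G)⁻¹ * ((z : G) * b) := rfl
    have h7 : (List.ofFn fun j => ((⟨Function.update a i a' j, hu j⟩ : A) : G)) =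
        List.ofFn (Function.update a i a') := rfl
    have h8 : (List.ofFn fun j => ((⟨a j, ha j⟩ : A) : G)) = List.ofFn a := rfl
    rw [h6, hw, hz, h7, h8, mul_inv_cancel_left]

theorem collect {G : Type*} [Group G] {n : ℕ} (A B : Subgroup G) (hB : ⁅A, A⁆ ≤ B) (hBA : B ≤ A)
    (S : Fin n → Subgroup G) (φ : Fin n → G → G) (h1 : ∀ i, ∀ y ∈ S i, φ i y ∈ A)
    (h2 : ∀ i, ∀ y ∈ S i, ∀ y' ∈ S i, (φ i y * φ i y')⁻¹ * φ i (y * y') ∈ B) {g : G}
    (hg : g ∈ Subgroup.closure {z | ∃ i, ∃ y ∈ S i, z = φ i y} ⊔ B) :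
    ∃ y : Fin n → G, (∀ i, y i ∈ S i) ∧ ∃ b ∈ B, g = (List.ofFn fun i => φ i (y i)).prod * b := by
  classical
  obtain ⟨Q, iQ, π, hπ⟩ := rc_hom A B hB hBA
  let ψ : ∀ i, S i →* Q := fun i => MonoidHom.mk' (fun y => π ⟨φ i y, h1 i y y.2⟩) (by
    intro y y'
    have h3 : π ((⟨φ i y, h1 i y y.2⟩ * ⟨φ i y', h1 i y' y'.2⟩)⁻¹ *
        ⟨φ i (y * y' : S i), h1 i (y * y' : S i) (y * y').2⟩ : A) = 1 :=
      (hπ _).2 (h2 i y y.2 y' y'.2)
    rw [map_mul, map_inv, map_mul, inv_mul_eq_one] at h3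
    exact h3.symm)
  let Ψ : (∀ i, S i) →* Q := MonoidHom.mk' (fun y => ∏ i, ψ i (y i)) (by
    intro y y'
    simp only [Pi.mul_apply, map_mul]
    exact Finset.prod_mul_distrib)
  have hle : Subgroup.closure {z | ∃ i, ∃ y ∈ S i, z = φ i y} ⊔ B ≤ (Ψ.range.comap π).map A.subtype := by
    refine sup_le ?_ ?_
    · rw [Subgroup.closure_le]
      rintro z ⟨i, y, hy, rfl⟩
      refine ⟨⟨φ i y, h1 i y hy⟩, ?_, rfl⟩
      refine ⟨Pi.mulSingle i ⟨y, hy⟩, ?_⟩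
      show ∏ j, ψ j ((Pi.mulSingle i (⟨y, hy⟩ : S i) : ∀ i, S i) j) = _
      rw [Finset.prod_eq_single i]
      · rw [Pi.mulSingle_eq_same]
        rfl
      · intro j _ hj
        rw [Pi.mulSingle_eq_of_ne hj, map_one]
      · intro h
        exact absurd (Finset.mem_univ i) h
    · intro b hb
      refine ⟨⟨b, hBA hb⟩, ?_, rfl⟩
      show π ⟨b, hBA hb⟩ ∈ Ψ.range
      rw [(hπ _).2 hb]
      exact Subgroup.one_mem _
  obtain ⟨a, ⟨y, hy⟩, hag⟩ := hle hg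
  obtain ⟨z, hz, hz'⟩ := rc_prod π (fun i => (⟨φ i (y i), h1 i (y i) (y i).2⟩ : A))
  refine ⟨fun i => (y i : G), fun i => (y i).2, ((z⁻¹ * a : A) : G), (hπ _).1 ?_, ?_⟩
  · have h3 : Ψ y = ∏ i, π (⟨φ i (y i), h1 i (y i) (y i).2⟩ : A) := rfl
    rw [map_mul, map_inv, ← hy, h3, ← hz', inv_mul_cancel]
  · have h4 : ((z⁻¹ * a : A) : G) = (z : G)⁻¹ * (a : G) := rfl
    have h5 : (a : G) = g := hag
    rw [h4, h5, hz]
    show g = (List.ofFn fun i => φ i (y i : G)).prod * ((List.ofFn fun i => φ i (y i : G)).prod⁻¹ * g)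
    rw [mul_inv_cancel_left]

end Pool.Agent.LGW
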