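import Pool.Agent.LGW.RBl

/-!
# LGW-RTr: transport

Induction on the word.
-/

open scoped commutatorElement

namespace Pool.Agent.LGW

open Pool.Agent.Helper33.CW2

variable {G : Type*} [Group G] {k : ℕ} (x : Fin k → G)

/-- The subgroup generated by the `⁅X, x i⁆`, `X ∈ NT x R`. -/
def CN (R : ℕ) : Subgroup G := Subgroup.closure {g | ∃ a ∈ NT x R, ∃ i, g = ⁅a, x i⁆}

/-- The subgroup generated by the `⁅X, x i⁆`, `X ∈ KT x R`. -/
def CK (R : ℕ) : Subgroup G := Subgroup.closure {g | ∃ a ∈ KT x R, ∃ i, g = ⁅a, x i⁆}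

private theorem tr_aux (C : Subgroup G) (P : G → Prop) (hC : ∀ a, P a → ∀ i, ⁅a, x i⁆ ∈ C)
    (t : G) (W : List (Fin k × Bool)) (h : ∀ S, S <:+ W → P (ev x S * t * (ev x S)⁻¹)) :
    ev x W * t * (ev x W)⁻¹ * t⁻¹ ∈ C := by
  induction W with
  | nil =>
    have : ev x [] * t * (ev x [])⁻¹ * t⁻¹ = 1 := by
      change (1 : G) * t * (1 : G)⁻¹ * t⁻¹ = 1
      group
    rw [this]
    exact C.one_mem
  | cons p W ih =>
    have ih' := ih fun S hS => h S (hS.trans (List.suffix_cons p W))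
    have h1 : P (ev x W * t * (ev x W)⁻¹) := h W (List.suffix_cons p W)
    have h2 : P (ev x (p :: W) * t * (ev x (p :: W))⁻¹) := h _ List.suffix_rfl
    obtain ⟨i, b⟩ := p
    cases b with
    | true =>
      have h3 := C.inv_mem (hC _ h1 i)
      have h4 : ev x ((i, true) :: W) * t * (ev x ((i, true) :: W))⁻¹ * t⁻¹ =
          ⁅ev x W * t * (ev x W)⁻¹, x i⁆⁻¹ * (ev x W * t * (ev x W)⁻¹ * t⁻¹) := by
        change (x i * ev x W) * t * (x i * ev x W)⁻¹ * t⁻¹ = _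
        rw [commutatorElement_def]
        group
      rw [h4]
      exact C.mul_mem h3 ih'
    | false =>
      have h3 := hC _ h2 i
      have h4 : ev x ((i, false) :: W) * t * (ev x ((i, false) :: W))⁻¹ * t⁻¹ =
          ⁅ev x ((i, false) :: W) * t * (ev x ((i, false) :: W))⁻¹, x i⁆ *
            (ev x W * t * (ev x W)⁻¹ * t⁻¹) := by
        change ((x i)⁻¹ * ev x W) * t * ((x i)⁻¹ * ev x W)⁻¹ * t⁻¹ =
          ⁅((x i)⁻¹ * ev x W) * t * ((x i)⁻¹ * ev x W)⁻¹, x i⁆ * (ev x W * t * (ev x W)⁻¹ * t⁻¹)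
        rw [commutatorElement_def]
        group
      rw [h4]
      exact C.mul_mem h3 ih'

private theorem suf_Bl {ρ : ℕ} {W S : List (Fin k × Bool)} (hW : W.length ≤ ρ) (hS : S <:+ W) :
    ev x S ∈ Bl x ρ := ⟨S, hS.length_le.trans hW, rfl⟩

theorem trans_LL {r ρ R : ℕ} (h : r + 5 * ρ ≤ R) {g t : G} (hg : g ∈ Bl x ρ) (ht : t ∈ TT x r) :
    g * t * g⁻¹ * t⁻¹ ∈ LL x R := by
  obtain ⟨W, hW, rfl⟩ := hg
  refine tr_aux x (LL x R) (fun a => a ∈ TT x R) ?_ t W ?_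
  · intro a ha i
    exact Subgroup.mem_sup_left (Subgroup.subset_closure ⟨a, ha, i, rfl⟩)
  · intro S hS
    exact TT_mono x h (conj_Bl x (suf_Bl x hW hS) ht)

theorem trans_NT {r ρ R : ℕ} (h : r + 5 * ρ ≤ R) {g t : G} (hg : g ∈ Bl x ρ) (ht : t ∈ NT x r) :
    g * t * g⁻¹ * t⁻¹ ∈ CN x R := by
  obtain ⟨W, hW, rfl⟩ := hg
  refine tr_aux x (CN x R) (fun a => a ∈ NT x R) ?_ t W ?_
  · intro a ha i
    exact Subgroup.subset_closure ⟨a, ha, i, rfl⟩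
  · intro S hS
    exact conj_NT x (fun t ht => TT_mono x h (conj_Bl x (suf_Bl x hW hS) ht)) ht

theorem trans_KT {r ρ R : ℕ} (h : r + 5 * ρ ≤ R) {g t : G} (hg : g ∈ Bl x ρ) (ht : t ∈ KT x r) :
    g * t * g⁻¹ * t⁻¹ ∈ CK x R := by
  obtain ⟨W, hW, rfl⟩ := hg
  refine tr_aux x (CK x R) (fun a => a ∈ KT x R) ?_ t W ?_
  · intro a ha i
    exact Subgroup.subset_closure ⟨a, ha, i, rfl⟩
  · intro S hS
    exact conj_KT x (fun t ht => TT_mono x h (conj_Bl x (suf_Bl x hW hS) ht)) ht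

theorem trans_ctl {r ρ : ℕ} (h : r ≤ ρ) {W : List (Fin k × Bool)} (hW : Ctl x ρ W) {t : G}
    (ht : t ∈ KT x r) : ev x W * t * (ev x W)⁻¹ * t⁻¹ ∈ CK x (2 * ρ + 1) := by
  refine tr_aux x (CK x (2 * ρ + 1)) (fun a => a ∈ KT x (2 * ρ + 1)) ?_ t W ?_
  · intro a ha i
    exact Subgroup.subset_closure ⟨a, ha, i, rfl⟩
  · intro S hS
    obtain ⟨δ, hδ, hev⟩ := hW S hS
    refine conj_KT x (R := ρ) (fun t ht => ?_) (KT_mono x h ht)
    exact TT_mono x (by omega) (conj_TT x hδ hev ht)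

end Pool.Agent.LGW
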