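import Pool.Agent.LGW.RGp
import Pool.Agent.LGW.RTr
import Pool.Agent.LGW.RCol
import Pool.Agent.Helper33.CW2.Main

/-!
# LGW-RL2: level two of the effective reduction

PLAN. `NT_MM`, `R' = 100 (k + 1) (R + 1)`: `NT x R = ⁅TT x R, TT x R⁆` is generated by the `⁅s, t⁆`
(`Subgroup.commutator_le`). Fix `s ∈ TT x R`; closure induction over `t ∈ LT x (2 k R) ≥ TT x R` (`TT_let`) for the
statement: `t ∈ TT x (20 + 10 k R)` and `⁅s, t⁆ ∈ MM x R'` (letters `g c g⁻¹`, `g ∈ Bl x (2 k R)`,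
`c = ⁅x i, x j⁆ ∈ TT x 20` (`cm_TT`), are in `TT x (20 + 10 k R)` by `conj_Bl`).
Product: `⁅s, t t'⁆ = ⁅s, t⁆ * ⁅t, ⁅s, t'⁆⁆ * ⁅s, t'⁆`, and
`⁅t, ⁅s, t'⁆⁆ ∈ KT x R' ≤ MM x R'` (`⁅t, n⁆ = ⁅n, t⁆⁻¹`). Inverse: `⁅s, t⁻¹⁆ = ⁅t⁻¹, ⁅s, t⁆⁻¹⁆ * ⁅s, t⁆⁻¹`. Letter `t = g c g⁻¹`:
`⁅s, t⁆ = g n g⁻¹`, `n = ⁅Y, c⁆`, `Y = g⁻¹ s g ∈ TT x (R + 10 k R)`, `n ∈ MM x R'` and `n ∈ NT x (R + 10 k R + 20)`;
`g n g⁻¹ n⁻¹ ∈ CN x R' ≤ MM x R'` by `trans_NT` (`R + 10 k R + 20 + 5 * (2 k R) ≤ R'`).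
`level2`: `g ∈ NT x R ≤ MM x R'`; `collect` with `n = k * k + k`, index `Fin (k * k + k) ≃ (Fin k × Fin k) ⊕ Fin k`
(`finSumFinEquiv`, `finProdFinEquiv`), `A = NT x (R' + 5)`, `B = KT x (R' + 5)` (`⁅A, A⁆ ≤ B` since `NT ≤ TT`),
`S (i, j) = TT x R'`, `φ (i, j) Y = ⁅Y, ⁅x i, x j⁆⁆`; `S i = NT x R'`, `φ i X = ⁅X, x i⁆ = X * (x i X⁻¹ x i⁻¹) ∈ NT x (R' + 5)`.
`h2`: `⁅Y Y', c⁆ = Y ⁅Y', c⁆ Y⁻¹ * ⁅Y, c⁆ = ⁅Y, ⁅Y', c⁆⁆ ⁅Y', c⁆ ⁅Y, c⁆`, `⁅Y, ⁅Y', c⁆⁆ ∈ KT x (R' + 5)`, which is normal in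
`TT x (R' + 5)`. Every factor is a commutator, so the product is `IsProdComm (k * k + k)`
(`R' + 5 ≤ 200 (k + 1) (R + 1)`, `KT_mono`).
-/

open scoped commutatorElement

namespace Pool.Agent.LGW

open Pool.Agent.Helper33.CW2 Pool.Agent.Helper26.CW

variable {G : Type*} [Group G] {k : ℕ} (x : Fin k → G)

private lemma nt_comm {R : ℕ} {a b : G} (ha : a ∈ TT x R) (hb : b ∈ TT x R) :
    ⁅a, b⁆ ∈ NT x R := Subgroup.commutator_mem_commutator ha hb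

private lemma kt_comm {R : ℕ} {a b : G} (ha : a ∈ NT x R) (hb : b ∈ TT x R) :
    ⁅a, b⁆ ∈ KT x R := Subgroup.commutator_mem_commutator ha hb

private lemma kt_MM {R R' : ℕ} (h : R ≤ R' + 5) {a : G} (ha : a ∈ KT x R) : a ∈ MM x R' :=
  (le_sup_right : KT x (R' + 5) ≤ MM x R') (KT_mono x h ha)

private lemma cn_MM {R : ℕ} {a : G} (ha : a ∈ CN x R) : a ∈ MM x R := by
  have h : CN x R ≤ MM x R := by
    unfold CN MM
    refine le_trans (Subgroup.closure_mono ?_) le_sup_left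
    intro g hg
    exact Or.inr hg
  exact h ha

private lemma cc_MM {R : ℕ} {a : G} (ha : a ∈ TT x R) (i j : Fin k) :
    ⁅a, ⁅x i, x j⁆⁆ ∈ MM x R := by
  unfold MM
  refine (le_sup_left : _ ≤ _ ⊔ KT x (R + 5)) (Subgroup.subset_closure ?_)
  exact Or.inl ⟨a, ha, i, j, rfl⟩

theorem NT_MM (R : ℕ) : NT x R ≤ MM x (100 * (k + 1) * (R + 1)) := by
  obtain ⟨R', hR'⟩ : ∃ R', R' = 100 * (k + 1) * (R + 1) := ⟨_, rfl⟩
  rw [← hR']
  have hb1 : R + 10 * (k * R) + 20 + 5 * (2 * k * R) ≤ R' := by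
    rw [hR']; nlinarith [Nat.zero_le (k * R), Nat.zero_le k, Nat.zero_le R]
  have hb2 : R ≤ R' := by nlinarith [Nat.zero_le (k * R)]
  have hb3 : 20 + 10 * (k * R) ≤ R' := by nlinarith [Nat.zero_le (k * R)]
  have hb4 : R + 10 * (k * R) ≤ R' := by nlinarith [Nat.zero_le (k * R)]
  unfold NT
  rw [Subgroup.commutator_le]
  intro s hs t ht
  have ht' : t ∈ LT x (2 * k * R) := TT_let x R ht
  have key : t ∈ TT x (20 + 10 * (k * R)) ∧ ⁅s, t⁆ ∈ MM x R' := by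
    unfold LT at ht'
    refine Subgroup.closure_induction
      (p := fun t _ => t ∈ TT x (20 + 10 * (k * R)) ∧ ⁅s, t⁆ ∈ MM x R') ?_ ?_ ?_ ?_ ht'
    · rintro _ ⟨g, hg, i, j, rfl⟩
      have hc : ⁅x i, x j⁆ ∈ TT x 20 := cm_TT x i j
      refine ⟨?_, ?_⟩
      · have h := conj_Bl x hg hc
        refine TT_mono x ?_ h
        exact le_of_eq (by ring)
      · have hY0 := conj_Bl x (Bl.inv x hg) hs
        have hY : g⁻¹ * s * g ∈ TT x (R + 10 * (k * R)) := by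
          rw [inv_inv] at hY0
          refine TT_mono x ?_ hY0
          exact le_of_eq (by ring)
        have hn : ⁅g⁻¹ * s * g, ⁅x i, x j⁆⁆ ∈ NT x (R + 10 * (k * R) + 20) :=
          nt_comm x (TT_mono x (by omega) hY) (TT_mono x (by omega) hc)
        have h1 : g * ⁅g⁻¹ * s * g, ⁅x i, x j⁆⁆ * g⁻¹ * (⁅g⁻¹ * s * g, ⁅x i, x j⁆⁆)⁻¹ ∈ MM x R' :=
          cn_MM x (trans_NT x hb1 hg hn)
        have h2 : ⁅g⁻¹ * s * g, ⁅x i, x j⁆⁆ ∈ MM x R' := cc_MM x (TT_mono x hb4 hY) i j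
        have h3 := mul_mem h1 h2
        have h4 : ⁅s, g * ⁅x i, x j⁆ * g⁻¹⁆ =
            g * ⁅g⁻¹ * s * g, ⁅x i, x j⁆⁆ * g⁻¹ * (⁅g⁻¹ * s * g, ⁅x i, x j⁆⁆)⁻¹ *
              ⁅g⁻¹ * s * g, ⁅x i, x j⁆⁆ := by
          generalize ⁅x i, x j⁆ = c
          rw [inv_mul_cancel_right]
          simp only [commutatorElement_def]
          group
        rw [h4]
        exact h3
    · refine ⟨one_mem _, ?_⟩
      rw [commutatorElement_one_right]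
      exact one_mem _
    · rintro t t' _ _ ⟨h1, h2⟩ ⟨h3, h4⟩
      refine ⟨mul_mem h1 h3, ?_⟩
      have h5 : ⁅s, t'⁆ ∈ NT x R' := nt_comm x (TT_mono x hb2 hs) (TT_mono x hb3 h3)
      have h6 : ⁅⁅s, t'⁆, t⁆ ∈ KT x R' := kt_comm x h5 (TT_mono x hb3 h1)
      have h7 : (⁅⁅s, t'⁆, t⁆)⁻¹ ∈ MM x R' := inv_mem (kt_MM x (by omega) h6)
      have h8 : ⁅s, t * t'⁆ = ⁅s, t⁆ * (⁅⁅s, t'⁆, t⁆)⁻¹ * ⁅s, t'⁆ := by
        simp only [commutatorElement_def]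
        group
      rw [h8]
      exact mul_mem (mul_mem h2 h7) h4
    · rintro t _ ⟨h1, h2⟩
      refine ⟨inv_mem h1, ?_⟩
      have h5 : (⁅s, t⁆)⁻¹ ∈ NT x R' :=
        inv_mem (nt_comm x (TT_mono x hb2 hs) (TT_mono x hb3 h1))
      have h6 : ⁅(⁅s, t⁆)⁻¹, t⁻¹⁆ ∈ KT x R' := kt_comm x h5 (inv_mem (TT_mono x hb3 h1))
      have h7 : (⁅(⁅s, t⁆)⁻¹, t⁻¹⁆)⁻¹ ∈ MM x R' := inv_mem (kt_MM x (by omega) h6)
      have h8 : ⁅s, t⁻¹⁆ = (⁅(⁅s, t⁆)⁻¹, t⁻¹⁆)⁻¹ * (⁅s, t⁆)⁻¹ := by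
        simp only [commutatorElement_def]
        group
      rw [h8]
      exact mul_mem h7 (inv_mem h2)
  exact key.2

private lemma ofFn_comm {n : ℕ} (a b : Fin n → G) :
    IsProdComm n (List.ofFn fun i => ⁅a i, b i⁆).prod := by
  refine ⟨List.ofFn fun i => (a i, b i), by simp, ?_⟩
  rw [List.map_ofFn]
  rfl

theorem level2 {R : ℕ} {g : G} (hg : g ∈ NT x R) :
    ∃ p, IsProdComm (k * k + k) p ∧ ∃ l ∈ KT x (200 * (k + 1) * (R + 1)), g = p * l := by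
  have hg1 := NT_MM x R hg
  obtain ⟨R', hR'⟩ : ∃ R', R' = 100 * (k + 1) * (R + 1) := ⟨_, rfl⟩
  rw [← hR'] at hg1
  have hb0 : 1 ≤ (k + 1) * (R + 1) := Nat.mul_pos (Nat.succ_pos k) (Nat.succ_pos R)
  have hb1 : 20 ≤ R' := by
    rw [hR', mul_assoc]; omega
  have hb2 : R' + 5 ≤ 200 * (k + 1) * (R + 1) := by
    rw [hR', mul_assoc, mul_assoc]; omega
  -- the index set
  obtain ⟨c, hc⟩ : ∃ c : Fin (k * k + k) → G, c = fun p =>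
      Sum.elim (fun q => ⁅x (finProdFinEquiv.symm q).1, x (finProdFinEquiv.symm q).2⁆) x
        (finSumFinEquiv.symm p) := ⟨_, rfl⟩
  obtain ⟨S, hS⟩ : ∃ S : Fin (k * k + k) → Subgroup G, S = fun p =>
      Sum.elim (fun _ : Fin (k * k) => TT x R') (fun _ : Fin k => NT x R')
        (finSumFinEquiv.symm p) := ⟨_, rfl⟩
  have hmain : ∀ i, ∀ y ∈ S i, y ∈ TT x (R' + 5) ∧ ⁅y, c i⁆ ∈ NT x (R' + 5) := by
    intro i y hy
    rw [hS] at hy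
    rw [hc]
    dsimp only at hy ⊢
    rcases h : finSumFinEquiv.symm i with q | q
    · rw [h] at hy
      simp only [Sum.elim_inl] at hy ⊢
      have h1 : y ∈ TT x (R' + 5) := TT_mono x (by omega) hy
      exact ⟨h1, nt_comm x h1 (TT_mono x (by omega) (cm_TT x _ _))⟩
    · rw [h] at hy
      simp only [Sum.elim_inr] at hy ⊢
      have h0 : y ∈ NT x (R' + 5) := NT_mono x (by omega) hy
      refine ⟨NT_le x _ h0, ?_⟩
      have h1 : x q * y⁻¹ * (x q)⁻¹ ∈ NT x (R' + 5) := by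
        refine conj_NT x (R := R') ?_ (inv_mem hy)
        intro t ht
        have := conj_Bl x (Bl.gen x q) ht
        simpa using this
      have h2 : ⁅y, x q⁆ = y * (x q * y⁻¹ * (x q)⁻¹) := by
        simp only [commutatorElement_def]
        group
      rw [h2]
      exact mul_mem h0 h1
  have hcl : g ∈ Subgroup.closure {z | ∃ i, ∃ y ∈ S i, z = ⁅y, c i⁆} ⊔ KT x (R' + 5) := by
    have hle : MM x R' ≤ Subgroup.closure {z | ∃ i, ∃ y ∈ S i, z = ⁅y, c i⁆} ⊔ KT x (R' + 5) := by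
      unfold MM
      refine sup_le_sup_right (Subgroup.closure_mono ?_) _
      rintro z (⟨a, ha, i, j, rfl⟩ | ⟨a, ha, i, rfl⟩)
      · refine ⟨finSumFinEquiv (Sum.inl (finProdFinEquiv (i, j))), a, ?_, ?_⟩
        · rw [hS]; simpa using ha
        · rw [hc]; simp only [Equiv.symm_apply_apply, Sum.elim_inl]
      · refine ⟨finSumFinEquiv (Sum.inr i), a, ?_, ?_⟩
        · rw [hS]; simpa using ha
        · rw [hc]; simp
    exact hle hg1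
  obtain ⟨y, hy, b, hb, hgb⟩ := collect (NT x (R' + 5)) (KT x (R' + 5))
    (Subgroup.commutator_mono le_rfl (NT_le x _)) (KT_le x _) S (fun i y => ⁅y, c i⁆)
    (fun i y hy => (hmain i y hy).2) (by
      intro i y hy y' hy'
      obtain ⟨h1, h2⟩ := hmain i y hy
      obtain ⟨h3, h4⟩ := hmain i y' hy'
      have h5 : (⁅y, c i⁆ * ⁅y', c i⁆)⁻¹ * ⁅y * y', c i⁆ = ⁅(⁅y', c i⁆)⁻¹, (⁅y, c i⁆)⁻¹ * y⁆ := by
        simp only [commutatorElement_def]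
        group
      show (⁅y, c i⁆ * ⁅y', c i⁆)⁻¹ * ⁅y * y', c i⁆ ∈ KT x (R' + 5)
      rw [h5]
      exact kt_comm x (inv_mem h4) (mul_mem (inv_mem (NT_le x _ h2)) h1)) hcl
  exact ⟨_, ofFn_comm y c, b, KT_mono x hb2 hb, hgb⟩

end Pool.Agent.LGW
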