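import Pool.Agent.LGW.RGp
import Pool.Agent.LGW.RTr
import Pool.Agent.LGW.RCol
import Pool.Agent.LGW.Ctl
import Pool.Agent.Helper33.CW2.Main

/-!
# LGW-RL3: level three of the effective reduction

PLAN. `KT_OO`, `R'' = 1000 (k + 1) (R + 1)`, `r = R + 20 + 10 k R`: `KT x R = ⁅NT x R, TT x R⁆` is generated by the
`⁅v, t⁆`, `v ∈ NT x R`, `t ∈ TT x R ≤ LT x (2 k R)` (`TT_let`). Closure induction over `t ∈ LT x (2 k R)` for the
statement: `t ∈ TT x (20 + 10 k R)` and `⁅v, t⁆ ∈ OO x R''` (letters `g c g⁻¹`, `g ∈ Bl x (2 k R)`, `c = ⁅x i, x j⁆ ∈ TT x 20`).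
Product: `⁅v, t t'⁆ = ⁅v, t⁆ * (t ⁅v, t'⁆ t⁻¹)`; `κ = ⁅v, t'⁆ ∈ KT x r`, and `t κ t⁻¹ κ⁻¹ ∈ CK x R'' ≤ OO x R''` by `trans_ctl`
with a controlled word for `t ∈ TT x r` (`exists_ctl`, `ρ = 20 (r + 1)`, `2 ρ + 1 ≤ R''`). Inverse:
`⁅v, t⁻¹⁆ = t⁻¹ ⁅v, t⁆⁻¹ t`, the same with `t⁻¹`. Letter `t = g c g⁻¹`: `⁅v, t⁆ = g n g⁻¹`, `n = ⁅Y, c⁆`,
`Y = g⁻¹ v g ∈ NT x (R + 10 k R)`, so `n ∈ OO x R''` and `n ∈ KT x (R + 10 k R + 20)`, and `g n g⁻¹ n⁻¹ ∈ CK x R''` by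
`trans_KT`.
`level3`: `collect` with `A = KT x (R'' + 5)`, `B = ⁅NT x (R'' + 5), KT x (R'' + 5)⁆` (`KT ≤ NT`), `S (i, j) = NT x R''`,
`φ (i, j) Y = ⁅Y, ⁅x i, x j⁆⁆`, `S i = KT x R''`, `φ i X = ⁅X, x i⁆`; `⁅Y Y', c⁆ = ⁅Y, ⁅Y', c⁆⁆ ⁅Y', c⁆ ⁅Y, c⁆` with
`⁅Y, ⁅Y', c⁆⁆ ∈ B`, normal in `NT x (R'' + 5)`. `R'' + 5 ≤ 1100 (k + 1) (R + 1)`.
-/

open scoped commutatorElement

namespace Pool.Agent.LGW

open Pool.Agent.Helper33.CW2 Pool.Agent.Helper26.CW

variable {G : Type*} [Group G] {k : ℕ} (x : Fin k → G)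

omit x in
private theorem rl_nrm {A B : Subgroup G} (hB : ⁅A, A⁆ ≤ B) (hBA : B ≤ A) {a b : G} (ha : a ∈ A) (hb : b ∈ B) :
    a⁻¹ * b * a ∈ B := by
  have h : a⁻¹ * b * a = b * ⁅b⁻¹, a⁻¹⁆ := by
    rw [commutatorElement_def]
    group
  rw [h]
  exact B.mul_mem hb (hB (Subgroup.commutator_mem_commutator (A.inv_mem (hBA hb)) (A.inv_mem ha)))

omit x in
private theorem rl_mul {A B : Subgroup G} (hB : ⁅A, A⁆ ≤ B) (hBA : B ≤ A) {y p q : G} (hp : p ∈ A) (hq : q ∈ A)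
    (hy : ⁅y, q⁆ ∈ B) : (p * q)⁻¹ * (y * q * y⁻¹ * p) ∈ B := by
  have h : (p * q)⁻¹ * (y * q * y⁻¹ * p) = ((p * q)⁻¹ * ⁅y, q⁆ * (p * q)) * ⁅q⁻¹, p⁻¹⁆ := by
    rw [commutatorElement_def, commutatorElement_def]
    group
  rw [h]
  exact B.mul_mem (rl_nrm hB hBA (A.mul_mem hp hq) hy)
    (hB (Subgroup.commutator_mem_commutator (A.inv_mem hq) (A.inv_mem hp)))

omit x in
private theorem rl_cm (y y' c : G) : ⁅y * y', c⁆ = y * ⁅y', c⁆ * y⁻¹ * ⁅y, c⁆ := by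
  rw [commutatorElement_def, commutatorElement_def, commutatorElement_def]
  group

private theorem rl_CK (R : ℕ) : CK x R ≤ OO x R :=
  le_trans (Subgroup.closure_mono Set.subset_union_right) le_sup_left

theorem KT_OO (R : ℕ) : KT x R ≤ OO x (1000 * (k + 1) * (R + 1)) := by
  obtain ⟨P, hP⟩ : ∃ P, P = k * R := ⟨_, rfl⟩
  have hN : 1000 * (k + 1) * (R + 1) = 1000 * P + 1000 * k + 1000 * R + 1000 := by
    rw [hP]; ring
  obtain ⟨N, hNe⟩ : ∃ N, N = 1000 * (k + 1) * (R + 1) := ⟨_, rfl⟩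
  rw [← hNe] at hN ⊢
  have hρ : 5 * (2 * k * R) = 10 * P := by rw [hP]; ring
  refine Subgroup.commutator_le.2 fun v hv t ht => ?_
  have key : ∀ t ∈ LT x (2 * k * R), t ∈ TT x (20 + 10 * P) ∧ ⁅v, t⁆ ∈ OO x N := by
    have hr : ∀ {s : G}, s ∈ TT x (20 + 10 * P) → s ∈ TT x (R + 20 + 10 * P) := fun hs =>
      TT_mono x (by omega) hs
    have hvr : v ∈ NT x (R + 20 + 10 * P) := NT_mono x (by omega) hv
    have tc : ∀ {s κ : G}, s ∈ TT x (20 + 10 * P) → κ ∈ KT x (R + 20 + 10 * P) → κ ∈ OO x N →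
        s * κ * s⁻¹ ∈ OO x N := by
      intro s κ hs hκ hκO
      obtain ⟨W, hW, hC⟩ := exists_ctl x (hr hs)
      have h1 := trans_ctl x (r := R + 20 + 10 * P) (by omega) hC hκ
      rw [hW] at h1
      have h2 : CK x (2 * (20 * (R + 20 + 10 * P + 1)) + 1) ≤ CK x N := by
        refine Subgroup.closure_mono ?_
        rintro g ⟨a, ha, i, rfl⟩
        exact ⟨a, KT_mono x (by omega) ha, i, rfl⟩
      have h3 : s * κ * s⁻¹ = (s * κ * s⁻¹ * κ⁻¹) * κ := by group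
      rw [h3]
      exact (OO x N).mul_mem (rl_CK x N (h2 h1)) hκO
    intro t ht
    unfold LT at ht
    induction ht using Subgroup.closure_induction with
    | mem t ht =>
      obtain ⟨g, hg, i, j, rfl⟩ := ht
      have hc := cm_TT x i j
      constructor
      · have := conj_Bl x hg hc
        rwa [hρ] at this
      · have hg' : g⁻¹ ∈ Bl x (2 * k * R) := Bl.inv x hg
        have hY : g⁻¹ * v * g ∈ NT x (R + 10 * P) := by
          have h1 := conj_NT x (g := g⁻¹) (t := v) (R := R) (R' := R + 10 * P) (fun t ht => by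
            have := conj_Bl x hg' ht
            rwa [hρ] at this) hv
          rwa [inv_inv] at h1
        have hn1 : ⁅g⁻¹ * v * g, ⁅x i, x j⁆⁆ ∈ OO x N :=
          (le_trans (Subgroup.subset_closure) (show _ ≤ (OO x N : Set G) from le_sup_left (a := Subgroup.closure _)))
            (Or.inl ⟨_, NT_mono x (by omega) hY, i, j, rfl⟩)
        have hn2 : ⁅g⁻¹ * v * g, ⁅x i, x j⁆⁆ ∈ KT x (R + 10 * P + 20) :=
          Subgroup.commutator_mem_commutator (NT_mono x (by omega) hY) (TT_mono x (by omega) hc)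
        have h2 := trans_KT x (r := R + 10 * P + 20) (ρ := 2 * k * R) (R := N) (by omega) hg hn2
        have h3 : ⁅v, g * ⁅x i, x j⁆ * g⁻¹⁆ = (g * ⁅g⁻¹ * v * g, ⁅x i, x j⁆⁆ * g⁻¹ *
            ⁅g⁻¹ * v * g, ⁅x i, x j⁆⁆⁻¹) * ⁅g⁻¹ * v * g, ⁅x i, x j⁆⁆ := by
          rw [inv_mul_cancel_right, commutatorElement_def v, commutatorElement_def (g⁻¹ * v * g)]
          group
        rw [h3]
        exact (OO x N).mul_mem (rl_CK x N h2) hn1
    | one =>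
      refine ⟨Subgroup.one_mem _, ?_⟩
      rw [commutatorElement_one_right]
      exact Subgroup.one_mem _
    | mul t t' _ _ h1 h2 =>
      refine ⟨Subgroup.mul_mem _ h1.1 h2.1, ?_⟩
      have h3 : ⁅v, t * t'⁆ = ⁅v, t⁆ * (t * ⁅v, t'⁆ * t⁻¹) := by
        rw [commutatorElement_def, commutatorElement_def, commutatorElement_def]
        group
      rw [h3]
      exact (OO x N).mul_mem h1.2 (tc h1.1 (Subgroup.commutator_mem_commutator hvr (hr h2.1)) h2.2)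
    | inv t _ h1 =>
      refine ⟨Subgroup.inv_mem _ h1.1, ?_⟩
      have h3 : ⁅v, t⁻¹⁆ = t⁻¹ * ⁅v, t⁆⁻¹ * t⁻¹⁻¹ := by
        rw [commutatorElement_def, commutatorElement_def]
        group
      rw [h3]
      exact tc (Subgroup.inv_mem _ h1.1)
        (Subgroup.inv_mem _ (Subgroup.commutator_mem_commutator hvr (hr h1.1))) (Subgroup.inv_mem _ h1.2)
  exact (key t (TT_let x R ht)).2

theorem level3 {R : ℕ} {g : G} (hg : g ∈ KT x R) :
    ∃ p, IsProdComm (k * k + k) p ∧ ∃ l ∈ ⁅NT x (1100 * (k + 1) * (R + 1)),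
      KT x (1100 * (k + 1) * (R + 1))⁆, g = p * l := by
  obtain ⟨N, hNe⟩ : ∃ N, N = 1000 * (k + 1) * (R + 1) := ⟨_, rfl⟩
  have hN1 : 1000 ≤ N := by
    rw [hNe, mul_assoc]
    exact Nat.le_mul_of_pos_right _ (by positivity)
  have hN2 : N + 5 ≤ 1100 * (k + 1) * (R + 1) := by
    have h1 : 1 ≤ (k + 1) * (R + 1) := Nat.one_le_iff_ne_zero.2 (by positivity)
    have h2 : 1100 * (k + 1) * (R + 1) = 1000 * (k + 1) * (R + 1) + 100 * ((k + 1) * (R + 1)) := by ring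
    omega
  have hgO : g ∈ OO x N := by
    rw [hNe]
    exact KT_OO x R hg
  have hKN : KT x (N + 5) ≤ NT x (N + 5) := KT_le x _
  have hNN : NT x (N + 5) ≤ TT x (N + 5) := NT_le x _
  have hB : ⁅KT x (N + 5), KT x (N + 5)⁆ ≤ ⁅NT x (N + 5), KT x (N + 5)⁆ := Subgroup.commutator_mono hKN le_rfl
  have hBA : ⁅NT x (N + 5), KT x (N + 5)⁆ ≤ KT x (N + 5) :=
    Subgroup.commutator_mono le_rfl (le_trans hKN hNN)
  obtain ⟨e⟩ : Nonempty (Fin (k * k + k) ≃ (Fin k × Fin k) ⊕ Fin k) :=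
    ⟨finSumFinEquiv.symm.trans (Equiv.sumCongr finProdFinEquiv.symm (Equiv.refl _))⟩
  have hcj : ∀ i {y : G}, y ∈ KT x N → x i * y * (x i)⁻¹ ∈ KT x (N + 5) := by
    intro i y hy
    have h1 : ∀ t ∈ TT x N, x i * t * (x i)⁻¹ ∈ TT x (N + 5) := by
      intro t ht
      have h2 := conj_Bl x (Bl.gen x i) ht
      rwa [Nat.mul_one] at h2
    exact conj_KT x h1 hy
  have hA1 : ∀ i j {y : G}, y ∈ NT x N → ⁅y, ⁅x i, x j⁆⁆ ∈ KT x (N + 5) := by
    intro i j y hy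
    have h1 : y ∈ NT x (N + 5) := NT_mono x (Nat.le_add_right N 5) hy
    have h20 : 20 ≤ N + 5 := by omega
    have h2 : ⁅x i, x j⁆ ∈ TT x (N + 5) := TT_mono x h20 (cm_TT x i j)
    exact Subgroup.commutator_mem_commutator h1 h2
  have hA2 : ∀ i {y : G}, y ∈ KT x N → ⁅y, x i⁆ ∈ KT x (N + 5) := by
    intro i y hy
    have h : ⁅y, x i⁆ = y * (x i * y⁻¹ * (x i)⁻¹) := by
      rw [commutatorElement_def]
      group
    rw [h]
    have h1 : y ∈ KT x (N + 5) := KT_mono x (Nat.le_add_right N 5) hy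
    exact Subgroup.mul_mem _ h1 (hcj i (Subgroup.inv_mem _ hy))
  obtain ⟨y, hy, b, hb, hgb⟩ := collect (n := k * k + k) (KT x (N + 5)) ⁅NT x (N + 5), KT x (N + 5)⁆ hB hBA
    (fun m => Sum.elim (fun _ => NT x N) (fun _ => KT x N) (e m))
    (fun m y => Sum.elim (fun p => ⁅y, ⁅x p.1, x p.2⁆⁆) (fun i => ⁅y, x i⁆) (e m))
    (by
      intro m y hy
      rcases hm : e m with p | i
      · simp only [hm, Sum.elim_inl] at hy ⊢
        exact hA1 p.1 p.2 hy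
      · simp only [hm, Sum.elim_inr] at hy ⊢
        exact hA2 i hy)
    (by
      intro m y hy y' hy'
      rcases hm : e m with p | i
      · simp only [hm, Sum.elim_inl] at hy hy' ⊢
        rw [rl_cm]
        have h1 : y ∈ NT x (N + 5) := NT_mono x (Nat.le_add_right N 5) hy
        exact rl_mul hB hBA (hA1 p.1 p.2 hy) (hA1 p.1 p.2 hy')
          (Subgroup.commutator_mem_commutator h1 (hA1 p.1 p.2 hy'))
      · simp only [hm, Sum.elim_inr] at hy hy' ⊢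
        rw [rl_cm]
        have h1 : y ∈ NT x (N + 5) := hKN (KT_mono x (Nat.le_add_right N 5) hy)
        exact rl_mul hB hBA (hA2 i hy) (hA2 i hy')
          (Subgroup.commutator_mem_commutator h1 (hA2 i hy')))
    (g := g) (by
      have hle : OO x N ≤ Subgroup.closure {z | ∃ m, ∃ y ∈ Sum.elim (fun _ => NT x N) (fun _ => KT x N) (e m),
          z = Sum.elim (fun p : Fin k × Fin k => ⁅y, ⁅x p.1, x p.2⁆⁆) (fun i => ⁅y, x i⁆) (e m)} ⊔
          ⁅NT x (N + 5), KT x (N + 5)⁆ := by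
        refine sup_le_sup (Subgroup.closure_mono ?_) le_rfl
        rintro z (⟨a, ha, i, j, rfl⟩ | ⟨a, ha, i, rfl⟩)
        · exact ⟨e.symm (Sum.inl (i, j)), a, by simpa using ha, by simp⟩
        · exact ⟨e.symm (Sum.inr i), a, by simpa using ha, by simp⟩
      exact hle hgO)
  refine ⟨_, ?_, b, Subgroup.commutator_mono (NT_mono x hN2) (KT_mono x hN2) hb, hgb⟩
  refine ⟨List.ofFn fun m => Sum.elim (fun p : Fin k × Fin k => (y m, ⁅x p.1, x p.2⁆))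
    (fun i => (y m, x i)) (e m), List.length_ofFn, ?_⟩
  rw [List.map_ofFn]
  congr 2
  funext m
  show _ = ⁅(Sum.elim (fun p : Fin k × Fin k => (y m, ⁅x p.1, x p.2⁆)) (fun i => (y m, x i)) (e m)).1,
    (Sum.elim (fun p : Fin k × Fin k => (y m, ⁅x p.1, x p.2⁆)) (fun i => (y m, x i)) (e m)).2⁆
  rcases e m with p | i
  · rfl
  · rfl

end Pool.Agent.LGW
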