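import Pool.Agent.LGW.RL0
import Pool.Agent.LGW.RL2
import Pool.Agent.LGW.RL3

/-!
# LGW-Red: the effective reduction
-/

open scoped commutatorElement

namespace Pool.Agent.LGW

open Pool.Agent.Helper33.CW2 Pool.Agent.Helper26.CW

private theorem red_bound (k n : ℕ) : 1100 * (k + 1) * (200 * (k + 1) * (100 * (k + 1) * (n + 1) ^ 2 + 5 + 1) + 1) ≤
    10 ^ 8 * (k + 1) ^ 3 * (n + 1) ^ 2 := by
  have hK : 1 ≤ k + 1 := Nat.succ_le_succ (Nat.zero_le k)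
  have hm : 1 ≤ (n + 1) ^ 2 := Nat.one_le_pow _ _ (Nat.succ_pos n)
  generalize (n + 1) ^ 2 = m at hm
  generalize k + 1 = K at hK
  have h1 : 100 * K * m + 5 + 1 ≤ 106 * (K * m) := by
    have : 1 ≤ K * m := Nat.mul_le_mul hK hm
    nlinarith
  have h2 : 200 * K * (100 * K * m + 5 + 1) + 1 ≤ 21201 * (K * (K * m)) := by
    have h3 : 200 * K * (100 * K * m + 5 + 1) ≤ 200 * K * (106 * (K * m)) := Nat.mul_le_mul_left _ h1
    have h4 : 1 ≤ K * (K * m) := Nat.mul_le_mul hK (Nat.mul_le_mul hK hm)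
    have h5 : 200 * K * (106 * (K * m)) = 21200 * (K * (K * m)) := by ring
    omega
  calc 1100 * K * (200 * K * (100 * K * m + 5 + 1) + 1) ≤ 1100 * K * (21201 * (K * (K * m))) :=
        Nat.mul_le_mul_left _ h2
    _ = 23321100 * (K ^ 3 * m) := by ring
    _ ≤ 10 ^ 8 * (K ^ 3 * m) := Nat.mul_le_mul_right _ (by norm_num)
    _ = 10 ^ 8 * K ^ 3 * m := by ring

theorem reduce {G : Type*} [Group G] {k : ℕ} (x : Fin k → G) {n : ℕ} (W : List (Fin k × Bool))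
    (hW : W.length ≤ n) (h0 : dsp W = 0) :
    ∃ p z, IsProdComm (2 * k ^ 2 + 4 * k) p ∧
      z ∈ ⁅NT x (10 ^ 8 * (k + 1) ^ 3 * (n + 1) ^ 2), KT x (10 ^ 8 * (k + 1) ^ 3 * (n + 1) ^ 2)⁆ ∧
      ev x W = p * z := by
  obtain ⟨p0, hp0, l0, hl0, e0⟩ := level0 x W hW
  obtain ⟨p1, hp1, l1, hl1, e1⟩ := level1 x hl0
  obtain ⟨p2, hp2, l2, hl2, e2⟩ := level2 x hl1
  obtain ⟨p3, hp3, l3, hl3, e3⟩ := level3 x hl2
  have hb := red_bound k n
  refine ⟨p0 * p1 * p2 * p3, l3, ?_, ?_, ?_⟩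
  · have h1 := ((hp0.mul hp1).mul hp2).mul hp3
    have h2 : k + k + (k * k + k) + (k * k + k) = 2 * k ^ 2 + 4 * k := by ring
    rw [h2] at h1
    exact h1
  · exact Subgroup.commutator_mono (NT_mono x hb) (KT_mono x hb) hl3
  · rw [e0, h0, gp_zero, mul_one, e1, e2, e3]
    simp only [mul_assoc]

end Pool.Agent.LGW
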