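import Pool.Agent.LGW.RedL
import Pool.Agent.LGW.Red

/-!
# LGW-MainL: the log-width theorem
-/

open scoped commutatorElement

namespace Pool.Agent.LGW

open Pool.Agent.Helper33.CW2 Pool.Agent.Helper26.CW

universe u

theorem log_num (k : ℕ) : ∃ D : ℕ, ∀ n : ℕ,
    1 + Nat.log 2 (10 ^ 8 * (k + 1) ^ 3 * (n + 1) ^ 2 + 1) ≤ D * (1 + Nat.log 2 n) := by
  obtain ⟨A, hA⟩ : ∃ A, A = Nat.log 2 (2 * (10 ^ 8 * (k + 1) ^ 3)) + 1 := ⟨_, rfl⟩
  refine ⟨1 + A + 4, fun n => ?_⟩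
  have h1 : 2 * (10 ^ 8 * (k + 1) ^ 3) < 2 ^ A := by
    rw [hA]; exact Nat.lt_pow_succ_log_self (by norm_num) _
  have h2 : n + 1 ≤ 2 ^ (Nat.log 2 n + 1) := Nat.lt_pow_succ_log_self (by norm_num) _
  have h3 : 10 ^ 8 * (k + 1) ^ 3 * (n + 1) ^ 2 + 1 < 2 ^ (A + 2 * (Nat.log 2 n + 1)) := by
    have h4 : (n + 1) ^ 2 ≤ 2 ^ (2 * (Nat.log 2 n + 1)) := by
      rw [mul_comm 2, pow_mul]
      exact Nat.pow_le_pow_left h2 2
    have h5 : 1 ≤ 10 ^ 8 * (k + 1) ^ 3 * (n + 1) ^ 2 := Nat.one_le_iff_ne_zero.2 (by positivity)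
    calc 10 ^ 8 * (k + 1) ^ 3 * (n + 1) ^ 2 + 1
        ≤ 2 * (10 ^ 8 * (k + 1) ^ 3) * (n + 1) ^ 2 := by linarith
      _ ≤ 2 * (10 ^ 8 * (k + 1) ^ 3) * 2 ^ (2 * (Nat.log 2 n + 1)) := Nat.mul_le_mul_left _ h4
      _ < 2 ^ A * 2 ^ (2 * (Nat.log 2 n + 1)) := Nat.mul_lt_mul_of_pos_right h1 (by positivity)
      _ = 2 ^ (A + 2 * (Nat.log 2 n + 1)) := by rw [pow_add]
  have h6 : Nat.log 2 (10 ^ 8 * (k + 1) ^ 3 * (n + 1) ^ 2 + 1) < A + 2 * (Nat.log 2 n + 1) :=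
    Nat.log_lt_of_lt_pow (by positivity) h3
  nlinarith [Nat.zero_le (Nat.log 2 n), Nat.zero_le A, Nat.zero_le (A * Nat.log 2 n)]

theorem mainL (K : ℕ) : ∃ C : ℕ, ∀ {G : Type u} [Group G] (x : Fin (K + 1) → G)
    (_ : Subgroup.closure (Set.range x) = ⊤)
    (_ : ⁅⁅⁅commutator G, commutator G⁆, ⁅commutator G, commutator G⁆⁆,
      ⁅⁅commutator G, commutator G⁆, ⁅commutator G, commutator G⁆⁆⁆ = (⊥ : Subgroup G))
    (W : List (Fin (K + 1) × Bool)) (_ : dsp W = 0),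
    IsProdComm (C * (1 + Nat.log 2 W.length)) (ev x W) := by
  obtain ⟨C, hC⟩ := redL.{u} K
  obtain ⟨D, hD⟩ := log_num (K + 1)
  refine ⟨2 * (K + 1) ^ 2 + 4 * (K + 1) + C * D, ?_⟩
  intro G _ x hx hNN W hW
  obtain ⟨p, z, hp, hz, he⟩ := reduce x W (le_refl W.length) hW
  have h1 := hD W.length
  obtain ⟨R, hR⟩ : ∃ R, R = 10 ^ 8 * (K + 1 + 1) ^ 3 * (W.length + 1) ^ 2 := ⟨_, rfl⟩
  rw [← hR] at hz h1
  rw [he]
  refine (hp.mul (hC x hx hNN R hz)).mono ?_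
  have h2 : C * (1 + Nat.log 2 (R + 1)) ≤ C * D * (1 + Nat.log 2 W.length) := by
    rw [mul_assoc]
    exact Nat.mul_le_mul_left _ h1
  rw [add_mul (2 * (K + 1) ^ 2 + 4 * (K + 1))]
  exact Nat.add_le_add (Nat.le_mul_of_pos_right _ (by omega)) h2

/-- The displacement as a value in the free abelian group. -/
lemma ev_dsp {k : ℕ} (W : List (Fin k × Bool)) :
    ev (fun j => Multiplicative.ofAdd (Pi.single j 1 : Fin k → ℤ)) W =
      Multiplicative.ofAdd (dsp W) := by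
  induction W with
  | nil => rfl
  | cons p W ih =>
    obtain ⟨i, b⟩ := p
    cases b
    · rw [ev, ih, dsp, sub_eq_add_neg, ofAdd_add, mul_comm, ofAdd_neg]
    · rw [ev, ih, dsp, ofAdd_add, mul_comm]

lemma ev_of {k : ℕ} (W : List (Fin k × Bool)) :
    ev (fun j => FreeGroup.of j) W = FreeGroup.mk W := by
  induction W with
  | nil => rfl
  | cons p W ih =>
    obtain ⟨i, b⟩ := p
    cases b
    · rw [ev, ih]
      rfl
    · rw [ev, ih]
      rfl

lemma dsp_eq_zero {k : ℕ} {w : FreeGroup (Fin k)} (hw : w ∈ commutator (FreeGroup (Fin k))) :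
    dsp w.toWord = 0 := by
  let f : FreeGroup (Fin k) →* Multiplicative (Fin k → ℤ) :=
    FreeGroup.lift fun j => Multiplicative.ofAdd (Pi.single j 1 : Fin k → ℤ)
  have h1 : f w = 1 := by
    have h2 : commutator (FreeGroup (Fin k)) ≤ f.ker := Abelianization.commutator_subset_ker f
    exact h2 hw
  have h3 := map_ev f (fun j => FreeGroup.of j) w.toWord
  rw [ev_of, FreeGroup.mk_toWord, h1] at h3
  have h4 : (fun i => f (FreeGroup.of i)) =
      fun j => Multiplicative.ofAdd (Pi.single j 1 : Fin k → ℤ) := by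
    funext j
    exact FreeGroup.lift_apply_of
  rw [h4, ev_dsp] at h3
  exact (Multiplicative.ofAdd.injective (h3.symm)).trans rfl

theorem main_free (k : ℕ) : ∃ C : ℕ, ∀ w : FreeGroup (Fin k),
    w ∈ derivedSeries (FreeGroup (Fin k)) 1 →
    ∃ a b : Fin (C * (1 + Nat.log 2 w.norm)) → FreeGroup (Fin k),
      w * ((List.ofFn fun i => a i * b i * (a i)⁻¹ * (b i)⁻¹).prod)⁻¹ ∈
        derivedSeries (FreeGroup (Fin k)) 4 := by
  rcases k with _ | K
  · refine ⟨0, fun w _ => ⟨fun _ => 1, fun _ => 1, ?_⟩⟩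
    have h1 : ∀ v : FreeGroup (Fin 0), v = 1 := fun v => Subsingleton.elim _ _
    rw [h1 (w * _)]
    exact one_mem _
  obtain ⟨C, hC⟩ := mainL.{0} K
  refine ⟨C, fun w hw => ?_⟩
  have hw' : w ∈ commutator (FreeGroup (Fin (K + 1))) := by
    rwa [derivedSeries_one] at hw
  have hsur := QuotientGroup.mk'_surjective (derivedSeries (FreeGroup (Fin (K + 1))) 4)
  have hx0 : Subgroup.closure (Set.range (fun j : Fin (K + 1) => FreeGroup.of j)) = ⊤ :=
    FreeGroup.closure_range_of _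
  have h1 := hC (fun i => QuotientGroup.mk' (derivedSeries (FreeGroup (Fin (K + 1))) 4)
    (FreeGroup.of i)) (range_map_top _ hsur _ hx0) ?_ w.toWord (dsp_eq_zero hw')
  · rw [← map_ev (QuotientGroup.mk' (derivedSeries (FreeGroup (Fin (K + 1))) 4))
      (fun j => FreeGroup.of j), ev_of, FreeGroup.mk_toWord] at h1
    obtain ⟨p, z, hp, hz, he⟩ := exists_of_quotient _ h1
    obtain ⟨a, b, hab⟩ := hp.exists_fin
    refine ⟨a, b, ?_⟩
    have h2 : w.toWord.length = w.norm := rfl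
    have h3 : (List.ofFn fun i => a i * b i * (a i)⁻¹ * (b i)⁻¹).prod = p := hab.symm
    change w * ((List.ofFn fun i => a i * b i * (a i)⁻¹ * (b i)⁻¹).prod)⁻¹ ∈ _
    rw [h3, he]
    exact (inferInstance : (derivedSeries (FreeGroup (Fin (K + 1))) 4).Normal).conj_mem z hz p
  · rw [← map_der _ hsur, ← Subgroup.map_commutator, ← Subgroup.map_commutator]
    have h5 : (⁅⁅⁅commutator (FreeGroup (Fin (K + 1))), commutator (FreeGroup (Fin (K + 1)))⁆,
        ⁅commutator (FreeGroup (Fin (K + 1))), commutator (FreeGroup (Fin (K + 1)))⁆⁆,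
        ⁅⁅commutator (FreeGroup (Fin (K + 1))), commutator (FreeGroup (Fin (K + 1)))⁆,
        ⁅commutator (FreeGroup (Fin (K + 1))), commutator (FreeGroup (Fin (K + 1)))⁆⁆⁆ :
        Subgroup (FreeGroup (Fin (K + 1)))) = derivedSeries (FreeGroup (Fin (K + 1))) 4 := by
      rw [derivedSeries_succ, derivedSeries_succ, derivedSeries_succ, derivedSeries_one]
    rw [h5]
    exact QuotientGroup.map_mk'_self _

end Pool.Agent.LGW
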