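import Pool.Agent.LGW.RDefs

/-!
# LGW-MapT: images under homomorphisms
-/

open scoped commutatorElement

namespace Pool.Agent.LGW

open Pool.Agent.Helper33.CW2

variable {G H : Type*} [Group G] [Group H] {k : ℕ} (f : G →* H) (x : Fin k → G)

theorem map_gp (γ : Fin k → ℤ) : f (gp x γ) = gp (fun i => f (x i)) γ := by
  unfold gp
  rw [map_list_prod, List.map_ofFn]
  congr 2
  funext i
  exact map_zpow f (x i) (γ i)

private theorem mapT_tau (γ : Fin k → ℤ) (i : Fin k) : f (tau x γ i) = tau (fun i => f (x i)) γ i := by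
  unfold tau
  rw [map_mul, map_mul, map_inv, map_gp, map_gp]

theorem map_TT (R : ℕ) : (TT x R).map f = TT (fun i => f (x i)) R := by
  unfold TT
  rw [MonoidHom.map_closure]
  congr 1
  ext h
  constructor
  · rintro ⟨g, ⟨γ, i, h1, rfl⟩, rfl⟩
    exact ⟨γ, i, h1, mapT_tau f x γ i⟩
  · rintro ⟨γ, i, h1, rfl⟩
    exact ⟨tau x γ i, ⟨γ, i, h1, rfl⟩, mapT_tau f x γ i⟩

theorem map_NT (R : ℕ) : (NT x R).map f = NT (fun i => f (x i)) R := by
  unfold NT
  rw [Subgroup.map_commutator, map_TT]

theorem map_KT (R : ℕ) : (KT x R).map f = KT (fun i => f (x i)) R := by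
  unfold KT
  rw [Subgroup.map_commutator, map_TT, map_NT]

theorem map_ev (W : List (Fin k × Bool)) : f (ev x W) = ev (fun i => f (x i)) W := by
  induction W with
  | nil => exact map_one f
  | cons p W ih =>
    rcases p with ⟨i, b⟩
    cases b
    · show f ((x i)⁻¹ * ev x W) = (f (x i))⁻¹ * ev (fun i => f (x i)) W
      rw [map_mul, map_inv, ih]
    · show f (x i * ev x W) = f (x i) * ev (fun i => f (x i)) W
      rw [map_mul, ih]

end Pool.Agent.LGW
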