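import Pool.Agent.LGW.Defs

/-!
# LGW-Quo: the quotient module

PLAN. `quo`: `V' = V ⧸ J` (`QuotientAddGroup`), `p = QuotientAddGroup.mk' J`, the action of `g` is
`QuotientAddGroup.map J J (DistribMulAction.toAddMonoidHom V g) (hJ g)` (`smul := fun g v => …`, axioms by
`QuotientAddGroup.induction_on` / `Quotient.inductionOn'`, as in `Pool/Agent/Helper33/CW2/Setup.lean`);
`p v = 0 ↔ v ∈ J`: `QuotientAddGroup.eq_zero_iff`. `ops_map`: induction on the list. `Cal_map`: every axiom is the image
of the axiom for `c` (`two` and `comm` by surjectivity). `relD_map`: `map_sum`.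
-/

open scoped commutatorElement

namespace Pool.Agent.LGW

open Pool.Agent.Helper33.CW2

universe u

theorem quo {G V : Type u} [Group G] [AddCommGroup V] [DistribMulAction G V] (J : AddSubgroup V)
    (hJ : ∀ (g : G), ∀ v ∈ J, g • v ∈ J) :
    ∃ (V' : Type u) (_ : AddCommGroup V') (_ : DistribMulAction G V') (p : V →+ V'),
      Function.Surjective p ∧ (∀ (g : G) v, p (g • v) = g • p v) ∧ ∀ v, p v = 0 ↔ v ∈ J := by
  let act : G → (V ⧸ J →+ V ⧸ J) := fun g =>
    QuotientAddGroup.map J J (DistribSMul.toAddMonoidHom V g) (fun v hv => hJ g v hv)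
  have hact : ∀ (g : G) (v : V), act g (QuotientAddGroup.mk' J v) =
      QuotientAddGroup.mk' J (g • v) := fun g v => rfl
  have hsurj : ∀ w : V ⧸ J, ∃ v : V, QuotientAddGroup.mk' J v = w :=
    QuotientAddGroup.mk'_surjective J
  let inst : DistribMulAction G (V ⧸ J) :=
    { smul := fun g w => act g w
      one_smul := fun w => by
        obtain ⟨v, rfl⟩ := hsurj w
        change act 1 (QuotientAddGroup.mk' J v) = _
        rw [hact, one_smul]
      mul_smul := fun g h w => by
        obtain ⟨v, rfl⟩ := hsurj w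
        change act (g * h) (QuotientAddGroup.mk' J v) = act g (act h (QuotientAddGroup.mk' J v))
        rw [hact, hact, hact, mul_smul]
      smul_zero := fun g => map_zero (act g)
      smul_add := fun g v w => map_add (act g) v w }
  refine ⟨V ⧸ J, inferInstance, inst, QuotientAddGroup.mk' J,
    QuotientAddGroup.mk'_surjective J, fun g v => rfl, fun v => ?_⟩
  exact QuotientAddGroup.eq_zero_iff v

theorem ops_map {G V V' : Type*} [Group G] [AddCommGroup V] [DistribMulAction G V]
    [AddCommGroup V'] [DistribMulAction G V'] (p : V →+ V') (hp : ∀ (g : G) v, p (g • v) = g • p v)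
    (ms : List G) (v : V) : p (ops ms v) = ops ms (p v) := by
  induction ms with
  | nil => rfl
  | cons m ms ih => rw [ops_cons, ops_cons, map_sub, hp, ih]

theorem Cal.map {G V V' : Type*} [Group G] [AddCommGroup V] [DistribMulAction G V]
    [AddCommGroup V'] [DistribMulAction G V'] (p : V →+ V') (hs : Function.Surjective p)
    (hp : ∀ (g : G) v, p (g • v) = g • p v) {c : G → G → V} (hc : Cal c) :
    Cal (fun s t => p (c s t)) := by
  refine ⟨?_, ?_, ?_, ?_, ?_, ?_, ?_⟩
  · intro w
    obtain ⟨v, rfl⟩ := hs w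
    rw [← map_add, hc.two, map_zero]
  · intro s hs' t ht w
    obtain ⟨v, rfl⟩ := hs w
    rw [← hp, ← hp, ← hp, ← hp, hc.comm s hs' t ht]
  · intro s hs1 s' hs' t ht
    rw [hc.mul s hs1 s' hs' t ht, map_add, hp]
  · intro s hs1 t ht
    rw [hc.symm s hs1 t ht]
  · intro s hs1
    rw [hc.self s hs1, map_zero]
  · intro g s hs1 t ht
    rw [hc.conj g s hs1 t ht, hp]
  · intro s hs1 t ht u hu
    have h := congrArg p (hc.kos s hs1 t ht u hu)
    rw [map_add, map_add, map_sub, map_sub, map_sub, hp, hp, hp, map_zero] at h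
    exact h

theorem relD_map {G V V' : Type*} [Group G] [AddCommGroup V] [DistribMulAction G V]
    [AddCommGroup V'] [DistribMulAction G V'] (p : V →+ V') {K : ℕ} (x : Fin (K + 1) → G)
    (c : G → G → V) (F F' : Finset (Fin (K + 1) → ℤ)) (a b i : Fin (K + 1))
    (Δ : Fin (K + 1) → ℤ) :
    relD x (fun s t => p (c s t)) F F' a b i Δ = p (relD x c F F' a b i Δ) := by
  unfold relD
  rw [map_sum]
  exact Finset.sum_congr rfl fun a _ => (map_sum p _ _).symm

end Pool.Agent.LGW
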