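import Pool.Agent.LGW.RDefs

/-!
# LGW-RBl: words and conjugation
-/

open scoped commutatorElement

namespace Pool.Agent.LGW

open Pool.Agent.Helper33.CW2

variable {G : Type*} [Group G] {k : ℕ} (x : Fin k → G)

theorem ev_app (W W' : List (Fin k × Bool)) : ev x (W ++ W') = ev x W * ev x W' := by
  induction W with
  | nil => rw [List.nil_append]; exact (one_mul _).symm
  | cons p W ih =>
    obtain ⟨i, b⟩ := p
    cases b
    · show (x i)⁻¹ * ev x (W ++ W') = (x i)⁻¹ * ev x W * ev x W'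
      rw [ih, mul_assoc]
    · show x i * ev x (W ++ W') = x i * ev x W * ev x W'
      rw [ih, mul_assoc]

theorem dsp_app (W W' : List (Fin k × Bool)) : dsp (W ++ W') = dsp W + dsp W' := by
  induction W with
  | nil => rw [List.nil_append]; exact (zero_add _).symm
  | cons p W ih =>
    obtain ⟨i, b⟩ := p
    cases b
    · show dsp (W ++ W') - Pi.single i 1 = dsp W - Pi.single i 1 + dsp W'
      rw [ih]; abel
    · show dsp (W ++ W') + Pi.single i 1 = dsp W + Pi.single i 1 + dsp W'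
      rw [ih]; abel

theorem Bl.mono {ρ σ : ℕ} (h : ρ ≤ σ) {g : G} (hg : g ∈ Bl x ρ) : g ∈ Bl x σ := by
  obtain ⟨W, h1, h2⟩ := hg
  exact ⟨W, h1.trans h, h2⟩

theorem Bl.one (ρ : ℕ) : (1 : G) ∈ Bl x ρ := by
  exact ⟨[], Nat.zero_le _, rfl⟩

theorem Bl.gen (i : Fin k) : x i ∈ Bl x 1 := by
  exact ⟨[(i, true)], le_refl _, mul_one _⟩

theorem Bl.mul {ρ σ : ℕ} {g h : G} (hg : g ∈ Bl x ρ) (hh : h ∈ Bl x σ) : g * h ∈ Bl x (ρ + σ) := by
  obtain ⟨W, h1, rfl⟩ := hg
  obtain ⟨W', h2, rfl⟩ := hh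
  exact ⟨W ++ W', by rw [List.length_append]; omega, ev_app x W W'⟩

/-- the inverse word -/
private def wiv (W : List (Fin k × Bool)) : List (Fin k × Bool) := (W.map fun p => (p.1, !p.2)).reverse

private theorem wiv_len (W : List (Fin k × Bool)) : (wiv W).length = W.length := by
  unfold wiv
  rw [List.length_reverse, List.length_map]

private theorem wiv_cons (p : Fin k × Bool) (W : List (Fin k × Bool)) :
    wiv (p :: W) = wiv W ++ [(p.1, !p.2)] := by
  unfold wiv
  rw [List.map_cons, List.reverse_cons]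

private theorem wiv_ev (W : List (Fin k × Bool)) : ev x (wiv W) = (ev x W)⁻¹ := by
  induction W with
  | nil => exact inv_one.symm
  | cons p W ih =>
    rw [wiv_cons, ev_app, ih]
    obtain ⟨i, b⟩ := p
    cases b
    · show (ev x W)⁻¹ * (x i * 1) = ((x i)⁻¹ * ev x W)⁻¹
      group
    · show (ev x W)⁻¹ * ((x i)⁻¹ * 1) = (x i * ev x W)⁻¹
      group

private theorem wiv_dsp (W : List (Fin k × Bool)) : dsp (wiv W) = - dsp W := by
  induction W with
  | nil => exact neg_zero.symm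
  | cons p W ih =>
    rw [wiv_cons, dsp_app, ih]
    obtain ⟨i, b⟩ := p
    cases b
    · show - dsp W + (0 + Pi.single i 1) = -(dsp W - Pi.single i 1)
      abel
    · show - dsp W + (0 - Pi.single i 1) = -(dsp W + Pi.single i 1)
      abel

theorem Bl.inv {ρ : ℕ} {g : G} (hg : g ∈ Bl x ρ) : g⁻¹ ∈ Bl x ρ := by
  obtain ⟨W, h1, rfl⟩ := hg
  exact ⟨wiv W, (wiv_len W).le.trans h1, wiv_ev x W⟩

private theorem pow_Bl (i : Fin k) (n : ℕ) : x i ^ n ∈ Bl x n := by
  induction n with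
  | zero => rw [pow_zero]; exact Bl.one x 0
  | succ n ih => rw [pow_succ]; exact Bl.mul x ih (Bl.gen x i)

private theorem zpow_Bl (i : Fin k) {R : ℕ} {n : ℤ} (hn : |n| ≤ (R : ℤ)) : x i ^ n ∈ Bl x R := by
  rcases le_or_gt 0 n with h | h
  · obtain ⟨m, rfl⟩ := Int.eq_ofNat_of_zero_le h
    rw [zpow_natCast]
    refine Bl.mono x ?_ (pow_Bl x i m)
    rw [abs_of_nonneg h] at hn
    exact_mod_cast hn
  · obtain ⟨m, hm⟩ := Int.eq_ofNat_of_zero_le (show 0 ≤ -n by omega)
    obtain rfl : n = -(m : ℤ) := by omega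
    rw [zpow_neg, zpow_natCast]
    refine Bl.inv x (Bl.mono x ?_ (pow_Bl x i m))
    rw [abs_of_neg h, neg_neg] at hn
    exact_mod_cast hn

private theorem prod_Bl {R : ℕ} (L : List G) (h : ∀ g ∈ L, g ∈ Bl x R) :
    L.prod ∈ Bl x (L.length * R) := by
  induction L with
  | nil => exact Bl.one x _
  | cons g L ih =>
    rw [List.prod_cons]
    refine Bl.mono x (le_of_eq ?_)
      (Bl.mul x (h g List.mem_cons_self) (ih fun g' hg' => h g' (List.mem_cons_of_mem _ hg')))
    rw [List.length_cons]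
    ring

theorem gp_Bl {R : ℕ} {γ : Fin k → ℤ} (hγ : bx R γ) : gp x γ ∈ Bl x (k * R) := by
  unfold gp
  have h := prod_Bl x (R := R) (List.ofFn fun i => x i ^ γ i) (by
    intro g hg
    rw [List.mem_ofFn] at hg
    obtain ⟨i, rfl⟩ := hg
    exact zpow_Bl x i (hγ i))
  rwa [List.length_ofFn] at h

private theorem gi_CC (i : Fin k) : (x i)⁻¹ ∈ CC x 3 (-Pi.single i 1) := by
  have h := inv_CC x (bx_single i) (mem_CC_gen x i)
  exact CC_mono x (by norm_num) h

private theorem gen_TT {R : ℕ} (i : Fin k) {t : G} (ht : t ∈ TT x R) :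
    x i * t * (x i)⁻¹ ∈ TT x (R + 2) :=
  TT_mono x (by omega) (conj_TT x (bx_single i) (CC_mono x (Nat.zero_le R) (mem_CC_gen x i)) ht)

private theorem geni_TT {R : ℕ} (i : Fin k) {t : G} (ht : t ∈ TT x R) :
    (x i)⁻¹ * t * x i ∈ TT x (R + 5) := by
  have h := conj_TT x (R := max R 3) (bx_neg (bx_single i)) (CC_mono x (le_max_right R 3) (gi_CC x i))
    (TT_mono x (le_max_left R 3) ht)
  rw [inv_inv] at h
  exact TT_mono x (by omega) h

private theorem cev_TT {R : ℕ} (W : List (Fin k × Bool)) {t : G} (ht : t ∈ TT x R) :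
    ev x W * t * (ev x W)⁻¹ ∈ TT x (R + 5 * W.length) := by
  induction W with
  | nil =>
    show 1 * t * 1⁻¹ ∈ _
    rw [one_mul, inv_one, mul_one]
    exact TT_mono x (by omega) ht
  | cons p W ih =>
    obtain ⟨i, b⟩ := p
    rw [List.length_cons]
    cases b
    · show (x i)⁻¹ * ev x W * t * ((x i)⁻¹ * ev x W)⁻¹ ∈ _
      have e : (x i)⁻¹ * ev x W * t * ((x i)⁻¹ * ev x W)⁻¹ =
          (x i)⁻¹ * (ev x W * t * (ev x W)⁻¹) * x i := by group
      rw [e]
      exact TT_mono x (by omega) (geni_TT x i ih)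
    · show x i * ev x W * t * (x i * ev x W)⁻¹ ∈ _
      have e : x i * ev x W * t * (x i * ev x W)⁻¹ =
          x i * (ev x W * t * (ev x W)⁻¹) * (x i)⁻¹ := by group
      rw [e]
      exact TT_mono x (by omega) (gen_TT x i ih)

theorem conj_Bl {R ρ : ℕ} {g t : G} (hg : g ∈ Bl x ρ) (ht : t ∈ TT x R) :
    g * t * g⁻¹ ∈ TT x (R + 5 * ρ) := by
  obtain ⟨W, h1, rfl⟩ := hg
  exact TT_mono x (by omega) (cev_TT x W ht)

private theorem conj_com {H K H' K' : Subgroup G} {g t : G} (h1 : ∀ t ∈ H, g * t * g⁻¹ ∈ H')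
    (h2 : ∀ t ∈ K, g * t * g⁻¹ ∈ K') (ht : t ∈ ⁅H, K⁆) : g * t * g⁻¹ ∈ ⁅H', K'⁆ := by
  have h3 : (⁅H, K⁆).map (MulAut.conj g).toMonoidHom ≤ ⁅H', K'⁆ := by
    rw [Subgroup.map_commutator]
    refine Subgroup.commutator_mono ?_ ?_
    · rintro _ ⟨s, hs, rfl⟩
      exact h1 s hs
    · rintro _ ⟨s, hs, rfl⟩
      exact h2 s hs
  exact h3 ⟨t, ht, rfl⟩

theorem conj_NT {R R' : ℕ} {g t : G} (hg : ∀ t ∈ TT x R, g * t * g⁻¹ ∈ TT x R')
    (ht : t ∈ NT x R) : g * t * g⁻¹ ∈ NT x R' := by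
  exact conj_com hg hg ht

theorem conj_KT {R R' : ℕ} {g t : G} (hg : ∀ t ∈ TT x R, g * t * g⁻¹ ∈ TT x R')
    (ht : t ∈ KT x R) : g * t * g⁻¹ ∈ KT x R' := by
  exact conj_com (fun t ht => conj_NT x hg ht) hg ht

theorem ev_CC (W : List (Fin k × Bool)) :
    bx W.length (dsp W) ∧ ev x W ∈ CC x (5 * W.length) (dsp W) := by
  induction W with
  | nil =>
    refine ⟨bx_zero _, ?_⟩
    show (1 : G) ∈ CC x (5 * 0) 0
    exact (CC_zero x).2 (one_mem _)
  | cons p W ih =>
    obtain ⟨h1, h2⟩ := ih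
    obtain ⟨i, b⟩ := p
    rw [List.length_cons]
    have h3 : ev x W * (gp x (dsp W))⁻¹ ∈ TT x (5 * W.length) := h2
    have hg : gp x (dsp W) ∈ CC x 0 (dsp W) := by
      show gp x (dsp W) * (gp x (dsp W))⁻¹ ∈ TT x 0
      rw [mul_inv_cancel]
      exact one_mem _
    cases b
    · refine ⟨?_, ?_⟩
      · show bx (W.length + 1) (dsp W - Pi.single i 1)
        rw [sub_eq_add_neg]
        exact bx_add h1 (bx_neg (bx_single i))
      · show (x i)⁻¹ * ev x W ∈ CC x (5 * (W.length + 1)) (dsp W - Pi.single i 1)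
        rcases Nat.eq_zero_or_pos W.length with h0 | h0
        · rw [List.length_eq_zero_iff.1 h0]
          show (x i)⁻¹ * 1 ∈ CC x 5 (0 - Pi.single i 1)
          rw [mul_one, zero_sub]
          exact CC_mono x (by norm_num) (gi_CC x i)
        · have h4 := mul_CC x (R := 3) (D := W.length) (bx_mono h0 (bx_neg (bx_single i))) h1
            (gi_CC x i) (CC_mono x (Nat.zero_le 3) hg)
          rw [neg_add_eq_sub] at h4
          have h5 : (x i)⁻¹ * gp x (dsp W) * (gp x (dsp W - Pi.single i 1))⁻¹ ∈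
              TT x (5 * (W.length + 1)) := TT_mono x (by omega) h4
          have h6 : (x i)⁻¹ * (ev x W * (gp x (dsp W))⁻¹) * x i ∈ TT x (5 * (W.length + 1)) :=
            TT_mono x (by omega) (geni_TT x i h3)
          show (x i)⁻¹ * ev x W * (gp x (dsp W - Pi.single i 1))⁻¹ ∈ TT x (5 * (W.length + 1))
          have e : (x i)⁻¹ * ev x W * (gp x (dsp W - Pi.single i 1))⁻¹ =
              ((x i)⁻¹ * (ev x W * (gp x (dsp W))⁻¹) * x i) *
                ((x i)⁻¹ * gp x (dsp W) * (gp x (dsp W - Pi.single i 1))⁻¹) := by group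
          rw [e]
          exact mul_mem h6 h5
    · refine ⟨?_, ?_⟩
      · show bx (W.length + 1) (dsp W + Pi.single i 1)
        exact bx_add h1 (bx_single i)
      · show x i * ev x W ∈ CC x (5 * (W.length + 1)) (dsp W + Pi.single i 1)
        have h4 := mul_CC x (R := 0) (D := W.length + 1) (bx_mono (by omega) (bx_single i))
          (bx_mono (by omega) h1) (mem_CC_gen x i) hg
        rw [add_comm (Pi.single i 1)] at h4
        have h5 : x i * gp x (dsp W) * (gp x (dsp W + Pi.single i 1))⁻¹ ∈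
            TT x (5 * (W.length + 1)) := TT_mono x (by omega) h4
        have h6 : x i * (ev x W * (gp x (dsp W))⁻¹) * (x i)⁻¹ ∈ TT x (5 * (W.length + 1)) :=
          TT_mono x (by omega) (gen_TT x i h3)
        show x i * ev x W * (gp x (dsp W + Pi.single i 1))⁻¹ ∈ TT x (5 * (W.length + 1))
        have e : x i * ev x W * (gp x (dsp W + Pi.single i 1))⁻¹ =
            (x i * (ev x W * (gp x (dsp W))⁻¹) * (x i)⁻¹) *
              (x i * gp x (dsp W) * (gp x (dsp W + Pi.single i 1))⁻¹) := by group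
        rw [e]
        exact mul_mem h6 h5

theorem cm_TT (i j : Fin k) : ⁅x i, x j⁆ ∈ TT x 20 := by
  have h := (ev_CC x [(i, true), (j, true), (i, false), (j, false)]).2
  have e1 : ev x [(i, true), (j, true), (i, false), (j, false)] = ⁅x i, x j⁆ := by
    show x i * (x j * ((x i)⁻¹ * ((x j)⁻¹ * 1))) = _
    rw [commutatorElement_def]
    group
  have e2 : dsp [(i, true), (j, true), (i, false), (j, false)] = 0 := by
    show (0 : Fin k → ℤ) - Pi.single j 1 - Pi.single i 1 + Pi.single j 1 + Pi.single i 1 = 0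
    abel
  rw [e1, e2, CC_zero] at h
  exact h

theorem cmY_TT {ρ : ℕ} {Y : G} (hY : Y ∈ Bl x ρ) (i : Fin k) : ⁅Y, x i⁆ ∈ TT x (10 * ρ + 10) := by
  obtain ⟨W, h1, rfl⟩ := hY
  have h := (ev_CC x (W ++ ((i, true) :: (wiv W ++ [(i, false)])))).2
  have e1 : ev x (W ++ ((i, true) :: (wiv W ++ [(i, false)]))) = ⁅ev x W, x i⁆ := by
    rw [ev_app]
    show ev x W * (x i * ev x (wiv W ++ [(i, false)])) = _
    rw [ev_app, wiv_ev, commutatorElement_def]
    show ev x W * (x i * ((ev x W)⁻¹ * ((x i)⁻¹ * 1))) = _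
    group
  have e2 : dsp (W ++ ((i, true) :: (wiv W ++ [(i, false)]))) = 0 := by
    rw [dsp_app]
    show dsp W + (dsp (wiv W ++ [(i, false)]) + Pi.single i 1) = 0
    rw [dsp_app, wiv_dsp]
    show dsp W + (- dsp W + (0 - Pi.single i 1) + Pi.single i 1) = 0
    abel
  rw [e1, e2, CC_zero] at h
  refine TT_mono x ?_ h
  rw [List.length_append, List.length_cons, List.length_append, wiv_len, List.length_cons,
    List.length_nil]
  omega

theorem NT_mono {R R' : ℕ} (h : R ≤ R') : NT x R ≤ NT x R' := by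
  exact Subgroup.commutator_mono (TT_mono x h) (TT_mono x h)

theorem KT_mono {R R' : ℕ} (h : R ≤ R') : KT x R ≤ KT x R' := by
  exact Subgroup.commutator_mono (NT_mono x h) (TT_mono x h)

theorem NT_le (R : ℕ) : NT x R ≤ TT x R := by
  refine Subgroup.commutator_le.2 fun a ha b hb => ?_
  rw [commutatorElement_def]
  exact mul_mem (mul_mem (mul_mem ha hb) (inv_mem ha)) (inv_mem hb)

theorem KT_le (R : ℕ) : KT x R ≤ NT x R := by
  refine Subgroup.commutator_le.2 fun a ha b hb => ?_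
  have h := conj_NT x (g := b) (t := a⁻¹) (R := R) (R' := R)
    (fun t ht => mul_mem (mul_mem hb ht) (inv_mem hb)) (inv_mem ha)
  have e : ⁅a, b⁆ = a * (b * a⁻¹ * b⁻¹) := by
    rw [commutatorElement_def]
    group
  rw [e]
  exact mul_mem ha h

end Pool.Agent.LGW
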