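import Pool.Agent.Helper33.CW2.EDefs
import Pool.Agent.Helper33.CW2.TC
import Pool.Agent.Helper33.CW2.TB

/-!
# LGW: definitions for the effective reduction

`ev x W` is the value of the word `W` (`EDefs`).
-/

open scoped commutatorElement

namespace Pool.Agent.LGW

open Pool.Agent.Helper33.CW2

variable {G : Type*} [Group G] {k : ℕ}

/-- `[T_R, T_R]`. -/
def NT (x : Fin k → G) (R : ℕ) : Subgroup G := ⁅TT x R, TT x R⁆

/-- `[[T_R, T_R], T_R]`. -/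
def KT (x : Fin k → G) (R : ℕ) : Subgroup G := ⁅NT x R, TT x R⁆

/-- The values of the words of length at most `ρ`. -/
def Bl (x : Fin k → G) (ρ : ℕ) : Set G := {g | ∃ W : List (Fin k × Bool), W.length ≤ ρ ∧ ev x W = g}

/-- The displacement of a word. -/
def dsp : List (Fin k × Bool) → (Fin k → ℤ)
  | [] => 0
  | (i, true) :: W => dsp W + Pi.single i 1
  | (i, false) :: W => dsp W - Pi.single i 1

/-- Words all suffixes of which have small displacement and small content. -/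
def Ctl (x : Fin k → G) (ρ : ℕ) (W : List (Fin k × Bool)) : Prop :=
  ∀ S, S <:+ W → ∃ δ, bx ρ δ ∧ ev x S ∈ CC x ρ δ

/-- The subgroup generated by the `⁅a, x i⁆`, `a ∈ T_R`, and `[T_(R+5), T_(R+5)]`. -/
def LL (x : Fin k → G) (R : ℕ) : Subgroup G :=
  Subgroup.closure {g | ∃ a ∈ TT x R, ∃ i, g = ⁅a, x i⁆} ⊔ NT x (R + 5)

/-- Second level. -/
def MM (x : Fin k → G) (R : ℕ) : Subgroup G :=
  Subgroup.closure ({g | ∃ a ∈ TT x R, ∃ i j, g = ⁅a, ⁅x i, x j⁆⁆} ∪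
    {g | ∃ a ∈ NT x R, ∃ i, g = ⁅a, x i⁆}) ⊔ KT x (R + 5)

/-- Third level. -/
def OO (x : Fin k → G) (R : ℕ) : Subgroup G :=
  Subgroup.closure ({g | ∃ a ∈ NT x R, ∃ i j, g = ⁅a, ⁅x i, x j⁆⁆} ∪
    {g | ∃ a ∈ KT x R, ∃ i, g = ⁅a, x i⁆}) ⊔ ⁅NT x (R + 5), KT x (R + 5)⁆

end Pool.Agent.LGW
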