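import Pool.Agent.LGW.RBl

/-!
# LGW-RGp: exact identities for `gp`, and the letters of `TT x R`
-/

open scoped commutatorElement

namespace Pool.Agent.LGW

open Pool.Agent.Helper33.CW2

variable {G : Type*} [Group G] {k : ℕ} (x : Fin k → G)

/-- The coordinates smaller than `i`. -/
def cut (i : Fin k) (γ : Fin k → ℤ) : Fin k → ℤ := fun j => if j < i then γ j else 0

theorem bx_cut {R : ℕ} {γ : Fin k → ℤ} (hγ : bx R γ) (i : Fin k) : bx R (cut i γ) := by
  intro j
  unfold cut
  split_ifs
  · exact hγ j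
  · simp

private def cutr (i : Fin k) (γ : Fin k → ℤ) : Fin k → ℤ := fun j => if i < j then γ j else 0

private lemma bx_cutr {R : ℕ} {γ : Fin k → ℤ} (hγ : bx R γ) (i : Fin k) : bx R (cutr i γ) := by
  intro j
  unfold cutr
  split_ifs
  · exact hγ j
  · simp

private lemma gp_succ {k : ℕ} (x : Fin (k + 1) → G) (γ : Fin (k + 1) → ℤ) :
    gp x γ = x 0 ^ γ 0 * gp (fun i => x i.succ) (fun i => γ i.succ) := by
  unfold gp
  rw [List.ofFn_succ, List.prod_cons]

private lemma gp_three : ∀ {k : ℕ} (x : Fin k → G) (i : Fin k) (γ : Fin k → ℤ),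
    gp x γ = gp x (cut i γ) * (x i ^ γ i * gp x (cutr i γ)) := by
  intro k
  induction k with
  | zero => intro x i; exact i.elim0
  | succ k ih =>
    intro x i γ
    refine Fin.cases (motive := fun i =>
      gp x γ = gp x (cut i γ) * (x i ^ γ i * gp x (cutr i γ))) ?_ ?_ i
    · have h0 : cut (0 : Fin (k + 1)) γ = 0 := by
        funext j
        simp [cut]
      rw [h0, gp_zero, one_mul, gp_succ x γ, gp_succ x (cutr 0 γ)]
      have h1 : cutr (0 : Fin (k + 1)) γ 0 = 0 := by simp [cutr]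
      have h2 : (fun j : Fin k => cutr (0 : Fin (k + 1)) γ j.succ) = fun j => γ j.succ := by
        funext j
        simp [cutr]
      rw [h1, h2, zpow_zero, one_mul]
    · intro i'
      rw [gp_succ x γ, gp_succ x (cut i'.succ γ), gp_succ x (cutr i'.succ γ)]
      have h1 : cut i'.succ γ 0 = γ 0 := by simp [cut]
      have h2 : cutr i'.succ γ 0 = 0 := by simp [cutr]
      have h3 : (fun j : Fin k => cut i'.succ γ j.succ) = cut i' (fun j => γ j.succ) := by
        funext j
        simp [cut]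
      have h4 : (fun j : Fin k => cutr i'.succ γ j.succ) = cutr i' (fun j => γ j.succ) := by
        funext j
        simp [cutr]
      rw [h1, h2, h3, h4, ih (fun j => x j.succ) i' (fun j => γ j.succ), zpow_zero, one_mul,
        mul_assoc]

private lemma cut_add (i : Fin k) (γ : Fin k → ℤ) (n : ℤ) : cut i (γ + Pi.single i n) = cut i γ := by
  funext j
  unfold cut
  split_ifs with h
  · rw [Pi.add_apply, Pi.single_eq_of_ne h.ne, add_zero]
  · rfl

private lemma cutr_add (i : Fin k) (γ : Fin k → ℤ) (n : ℤ) :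
    cutr i (γ + Pi.single i n) = cutr i γ := by
  funext j
  unfold cutr
  split_ifs with h
  · rw [Pi.add_apply, Pi.single_eq_of_ne h.ne', add_zero]
  · rfl

private lemma gp_add (i : Fin k) (γ : Fin k → ℤ) (n : ℤ) :
    gp x (γ + Pi.single i n) = gp x (cut i γ) * (x i ^ (γ i + n) * gp x (cutr i γ)) := by
  have h := gp_three x i (γ + (Pi.single i n : Fin k → ℤ))
  rw [cut_add, cutr_add, Pi.add_apply, Pi.single_eq_same] at h
  exact h

theorem x_gp (i : Fin k) (γ : Fin k → ℤ) :
    x i * gp x γ = ⁅x i, gp x (cut i γ)⁆ * gp x (γ + Pi.single i 1) := by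
  rw [gp_add, gp_three x i γ, add_comm (γ i) 1, zpow_one_add, commutatorElement_def]
  generalize gp x (cut i γ) = P
  generalize gp x (cutr i γ) = S
  generalize x i ^ γ i = T
  group

theorem xinv_gp (i : Fin k) (γ : Fin k → ℤ) :
    (x i)⁻¹ * gp x γ = ⁅(x i)⁻¹, gp x (cut i γ)⁆ * gp x (γ - Pi.single i 1) := by
  have h : γ - Pi.single i 1 = γ + Pi.single i (-1) := by
    rw [sub_eq_add_neg, ← Pi.single_neg]
  rw [h, gp_add, gp_three x i γ, add_comm (γ i) (-1), zpow_add, zpow_neg_one,
    commutatorElement_def]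
  generalize gp x (cut i γ) = P
  generalize gp x (cutr i γ) = S
  generalize x i ^ γ i = T
  group

/-- The subgroup generated by the conjugates of the basic commutators by short elements. -/
def LT (ρ : ℕ) : Subgroup G :=
  Subgroup.closure {t | ∃ g ∈ Bl x ρ, ∃ i j, t = g * ⁅x i, x j⁆ * g⁻¹}

private lemma conj_LT {σ ρ : ℕ} {g t : G} (hg : g ∈ Bl x σ) (ht : t ∈ LT x ρ) :
    g * t * g⁻¹ ∈ LT x (σ + ρ) := by
  unfold LT at ht
  induction ht using Subgroup.closure_induction with
  | mem t h =>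
    obtain ⟨g', hg', i, j, rfl⟩ := h
    refine Subgroup.subset_closure ⟨g * g', Bl.mul x hg hg', i, j, ?_⟩
    group
  | one => rw [mul_one, mul_inv_cancel]; exact Subgroup.one_mem _
  | mul a b _ _ ha hb =>
    have h : g * (a * b) * g⁻¹ = (g * a * g⁻¹) * (g * b * g⁻¹) := by group
    rw [h]
    exact Subgroup.mul_mem _ ha hb
  | inv a _ ha =>
    have h : g * a⁻¹ * g⁻¹ = (g * a * g⁻¹)⁻¹ := by group
    rw [h]
    exact Subgroup.inv_mem _ ha

private lemma LT_mono {σ ρ : ℕ} (h : σ ≤ ρ) : LT x σ ≤ LT x ρ := by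
  refine Subgroup.closure_mono ?_
  rintro t ⟨g, hg, i, j, ht⟩
  exact ⟨g, Bl.mono x h hg, i, j, ht⟩

private lemma lets_mem {ρ : ℕ} {g : G} (hg : g ∈ Bl x ρ) (i j : Fin k) :
    g * ⁅x i, x j⁆ * g⁻¹ ∈ LT x ρ := Subgroup.subset_closure ⟨g, hg, i, j, rfl⟩

private lemma ev_let (i : Fin k) : ∀ W : List (Fin k × Bool), ⁅ev x W, x i⁆ ∈ LT x W.length := by
  intro W
  induction W with
  | nil =>
    have h : ⁅ev x [], x i⁆ = 1 := by
      change ⁅(1 : G), x i⁆ = 1
      exact commutatorElement_one_left _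
    rw [h]
    exact Subgroup.one_mem _
  | cons p W ih =>
    obtain ⟨j, b⟩ := p
    rw [List.length_cons]
    cases b with
    | true =>
      have h : ⁅ev x ((j, true) :: W), x i⁆ =
          x j * ⁅ev x W, x i⁆ * (x j)⁻¹ * (1 * ⁅x j, x i⁆ * 1⁻¹) := by
        change ⁅x j * ev x W, x i⁆ = _
        rw [commutatorElement_def, commutatorElement_def, commutatorElement_def]
        group
      rw [h]
      refine Subgroup.mul_mem _ ?_ (lets_mem x (Bl.one x _) j i)
      have h2 := conj_LT x (Bl.gen x j) ih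
      rwa [add_comm] at h2
    | false =>
      have h : ⁅ev x ((j, false) :: W), x i⁆ =
          (x j)⁻¹ * ⁅ev x W, x i⁆ * ((x j)⁻¹)⁻¹ * ((x j)⁻¹ * ⁅x j, x i⁆ * ((x j)⁻¹)⁻¹)⁻¹ := by
        change ⁅(x j)⁻¹ * ev x W, x i⁆ = _
        rw [commutatorElement_def, commutatorElement_def, commutatorElement_def]
        group
      rw [h]
      refine Subgroup.mul_mem _ ?_ (Subgroup.inv_mem _
        (lets_mem x (Bl.mono x (by omega) (Bl.inv x (Bl.gen x j))) j i))
      have h2 := conj_LT x (Bl.inv x (Bl.gen x j)) ih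
      rwa [add_comm] at h2

theorem cmY_let {ρ : ℕ} {Y : G} (hY : Y ∈ Bl x ρ) (i : Fin k) : ⁅Y, x i⁆ ∈ LT x ρ := by
  obtain ⟨W, hW, rfl⟩ := hY
  exact LT_mono x hW (ev_let x i W)

theorem TT_let (R : ℕ) : TT x R ≤ LT x (2 * k * R) := by
  unfold TT
  rw [Subgroup.closure_le]
  rintro t ⟨γ, i, hγ, rfl⟩
  have hs : gp x (cutr i γ) ∈ Bl x (k * R) := gp_Bl x (bx_cutr hγ i)
  let δ : Fin k → ℤ := cut i γ + Pi.single i (γ i)
  have hδ : bx R δ := by
    intro j
    change |cut i γ j + (Pi.single i (γ i) : Fin k → ℤ) j| ≤ (R : ℤ)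
    unfold cut
    by_cases h1 : j = i
    · subst h1
      rw [Pi.single_eq_same, if_neg (lt_irrefl _), zero_add]
      exact hγ j
    · rw [Pi.single_eq_of_ne h1, add_zero]
      split_ifs
      · exact hγ j
      · simp
  have hp : gp x δ = gp x (cut i γ) * x i ^ γ i := by
    change gp x (cut i γ + Pi.single i (γ i)) = _
    rw [gp_add]
    have h1 : cut i (cut i γ) = cut i γ := by
      funext j
      unfold cut
      split_ifs <;> rfl
    have h2 : cutr i (cut i γ) = 0 := by
      funext j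
      unfold cut cutr
      by_cases h : i < j
      · simp [h, not_lt.2 h.le]
      · simp [h]
    have h3 : cut i γ i = 0 := by
      unfold cut
      rw [if_neg (lt_irrefl _)]
    rw [h1, h2, h3, gp_zero, zero_add, mul_one]
  have hpB : gp x δ ∈ Bl x (k * R) := gp_Bl x hδ
  have ht : tau x γ i = gp x δ * ⁅gp x (cutr i γ), x i⁆ * (gp x δ)⁻¹ := by
    unfold tau
    rw [gp_add, gp_three x i γ, hp, add_comm (γ i) 1, zpow_one_add, commutatorElement_def]
    generalize gp x (cut i γ) = P
    generalize gp x (cutr i γ) = S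
    have hc : x i * x i ^ γ i = x i ^ γ i * x i := by
      rw [← zpow_one_add, add_comm, zpow_add_one]
    rw [hc]
    generalize x i ^ γ i = T
    group
  rw [ht]
  have h := conj_LT x hpB (cmY_let x hs i)
  have h2 : k * R + k * R = 2 * k * R := by ring
  rwa [h2] at h

end Pool.Agent.LGW
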