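import Pool.Agent.LGW.RGp
import Pool.Agent.LGW.RTr
import Pool.Agent.LGW.RCol
import Pool.Agent.Helper33.CW2.Main

/-!
# LGW-RL0: levels zero and one of the effective reduction
-/

open scoped commutatorElement

namespace Pool.Agent.LGW

open Pool.Agent.Helper33.CW2 Pool.Agent.Helper26.CW

variable {G : Type*} [Group G] {k : ℕ} (x : Fin k → G)

private theorem rl0_conj {A B : Subgroup G} (hB : ⁅A, A⁆ ≤ B) (hBA : B ≤ A) {a b : G}
    (ha : a ∈ A) (hb : b ∈ B) : a⁻¹ * b * a ∈ B := by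
  have h1 : ⁅a⁻¹, b⁆ ∈ B := hB (Subgroup.commutator_mem_commutator (A.inv_mem ha) (hBA hb))
  have h2 : a⁻¹ * b * a = ⁅a⁻¹, b⁆ * b := by
    rw [commutatorElement_def]
    group
  rw [h2]
  exact B.mul_mem h1 hb

private theorem rl0_cm {A B : Subgroup G} (hB : ⁅A, A⁆ ≤ B) {a b : G} (ha : a ∈ A) (hb : b ∈ A) :
    a * b * a⁻¹ * b⁻¹ ∈ B := by
  have h1 := hB (Subgroup.commutator_mem_commutator ha hb)
  rwa [commutatorElement_def] at h1

private theorem rl0_brk {R : ℕ} {a : G} (ha : a ∈ TT x R) (i : Fin k) : ⁅a, x i⁆ ∈ TT x (R + 5) := by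
  have h1 : x i * a⁻¹ * (x i)⁻¹ ∈ TT x (R + 5 * 1) := conj_Bl x (Bl.gen x i) ((TT x R).inv_mem ha)
  have h2 : ⁅a, x i⁆ = a * (x i * a⁻¹ * (x i)⁻¹) := by
    rw [commutatorElement_def]
    group
  rw [h2]
  exact (TT x (R + 5)).mul_mem (TT_mono x (by omega) ha) h1

private theorem rl0_LT (R : ℕ) : LL x R ≤ TT x (R + 5) := by
  unfold LL
  refine sup_le ?_ (NT_le x _)
  rw [Subgroup.closure_le]
  rintro g ⟨a, ha, i, rfl⟩
  exact rl0_brk x ha i

private theorem rl0_TL (R : ℕ) : ⁅TT x (R + 5), TT x (R + 5)⁆ ≤ LL x R :=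
  le_sup_right (a := Subgroup.closure {g | ∃ a ∈ TT x R, ∃ i, g = ⁅a, x i⁆})

private theorem rl0_mono {R R' : ℕ} (h : R ≤ R') : LL x R ≤ LL x R' := by
  unfold LL
  refine sup_le_sup (Subgroup.closure_mono ?_) (NT_mono x (by omega))
  rintro g ⟨a, ha, i, rfl⟩
  exact ⟨a, TT_mono x h ha, i, rfl⟩

private theorem rl0_prod (Y : Fin k → G) :
    IsProdComm k (List.ofFn fun i => ⁅Y i, x i⁆).prod := by
  refine ⟨List.ofFn fun i => (Y i, x i), by rw [List.length_ofFn], ?_⟩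
  rw [List.map_ofFn]
  rfl

private theorem rl0_step {n j : ℕ} (hj : j + 1 ≤ n) (Y : Fin k → G)
    (hY : ∀ m, Y m ∈ Bl x (k * j * n)) {l : G} (hl : l ∈ LL x (40 * (k * n * n) + 40 + 10 * j))
    {s q y g : G} {γ γ' : Fin k → ℤ} (i : Fin k) (hs : s ∈ Bl x 1)
    (hq : q ∈ TT x (10 * (k * j) + 15)) (hsg : s * gp x γ = q * gp x γ')
    (hy : y ∈ Bl x (k * (j + 1) * n)) (hg : g ∈ Bl x (k * j * n + k * n + 1))
    (hyg : ⁅y, x i⁆ = g * q * g⁻¹ * ⁅Y i, x i⁆) :
    ∃ Y' : Fin k → G, (∀ m, Y' m ∈ Bl x (k * (j + 1) * n)) ∧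
      ∃ l' ∈ LL x (40 * (k * n * n) + 40 + 10 * (j + 1)),
        s * ((List.ofFn fun m => ⁅Y m, x m⁆).prod * l * gp x γ) =
          (List.ofFn fun m => ⁅Y' m, x m⁆).prod * l' * gp x γ' := by
  classical
  have n1 : k * j * n ≤ k * n * n := by gcongr; omega
  have n2 : k * j ≤ k * n := by gcongr; omega
  have n3 : k * n ≤ k * n * n := Nat.le_mul_of_pos_right _ (by omega)
  have n4 : k * (j + 1) * n = k * j * n + k * n := by ring
  have n5 : k * (j + 1) * n ≤ k * n * n := by gcongr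
  obtain ⟨R, hR⟩ : ∃ R, R = 40 * (k * n * n) + 40 + 10 * j := ⟨_, rfl⟩
  have hR' : 40 * (k * n * n) + 40 + 10 * (j + 1) = R + 10 := by omega
  rw [← hR] at hl
  rw [hR']
  have hTL := rl0_TL x (R + 10)
  have hLT := rl0_LT x (R + 10)
  have hP : (List.ofFn fun m => ⁅Y m, x m⁆).prod ∈ TT x (R + 5) := by
    apply Subgroup.list_prod_mem
    intro z hz
    rw [List.mem_ofFn'] at hz
    obtain ⟨m, rfl⟩ := hz
    exact TT_mono x (by omega) (cmY_TT x (hY m) m)
  have hA : (List.ofFn fun m => ⁅Y m, x m⁆).prod * l ∈ TT x (R + 5) :=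
    (TT x (R + 5)).mul_mem hP (rl0_LT x R hl)
  have hu : s * ((List.ofFn fun m => ⁅Y m, x m⁆).prod * l) * s⁻¹ *
      ((List.ofFn fun m => ⁅Y m, x m⁆).prod * l)⁻¹ ∈ LL x (R + 10) :=
    trans_LL x (by omega) hs hA
  have hv : g * q * g⁻¹ * q⁻¹ ∈ LL x (R + 10) := trans_LL x (by omega) hg hq
  have hqT : q ∈ TT x (R + 10 + 5) := TT_mono x (by omega) hq
  have haT : ∀ m, ⁅Y m, x m⁆ ∈ TT x (R + 10 + 5) := fun m =>
    TT_mono x (by omega) (cmY_TT x (hY m) m)
  have hyT : ⁅y, x i⁆ ∈ TT x (R + 10 + 5) := TT_mono x (by omega) (cmY_TT x hy i)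
  have hlT : l ∈ LL x (R + 10) := rl0_mono x (by omega) hl
  have h5 : (⁅Y i, x i⁆ * q)⁻¹ * ⁅y, x i⁆ ∈ LL x (R + 10) := by
    have e1 : (⁅Y i, x i⁆ * q)⁻¹ * ⁅y, x i⁆ =
        ((⁅Y i, x i⁆ * q)⁻¹ * (g * q * g⁻¹ * q⁻¹) * (⁅Y i, x i⁆ * q)) *
          (q⁻¹ * ⁅Y i, x i⁆⁻¹ * q⁻¹⁻¹ * ⁅Y i, x i⁆⁻¹⁻¹) := by
      rw [hyg]
      group
    rw [e1]
    exact (LL x (R + 10)).mul_mem
      (rl0_conj hTL hLT ((TT x (R + 10 + 5)).mul_mem (haT i) hqT) hv)
      (rl0_cm hTL ((TT x (R + 10 + 5)).inv_mem hqT) ((TT x (R + 10 + 5)).inv_mem (haT i)))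
  obtain ⟨c, hc, hcc⟩ := ofFn_upd (TT x (R + 10 + 5)) (LL x (R + 10)) hTL hLT
    (fun m => ⁅Y m, x m⁆) haT i hqT hyT h5
  have hupd : Function.update (fun m => ⁅Y m, x m⁆) i ⁅y, x i⁆ =
      fun m => ⁅Function.update Y i y m, x m⁆ := by
    funext m
    by_cases hm : m = i
    · subst hm
      rw [Function.update_self, Function.update_self]
    · rw [Function.update_of_ne hm, Function.update_of_ne hm]
  rw [hupd] at hcc
  have hM : (List.ofFn fun m => ⁅Function.update Y i y m, x m⁆).prod ∈ TT x (R + 10 + 5) := by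
    apply Subgroup.list_prod_mem
    intro z hz
    rw [List.mem_ofFn'] at hz
    obtain ⟨m, rfl⟩ := hz
    change ⁅Function.update Y i y m, x m⁆ ∈ TT x (R + 10 + 5)
    by_cases hm : m = i
    · subst hm
      rw [Function.update_self]
      exact hyT
    · rw [Function.update_of_ne hm]
      exact haT m
  refine ⟨Function.update Y i y, ?_, _, (LL x (R + 10)).mul_mem ((LL x (R + 10)).mul_mem
    (rl0_conj hTL hLT hM hu) hc) (rl0_conj hTL hLT hqT hlT), ?_⟩
  · intro m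
    by_cases hm : m = i
    · subst hm
      rw [Function.update_self]
      exact hy
    · rw [Function.update_of_ne hm]
      exact Bl.mono x (by omega) (hY m)
  · generalize (List.ofFn fun m => ⁅Y m, x m⁆).prod = P at *
    generalize (List.ofFn fun m => ⁅Function.update Y i y m, x m⁆).prod = M at *
    have e1 : s * (P * l * gp x γ) =
        (s * (P * l) * s⁻¹ * (P * l)⁻¹) * ((P * q) * (q⁻¹ * l * q)) * (q⁻¹ * (s * gp x γ)) := by
      group
    rw [e1, hcc, hsg]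
    group

private theorem rl0_main (n : ℕ) : ∀ W : List (Fin k × Bool), W.length ≤ n →
    ∃ Y : Fin k → G, (∀ m, Y m ∈ Bl x (k * W.length * n)) ∧
      ∃ l ∈ LL x (40 * (k * n * n) + 40 + 10 * W.length),
        ev x W = (List.ofFn fun m => ⁅Y m, x m⁆).prod * l * gp x (dsp W) := by
  intro W
  induction W with
  | nil =>
    intro _
    refine ⟨fun _ => 1, fun m => Bl.one x _, 1, Subgroup.one_mem _, ?_⟩
    have h1 : (List.ofFn fun m : Fin k => ⁅(1 : G), x m⁆).prod = 1 := by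
      apply List.prod_eq_one
      intro z hz
      rw [List.mem_ofFn'] at hz
      obtain ⟨m, rfl⟩ := hz
      exact commutatorElement_one_left _
    rw [h1]
    change (1 : G) = 1 * 1 * gp x 0
    rw [gp_zero, mul_one, mul_one]
  | cons a W ih =>
    intro hW
    rw [List.length_cons] at hW
    obtain ⟨Y, hY, l, hl, he⟩ := ih (by omega)
    have hbx := (ev_CC x W).1
    have n1 : k * W.length * n + k * n = k * (W.length + 1) * n := by ring
    have n2 : k * W.length ≤ k * n := by gcongr; omega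
    rw [List.length_cons]
    obtain ⟨i, b⟩ := a
    have hPB : gp x (cut i (dsp W)) ∈ Bl x (k * W.length) := gp_Bl x (bx_cut hbx i)
    have hPT : ⁅gp x (cut i (dsp W)), x i⁆ ∈ TT x (10 * (k * W.length) + 10) := cmY_TT x hPB i
    cases b with
    | true =>
      have hst := rl0_step x hW Y hY hl (s := x i) (q := ⁅x i, gp x (cut i (dsp W))⁆)
        (y := Y i * (gp x (cut i (dsp W)))⁻¹) (g := Y i * (gp x (cut i (dsp W)))⁻¹) i
        (Bl.gen x i)
        (by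
          rw [← commutatorElement_inv]
          exact Subgroup.inv_mem _ (TT_mono x (by omega) hPT))
        (x_gp x i (dsp W))
        (Bl.mono x (by omega) (Bl.mul x (hY i) (Bl.inv x hPB)))
        (Bl.mono x (by omega) (Bl.mul x (hY i) (Bl.inv x hPB)))
        (by
          simp only [commutatorElement_def]
          group)
      obtain ⟨Y', h1, l', h2, h3⟩ := hst
      refine ⟨Y', h1, l', h2, ?_⟩
      change x i * ev x W = _
      rw [he, h3]
      rfl
    | false =>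
      have hst := rl0_step x hW Y hY hl (s := (x i)⁻¹) (q := ⁅(x i)⁻¹, gp x (cut i (dsp W))⁆)
        (y := Y i * gp x (cut i (dsp W))) (g := Y i * x i) i
        (Bl.inv x (Bl.gen x i))
        (by
          have e1 : ⁅(x i)⁻¹, gp x (cut i (dsp W))⁆ =
              (x i)⁻¹ * ⁅gp x (cut i (dsp W)), x i⁆ * (x i)⁻¹⁻¹ := by
            simp only [commutatorElement_def]
            group
          rw [e1]
          exact TT_mono x (by omega) (conj_Bl x (Bl.inv x (Bl.gen x i)) hPT))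
        (xinv_gp x i (dsp W))
        (Bl.mono x (by omega) (Bl.mul x (hY i) hPB))
        (Bl.mono x (by omega) (Bl.mul x (hY i) (Bl.gen x i)))
        (by
          simp only [commutatorElement_def]
          group)
      obtain ⟨Y', h1, l', h2, h3⟩ := hst
      refine ⟨Y', h1, l', h2, ?_⟩
      change (x i)⁻¹ * ev x W = _
      rw [he, h3]
      rfl

theorem level0 {n : ℕ} (W : List (Fin k × Bool)) (hW : W.length ≤ n) :
    ∃ p, IsProdComm k p ∧ ∃ l ∈ LL x (100 * (k + 1) * (n + 1) ^ 2),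
      ev x W = p * l * gp x (dsp W) := by
  obtain ⟨Y, -, l, hl, h⟩ := rl0_main x n W hW
  refine ⟨_, rl0_prod x Y, l, rl0_mono x ?_ hl, h⟩
  have h1 : k * n * n ≤ k * (n + 1) * (n + 1) := by gcongr <;> omega
  have h2 : 100 * (k + 1) * (n + 1) ^ 2 = 100 * (k * (n + 1) * (n + 1)) + 100 * (n + 1) ^ 2 := by
    ring
  have h3 : (n + 1) ≤ (n + 1) ^ 2 := by nlinarith
  rw [h2]
  omega

theorem level1 {R : ℕ} {g : G} (hg : g ∈ LL x R) :
    ∃ p, IsProdComm k p ∧ ∃ l ∈ NT x (R + 5), g = p * l := by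
  obtain ⟨y, -, b, hb, he⟩ := collect (TT x (R + 5)) (NT x (R + 5)) le_rfl (NT_le x _)
    (fun _ : Fin k => TT x R) (fun i y => ⁅y, x i⁆) (fun i y hy => rl0_brk x hy i)
    (fun i y hy y' hy' => by
      have h1 : ⁅TT x (R + 5), TT x (R + 5)⁆ ≤ NT x (R + 5) := le_rfl
      have h2 := rl0_brk x hy i
      have h3 := rl0_brk x hy' i
      have h4 := TT_mono x (show R ≤ R + 5 by omega) hy
      have e1 : (⁅y, x i⁆ * ⁅y', x i⁆)⁻¹ * ⁅y * y', x i⁆ =
          ((⁅y, x i⁆ * ⁅y', x i⁆)⁻¹ * (y * ⁅y', x i⁆ * y⁻¹ * ⁅y', x i⁆⁻¹) *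
            (⁅y, x i⁆ * ⁅y', x i⁆)) *
          (⁅y', x i⁆⁻¹ * ⁅y, x i⁆⁻¹ * ⁅y', x i⁆⁻¹⁻¹ * ⁅y, x i⁆⁻¹⁻¹) := by
        simp only [commutatorElement_def]
        group
      rw [e1]
      exact (NT x (R + 5)).mul_mem
        (rl0_conj h1 (NT_le x _) ((TT x (R + 5)).mul_mem h2 h3) (rl0_cm h1 h4 h3))
        (rl0_cm h1 ((TT x (R + 5)).inv_mem h3) ((TT x (R + 5)).inv_mem h2)))
    (g := g) (by
      have e1 : {z : G | ∃ i : Fin k, ∃ y ∈ TT x R, z = ⁅y, x i⁆} =
          {g | ∃ a ∈ TT x R, ∃ i, g = ⁅a, x i⁆} := by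
        ext z
        constructor
        · rintro ⟨i, y, hy, rfl⟩
          exact ⟨y, hy, i, rfl⟩
        · rintro ⟨y, hy, i, rfl⟩
          exact ⟨i, y, hy, rfl⟩
      rw [e1]
      exact hg)
  exact ⟨_, rl0_prod x y, b, hb, he⟩

end Pool.Agent.LGW
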