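import Pool.Agent.LGW.CoreL
import Pool.Agent.LGW.MapT
import Pool.Agent.Helper33.CW2.Main

/-!
# LGW-RedL: reduction to `[N, N]` central of exponent `2`, `N = G''`
-/

open scoped commutatorElement

namespace Pool.Agent.LGW

open Pool.Agent.Helper33.CW2 Pool.Agent.Helper26.CW Pool.Agent.Helper17.CW

universe u

lemma map_der {G K : Type u} [Group G] [Group K] (f : G →* K) (hf : Function.Surjective f) :
    (⁅commutator G, commutator G⁆ : Subgroup G).map f = ⁅commutator K, commutator K⁆ := by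
  rw [Subgroup.map_commutator, comm_map_one f hf]

lemma map_NK {G K : Type u} [Group G] [Group K] (f : G →* K) {k : ℕ} (x : Fin k → G) (R : ℕ)
    {z : G} (hz : z ∈ ⁅NT x R, KT x R⁆) :
    f z ∈ ⁅NT (fun i => f (x i)) R, KT (fun i => f (x i)) R⁆ := by
  rw [← map_NT, ← map_KT, ← Subgroup.map_commutator]
  exact ⟨z, hz, rfl⟩

/-- `[N, N]` central. -/
theorem redL1 (K : ℕ) : ∃ C : ℕ, ∀ {G : Type u} [Group G] (x : Fin (K + 1) → G)
    (_ : Subgroup.closure (Set.range x) = ⊤)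
    (_ : ∀ r ∈ ⁅commutator G, commutator G⁆, ∀ s ∈ ⁅commutator G, commutator G⁆,
      ⁅r, s⁆ ∈ Subgroup.center G)
    (R : ℕ) {z : G} (_ : z ∈ ⁅NT x R, KT x R⁆),
    IsProdComm (C * (1 + Nat.log 2 (R + 1))) z := by
  obtain ⟨C, hC⟩ := coreL.{u} K
  refine ⟨C + 2 * (K + 1), ?_⟩
  intro G _ x hx hc R z hz
  obtain ⟨N, hNd⟩ : ∃ N : Subgroup G, N = ⁅commutator G, commutator G⁆ := ⟨_, rfl⟩
  have hN : N.Normal := by rw [hNd]; infer_instance
  rw [← hNd] at hc
  have hNc : ⁅N, N⁆ ≤ Subgroup.center G := Subgroup.commutator_le.2 hc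
  let B : Subgroup G :=
    { carrier := {y | ∃ b ∈ ⁅N, N⁆, y = b ^ 2}
      mul_mem' := by
        rintro _ _ ⟨b, hb, rfl⟩ ⟨d, hd, rfl⟩
        refine ⟨b * d, mul_mem hb hd, ?_⟩
        have h1 : Commute b d := (Subgroup.mem_center_iff.1 (hNc hd) b)
        exact (h1.mul_pow 2).symm
      one_mem' := ⟨1, one_mem _, by simp⟩
      inv_mem' := by
        rintro _ ⟨b, hb, rfl⟩
        exact ⟨b⁻¹, inv_mem hb, by simp⟩ }
  have hBN : B.Normal := by
    constructor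
    rintro _ ⟨b, hb, rfl⟩ g
    refine ⟨b, hb, ?_⟩
    have h1 : g * b = b * g := Subgroup.mem_center_iff.1 (hNc hb) g
    have h2 : g * b ^ 2 = b ^ 2 * g := (Commute.pow_right (show Commute g b from h1) 2)
    rw [h2, mul_inv_cancel_right]
  have hsur := QuotientGroup.mk'_surjective B
  have hmap := map_der (QuotientGroup.mk' B) hsur
  rw [← hNd] at hmap
  have h1 := hC (fun i => QuotientGroup.mk' B (x i)) (range_map_top _ hsur x hx) ?_ ?_ R
    (map_NK (QuotientGroup.mk' B) x R hz)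
  · obtain ⟨p, b, hp, ⟨y, hy, rfl⟩, rfl⟩ := exists_of_quotient B h1
    have h2 := isProdComm_sq N hc (List.ofFn x) (ofFn_top x hx) hy
    rw [List.length_ofFn] at h2
    refine (hp.mul h2).mono ?_
    rw [add_mul]
    exact Nat.add_le_add_left (Nat.le_mul_of_pos_right _ (by omega)) _
  · rw [← hmap]
    rintro _ ⟨r, hr, rfl⟩ _ ⟨s, hs, rfl⟩
    rw [← map_commutatorElement, Subgroup.mem_center_iff]
    intro g
    obtain ⟨g, rfl⟩ := hsur g
    rw [← map_mul, ← map_mul, Subgroup.mem_center_iff.1 (hc r hr s hs) g]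
  · rw [← hmap]
    rintro _ ⟨r, hr, rfl⟩ _ ⟨s, hs, rfl⟩
    rw [← map_commutatorElement, ← map_pow]
    exact (QuotientGroup.eq_one_iff _).2
      ⟨⁅r, s⁆, Subgroup.commutator_mem_commutator hr hs, rfl⟩

/-- `N` metabelian. -/
theorem redL (K : ℕ) : ∃ C : ℕ, ∀ {G : Type u} [Group G] (x : Fin (K + 1) → G)
    (_ : Subgroup.closure (Set.range x) = ⊤)
    (_ : ⁅⁅⁅commutator G, commutator G⁆, ⁅commutator G, commutator G⁆⁆,
      ⁅⁅commutator G, commutator G⁆, ⁅commutator G, commutator G⁆⁆⁆ = (⊥ : Subgroup G))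
    (R : ℕ) {z : G} (_ : z ∈ ⁅NT x R, KT x R⁆),
    IsProdComm (C * (1 + Nat.log 2 (R + 1))) z := by
  obtain ⟨C, hC⟩ := redL1.{u} K
  refine ⟨C + (K + 1), ?_⟩
  intro G _ x hx hNN R z hz
  obtain ⟨N, hNd⟩ : ∃ N : Subgroup G, N = ⁅commutator G, commutator G⁆ := ⟨_, rfl⟩
  have hN : N.Normal := by rw [hNd]; infer_instance
  rw [← hNd] at hNN
  have hgen := ofFn_top x hx
  have h2 : IsProdComm (C * (1 + Nat.log 2 (R + 1)) + (List.ofFn x).length) z := by
    refine lift_center ⁅N, N⁆ (comm_of_commutator_eq_bot hNN) (List.ofFn x) hgen ?_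
    have hsur := QuotientGroup.mk'_surjective ⁅⁅N, N⁆, (⊤ : Subgroup G)⁆
    have hmap := map_der (QuotientGroup.mk' ⁅⁅N, N⁆, (⊤ : Subgroup G)⁆) hsur
    rw [← hNd] at hmap
    refine hC (fun i => QuotientGroup.mk' ⁅⁅N, N⁆, (⊤ : Subgroup G)⁆ (x i))
      (range_map_top _ hsur x hx) ?_ R (map_NK _ x R hz)
    rw [← hmap]
    rintro _ ⟨r, hr, rfl⟩ _ ⟨s, hs, rfl⟩
    rw [← map_commutatorElement]
    exact mk_central _ (Subgroup.commutator_mem_commutator hr hs)
  rw [List.length_ofFn] at h2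
  refine h2.mono ?_
  rw [add_mul]
  exact Nat.add_le_add_left (Nat.le_mul_of_pos_right _ (by omega)) _

end Pool.Agent.LGW
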