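import Pool.Agent.LGW.Bas

/-!
# LGW-Sch: Schreier generators of the group of closed paths

Induction on the path.
-/

open scoped commutatorElement

namespace Pool.Agent.LGW

open Pool.Agent.Helper33.CW2

variable {G V : Type*} [Group G] [AddCommGroup V] [DistribMulAction G V]

/-- The Schreier generators for the paths `om`. -/
def sg {k : ℕ} (x : Fin k → G) (y : Fin k → ℤ) (i : Fin k) : G :=
  om x y * x i * (om x (y + Pi.single i 1))⁻¹

private theorem sch_aux {k : ℕ} (x : Fin k → G) (D : Set (Fin k → ℤ)) {γ : Fin k → ℤ} {t : G}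
    (ht : Rch x D γ t) :
    γ ∈ D ∧ t * (om x γ)⁻¹ ∈
      Subgroup.closure {g | ∃ y i, y ∈ D ∧ y + Pi.single i 1 ∈ D ∧ g = sg x y i} := by
  induction ht with
  | nil h =>
    refine ⟨h, ?_⟩
    rw [om_zero, inv_one, mul_one]
    exact Subgroup.one_mem _
  | @pos γ g i _ hD ih =>
    refine ⟨hD, ?_⟩
    have h1 : g * x i * (om x (γ + Pi.single i 1))⁻¹ = (g * (om x γ)⁻¹) * sg x γ i := by
      unfold sg
      group
    rw [h1]
    exact Subgroup.mul_mem _ ih.2 (Subgroup.subset_closure ⟨γ, i, ih.1, hD, rfl⟩)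
  | @neg γ g i _ hD ih =>
    refine ⟨hD, ?_⟩
    have h0 : γ - Pi.single i 1 + Pi.single i 1 = γ := sub_add_cancel _ _
    have h1 : g * (x i)⁻¹ * (om x (γ - Pi.single i 1))⁻¹ =
        (g * (om x γ)⁻¹) * (sg x (γ - Pi.single i 1) i)⁻¹ := by
      unfold sg
      rw [h0]
      group
    rw [h1]
    refine Subgroup.mul_mem _ ih.2 (Subgroup.inv_mem _ (Subgroup.subset_closure
      ⟨γ - Pi.single i 1, i, hD, ?_, rfl⟩))
    rw [h0]
    exact ih.1

theorem sch {k : ℕ} (x : Fin k → G) (D : Set (Fin k → ℤ)) {t : G} (ht : Rch x D 0 t) :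
    t ∈ Subgroup.closure {g | ∃ y i, y ∈ D ∧ y + Pi.single i 1 ∈ D ∧ g = sg x y i} := by
  have h := (sch_aux x D ht).2
  rwa [om_zero, inv_one, mul_one] at h

end Pool.Agent.LGW
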