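import Mathlib

/-!
# LGW-Sel: selection of pivots

Induction on `j ≤ e`: there is a list of length `j` with the first two properties and
`D^[e - j] (l.foldr … x₀) ≠ 0`.
-/

namespace Pool.Agent.LGW

private lemma sel_iter {V : Type*} [AddCommGroup V] (D F : V →+ V)
    (hc : ∀ v, F (D v) = D (F v)) (n : ℕ) (v : V) : F (D^[n] v) = D^[n] (F v) := by
  induction n generalizing v with
  | zero => rfl
  | succ n ih => rw [Function.iterate_succ_apply, Function.iterate_succ_apply, ih, hc]

theorem sel {V ι σ : Type*} [AddCommGroup V] (D : V →+ V) (Φ : ι → σ → V →+ V)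
    (hcomm : ∀ i s v, Φ i s (D v) = D (Φ i s v)) (I : Finset ι) (hI1 : 1 ≤ I.card)
    (hI : ∀ X : V, D X ≠ 0 → ∀ S : Finset ι, S ⊆ I → (∀ i ∈ S, ∀ s, Φ i s X = 0) →
      4 * S.card ≤ I.card)
    (x₀ : V) (e : ℕ) (he : 4 * (e - 1) ≤ I.card) (hx₀ : D^[e] x₀ ≠ 0) :
    ∃ l : List (ι × σ), (l.map Prod.fst).Nodup ∧ (∀ p ∈ l, p.1 ∈ I) ∧ l.length = e ∧
      l.foldr (fun p v => Φ p.1 p.2 v) x₀ ≠ 0 := by
  classical
  have key : ∀ j, j ≤ e → ∃ l : List (ι × σ), (l.map Prod.fst).Nodup ∧ (∀ p ∈ l, p.1 ∈ I) ∧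
      l.length = j ∧ D^[e - j] (l.foldr (fun p v => Φ p.1 p.2 v) x₀) ≠ 0 := by
    intro j
    induction j with
    | zero =>
      intro _
      exact ⟨[], List.nodup_nil, by simp, rfl, hx₀⟩
    | succ j ih =>
      intro hj
      obtain ⟨l, hnd, hmem, hlen, hne⟩ := ih (by omega)
      have h1 : e - j = (e - (j + 1)) + 1 := by omega
      rw [h1, Function.iterate_succ_apply'] at hne
      have hS4 := hI _ hne (I.filter (fun i => ∀ s,
          Φ i s (D^[e - (j + 1)] (l.foldr (fun p v => Φ p.1 p.2 v) x₀)) = 0))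
        (Finset.filter_subset _ _) (fun i hi => (Finset.mem_filter.1 hi).2)
      have hU : ((l.map Prod.fst).toFinset).card ≤ j := by
        refine (List.toFinset_card_le _).trans ?_
        rw [List.length_map, hlen]
      have hlt : ((I.filter (fun i => ∀ s,
          Φ i s (D^[e - (j + 1)] (l.foldr (fun p v => Φ p.1 p.2 v) x₀)) = 0)) ∪
            (l.map Prod.fst).toFinset).card < I.card := by
        refine lt_of_le_of_lt (Finset.card_union_le _ _) ?_
        omega
      obtain ⟨i, hiI, hiSU⟩ := Finset.exists_mem_notMem_of_card_lt_card hlt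
      rw [Finset.mem_union, not_or] at hiSU
      obtain ⟨hiS, hiU⟩ := hiSU
      have h2 : ∃ s, Φ i s (D^[e - (j + 1)] (l.foldr (fun p v => Φ p.1 p.2 v) x₀)) ≠ 0 := by
        by_contra hcon
        push Not at hcon
        exact hiS (Finset.mem_filter.2 ⟨hiI, hcon⟩)
      obtain ⟨s, hs⟩ := h2
      refine ⟨(i, s) :: l, ?_, ?_, ?_, ?_⟩
      · rw [List.map_cons, List.nodup_cons]
        exact ⟨fun h => hiU (List.mem_toFinset.2 h), hnd⟩
      · intro p hp
        rcases List.mem_cons.1 hp with h | h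
        · rw [h]; exact hiI
        · exact hmem p h
      · rw [List.length_cons, hlen]
      · rw [List.foldr_cons, ← sel_iter D (Φ i s) (hcomm i s)]
        exact hs
  obtain ⟨l, hnd, hmem, hlen, hne⟩ := key e le_rfl
  refine ⟨l, hnd, hmem, hlen, ?_⟩
  rwa [Nat.sub_self, Function.iterate_zero, id] at hne

end Pool.Agent.LGW
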