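import Pool.Agent.LGW.HGen
import Pool.Agent.LGW.Bas

/-!
# LGW-Tdp: the twisted tensor version of the hitting lemma

PLAN. Induction on `k`. `k = 0`: all functions `Fin 0 → ℤ` are equal, so if `S` has an element `n`, then the
condition with the unique `s` says `om x (Δ + q) • C (n + Δ + q) = C y = 0` (`ten f s` is the singleton of the
unique function), contradiction; `S = ∅` and `0 ≤ 0`.
Step `k → k + 1`. For `n₀ : ℤ` and `s₀ : Fin m` put
`C' n₀ s₀ (w : Fin k → ℤ) = ∑_{q₀ ∈ f s₀} x 0 ^ (Δ 0 + q₀) • C (Fin.cons (n₀ + Δ 0 + q₀) w)`. Then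
(∗) `∑_{q ∈ ten f s} om x (Δ + q) • C (n + Δ + q) = ∑_{q' ∈ ten f (tail s)} om x' (Δ' + q') • C' (n 0) (s 0) (n' + Δ' + q')`,
where `x' = fun i => x i.succ` etc. are the tails (`om_succ`, `mul_smul`, `Finset.smul_sum`; the sum over
`Fintype.piFinset` on `Fin (k+1)` is a double sum: bijection `q ↦ (q 0, Fin.tail q)`,
`Finset.sum_nbij'`/`Finset.sum_product'`, `Fin.cons_self_tail`). Let `y' = Fin.tail y` and
`b ρ = x 0 ^ (ρ + Δ 0) • C (Fin.cons (ρ + Δ 0) y')`, `z = y 0 - Δ 0 ∈ [0, N]`, `b z = x 0 ^ (y 0) • C y ≠ 0`, and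
`∑_{q₀ ∈ f s₀} b (n₀ + q₀) = x 0 ^ n₀ • C' n₀ s₀ y'`. So by `Hit.gen` the set
`Bad = {n₀ ∈ (-N, 0] | ∀ s₀, C' n₀ s₀ y' = 0}` has `t * Bad.card ≤ N`. For `n₀ ∈ (-N, 0]` not in `Bad` choose `s₀`
with `C' n₀ s₀ y' ≠ 0`: the induction hypothesis for `C' n₀ s₀`, `Δ'`, `y'` and the set `S_{n₀}` of the tails of
the `n ∈ S` with `n 0 = n₀` gives `t * (S_{n₀}).card ≤ k * N ^ k` (for `s' : Fin k → Fin m` use the condition with
`s = Fin.cons s₀ s'`). For `n₀ ∈ Bad` use `(S_{n₀}).card ≤ N ^ k` (a subset of `piFinset (Ioc (-N) 0)`). Sum: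
`S.card = ∑_{n₀ ∈ Ioc (-N) 0} (S_{n₀}).card` (`Finset.card_eq_sum_card_fiberwise`),
`t * S.card ≤ (t * Bad.card) * N ^ k + N * (k * N ^ k) ≤ (k + 1) * N ^ (k + 1)`.
-/

namespace Pool.Agent.LGW

private lemma ten_sum {V : Type*} [AddCommGroup V] {k m : ℕ} (f : Fin m → Finset ℤ)
    (s : Fin (k + 1) → Fin m) (g : (Fin (k + 1) → ℤ) → V) :
    ∑ q ∈ ten f s, g q = ∑ q' ∈ ten f (fun i => s i.succ), ∑ q₀ ∈ f (s 0),
      g (Fin.cons q₀ q' : Fin (k + 1) → ℤ) := by
  rw [← Finset.sum_product']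
  refine Finset.sum_nbij' (fun q => ((fun i => q i.succ), q 0))
    (fun p => (Fin.cons p.2 p.1 : Fin (k + 1) → ℤ)) ?_ ?_ ?_ ?_ ?_
  · intro q hq
    simp only [ten, Fintype.mem_piFinset, Finset.mem_product] at hq ⊢
    exact ⟨fun j => hq j.succ, hq 0⟩
  · intro p hp
    simp only [ten, Fintype.mem_piFinset, Finset.mem_product] at hp ⊢
    intro j
    refine Fin.cases ?_ (fun i => ?_) j
    · exact hp.2
    · exact hp.1 i
  · intro q _; exact Fin.cons_self_tail q
  · intro p _; rfl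
  · intro q _
    exact congrArg g (Fin.cons_self_tail q).symm

theorem tdp {G V : Type*} [Group G] [AddCommGroup V] [DistribMulAction G V]
    (h2 : ∀ v : V, v + v = 0) {t N m : ℕ} {f : Fin m → Finset ℤ} (hf : Hit t N f) {k : ℕ}
    (x : Fin k → G) (C : (Fin k → ℤ) → V) (Δ y : Fin k → ℤ) (hy0 : ∀ j, 0 ≤ y j - Δ j)
    (hyN : ∀ j, y j - Δ j ≤ (N : ℤ)) (hC : C y ≠ 0) (S : Finset (Fin k → ℤ))
    (hS : ∀ n ∈ S, (∀ j, -(N : ℤ) < n j ∧ n j ≤ 0) ∧
      ∀ s : Fin k → Fin m, ∑ q ∈ ten f s, om x (Δ + q) • C (n + (Δ + q)) = 0) :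
    t * S.card ≤ k * N ^ k := by
  classical
  induction k with
  | zero =>
    have hS0 : S = ∅ := by
      rw [Finset.eq_empty_iff_forall_notMem]
      intro n hn
      have h := (hS n hn).2 (fun i => i.elim0)
      have h1 : ten f (fun i : Fin 0 => (i.elim0 : Fin m)) = {fun i => i.elim0} := by
        unfold ten
        rw [Fintype.piFinset_of_isEmpty, Finset.univ_unique]
        congr 1
      rw [h1, Finset.sum_singleton] at h
      have h3 : ∀ v : Fin 0 → ℤ, om x v = 1 := fun _ => rfl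
      rw [h3, one_smul] at h
      exact hC ((congrArg C (Subsingleton.elim _ _)).trans h)
    rw [hS0]
    simp
  | succ k ih =>
    let x' : Fin k → G := fun i => x i.succ
    let Δ' : Fin k → ℤ := fun i => Δ i.succ
    let y' : Fin k → ℤ := fun i => y i.succ
    let C' : ℤ → Fin m → (Fin k → ℤ) → V := fun n₀ s₀ w =>
      ∑ q₀ ∈ f s₀, x 0 ^ (Δ 0 + q₀) • C (Fin.cons (n₀ + (Δ 0 + q₀)) w : Fin (k + 1) → ℤ)
    have key : ∀ (n : Fin (k + 1) → ℤ) (s : Fin (k + 1) → Fin m),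
        ∑ q ∈ ten f s, om x (Δ + q) • C (n + (Δ + q)) =
          ∑ q' ∈ ten f (fun i => s i.succ), om x' (Δ' + q') •
            C' (n 0) (s 0) ((fun i => n i.succ) + (Δ' + q')) := by
      intro n s
      rw [ten_sum]
      refine Finset.sum_congr rfl fun q' _ => ?_
      change _ = om x' (Δ' + q') • ∑ q₀ ∈ f (s 0), _
      rw [Finset.smul_sum]
      refine Finset.sum_congr rfl fun q₀ _ => ?_
      have h1 : (fun i : Fin k => (Δ + (Fin.cons q₀ q' : Fin (k + 1) → ℤ)) i.succ) =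
          Δ' + q' := by
        funext i
        rfl
      have h2 : (Δ + (Fin.cons q₀ q' : Fin (k + 1) → ℤ)) 0 = Δ 0 + q₀ := rfl
      have h3 : n + (Δ + (Fin.cons q₀ q' : Fin (k + 1) → ℤ)) =
          (Fin.cons (n 0 + (Δ 0 + q₀)) ((fun i => n i.succ) + (Δ' + q')) :
            Fin (k + 1) → ℤ) := by
        funext j
        refine Fin.cases ?_ (fun i => ?_) j
        · rfl
        · rfl
      rw [om_succ, h1, h2, h3, mul_smul]
    -- the bad set
    let Bad : Finset ℤ := (Finset.Ioc (-(N : ℤ)) 0).filter fun n₀ => ∀ s₀, C' n₀ s₀ y' = 0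
    have hy : (Fin.cons (y 0) y' : Fin (k + 1) → ℤ) = y := Fin.cons_self_tail y
    have hbad : t * Bad.card ≤ N := by
      refine hf.gen h2 (fun ρ => x 0 ^ (ρ + Δ 0) • C (Fin.cons (ρ + Δ 0) y' : Fin (k + 1) → ℤ))
        (y 0 - Δ 0) (hy0 0) (hyN 0) ?_ Bad ?_
      · simp only [sub_add_cancel]
        rw [hy]
        intro h
        exact hC ((smul_eq_zero_iff_eq _).1 h)
      · intro n₀ hn₀
        rw [Finset.mem_filter, Finset.mem_Ioc] at hn₀
        refine ⟨hn₀.1.1, hn₀.1.2, fun s₀ => ?_⟩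
        have h4 := hn₀.2 s₀
        have h5 : ∑ q ∈ f s₀, x 0 ^ (n₀ + q + Δ 0) •
            C (Fin.cons (n₀ + q + Δ 0) y' : Fin (k + 1) → ℤ) = x 0 ^ n₀ • C' n₀ s₀ y' := by
          change _ = x 0 ^ n₀ • ∑ q₀ ∈ f s₀, _
          rw [Finset.smul_sum]
          refine Finset.sum_congr rfl fun q _ => ?_
          rw [smul_smul, ← zpow_add]
          have h6 : n₀ + q + Δ 0 = n₀ + (Δ 0 + q) := by ring
          rw [h6]
        rw [h5, h4, smul_zero]
    -- the fibres
    let T : ℤ → Finset (Fin k → ℤ) := fun n₀ =>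
      (S.filter fun n => n 0 = n₀).image fun n i => n i.succ
    have hTc : ∀ n₀, (T n₀).card = (S.filter fun n => n 0 = n₀).card := by
      intro n₀
      refine Finset.card_image_of_injOn ?_
      intro n hn n' hn' h
      have hn1 := (Finset.mem_filter.1 (Finset.mem_coe.1 hn)).2
      have hn2 := (Finset.mem_filter.1 (Finset.mem_coe.1 hn')).2
      funext j
      refine Fin.cases ?_ (fun i => ?_) j
      · rw [hn1, hn2]
      · exact congrFun h i
    have htriv : ∀ n₀, (T n₀).card ≤ N ^ k := by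
      intro n₀
      have hsub : T n₀ ⊆ Fintype.piFinset fun _ : Fin k => Finset.Ioc (-(N : ℤ)) 0 := by
        intro w hw
        obtain ⟨n, hn, rfl⟩ := Finset.mem_image.1 hw
        rw [Fintype.mem_piFinset]
        intro i
        rw [Finset.mem_Ioc]
        exact (hS n (Finset.mem_filter.1 hn).1).1 i.succ
      refine (Finset.card_le_card hsub).trans ?_
      rw [Fintype.card_piFinset_const, Int.card_Ioc]
      simp
    have hgood : ∀ n₀ ∈ Finset.Ioc (-(N : ℤ)) 0, n₀ ∉ Bad → t * (T n₀).card ≤ k * N ^ k := by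
      intro n₀ hn₀ hnb
      have h7 : ∃ s₀, C' n₀ s₀ y' ≠ 0 := by
        by_contra hcon
        push Not at hcon
        exact hnb (Finset.mem_filter.2 ⟨hn₀, hcon⟩)
      obtain ⟨s₀, hs₀⟩ := h7
      refine ih x' (C' n₀ s₀) Δ' y' (fun j => hy0 j.succ) (fun j => hyN j.succ) hs₀ (T n₀) ?_
      intro w hw
      obtain ⟨n, hn, rfl⟩ := Finset.mem_image.1 hw
      obtain ⟨hn1, hn2⟩ := Finset.mem_filter.1 hn
      refine ⟨fun j => (hS n hn1).1 j.succ, fun s' => ?_⟩
      have h8 := (hS n hn1).2 (Fin.cons s₀ s')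
      rw [key] at h8
      rw [← hn2]
      exact h8
    -- the sum
    have hcard : S.card = ∑ n₀ ∈ Finset.Ioc (-(N : ℤ)) 0, (T n₀).card := by
      rw [Finset.card_eq_sum_card_fiberwise (f := fun n : Fin (k + 1) → ℤ => n 0)
        (t := Finset.Ioc (-(N : ℤ)) 0)]
      · exact Finset.sum_congr rfl fun n₀ _ => (hTc n₀).symm
      · intro n hn
        rw [Finset.mem_coe, Finset.mem_Ioc]
        exact (hS n hn).1 0
    have hterm : ∀ n₀ ∈ Finset.Ioc (-(N : ℤ)) 0,
        t * (T n₀).card ≤ (if n₀ ∈ Bad then t * N ^ k else 0) + k * N ^ k := by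
      intro n₀ hn₀
      by_cases hb : n₀ ∈ Bad
      · rw [if_pos hb]
        exact (Nat.mul_le_mul_left t (htriv n₀)).trans (Nat.le_add_right _ _)
      · rw [if_neg hb, zero_add]
        exact hgood n₀ hn₀ hb
    have hBI : Finset.Ioc (-(N : ℤ)) 0 ∩ Bad = Bad :=
      Finset.inter_eq_right.2 (Finset.filter_subset _ _)
    calc t * S.card = ∑ n₀ ∈ Finset.Ioc (-(N : ℤ)) 0, t * (T n₀).card := by
          rw [hcard, Finset.mul_sum]
      _ ≤ ∑ n₀ ∈ Finset.Ioc (-(N : ℤ)) 0,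
            ((if n₀ ∈ Bad then t * N ^ k else 0) + k * N ^ k) := Finset.sum_le_sum hterm
      _ = t * Bad.card * N ^ k + N * (k * N ^ k) := by
          rw [Finset.sum_add_distrib, Finset.sum_ite_mem, hBI, Finset.sum_const,
            Finset.sum_const, Int.card_Ioc]
          simp
          ring
      _ ≤ N * N ^ k + N * (k * N ^ k) :=
          Nat.add_le_add_right (Nat.mul_le_mul_right _ hbad) _
      _ = (k + 1) * N ^ (k + 1) := by ring

end Pool.Agent.LGW
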