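import Pool.Agent.LGW.OmP

/-!
# LGW-XGeo: the geometry of the extension step

The box is `Icc (loB N α) (hiB N β)`: `[-N, 2N]` in direction `0`, `[α j - 2N, β j + 2N]` in the other directions.
-/

open scoped commutatorElement

namespace Pool.Agent.LGW

open Pool.Agent.Helper33.CW2

variable {G : Type*} [Group G] {K : ℕ}

/-- The lower corner of the small box. -/
def loB (N : ℕ) (α : Fin (K + 1) → ℤ) : Fin (K + 1) → ℤ :=
  fun j => if j = 0 then -(N : ℤ) else α j - 2 * N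

/-- The upper corner of the small box. -/
def hiB (N : ℕ) (β : Fin (K + 1) → ℤ) : Fin (K + 1) → ℤ :=
  fun j => if j = 0 then 2 * (N : ℤ) else β j + 2 * N

private theorem xg_single {k : ℕ} {a b : Fin k} (hab : a ≠ b) (j : Fin k) :
    ((Pi.single a 1 + Pi.single b 1 : Fin k → ℤ)) j ≤ 1 := by
  rw [Pi.add_apply, Pi.single_apply, Pi.single_apply]
  by_cases h1 : j = a
  · have h2 : j ≠ b := fun h2 => hab (h1.symm.trans h2)
    rw [if_pos h1, if_neg h2]
    norm_num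
  · rw [if_neg h1]
    split_ifs <;> norm_num

theorem geo {N : ℕ} (hN : 1 ≤ N) (x : Fin (K + 1) → G) (α β y Δ n : Fin (K + 1) → ℤ)
    (hα : α ≤ 0) (hβ : 0 ≤ β) (hy : y ∈ Set.Icc α β) (hΔ : ∀ j, 0 ≤ y j - Δ j ∧ y j - Δ j ≤ (N : ℤ))
    (hn : ∀ j, -(N : ℤ) < n j ∧ n j ≤ 0) (p : Fin (K + 1) → ℤ)
    (hp : ∀ j, 0 ≤ p j ∧ p j < 2 * (N : ℤ)) {a b : Fin (K + 1)} (hab : a ≠ b) :
    Rch x (Set.Icc (loB N α) (hiB N β)) 0 (tr x (n + p) ⁅x a, x b⁆) ∧
    Rch x (Set.Icc (loB N α) (hiB N β)) 0 (om x n * om x p * (om x (n + p))⁻¹) ∧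
    Rch x (Set.Icc (loB N α) (hiB N β)) 0
      (om x n * om x (Δ + p) * (om x (n + (Δ + p)))⁻¹) := by
  have eL : ∀ j, loB N α j = if j = 0 then -(N : ℤ) else α j - 2 * N := fun j => rfl
  have eH : ∀ j, hiB N β j = if j = 0 then 2 * (N : ℤ) else β j + 2 * N := fun j => rfl
  have hα' : ∀ j, α j ≤ 0 := fun j => hα j
  have hβ' : ∀ j, 0 ≤ β j := fun j => hβ j
  have hy1 : ∀ j, α j ≤ y j := fun j => hy.1 j
  have hy2 : ∀ j, y j ≤ β j := fun j => hy.2 j
  have h1 : loB N α ≤ 0 := by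
    intro j
    have h2 := hα' j
    rw [eL]
    split_ifs
    · show -(N : ℤ) ≤ 0
      omega
    · show α j - 2 * N ≤ 0
      omega
  have h2 : 0 ≤ hiB N β := by
    intro j
    have h2 := hβ' j
    rw [eH]
    split_ifs
    · show (0 : ℤ) ≤ 2 * (N : ℤ)
      omega
    · show (0 : ℤ) ≤ β j + 2 * N
      omega
  have h3 : n ∈ Set.Icc (loB N α) (hiB N β) := by
    refine ⟨fun j => ?_, fun j => ?_⟩
    · show (_ : ℤ) ≤ _
      have h4 := hn j
      have h5 := hα' j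
      rw [eL]
      split_ifs <;> omega
    · show (_ : ℤ) ≤ _
      have h4 := hn j
      have h5 := hβ' j
      rw [eH]
      split_ifs <;> omega
  refine ⟨rch_sq x _ _ _ h1 h2 (fun j => ?_) a b (fun j => ?_), rch_comb x _ _ _ _ h1 h2 h3
    (fun j hj => ?_), rch_comb x _ _ _ _ h1 h2 h3 (fun j hj => ?_)⟩
  · show (_ : ℤ) ≤ _
    have h4 := hn j
    have h5 := hα' j
    have h6 := hp j
    rw [eL, Pi.add_apply]
    split_ifs <;> omega
  · show (_ : ℤ) ≤ _
    have h4 := hn j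
    have h5 := hβ' j
    have h6 := hp j
    have h7 := xg_single hab j
    rw [Pi.add_apply, Pi.add_apply (f := n)]
    rw [eH]
    split_ifs <;> omega
  · have h4 := hn j
    have h5 := hα' j
    have h6 := hp j
    have h7 := hβ' j
    rw [eL, eH, if_neg hj, if_neg hj]
    omega
  · have h4 := hn j
    have h5 := hy1 j
    have h6 := hp j
    have h7 := hy2 j
    have h8 := hΔ j
    rw [eL, eH, if_neg hj, if_neg hj, Pi.add_apply]
    omega

end Pool.Agent.LGW
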