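import Pool.Agent.LGW.XRel
import Pool.Agent.LGW.XGeo
import Pool.Agent.LGW.Sel
import Pool.Agent.LGW.Tdp

/-!
# LGW-XCore: the extension step for one letter

Notation: `u = ⁅x a, x b⁆`, `k = K + 1`, `e = N ^ k / 4 + 1`, `D = Icc (loB N α) (hiB N β)`,
`b w = ops (replicate E u) (c u (tr x w ⁅x 0, x i⁆))`.
PLAN. `hD`: for closed paths `t` in `D`, `ops (replicate E u) (c u t) = 0` (from `hP`: the side lengths of `D` are
`3N` and `β j - α j + 4N`; `D` contains `0` and `e_a + e_b`, as `a ≠ b`, `N ≥ 1`). Suppose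
`ops (replicate (e + E) u) (c u (tr x y …)) ≠ 0`, i.e. `D_u^[e] (b y) ≠ 0`, where `D_u v = u • v - v` (an
`AddMonoidHom`; `ops (replicate e u) v = D_u^[e] v`, `ops_rep_add`). For `n ∈ I := piFinset (Ioc (-N) 0)`
(`|I| = N ^ k`), `s : Fin k → Fin m` let `Φ n s v = ∑_{p ∈ ten f s} (tr x (n + p) u • v - v)` (an `AddMonoidHom`); all
these operators, `D_u` and the `t •`, `t ∈ G'`, commute (`hc.comm`).
`sel` applies: `hI`: if `D_u X ≠ 0`, use `tdp` with the trivial generators `fun _ => (1 : G)` (`om 1 v = 1`),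
`C z = tr x z u • X - X`, `Δ = 0`, `y = 0` (`C 0 = D_u X`, `tr_zero`): `4 k * S.card ≤ k * N ^ k`, so
`4 * S.card ≤ N ^ k`. We get `l` with `Π (b y) ≠ 0`, `Π v = l.foldr (fun p v => Φ p.1 p.2 v) v`.
Let `C w = (om x w)⁻¹ • Π (b w)`, `C y ≠ 0`, and let `S` be the set of the first components of `l`, `S.card = e`. Claim:
for `n ∈ S` and all `s'`: `∑_{q ∈ ten f s'} om x (Δ + q) • C (n + (Δ + q)) = 0`. Indeed `(n, s) ∈ l` for some `s`, and
`ext_rel` (with `geo`) says `Φ n s (∑_q h q • b (n + (Δ + q))) = 0`, `h q = om x n * om x (Δ + q) * (om x (n + (Δ + q)))⁻¹ ∈ G'`;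
as the factors of `Π` commute, `Π (∑_q h q • b (n + (Δ + q))) = 0`, i.e. `∑_q h q • Π (b (n + (Δ + q))) = 0`, and
`h q • Π (b w) = om x n • om x (Δ + q) • C w`, `w = n + (Δ + q)`; cancel `om x n`. Now `tdp` (with `x`, `Δ`, `y`) gives
`4 k * e ≤ k * N ^ k`, so `4 e ≤ N ^ k`, contradiction to `e = N ^ k / 4 + 1`.
(Note: `sel` needs `4 * (e - 1) ≤ N ^ k`: `4 * (N ^ k / 4) ≤ N ^ k`. Elements of `ten f s` have coordinates in
`[0, 2N)` by `hf.1`.)
-/

open scoped commutatorElement

namespace Pool.Agent.LGW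

open Pool.Agent.Helper33.CW2

variable {G V : Type*} [Group G] [AddCommGroup V] [DistribMulAction G V] {c : G → G → V}

section aux

omit [Group G] [DistribMulAction G V] in
private lemma fz_comm {ι : Type*} (F : ι → V →+ V) (T : V →+ V) (hT : ∀ i v, T (F i v) = F i (T v))
    (l : List ι) (v : V) :
    T (l.foldr (fun p v => F p v) v) = l.foldr (fun p v => F p v) (T v) := by
  induction l with
  | nil => rfl
  | cons p l ih => rw [List.foldr_cons, List.foldr_cons, hT, ih]

private lemma fz_zero {ι : Type*} (F : ι → V →+ V) (l : List ι) :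
    l.foldr (fun p v => F p v) (0 : V) = 0 := by
  induction l with
  | nil => rfl
  | cons p l ih => rw [List.foldr_cons, ih, map_zero]

private lemma fz_add {ι : Type*} (F : ι → V →+ V) (l : List ι) (v w : V) :
    l.foldr (fun p v => F p v) (v + w) =
      l.foldr (fun p v => F p v) v + l.foldr (fun p v => F p v) w := by
  induction l with
  | nil => rfl
  | cons p l ih => rw [List.foldr_cons, List.foldr_cons, List.foldr_cons, ih, map_add]

private lemma fz_sum {ι κ : Type*} (F : ι → V →+ V) (l : List ι) (s : Finset κ) (g : κ → V) :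
    l.foldr (fun p v => F p v) (∑ j ∈ s, g j) = ∑ j ∈ s, l.foldr (fun p v => F p v) (g j) := by
  classical
  induction s using Finset.induction_on with
  | empty => rw [Finset.sum_empty, Finset.sum_empty, fz_zero]
  | insert j s hj ih => rw [Finset.sum_insert hj, Finset.sum_insert hj, fz_add, ih]

private lemma fz_mem {ι : Type*} (F : ι → V →+ V) (hF : ∀ i j v, F i (F j v) = F j (F i v))
    (l : List ι) {i : ι} (hi : i ∈ l) {v : V} (hv : F i v = 0) :
    l.foldr (fun p v => F p v) v = 0 := by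
  induction l with
  | nil => simp at hi
  | cons p l ih =>
    rw [List.foldr_cons]
    rcases List.mem_cons.1 hi with h | h
    · subst h
      rw [fz_comm F (F i) (fun j v => hF i j v) l v, hv, fz_zero]
    · rw [ih h, map_zero]

private lemma om_one {k : ℕ} (v : Fin k → ℤ) : om (fun _ : Fin k => (1 : G)) v = 1 := by
  induction k with
  | zero => rfl
  | succ k ih => rw [om_succ, ih, one_zpow, mul_one]

/-- The operator `g - 1`. -/
private def dh (g : G) : V →+ V := DistribSMul.toAddMonoidHom V g - AddMonoidHom.id V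

private lemma dh_apply (g : G) (v : V) : dh g v = g • v - v := rfl

private lemma ops_rep_eq (g : G) (e : ℕ) (v : V) :
    ops (List.replicate e g) v = (dh g : V →+ V)^[e] v := by
  induction e with
  | zero => rfl
  | succ e ih => rw [List.replicate_succ, ops_cons, ih, Function.iterate_succ_apply', dh_apply]

private lemma dh_smul (hc : Cal c) {s t : G} (hs : s ∈ commutator G) (ht : t ∈ commutator G) (v : V) :
    dh s (t • v) = t • (dh s v : V) := by
  rw [dh_apply, dh_apply, smul_sub, hc.comm s hs t ht]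

private lemma dh_dh (hc : Cal c) {s t : G} (hs : s ∈ commutator G) (ht : t ∈ commutator G) (v : V) :
    dh s (dh t v) = (dh t (dh s v) : V) := by
  rw [dh_apply t v, map_sub, dh_smul hc hs ht, dh_apply t]

/-- The operators `Φ n s`. -/
private def ph {K m : ℕ} (x : Fin (K + 1) → G) (f : Fin m → Finset ℤ) (u : G)
    (n : Fin (K + 1) → ℤ) (s : Fin (K + 1) → Fin m) : V →+ V :=
  ∑ p ∈ ten f s, dh (tr x (n + p) u)

private lemma ph_apply {K m : ℕ} (x : Fin (K + 1) → G) (f : Fin m → Finset ℤ) (u : G)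
    (n : Fin (K + 1) → ℤ) (s : Fin (K + 1) → Fin m) (v : V) :
    ph x f u n s v = ∑ p ∈ ten f s, (tr x (n + p) u • v - v) := by
  rw [ph, AddMonoidHom.finsetSum_apply]
  rfl

private lemma ph_smul (hc : Cal c) {K m : ℕ} (x : Fin (K + 1) → G) (f : Fin m → Finset ℤ) {u : G}
    (hu : u ∈ commutator G) (n : Fin (K + 1) → ℤ) (s : Fin (K + 1) → Fin m) {t : G}
    (ht : t ∈ commutator G) (v : V) : ph x f u n s (t • v) = t • (ph x f u n s v : V) := by
  rw [ph, AddMonoidHom.finsetSum_apply, AddMonoidHom.finsetSum_apply, Finset.smul_sum]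
  exact Finset.sum_congr rfl fun p _ => dh_smul hc (tr_mem x _ hu) ht v

private lemma ph_dh (hc : Cal c) {K m : ℕ} (x : Fin (K + 1) → G) (f : Fin m → Finset ℤ) {u : G}
    (hu : u ∈ commutator G) (n : Fin (K + 1) → ℤ) (s : Fin (K + 1) → Fin m) {t : G}
    (ht : t ∈ commutator G) (v : V) : ph x f u n s (dh t v) = (dh t (ph x f u n s v) : V) := by
  rw [dh_apply, map_sub, ph_smul hc x f hu n s ht, dh_apply]

private lemma ph_ph (hc : Cal c) {K m : ℕ} (x : Fin (K + 1) → G) (f : Fin m → Finset ℤ) {u : G}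
    (hu : u ∈ commutator G) (n n' : Fin (K + 1) → ℤ) (s s' : Fin (K + 1) → Fin m) (v : V) :
    ph x f u n s (ph x f u n' s' v) = (ph x f u n' s' (ph x f u n s v) : V) := by
  conv_lhs => rw [ph_apply x f u n']
  rw [map_sum, ph_apply x f u n']
  refine Finset.sum_congr rfl fun p _ => ?_
  rw [map_sub, ph_smul hc x f hu n s (tr_mem x _ hu)]

end aux

theorem ext_core (hc : Cal c) {K : ℕ} (x : Fin (K + 1) → G) {N m : ℕ} {f : Fin m → Finset ℤ}
    (hN : 1 ≤ N) (hf : Hit (4 * (K + 1)) N f) {κ : Fin (K + 1) → ℤ} {E : ℕ} (hP : PP x c κ E)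
    (h3 : 3 * (N : ℤ) ≤ κ 0) {a b : Fin (K + 1)} (hab : a ≠ b) {α β : Fin (K + 1) → ℤ}
    (hα : α ≤ 0) (hβ : Pi.single a 1 + Pi.single b 1 ≤ β)
    (hlat : ∀ i, i ≠ 0 → β i - α i + 4 * N ≤ κ i) (i : Fin (K + 1)) {Δ y : Fin (K + 1) → ℤ}
    (hy : y ∈ Set.Icc α β) (hΔ : ∀ j, 0 ≤ y j - Δ j ∧ y j - Δ j ≤ (N : ℤ))
    (hrel : ∀ s s' : Fin (K + 1) → Fin m, relD x c (ten f s) (ten f s') a b i Δ = 0) :
    ops (List.replicate (E + (N ^ (K + 1) / 4 + 1)) ⁅x a, x b⁆)
      (c ⁅x a, x b⁆ (tr x y ⁅x 0, x i⁆)) = 0 := by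
  classical
  have hu : ⁅x a, x b⁆ ∈ commutator G := cm_mem _ _
  have hβ0 : (0 : Fin (K + 1) → ℤ) ≤ β := by
    refine le_trans ?_ hβ
    intro j
    have h1 : ∀ a : Fin (K + 1), (0 : ℤ) ≤ (Pi.single a 1 : Fin (K + 1) → ℤ) j := by
      intro a
      rw [Pi.single_apply]
      split_ifs <;> norm_num
    exact add_nonneg (h1 a) (h1 b)
  have hsq : ∀ j, (Pi.single a 1 + Pi.single b 1 : Fin (K + 1) → ℤ) j ≤ 1 := by
    intro j
    rw [Pi.add_apply, Pi.single_apply, Pi.single_apply]
    split_ifs with h1 h2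
    · exact absurd (h1.symm.trans h2) hab
    all_goals norm_num
  have hN' : (1 : ℤ) ≤ (N : ℤ) := by exact_mod_cast hN
  have hD : ∀ t, Rch x (Set.Icc (loB N α) (hiB N β)) 0 t →
      ops (List.replicate E ⁅x a, x b⁆) (c ⁅x a, x b⁆ t) = 0 := by
    refine hP a b hab (loB N α) (hiB N β) ?_ ?_ ?_
    · intro j
      by_cases hj : j = 0
      · subst hj
        simp only [loB, hiB, if_true]
        linarith
      · simp only [loB, hiB, if_neg hj]
        have := hlat j hj
        linarith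
    · intro j
      by_cases hj : j = 0
      · simp only [loB, if_pos hj, Pi.zero_apply]
        linarith
      · simp only [loB, if_neg hj, Pi.zero_apply]
        have := hα j
        rw [Pi.zero_apply] at this
        linarith
    · intro j
      by_cases hj : j = 0
      · simp only [hiB, if_pos hj]
        have := hsq j
        linarith
      · simp only [hiB, if_neg hj]
        have := hβ j
        linarith
  -- the index set
  have hIcard : (Fintype.piFinset fun _ : Fin (K + 1) => Finset.Ioc (-(N : ℤ)) 0).card =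
      N ^ (K + 1) := by
    rw [Fintype.card_piFinset]
    simp
  have hImem : ∀ n : Fin (K + 1) → ℤ,
      n ∈ (Fintype.piFinset fun _ : Fin (K + 1) => Finset.Ioc (-(N : ℤ)) 0) ↔
        ∀ j, -(N : ℤ) < n j ∧ n j ≤ 0 := by
    intro n
    simp only [Fintype.mem_piFinset, Finset.mem_Ioc]
  have hcancel : ∀ A : ℕ, 4 * (K + 1) * A ≤ (K + 1) * N ^ (K + 1) → 4 * A ≤ N ^ (K + 1) := by
    intro A h
    have h1 : (K + 1) * (4 * A) ≤ (K + 1) * N ^ (K + 1) := by
      calc (K + 1) * (4 * A) = 4 * (K + 1) * A := by ring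
        _ ≤ _ := h
    exact Nat.le_of_mul_le_mul_left h1 (Nat.succ_pos K)
  have hten : ∀ (s : Fin (K + 1) → Fin m), ∀ q ∈ ten f s, ∀ j, 0 ≤ q j ∧ q j < 2 * (N : ℤ) := by
    intro s q hq j
    exact hf.1 (s j) (q j) ((Fintype.mem_piFinset.1 hq) j)
  by_contra hne
  rw [add_comm E, ops_rep_add, ops_rep_eq ⁅x a, x b⁆ (N ^ (K + 1) / 4 + 1)] at hne
  obtain ⟨l, hl1, hl2, hl3, hl4⟩ := sel (dh ⁅x a, x b⁆) (fun n s => ph x f ⁅x a, x b⁆ n s)
    (fun n s v => ph_dh hc x f hu n s hu v)
    (Fintype.piFinset fun _ : Fin (K + 1) => Finset.Ioc (-(N : ℤ)) 0)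
    (by rw [hIcard]; exact Nat.one_le_pow _ _ hN)
    (by
      intro X hX S hSI hS
      rw [hIcard]
      refine hcancel _ ?_
      refine tdp hc.two hf (fun _ => (1 : G)) (fun z => tr x z ⁅x a, x b⁆ • X - X) 0 0
        (fun j => by simp) (fun j => by simp) ?_ S ?_
      · rw [tr_zero]
        exact hX
      · intro n hn
        refine ⟨(hImem n).1 (hSI hn), fun s => ?_⟩
        have h1 := hS n hn s
        rw [ph_apply] at h1
        rw [← h1]
        refine Finset.sum_congr rfl fun q _ => ?_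
        rw [om_one, one_smul, zero_add])
    _ (N ^ (K + 1) / 4 + 1)
    (by rw [hIcard, Nat.add_sub_cancel]; exact Nat.mul_div_le _ _) hne
  set B : (Fin (K + 1) → ℤ) → V := fun w =>
    ops (List.replicate E ⁅x a, x b⁆) (c ⁅x a, x b⁆ (tr x w ⁅x 0, x i⁆)) with hB
  set F : (Fin (K + 1) → ℤ) × (Fin (K + 1) → Fin m) → V →+ V :=
    fun p => ph x f ⁅x a, x b⁆ p.1 p.2 with hF
  have hFF : ∀ p q v, F p (F q v) = F q (F p v) := fun p q v => ph_ph hc x f hu _ _ _ _ v
  have hFs : ∀ p, ∀ t ∈ commutator G, ∀ v, F p (t • v) = t • F p v :=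
    fun p t ht v => ph_smul hc x f hu _ _ ht v
  have hPs : ∀ t ∈ commutator G, ∀ v : V,
      l.foldr (fun p v => F p v) (t • v) = t • l.foldr (fun p v => F p v) v := by
    intro t ht v
    exact (fz_comm F (DistribSMul.toAddMonoidHom V t)
      (fun p v => (hFs p t ht v).symm) l v).symm
  have hPy : l.foldr (fun p v => F p v) (B y) ≠ 0 := hl4
  have hfin := tdp hc.two hf x (fun w => (om x w)⁻¹ • l.foldr (fun p v => F p v) (B w)) Δ y
    (fun j => (hΔ j).1) (fun j => (hΔ j).2)
    (by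
      intro h
      apply hPy
      have h1 := congrArg (fun v => om x y • v) h
      simpa using h1)
    (l.map Prod.fst).toFinset
    (by
      intro n hn
      rw [List.mem_toFinset, List.mem_map] at hn
      obtain ⟨⟨n', s⟩, hp, rfl⟩ := hn
      have hn' : ∀ j, -(N : ℤ) < n' j ∧ n' j ≤ 0 := (hImem n').1 (hl2 _ hp)
      refine ⟨hn', fun s' => ?_⟩
      change ∑ q ∈ ten f s', om x (Δ + q) • ((om x (n' + (Δ + q)))⁻¹ •
        l.foldr (fun p v => F p v) (B (n' + (Δ + q)))) = 0
      have h3 : ∀ q ∈ ten f s', Rch x (Set.Icc (loB N α) (hiB N β)) 0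
          (om x n' * om x (Δ + q) * (om x (n' + (Δ + q)))⁻¹) := fun q hq =>
        (geo hN x α β y Δ n' hα hβ0 hy hΔ hn' q (hten s' q hq) hab).2.2
      have hr := ext_rel hc x E a b i (ten f s) (ten f s') (Set.Icc (loB N α) (hiB N β)) Δ n' hD
        (fun p hp => (geo hN x α β y Δ n' hα hβ0 hy hΔ hn' p (hten s p hp) hab).1)
        (fun p hp => (geo hN x α β y Δ n' hα hβ0 hy hΔ hn' p (hten s p hp) hab).2.1)
        h3 (hrel s s')
      have hY : F (n', s) (∑ q ∈ ten f s',
          (om x n' * om x (Δ + q) * (om x (n' + (Δ + q)))⁻¹) • B (n' + (Δ + q))) = 0 := by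
        change ph x f ⁅x a, x b⁆ n' s _ = 0
        rw [ph_apply, ← hr]
        refine Finset.sum_congr rfl fun p _ => ?_
        rw [Finset.smul_sum, ← Finset.sum_sub_distrib]
      have h4 := fz_mem F hFF l hp hY
      rw [fz_sum] at h4
      have h5 : om x n' • ∑ q ∈ ten f s', om x (Δ + q) • ((om x (n' + (Δ + q)))⁻¹ •
          l.foldr (fun p v => F p v) (B (n' + (Δ + q)))) = 0 := by
        rw [← h4, Finset.smul_sum]
        refine Finset.sum_congr rfl fun q hq => ?_
        rw [hPs _ (h3 q hq).comm_mem, smul_smul, smul_smul, mul_assoc]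
      have h6 := congrArg (fun v => (om x n')⁻¹ • v) h5
      simpa only [smul_smul, inv_mul_cancel, one_smul, smul_zero] using h6)
  have h7 := hcancel _ hfin
  rw [List.toFinset_card_of_nodup hl1, List.length_map, hl3] at h7
  omega

end Pool.Agent.LGW
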