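import Pool.Agent.LGW.XStep

/-!
# LGW-XPerm: all directions
-/

open scoped commutatorElement

namespace Pool.Agent.LGW

open Pool.Agent.Helper33.CW2

variable {G V : Type*} [Group G] [AddCommGroup V] [DistribMulAction G V] {c : G → G → V}

private theorem xp_single {k : ℕ} (σ : Equiv.Perm (Fin k)) (i j : Fin k) :
    (Pi.single i (1 : ℤ) : Fin k → ℤ) (σ j) = (Pi.single (σ.symm i) (1 : ℤ) : Fin k → ℤ) j := by
  rw [Pi.single_apply, Pi.single_apply]
  by_cases h : σ j = i
  · rw [if_pos h, if_pos ((Equiv.eq_symm_apply σ).2 h)]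
  · rw [if_neg h, if_neg fun h' => h ((Equiv.eq_symm_apply σ).1 h')]

theorem rch_perm {k : ℕ} (x : Fin k → G) (σ : Equiv.Perm (Fin k)) {D : Set (Fin k → ℤ)}
    {γ : Fin k → ℤ} {g : G} (hg : Rch x D γ g) :
    Rch (fun i => x (σ i)) {w | (fun i => w (σ.symm i)) ∈ D} (fun i => γ (σ i)) g := by
  induction hg with
  | nil h0 => exact Rch.nil h0
  | @pos γ g i hg hm ih =>
    have h1 : (fun j => (γ + Pi.single i 1 : Fin k → ℤ) (σ j)) =
        (fun j => γ (σ j)) + Pi.single (σ.symm i) 1 := by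
      funext j
      rw [Pi.add_apply, Pi.add_apply, xp_single]
    have h3 := Rch.pos (x := fun i => x (σ i)) (D := {w | (fun i => w (σ.symm i)) ∈ D}) (σ.symm i) ih (by
      rw [← h1]
      show (fun j => (γ + Pi.single i 1 : Fin k → ℤ) (σ (σ.symm j))) ∈ D
      simp only [Equiv.apply_symm_apply]
      exact hm)
    rw [Equiv.apply_symm_apply, ← h1] at h3
    exact h3
  | @neg γ g i hg hm ih =>
    have h1 : (fun j => (γ - Pi.single i 1 : Fin k → ℤ) (σ j)) =
        (fun j => γ (σ j)) - Pi.single (σ.symm i) 1 := by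
      funext j
      rw [Pi.sub_apply, Pi.sub_apply, xp_single]
    have h3 := Rch.neg (x := fun i => x (σ i)) (D := {w | (fun i => w (σ.symm i)) ∈ D}) (σ.symm i) ih (by
      rw [← h1]
      show (fun j => (γ - Pi.single i 1 : Fin k → ℤ) (σ (σ.symm j))) ∈ D
      simp only [Equiv.apply_symm_apply]
      exact hm)
    rw [Equiv.apply_symm_apply, ← h1] at h3
    exact h3

theorem PP_perm {k : ℕ} (x : Fin k → G) (σ : Equiv.Perm (Fin k)) {κ : Fin k → ℤ} {E : ℕ}
    (hP : PP x c κ E) : PP (fun i => x (σ i)) c (fun i => κ (σ i)) E := by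
  intro a b hab α β hle hα hβ t ht
  refine hP (σ a) (σ b) (σ.injective.ne hab) (fun i => α (σ.symm i)) (fun i => β (σ.symm i)) ?_ ?_ ?_ t ?_
  · intro i
    have h : β (σ.symm i) - α (σ.symm i) ≤ κ (σ (σ.symm i)) := hle (σ.symm i)
    rw [Equiv.apply_symm_apply] at h
    exact h
  · intro i
    exact hα (σ.symm i)
  · intro i
    have h := hβ (σ.symm i)
    rw [Pi.add_apply] at h ⊢
    have h1 := xp_single σ.symm a i
    have h2 := xp_single σ.symm b i
    rw [Equiv.symm_symm] at h1 h2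
    rw [← h1, ← h2]
    exact h
  · have h1 := rch_perm (fun i => x (σ i)) σ.symm ht
    have h2 : (fun i => (fun i => x (σ i)) (σ.symm i)) = x := by
      funext i
      show x (σ (σ.symm i)) = x i
      rw [Equiv.apply_symm_apply]
    rw [h2] at h1
    refine Rch.mono ?_ h1
    rintro w ⟨hw1, hw2⟩
    refine ⟨fun i => ?_, fun i => ?_⟩
    · have h3 : α (σ.symm i) ≤ w (σ (σ.symm i)) := hw1 (σ.symm i)
      rw [Equiv.apply_symm_apply] at h3
      exact h3
    · have h3 : w (σ (σ.symm i)) ≤ β (σ.symm i) := hw2 (σ.symm i)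
      rw [Equiv.apply_symm_apply] at h3
      exact h3

theorem dir_step (hc : Cal c) {K : ℕ} (x : Fin (K + 1) → G) {N M m : ℕ} {f : Fin m → Finset ℤ}
    (hN : 1 ≤ N) (hf : Hit (4 * (K + 1)) N f) (hrel : RelN x c N M f) (l : Fin (K + 1))
    {κ κ' : Fin (K + 1) → ℤ} {E : ℕ} (hP : PP x c κ E) (h3 : 3 * (N : ℤ) ≤ κ l)
    (h0 : κ' l ≤ M * N) (hlat : ∀ i, i ≠ l → κ' i + 4 * N ≤ κ i ∧ κ' i ≤ M * N) :
    PP x c κ' (E + (N ^ (K + 1) / 4 + 1)) := by
  have h1 := dir_step0 hc (fun i => x (Equiv.swap 0 l i)) hN hf (hrel l)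
    (κ := fun i => κ (Equiv.swap 0 l i)) (κ' := fun i => κ' (Equiv.swap 0 l i))
    (PP_perm x (Equiv.swap 0 l) hP)
    (by
      show 3 * (N : ℤ) ≤ κ (Equiv.swap 0 l 0)
      rw [Equiv.swap_apply_left]
      exact h3)
    (by
      show κ' (Equiv.swap 0 l 0) ≤ M * N
      rw [Equiv.swap_apply_left]
      exact h0)
    (by
      intro i hi
      refine hlat (Equiv.swap 0 l i) fun h => hi ?_
      rw [Equiv.swap_apply_eq_iff, Equiv.swap_apply_right] at h
      exact h)
  have h2 := PP_perm (fun i => x (Equiv.swap 0 l i)) (Equiv.swap 0 l) h1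
  simp only [Equiv.swap_apply_self] at h2
  exact h2

end Pool.Agent.LGW
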