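import Pool.Agent.LGW.Cal

/-!
# LGW-XRel: what a relator says
-/

open scoped commutatorElement

namespace Pool.Agent.LGW

open Pool.Agent.Helper33.CW2

variable {G V : Type*} [Group G] [AddCommGroup V] [DistribMulAction G V] {c : G → G → V}

theorem ext_rel (hc : Cal c) {K : ℕ} (x : Fin (K + 1) → G) (E : ℕ) (a b i : Fin (K + 1))
    (F F' : Finset (Fin (K + 1) → ℤ)) (D : Set (Fin (K + 1) → ℤ)) (Δ n : Fin (K + 1) → ℤ)
    (hD : ∀ t, Rch x D 0 t → ops (List.replicate E ⁅x a, x b⁆) (c ⁅x a, x b⁆ t) = 0)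
    (h1 : ∀ p ∈ F, Rch x D 0 (tr x (n + p) ⁅x a, x b⁆))
    (h2 : ∀ p ∈ F, Rch x D 0 (om x n * om x p * (om x (n + p))⁻¹))
    (h3 : ∀ q ∈ F', Rch x D 0 (om x n * om x (Δ + q) * (om x (n + (Δ + q)))⁻¹))
    (hrel : relD x c F F' a b i Δ = 0) :
    ∑ p ∈ F, ∑ q ∈ F',
      (tr x (n + p) ⁅x a, x b⁆ • (om x n * om x (Δ + q) * (om x (n + (Δ + q)))⁻¹) •
          ops (List.replicate E ⁅x a, x b⁆) (c ⁅x a, x b⁆ (tr x (n + (Δ + q)) ⁅x 0, x i⁆)) -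
        (om x n * om x (Δ + q) * (om x (n + (Δ + q)))⁻¹) •
          ops (List.replicate E ⁅x a, x b⁆) (c ⁅x a, x b⁆ (tr x (n + (Δ + q)) ⁅x 0, x i⁆))) = 0 := by
  have hterm : ∀ p ∈ F, ∀ q ∈ F',
      (tr x (n + p) ⁅x a, x b⁆ • (om x n * om x (Δ + q) * (om x (n + (Δ + q)))⁻¹) •
          ops (List.replicate E ⁅x a, x b⁆) (c ⁅x a, x b⁆ (tr x (n + (Δ + q)) ⁅x 0, x i⁆)) -
        (om x n * om x (Δ + q) * (om x (n + (Δ + q)))⁻¹) •
          ops (List.replicate E ⁅x a, x b⁆) (c ⁅x a, x b⁆ (tr x (n + (Δ + q)) ⁅x 0, x i⁆))) =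
      ops (List.replicate (E + 1) ⁅x a, x b⁆)
        (om x n • c (tr x p ⁅x a, x b⁆) (tr x (Δ + q) ⁅x 0, x i⁆)) := by
    intro p hp q hq
    have hu := cm_mem (x a) (x b)
    have hv := cm_mem (x 0) (x i)
    have e1 : om x n * tr x p ⁅x a, x b⁆ * (om x n)⁻¹ =
        (om x n * om x p * (om x (n + p))⁻¹) * tr x (n + p) ⁅x a, x b⁆ *
          (om x n * om x p * (om x (n + p))⁻¹)⁻¹ := by
      unfold tr
      group
    have e2 : om x n * tr x (Δ + q) ⁅x 0, x i⁆ * (om x n)⁻¹ =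
        (om x n * om x (Δ + q) * (om x (n + (Δ + q)))⁻¹) * tr x (n + (Δ + q)) ⁅x 0, x i⁆ *
          (om x n * om x (Δ + q) * (om x (n + (Δ + q)))⁻¹)⁻¹ := by
      unfold tr
      group
    have hs : Rch x D 0 ((om x n * om x p * (om x (n + p))⁻¹) * tr x (n + p) ⁅x a, x b⁆ *
          (om x n * om x p * (om x (n + p))⁻¹)⁻¹) := ((h2 p hp).mul (h1 p hp)).mul (h2 p hp).inv
    rw [← hc.conj (om x n) _ (tr_mem x p hu) _ (tr_mem x (Δ + q) hv), e1, e2,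
      hc.key hu hs.comm_mem (h3 q hq).comm_mem (tr_mem x _ hv) (hD _ hs) (hD _ (h3 q hq)),
      hc.act_conj (h2 p hp).comm_mem (tr_mem x (n + p) hu)]
  rw [Finset.sum_congr rfl fun p hp => Finset.sum_congr rfl fun q hq => hterm p hp q hq]
  have h4 := congrArg (fun v => ops (List.replicate (E + 1) ⁅x a, x b⁆) (om x n • v)) hrel
  unfold relD at h4
  simp only [Finset.smul_sum, ops_sum, smul_zero, ops_zero] at h4
  exact h4

end Pool.Agent.LGW
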