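import Pool.Agent.LGW.XCore
import Pool.Agent.LGW.GenD

/-!
# LGW-XStep: the directional step, direction `0`

PLAN. Let `a ≠ b`, `α ≤ 0`, `e_a + e_b ≤ β` (so `0 ≤ β`), `β i - α i ≤ κ' i`, `t` a closed path in `Icc α β`. By
`gen_dir` with `D = Icc (loB N α) (hiB N β)` (contains the points of `Icc α β` with first coordinate `0`) `t` is in the
closure of the closed paths in `D` and the `tr x y ⁅x 0, x i⁆`, `y ∈ Icc α β`. The set of `t ∈ G'` with
`ops (replicate (E + e) u) (c u t) = 0` is closed under products and inverses (`Cal.kil_mul`, `Cal.kil_inv`). Closed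
paths in `D`: `hP` gives exponent `E` (side lengths: `3N ≤ κ 0`, `β i - α i + 4N ≤ κ' i + 4N ≤ κ i`), hence `E + e`
(`ops_rep_zero_of_le`). `tr x y ⁅x 0, x i⁆`: `ext_core` with `Δ = N • δ`, `δ j = y j / N` (floor; `Int.emod` bounds give
`0 ≤ y j - N δ j < N`); `|δ j| ≤ M` because `|y j| ≤ M N` (`α j ≤ 0 ≤ β j`, `β j - α j ≤ κ' j ≤ M N`).
-/

open scoped commutatorElement

namespace Pool.Agent.LGW

open Pool.Agent.Helper33.CW2

variable {G V : Type*} [Group G] [AddCommGroup V] [DistribMulAction G V] {c : G → G → V}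

theorem dir_step0 (hc : Cal c) {K : ℕ} (x : Fin (K + 1) → G) {N M m : ℕ} {f : Fin m → Finset ℤ}
    (hN : 1 ≤ N) (hf : Hit (4 * (K + 1)) N f) (hrel : Rel0 x c N M f)
    {κ κ' : Fin (K + 1) → ℤ} {E : ℕ} (hP : PP x c κ E) (h3 : 3 * (N : ℤ) ≤ κ 0)
    (h0 : κ' 0 ≤ M * N) (hlat : ∀ i, i ≠ 0 → κ' i + 4 * N ≤ κ i ∧ κ' i ≤ M * N) :
    PP x c κ' (E + (N ^ (K + 1) / 4 + 1)) := by
  classical
  intro a b hab α β hκ hα hβ t ht
  have hs1 : ∀ (p j : Fin (K + 1)), 0 ≤ (Pi.single p 1 : Fin (K + 1) → ℤ) j := by
    intro p j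
    by_cases h : j = p
    · subst h; simp
    · rw [Pi.single_eq_of_ne h]
  have hs2 : ∀ j : Fin (K + 1), (Pi.single a 1 : Fin (K + 1) → ℤ) j +
      (Pi.single b 1 : Fin (K + 1) → ℤ) j ≤ 1 := by
    intro j
    by_cases h : j = a
    · subst h
      rw [Pi.single_eq_same, Pi.single_eq_of_ne hab]; omega
    · rw [Pi.single_eq_of_ne h]
      by_cases h' : j = b
      · subst h'
        rw [Pi.single_eq_same]; omega
      · rw [Pi.single_eq_of_ne h']; omega
  have hβj : ∀ j, (Pi.single a 1 : Fin (K + 1) → ℤ) j +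
      (Pi.single b 1 : Fin (K + 1) → ℤ) j ≤ β j := fun j => hβ j
  have hβ0 : 0 ≤ β := by
    intro j
    have h1 := hβj j
    have h2 := hs1 a j
    have h3 := hs1 b j
    change (0 : ℤ) ≤ β j
    omega
  have hαj : ∀ j, α j ≤ 0 := fun j => hα j
  have hβ0j : ∀ j, 0 ≤ β j := fun j => hβ0 j
  have hNz : (1 : ℤ) ≤ N := by exact_mod_cast hN
  set u : G := ⁅x a, x b⁆ with hud
  have hu : u ∈ commutator G := cm_mem _ _
  set e : ℕ := N ^ (K + 1) / 4 + 1 with he
  have hgen := gen_dir x α β hα hβ0 (Set.Icc (loB N α) (hiB N β)) (by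
    intro v hv hv0
    constructor
    · intro j
      have h1 : α j ≤ v j := hv.1 j
      change (if j = 0 then -(N : ℤ) else α j - 2 * N) ≤ v j
      split_ifs with h
      · subst h; rw [hv0]; omega
      · omega
    · intro j
      have h1 : v j ≤ β j := hv.2 j
      change v j ≤ (if j = 0 then 2 * (N : ℤ) else β j + 2 * N)
      split_ifs with h
      · subst h; rw [hv0]; omega
      · omega) ht
  have key : t ∈ commutator G ∧ ops (List.replicate (E + e) u) (c u t) = 0 := by
    refine Subgroup.closure_induction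
      (p := fun g _ => g ∈ commutator G ∧ ops (List.replicate (E + e) u) (c u g) = 0)
      ?_ ?_ ?_ ?_ hgen
    · rintro g (hg | ⟨y, hy, i, hi, rfl⟩)
      · refine ⟨Rch.comm_mem hg, ?_⟩
        refine ops_rep_zero_of_le (Nat.le_add_right E e) ?_
        refine hP a b hab (loB N α) (hiB N β) ?_ ?_ ?_ g hg
        · intro i
          change (if i = 0 then 2 * (N : ℤ) else β i + 2 * N) -
            (if i = 0 then -(N : ℤ) else α i - 2 * N) ≤ κ i
          split_ifs with h
          · subst h; omega
          · have h1 := (hlat i h).1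
            have h2 := hκ i
            omega
        · intro j
          change (if j = 0 then -(N : ℤ) else α j - 2 * N) ≤ 0
          have h1 := hαj j
          split_ifs with h <;> omega
        · intro j
          change (Pi.single a 1 : Fin (K + 1) → ℤ) j + (Pi.single b 1 : Fin (K + 1) → ℤ) j ≤
            (if j = 0 then 2 * (N : ℤ) else β j + 2 * N)
          have h1 := hs2 j
          have h2 := hβj j
          split_ifs with h <;> omega
      · refine ⟨tr_mem x y (cm_mem _ _), ?_⟩
        have hyj : ∀ j, α j ≤ y j ∧ y j ≤ β j := fun j => ⟨hy.1 j, hy.2 j⟩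
        have hκM : ∀ j, κ' j ≤ M * N := by
          intro j
          by_cases h : j = 0
          · subst h; exact h0
          · exact (hlat j h).2
        refine ext_core hc x hN hf hP h3 hab hα hβ ?_ i (Δ := (N : ℤ) • fun j => y j / N) hy ?_
          (hrel a b i (fun j => y j / N) ?_)
        · intro j hj
          have h1 := (hlat j hj).1
          have h2 := hκ j
          omega
        · intro j
          have h1 : ((N : ℤ) • fun j => y j / (N : ℤ)) j = (N : ℤ) * (y j / N) := rfl
          rw [h1]
          have h2 := Int.emod_add_mul_ediv (y j) N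
          have h3' := Int.emod_nonneg (y j) (show (N : ℤ) ≠ 0 by omega)
          have h4 := Int.emod_lt_of_pos (y j) (show (0 : ℤ) < N by omega)
          constructor <;> linarith
        · intro j
          have h1 := hyj j
          have h2 := hκ j
          have h3' := hκM j
          have h4 := hαj j
          have h5 := hβ0j j
          rw [abs_le]
          constructor
          · apply (Int.le_ediv_iff_mul_le (show (0 : ℤ) < N by omega)).2
            have : -(M : ℤ) * N = -(M * N) := by ring
            rw [this]; omega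
          · apply Int.ediv_le_of_le_mul (show (0 : ℤ) < N by omega)
            omega
    · exact ⟨one_mem _, hc.kil_one hu _⟩
    · intro g h _ _ hg hh
      exact ⟨mul_mem hg.1 hh.1, hc.kil_mul hu hg.1 hh.1 hg.2 hh.2⟩
    · intro g _ hg
      exact ⟨inv_mem hg.1, hc.kil_inv hu hg.1 hg.2⟩
  exact key.2

end Pool.Agent.LGW
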